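import Pool.Agent.MP_7b7a6d_co.Sb.St2

/-! Inequalities for one triangle, first part. -/

open scoped Classical
open MeasureTheory Metric Real

noncomputable section
namespace MP7b.Sb

section


theorem al1 : AL1_st := by
  rintro p q l s c ⟨h1, h2, h3, -, -, h6, h7, h8, -⟩ hp hq hl
  have hn := nu_bd
  have a1 : 4 ≤ p ^ 2 := by nlinarith
  have a2 : 4 ≤ q ^ 2 := by nlinarith
  have a3 : 4 ≤ l ^ 2 := by nlinarith
  have e1 : 16 * (p * q * s / 2) ^ 2 = 4 * p ^ 2 * q ^ 2 - (p ^ 2 + q ^ 2 - l ^ 2) ^ 2 := by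
    rw [h8]
    linear_combination 4 * p ^ 2 * q ^ 2 * h6
  have h0 : 0 ≤ p * q * s / 2 := by positivity
  generalize p * q * s / 2 = A at *
  generalize p ^ 2 = P at *
  generalize q ^ 2 = Q at *
  generalize l ^ 2 = L at *
  have b1 := mul_nonneg (sub_nonneg.2 a1) (sub_nonneg.2 hp)
  have b2 := mul_nonneg (sub_nonneg.2 a2) (sub_nonneg.2 hq)
  have b3 := mul_nonneg (sub_nonneg.2 a3) (sub_nonneg.2 hl)
  have b4 := mul_nonneg (sub_nonneg.2 a1) (sub_nonneg.2 a2)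
  have b5 := mul_nonneg (sub_nonneg.2 a1) (sub_nonneg.2 a3)
  have b6 := mul_nonneg (sub_nonneg.2 a2) (sub_nonneg.2 a3)
  have e2 : 3 + (L - 4) / 4 ≤ A ^ 2 := by linarith
  have e3 : √3 ^ 2 = 3 := Real.sq_sqrt (by norm_num)
  have e4 : (√3 + nu / 4 * (L - 4)) ^ 2 =
      3 + (L - 4) / 4 - nu ^ 2 / 16 * ((L - 4) * (8 - L)) := by
    unfold nu
    linear_combination (1 - (L - 4) / 4) * e3
  have e5 : 0 ≤ nu ^ 2 / 16 * ((L - 4) * (8 - L)) := by positivity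
  have e6 : 0 ≤ nu / 4 * (L - 4) := mul_nonneg (by linarith [hn.1]) (by linarith)
  have := (sq_le_sq₀ (add_nonneg (Real.sqrt_nonneg 3) e6) h0).1 (by linarith)
  linarith

theorem al3o : AL3o_st := by
  rintro p q l s c ⟨h1, h2, h3, h4, h5, h6, h7, h8, -⟩ - hc hcs hp
  have hn := nu_bd
  have a1 : 4 ≤ p ^ 2 := by nlinarith
  have a2 : 4 ≤ q ^ 2 := by nlinarith
  have a3 : 4 ≤ l ^ 2 := by nlinarith
  have a4 : q ^ 2 ≤ 16 := by nlinarith
  have a5 : p * p < p * (q * c) := mul_lt_mul_of_pos_left hp (by linarith)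
  have a6 : kk (l ^ 2) + kk (p ^ 2) ≤ kk (q ^ 2) := by
    rcases le_total (p ^ 2) 8 with h | h
    · rw [kk_zero h, add_zero]
      exact kk_mono (by linarith)
    · rw [kk_zero (show l ^ 2 ≤ 8 by linarith), zero_add]
      exact kk_mono (by linarith)
  have a7 : 0.7 ≤ s := by nlinarith
  have m0 : 0 < p * q := by positivity
  have m1 : p * q ≤ 16 := by nlinarith
  have f1 : 4 * (l ^ 2 - 4) ≤ p * q * (p * q - 8 * c) := by
    have := mul_nonneg (sub_nonneg.2 a1) (sub_nonneg.2 a2)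
    linarith
  have f2 : 0 ≤ p * q - 8 * c := nonneg_of_mul_nonneg_right (by linarith) m0
  have f3 := mul_le_mul_of_nonneg_right m1 f2
  have f4 := mul_le_mul_of_nonneg_right a7 f2
  have f5 : nu * min (l ^ 2 - 4) 8 ≤ 0.268 * (l ^ 2 - 4) :=
    mul_le_mul hn.2.le (min_le_left _ _) (le_min (by linarith) (by norm_num)) (by norm_num)
  have f6 := mul_le_mul_of_nonneg_left a6 (show 0 ≤ nu by linarith [hn.1])
  linarith

theorem al4o : AL4o_st := by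
  rintro p q l s c ⟨h1, h2, h3, -, h5, h6, h7, h8, h9⟩ - hsc hp
  have hn := nu_bd
  have hn0 : 0 ≤ nu := by linarith [hn.1]
  have a3 : 4 ≤ l ^ 2 := by nlinarith
  have s1 : 1 / 2 ≤ s := by linarith
  have c1 : 8 ≤ 16 * c ^ 2 := by nlinarith
  have c2 : 16 * c ^ 2 ≤ 12 := by nlinarith
  have c3 : 0.7 ≤ c := by nlinarith
  have f1 : l ^ 2 - 4 ≤ q * (q - 4 * c) := by
    have := mul_nonneg (sub_nonneg.2 h1) (show 0 ≤ 2 * (q * c) - p - 2 by linarith)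
    linarith
  have f2 : 0 ≤ q - 4 * c := nonneg_of_mul_nonneg_right (by linarith) (show 0 < q by linarith)
  have f3 := mul_le_mul_of_nonneg_right h5 f2
  have f4 : 16 * c ^ 2 - 8 ≤ kk (q ^ 2) := by
    refine le_trans ?_ (kk_mono (show 16 * c ^ 2 ≤ q ^ 2 by nlinarith))
    exact le_min (le_max_left _ _) (by linarith)
  have f5 := mul_le_mul_of_nonneg_left f4 hn0
  have f6 : (p - 2) * 2.8 ≤ (p - 2) * q := mul_le_mul_of_nonneg_left (by linarith) (by linarith)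
  have f7 := mul_le_mul_of_nonneg_right s1 (show 0 ≤ p * q - 8 * c by linarith)
  have f8 : nu * (l ^ 2 - 4) ≤ 0.268 * (l ^ 2 - 4) :=
    mul_le_mul_of_nonneg_right hn.2.le (by linarith)
  have f9 : nu * kk (p ^ 2) ≤ 1.4 * (p - 2) := by
    rcases le_total (p ^ 2) 8 with h | h
    · rw [kk_zero h]
      linarith
    · have : 2.82 ≤ p := by nlinarith
      have := mul_le_mul hn.2.le (kk_bd (p ^ 2)).2 (kk_bd (p ^ 2)).1 (by norm_num)
      linarith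
  linarith

end

section


theorem le_of_sq_le_sq_AL3a1 {x y : ℝ} (hy : 0 ≤ y) (h : x ^ 2 ≤ y ^ 2) : x ≤ y :=
  (le_abs_self x).trans (abs_le_of_sq_le_sq' h hy |> fun t => abs_le.2 t)

theorem sc_AL3a1 {s c : ℝ} (h : s ^ 2 + c ^ 2 = 1) (h1 : 1 / 2 ≤ c) (h2 : c ≤ s) :
    0.707 ≤ s ∧ c ≤ 0.7072 ∧ 0.433 ≤ s * c ∧ c ^ 2 ≤ 1 / 2 := by
  have h3 : c ^ 2 ≤ 1 / 2 := by nlinarith
  have h4 : 1 / 4 ≤ c ^ 2 := by nlinarith
  refine ⟨by nlinarith, by nlinarith, ?_, h3⟩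
  have h5 : 3 / 16 ≤ (s * c) ^ 2 := by
    have e : (s * c) ^ 2 = c ^ 2 * (1 - c ^ 2) := by rw [← h]; ring
    nlinarith [mul_nonneg (sub_nonneg.2 h4) (sub_nonneg.2 h3)]
  exact le_of_sq_le_sq_AL3a1 (by nlinarith) (by nlinarith)

theorem al3a1 : ∀ p q l s c : ℝ, HH p q l s c → p ≤ q → 1 / 2 ≤ c → c ≤ s → 8 ≤ p ^ 2 →
    4 * s * c + nu / 4 * min (l ^ 2 - 4) 8 ≤
      p * q * s / 2 - nu / 2 * (kk (l ^ 2) + kk (p ^ 2) + kk (q ^ 2)) := by
  rintro p q l s c ⟨h1, h2, h3, h4, h5, h6, h7, h8, h9⟩ hpq hc hcs hP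
  obtain ⟨s1, c1, -, c2⟩ := sc_AL3a1 h6 hc hcs
  obtain ⟨n1, n2⟩ := nu_bd
  have hQ : 8 ≤ q ^ 2 := by nlinarith
  have hL : l ^ 2 ≤ 16 * s ^ 2 := by nlinarith
  have a1 := kk_le hP
  have b1 := kk_le hQ
  have k1 : kk (l ^ 2) ≤ 16 * s ^ 2 - 8 := (kk_mono hL).trans (kk_le (by linarith))
  obtain ⟨a2, a3⟩ := kk_bd (p ^ 2)
  obtain ⟨b2, b3⟩ := kk_bd (q ^ 2)
  have e1 : min (l ^ 2 - 4) 8 ≤ 16 * s ^ 2 - 4 := (min_le_left _ _).trans (by linarith)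
  generalize kk (p ^ 2) = a at *
  generalize kk (q ^ 2) = b at *
  generalize kk (l ^ 2) = k at *
  generalize min (l ^ 2 - 4) 8 = e at *
  have m1 : (8 + a) * (8 + b) ≤ (p * q) ^ 2 := by
    rw [mul_pow]
    exact mul_le_mul (by linarith) (by linarith) (by linarith) (by linarith)
  have m2 : 8 + 0.449 * (a + b) ≤ p * q := le_of_sq_le_sq_AL3a1 (by positivity) (by
    nlinarith [mul_nonneg a2 b2, mul_nonneg a2 (sub_nonneg.2 a3), mul_nonneg b2 (sub_nonneg.2 b3)])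
  have m3 := mul_le_mul_of_nonneg_right m2 h7.le
  have m4 : 0.707 * (a + b) ≤ s * (a + b) := mul_le_mul_of_nonneg_right s1 (by linarith)
  have m5 : nu * (a + b) ≤ 0.268 * (a + b) := mul_le_mul_of_nonneg_right n2.le (by linarith)
  have m6 : 0.707 * (1 - c) ≤ s * (1 - c) := mul_le_mul_of_nonneg_right s1 (by linarith)
  have m7 : nu * (e / 4 + k / 2) ≤ nu * (7 - 12 * c ^ 2) :=
    mul_le_mul_of_nonneg_left (by linarith) (by linarith)
  have m8 : nu * (7 - 12 * c ^ 2) ≤ 0.268 * (7 - 12 * c ^ 2) :=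
    mul_le_mul_of_nonneg_right n2.le (by linarith)
  nlinarith [sq_nonneg (c - 0.44)]

theorem al3a2 : ∀ p q l s c : ℝ, HH p q l s c → p ≤ q → 1 / 2 ≤ c → c ≤ s → q * c ≤ p →
    p ^ 2 ≤ 8 → l ^ 2 ≤ 8 → 4 * s * c + nu / 4 * min (l ^ 2 - 4) 8 ≤
      p * q * s / 2 - nu / 2 * (kk (l ^ 2) + kk (p ^ 2) + kk (q ^ 2)) := by
  rintro p q l s c ⟨h1, h2, h3, h4, h5, h6, h7, h8, h9⟩ hpq hc hcs hqc hP hL
  obtain ⟨s1, c1, c3, -⟩ := sc_AL3a1 h6 hc hcs
  obtain ⟨n1, n2⟩ := nu_bd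
  have e0 : 0 ≤ l ^ 2 - 4 := by nlinarith
  rw [kk_zero hP, kk_zero hL, min_eq_left (by linarith : l ^ 2 - 4 ≤ 8)]
  obtain ⟨b2, b3⟩ := kk_bd (q ^ 2)
  have t1 : nu * (l ^ 2 - 4) ≤ 0.268 * (l ^ 2 - 4) := mul_le_mul_of_nonneg_right n2.le e0
  have t2 : nu * kk (q ^ 2) ≤ 0.268 * kk (q ^ 2) := mul_le_mul_of_nonneg_right n2.le b2
  rcases le_total 8 (p * q) with hm | hm
  · have m3 := mul_le_mul_of_nonneg_right hm h7.le
    have m6 : 0.707 * (1 - c) ≤ s * (1 - c) := mul_le_mul_of_nonneg_right s1 (by linarith)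
    nlinarith
  · have m0 : 0 < p * q := by positivity
    have f1 : 4 * (l ^ 2 - 4) ≤ p * q * (p * q - 8 * c) := by
      have : 0 ≤ (p ^ 2 - 4) * (q ^ 2 - 4) := mul_nonneg (by nlinarith) (by nlinarith)
      rw [h8]
      nlinarith
    have f2 : 0 ≤ p * q - 8 * c := nonneg_of_mul_nonneg_right (by linarith) m0 |> fun h => h
    have f3 : (l ^ 2 - 4) / 2 ≤ p * q - 8 * c := by
      have := mul_le_mul_of_nonneg_right hm f2
      linarith
    have g1 := mul_le_mul_of_nonneg_left f3 h7.le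
    have g2 : 0.707 * (l ^ 2 - 4) ≤ s * (l ^ 2 - 4) := mul_le_mul_of_nonneg_right s1 e0
    rcases le_total (q ^ 2) 8 with hQ | hQ
    · rw [kk_zero hQ]
      nlinarith
    · have b1 := kk_le hQ
      have f4 : q ^ 2 * c ≤ p * q := by nlinarith [mul_le_mul_of_nonneg_right hqc (by linarith : 0 ≤ q)]
      have g3 := mul_le_mul_of_nonneg_left f4 h7.le
      have g4 : 0.433 * (q ^ 2 - 8) ≤ s * c * (q ^ 2 - 8) :=
        mul_le_mul_of_nonneg_right c3 (by linarith)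
      nlinarith

end

section


theorem core_AL3a3 {m e s c : ℝ} (hm : 0 < m) (hs : 0 < s) (hsc : s ^ 2 + c ^ 2 = 1)
    (hc : 1 / 2 ≤ c) (he : 4 ≤ e) (he' : e + 4 ≤ 16 * s ^ 2) (F1 : 4 * e ≤ m * (m - 8 * c))
    (F3 : (e + 4) * c ≤ m * s ^ 2) : 0.201 * e ≤ s * (m - 8 * c) / 2 := by
  have h0 : 0 ≤ m - 8 * c := le_of_mul_le_mul_left (by linarith) hm
  rcases le_total 0.57 c with h | h
  · have a1 : s ^ 2 ≤ 0.6751 := by nlinarith
    have a2 : s ≤ 0.8217 := by nlinarith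
    have a3 : 0.57 * (e + 4 - 8 * s ^ 2) ≤ c * (e + 4 - 8 * s ^ 2) :=
      mul_le_mul_of_nonneg_right h (by linarith)
    have a4 : s * e ≤ 0.8217 * e := mul_le_mul_of_nonneg_right a2 (by linarith)
    refine le_of_mul_le_mul_left ?_ hs
    nlinarith
  · have a1 : 0.6751 ≤ s ^ 2 := by nlinarith
    have a2 : 0.8216 ≤ s := by nlinarith
    have a3 : 0.8216 * (m - 8 * c) ≤ s * (m - 8 * c) := mul_le_mul_of_nonneg_right a2 h0
    rcases le_total m 8.1 with g | g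
    · have a4 : m * (m - 8 * c) ≤ 8.1 * (m - 8 * c) := mul_le_mul_of_nonneg_right g h0
      linarith
    · nlinarith [sq_nonneg (c - 0.51)]

theorem al3a3 : ∀ p q l s c : ℝ, HH p q l s c → p ≤ q → 1 / 2 ≤ c → c ≤ s → q * c ≤ p →
    p ^ 2 ≤ 8 → 8 ≤ l ^ 2 → 4 * s * c + nu / 4 * min (l ^ 2 - 4) 8 ≤
      p * q * s / 2 - nu / 2 * (kk (l ^ 2) + kk (p ^ 2) + kk (q ^ 2)) := by
  intro p q l s c hH hpq hc hcs hqc hp8 hl8
  obtain ⟨h1, h2, h3, -, -, h6, h7, h8, h9⟩ := hH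
  have hc1 : c ≤ 1 := by nlinarith
  have hP : 4 ≤ p ^ 2 := by nlinarith
  have hQ : 4 ≤ q ^ 2 := by nlinarith
  have hL : l ^ 2 ≤ 16 * s ^ 2 := by nlinarith
  have F1 : 4 * (l ^ 2 - 4) ≤ p * q * (p * q - 8 * c) := by
    have := mul_nonneg (sub_nonneg.2 hP) (sub_nonneg.2 hQ)
    rw [h8]
    linarith
  have F3 : (l ^ 2 - 4 + 4) * c ≤ p * q * s ^ 2 := by
    have a1 : 0 ≤ q - p * c := by nlinarith
    have a2 := mul_nonneg (sub_nonneg.2 hqc) a1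
    have a3 : s ^ 2 = 1 - c ^ 2 := by linarith
    rw [h8, a3]
    linarith
  have key := core_AL3a3 (m := p * q) (e := l ^ 2 - 4) (by positivity) h7 h6 hc (by linarith)
    (by linarith) F1 F3
  have hn := nu_bd
  have b1 : min (l ^ 2 - 4) 8 + 2 * (kk (l ^ 2) + kk (p ^ 2) + kk (q ^ 2)) ≤ 3 * (l ^ 2 - 4) := by
    have := min_le_left (l ^ 2 - 4) 8
    have := kk_le hl8
    have := (kk_bd (q ^ 2)).2
    rw [kk_zero hp8]
    linarith
  have b2 := mul_le_mul_of_nonneg_left b1 (show 0 ≤ nu by linarith [hn.1])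
  have b3 := mul_le_mul_of_nonneg_right hn.2.le (show 0 ≤ l ^ 2 - 4 by linarith)
  linarith

end



end MP7b.Sb
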