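import Pool.Agent.MP_7b7a6d_co.Sb.St2

/-! Inequalities for one triangle, second part. -/

open scoped Classical
open MeasureTheory Metric Real

noncomputable section
namespace MP7b.Sb

section


theorem low_AL2 {n m c e k : ℝ} (n1 : 0.2679 < n) (n2 : n < 0.268) (m1 : 4 ≤ m) (m2 : m ≤ 8)
    (c0 : 0 ≤ c) (c1 : c ≤ 1 / 2) (e1 : e ≤ 8) (e2 : 4 * e ≤ m * (m - 8 * c)) (k4 : k ≤ 4)
    (hk : k ≤ 0 ∨ k ≤ m ^ 2 / 4 - 8) :
    n * (3 * e / 4 - 4 + 4 * c + k / 2) ≤ m * (1 - n * c) / 2 - (2 - n) := by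
  have n0 : 0 ≤ n := by linarith
  rcases le_total m 6.6 with h | h
  · have q : m ^ 2 ≤ 10.6 * m - 26.4 := by nlinarith [mul_nonneg (sub_nonneg.2 m1) (sub_nonneg.2 h)]
    have cm : 0 ≤ c * (m - 4) := mul_nonneg c0 (by linarith)
    have a : 3 * e / 4 - 4 + 4 * c + k / 2 + m * c / 2 - 1 ≤ 5 / 16 * (10.6 * m - 26.4) - 9 ∨
        3 * e / 4 - 4 + 4 * c + k / 2 + m * c / 2 - 1 ≤ 3 / 16 * (10.6 * m - 26.4) - 5 := by
      rcases hk with hk | hk
      · right; nlinarith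
      · left; nlinarith
    rcases a with a | a
    · have := mul_le_mul_of_nonneg_left a n0
      nlinarith [mul_nonneg (sub_nonneg.2 n2.le) (sub_nonneg.2 m1),
        mul_nonneg (sub_nonneg.2 n1.le) (sub_nonneg.2 h)]
    · have := mul_le_mul_of_nonneg_left a n0
      nlinarith [mul_nonneg (sub_nonneg.2 n2.le) (sub_nonneg.2 m1),
        mul_nonneg (sub_nonneg.2 n1.le) (sub_nonneg.2 h)]
  · have q : m ^ 2 ≤ 14.6 * m - 52.8 := by nlinarith [mul_nonneg (sub_nonneg.2 h) (sub_nonneg.2 m2)]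
    have cm : 0 ≤ (1 / 2 - c) * (8 - m) := mul_nonneg (by linarith) (by linarith)
    have a : 3 * e / 4 - 4 + 4 * c + k / 2 + m * c / 2 - 1 ≤
        (14.6 * m - 52.8) / 8 + 1 - m / 4 := by nlinarith
    have := mul_le_mul_of_nonneg_left a n0
    nlinarith [mul_nonneg (sub_nonneg.2 n2.le) (sub_nonneg.2 h),
      mul_nonneg (sub_nonneg.2 n1.le) (sub_nonneg.2 m2)]

theorem ord_AL2 {p q l s c : ℝ} (H : HH p q l s c) (hpq : p ≤ q) (c0 : 0 ≤ c) (c1 : c ≤ 1 / 2)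
    (hl : 8 ≤ l ^ 2) : nu / 4 * min (l ^ 2 - 4) 8 + 4 * nu * (c - 1 / 2) ≤
    p * q * s / 2 - √3 - nu / 2 * (kk (l ^ 2) + kk (p ^ 2) + kk (q ^ 2)) := by
  obtain ⟨h1, h2, -, -, -, h6, h7, h8, -⟩ := H
  obtain ⟨n1, n2⟩ := nu_bd
  have n0 : 0 ≤ nu := by linarith
  have r3 : √3 = 2 - nu := by unfold nu; ring
  have hn : nu ^ 2 + 1 = 4 * nu := by
    have := Real.sq_sqrt (show (0 : ℝ) ≤ 3 by norm_num)
    rw [r3] at this
    linarith
  have hL : kk (l ^ 2) = min (l ^ 2 - 4) 8 - 4 := by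
    rcases kk_cases (l ^ 2) with h | h | h
    · rw [h.2, min_eq_left (by linarith)]; linarith
    · rw [h.2.2, min_eq_left (by linarith)]; ring
    · rw [h.2, min_eq_right (by linarith)]; ring
  have e1 : min (l ^ 2 - 4) 8 ≤ 8 := min_le_right _ _
  have e2 : min (l ^ 2 - 4) 8 ≤ l ^ 2 - 4 := min_le_left _ _
  rw [hL, r3]
  generalize min (l ^ 2 - 4) 8 = e at *
  obtain ⟨a0, a4⟩ := kk_bd (p ^ 2)
  obtain ⟨b0, b4⟩ := kk_bd (q ^ 2)
  have s1 : 0.866 ≤ s := by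
    refine le_of_sq_le_sq (by nlinarith) h7.le
  have m4 : 4 ≤ p * q := by nlinarith
  have big : ∀ K : ℝ, 0 ≤ K → 8 + 0.4 * K ≤ p * q → nu * (4 + K / 2) ≤ p * q * s / 2 - (2 - nu) := by
    intro K K0 hK
    have := mul_le_mul_of_nonneg_left s1 (by linarith : 0 ≤ p * q)
    nlinarith [mul_nonneg (sub_nonneg.2 n2.le) K0]
  have le4 : nu * (3 * e / 4 - 4 + 4 * c) ≤ nu * 4 := mul_le_mul_of_nonneg_left (by linarith) n0
  rcases le_total 8 (p ^ 2) with hp | hp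
  · have hq : 8 ≤ q ^ 2 := by nlinarith
    have a := kk_le hp
    have b := kk_le hq
    have := big (kk (p ^ 2) + kk (q ^ 2)) (by linarith) (by
      refine le_of_sq_le_sq ?_ (by linarith)
      have h0 : (8 + kk (p ^ 2)) * (8 + kk (q ^ 2)) ≤ p ^ 2 * q ^ 2 :=
        mul_le_mul (by linarith) (by linarith) (by linarith) (by linarith)
      nlinarith [mul_nonneg a0 b0, mul_nonneg a0 (sub_nonneg.2 a4), mul_nonneg b0 (sub_nonneg.2 b4)])
    linarith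
  · rw [kk_zero hp]
    rcases le_total 8 (p * q) with hm | hm
    · have := mul_le_mul_of_nonneg_left s1 (by linarith : 0 ≤ p * q)
      have := mul_le_mul_of_nonneg_left b4 n0
      linarith
    · have s2 : 1 - nu * c ≤ s := by
        refine le_of_sq_le_sq ?_ h7.le
        have h0 : 0 ≤ nu * c * (1 / 2 - c) := mul_nonneg (mul_nonneg n0 c0) (by linarith)
        have h3 : (1 - nu * c) ^ 2 + c ^ 2 = 1 - 2 * nu * c + (nu ^ 2 + 1) * c ^ 2 := by ring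
        rw [hn] at h3
        nlinarith
      have f1 : 4 * e ≤ p * q * (p * q - 8 * c) := by
        nlinarith [mul_nonneg (show 0 ≤ p ^ 2 - 4 by nlinarith) (show 0 ≤ q ^ 2 - 4 by nlinarith)]
      have hk : kk (q ^ 2) ≤ 0 ∨ kk (q ^ 2) ≤ (p * q) ^ 2 / 4 - 8 := by
        rcases le_total (q ^ 2) 8 with h | h
        · exact Or.inl (kk_zero h).le
        · refine Or.inr ((kk_le h).trans ?_)
          nlinarith [mul_nonneg (show 0 ≤ p ^ 2 - 4 by nlinarith) (sq_nonneg q)]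
      have := low_AL2 n1 n2 m4 hm c0 c1 e1 f1 b4 hk
      have := mul_le_mul_of_nonneg_left s2 (by linarith : 0 ≤ p * q)
      linarith

theorem al2 : AL2_st := by
  intro p q l s c H c0 c1 hl
  rcases le_total p q with h | h
  · exact ord_AL2 H h c0 c1 hl
  · have := ord_AL2 (HH_symm H) h c0 c1 hl
    linarith [mul_comm p q]

end

section


theorem al4a : AL4a_st := by
  rintro p q l s c ⟨h1, h2, h3, -, -, h6, h7, h8, h9⟩ hpq hsc hqc -
  obtain ⟨n1, n2⟩ := nu_bd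
  have s1 : 1 / 2 ≤ s := by linarith
  have c1 : c ≤ 1 := le_of_sq_le_sq (by nlinarith [sq_nonneg s]) zero_le_one
  have s2 : s ^ 2 ≤ 1 / 2 := by
    have := pow_le_pow_left₀ h7.le hsc 2
    linarith
  have c2 : 0.7 ≤ c := le_of_sq_le_sq (by linarith) (by linarith)
  have s3 : 1 / 4 ≤ s ^ 2 := by nlinarith
  have c3 : c ≤ 1.7321 * s := le_of_sq_le_sq (by rw [mul_pow]; linarith) (by linarith)
  have he : 0 ≤ l ^ 2 - 4 := by
    have := pow_le_pow_left₀ zero_le_two h3 2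
    linarith
  have hd : 0 ≤ c - s := by linarith
  have F3 : l ^ 2 * c ≤ p * q * s ^ 2 := by
    have a : 0 ≤ (p - q * c) * (q - p * c) := mul_nonneg (by linarith)
      (by linarith [mul_le_mul_of_nonneg_left c1 (show 0 ≤ p by linarith)])
    have e : p * q * s ^ 2 - l ^ 2 * c = (p - q * c) * (q - p * c) := by
      rw [h8]
      linear_combination p * q * h6
    linarith
  have hk : s ^ 2 * kk (q ^ 2) ≤ l ^ 2 - 4 + 4 * ((c - s) * (c + s)) := by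
    have a : 0 ≤ (c - s) * (c + s) := mul_nonneg hd (by linarith)
    rcases le_total (q ^ 2) 8 with h | h
    · rw [kk_zero h]
      linarith
    · have b := mul_le_mul_of_nonneg_left (kk_le h) (sq_nonneg s)
      have e : l ^ 2 = (p - q * c) ^ 2 + q ^ 2 * s ^ 2 := by
        rw [h8]
        linear_combination (-q ^ 2) * h6
      linarith [sq_nonneg (p - q * c)]
  have k1 := mul_le_mul_of_nonneg_left hk (show 0 ≤ nu / 2 by linarith)
  have k2 : 2 * nu * (c + s) ≤ 1.488 * s := by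
    linarith [mul_le_mul_of_nonneg_right n2.le (show 0 ≤ c + s by linarith)]
  have k3 : nu / 2 ≤ s * c / 2 - nu * s ^ 2 / 4 := by
    linarith [mul_le_mul_of_nonneg_right n2.le (sq_nonneg s),
      mul_le_mul s1 c2 (by norm_num) h7.le]
  have k4 := mul_le_mul_of_nonneg_left k2 hd
  have k5 := mul_le_mul_of_nonneg_left k3 he
  have k6 : s * (nu / 2 * kk (q ^ 2)) ≤ 1.488 * (c - s) + (l ^ 2 - 4) * (c / 2 - nu * s / 4) := by
    refine le_of_mul_le_mul_left ?_ h7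
    linarith
  linarith

end

section


theorem poly_AL4b1 {a d e : ℝ} (a0 : 0 ≤ a) (a3 : a ≤ 3) (d0 : 0 ≤ d) (d4 : a + d ≤ 4)
    (e0 : 0 ≤ e) (e4 : e ≤ 4) :
    16 * (2.268 + 0.067 * e + 0.134 * (2 * a + d)) ^ 2 ≤
      (4 + e) * (28 + 4 * a - e) + d * (8 + 2 * e - d) := by
  have h3 : 0 ≤ 3 - a := by linarith
  have h4 : 0 ≤ 4 - a - d := by linarith
  have h5 : 0 ≤ 4 - e := by linarith
  nlinarith [mul_nonneg a0 h3, mul_nonneg d0 h4, mul_nonneg a0 h4, mul_nonneg d0 h3,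
    mul_nonneg e0 h5, mul_nonneg e0 a0, mul_nonneg e0 d0, mul_nonneg e0 h3, mul_nonneg e0 h4]

theorem al4b1 : ∀ p q l s c : ℝ, HH p q l s c → p ≤ q → s ≤ c → q * c ≤ p → 8 ≤ p ^ 2 →
    p ^ 2 ≤ 11 → √3 + 2 * nu - 1.18 * (s - 1 / 2) + nu / 4 * (l ^ 2 - 4) +
      nu / 2 * (kk (p ^ 2) + kk (q ^ 2)) ≤ p * q * s / 2 := by
  rintro p q l s c ⟨h1, h2, h3, -, -, h6, h7, h8, h9⟩ hpq hsc hqc h10 h11
  have hPQ : p ^ 2 ≤ q ^ 2 := pow_le_pow_left₀ (by linarith) hpq 2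
  have hkP : kk (p ^ 2) = p ^ 2 - 8 := by
    unfold kk
    rw [max_eq_left (by linarith), min_eq_left (by linarith)]
  have k1 := kk_mono hPQ
  have k2 := (kk_bd (q ^ 2)).2
  have k3 := kk_le (h10.trans hPQ)
  rw [hkP] at k1 ⊢
  generalize kk (q ^ 2) = k at k1 k2 k3 ⊢
  have hs : 1 / 2 ≤ s := by linarith
  have hL4 : 4 ≤ l ^ 2 := by nlinarith
  have hs2 : s ^ 2 ≤ c ^ 2 := pow_le_pow_left₀ h7.le hsc 2
  have hL : l ^ 2 ≤ (4 * s) ^ 2 := pow_le_pow_left₀ (by linarith) h9 2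
  have hL8 : l ^ 2 ≤ 8 := by nlinarith
  have hd : q ^ 2 - p ^ 2 ≤ l ^ 2 := by
    nlinarith [mul_le_mul_of_nonneg_left hqc (by linarith : 0 ≤ p)]
  have hA : 16 * (p * q * s / 2) ^ 2 =
      l ^ 2 * (4 * p ^ 2 - l ^ 2) + (q ^ 2 - p ^ 2) * (2 * l ^ 2 - (q ^ 2 - p ^ 2)) := by
    have : s ^ 2 = 1 - c ^ 2 := by linarith
    rw [h8, div_pow, mul_pow, this]
    ring
  have hA0 : 0 ≤ p * q * s / 2 := by positivity
  generalize p * q * s / 2 = A at hA hA0 ⊢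
  generalize p ^ 2 = P at *
  generalize q ^ 2 = Q at *
  generalize l ^ 2 = L at *
  have hp := poly_AL4b1 (a := P - 8) (d := k - (P - 8)) (e := L - 4) (by linarith) (by linarith)
    (by linarith) (by linarith) (by linarith) (by linarith)
  have hm : 0 ≤ (Q - P - (k - (P - 8))) * (2 * L - (Q - P) - (k - (P - 8))) :=
    mul_nonneg (by linarith) (by linarith)
  have hB : 2.268 + 0.067 * (L - 4) + 0.134 * (2 * (P - 8) + (k - (P - 8))) ≤ A :=
    le_of_pow_le_pow_left₀ two_ne_zero hA0 (by nlinarith)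
  have n1 := mul_le_mul_of_nonneg_right nu_bd.2.le (by linarith : 0 ≤ L - 4)
  have n2 := mul_le_mul_of_nonneg_right nu_bd.2.le (by linarith : 0 ≤ P - 8 + k)
  have n3 : √3 + 2 * nu ≤ 2.268 := by
    unfold nu
    linarith [sqrt3_bounds.1]
  linarith

end

section


theorem sq_AL4b2 {A B : ℝ} (hA : 0 ≤ A) (h : 16 * B ^ 2 ≤ 16 * A ^ 2) : B ≤ A := by
  by_contra hc
  have hc' : A < B := not_le.mp hc
  nlinarith

theorem c1_AL4b2 {e u d : ℝ} (e0 : 0 ≤ e) (e4 : e ≤ 4) (u1 : u ≤ 1) (d0 : 0 ≤ d) (du : d ≤ u) :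
    16 * (2.4102 + 0.0566 * e + 0.11301 * (8 - 2 * u + d)) ^ 2 ≤
      (4 + e) * (44 - 4 * u - e) + d * (8 - d) := by
  have u0 : 0 ≤ u := d0.trans du
  nlinarith [mul_nonneg e0 (sub_nonneg.2 e4), mul_nonneg u0 (sub_nonneg.2 u1),
    mul_nonneg d0 (sub_nonneg.2 du), mul_nonneg e0 (sub_nonneg.2 u1), mul_nonneg e0 d0,
    mul_nonneg e0 (sub_nonneg.2 du), mul_nonneg d0 (sub_nonneg.2 u1), mul_nonneg u0 d0]

theorem c2_AL4b2 {e a : ℝ} (e0 : 0 ≤ e) (e4 : e ≤ 4) (a3 : 3 ≤ a) (a4 : a ≤ 4) :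
    16 * (2.268 + 0.067 * e + 0.134 * (a + 4)) ^ 2 ≤ (4 + e) * (37.4 + 2 * a - e) := by
  nlinarith [mul_nonneg e0 (sub_nonneg.2 e4), mul_nonneg (sub_nonneg.2 a3) (sub_nonneg.2 a4),
    mul_nonneg e0 (sub_nonneg.2 a3), mul_nonneg e0 (sub_nonneg.2 a4)]

theorem al4b2 : ∀ p q l s c : ℝ, HH p q l s c → p ≤ q → s ≤ c → q * c ≤ p → 11 ≤ p ^ 2 →
    √3 + 2 * nu - 1.18 * (s - 1 / 2) + nu / 4 * (l ^ 2 - 4) + nu / 2 * (kk (p ^ 2) + kk (q ^ 2)) ≤
      p * q * s / 2 := by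
  intro p q l s c ⟨h1, h2, h3, _, _, h6, h7, h8, h9⟩ hpq hsc hqc hP
  obtain ⟨n1, n2⟩ := nu_bd
  have hn : √3 + 2 * nu = 2 + nu := by unfold nu; ring
  have hs : 1 / 2 ≤ s := by linarith
  have hs2 : s ^ 2 ≤ 1 / 2 := by nlinarith
  have hL4 : 4 ≤ l ^ 2 := by nlinarith
  have hL8 : l ^ 2 ≤ 8 := by nlinarith
  have hPQ : p ^ 2 ≤ q ^ 2 := by nlinarith
  have hmc : p * q * c ≤ p ^ 2 := by nlinarith
  have hm0 : 0 ≤ p * q := by positivity
  have hA0 : 0 ≤ p * q * s / 2 := by positivity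
  have hA : 16 * (p * q * s / 2) ^ 2 =
      l ^ 2 * (4 * p ^ 2 - l ^ 2) + (q ^ 2 - p ^ 2) * (2 * l ^ 2 - (q ^ 2 - p ^ 2)) := by
    rw [h8]
    linear_combination 4 * p ^ 2 * q ^ 2 * h6
  have h2m : 2 * (p * q) ≤ p ^ 2 + q ^ 2 := by nlinarith [sq_nonneg (p - q)]
  have ha : kk (p ^ 2) ≤ p ^ 2 - 8 := kk_le (by linarith)
  have hak : kk (p ^ 2) ≤ kk (q ^ 2) := kk_mono hPQ
  have hk4 := (kk_bd (q ^ 2)).2
  have hk : kk (q ^ 2) ≤ q ^ 2 - 8 := kk_le (by linarith)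
  have ha3 : 3 ≤ kk (p ^ 2) ∧ kk (q ^ 2) - kk (p ^ 2) ≤ q ^ 2 - p ^ 2 := by
    rcases kk_cases (p ^ 2) with h | h | h
    · linarith [h.1]
    · constructor <;> linarith [h.2.2]
    · constructor <;> linarith [h.2]
  have hdL : q ^ 2 - p ^ 2 ≤ l ^ 2 := by linarith
  generalize kk (p ^ 2) = a at *
  generalize kk (q ^ 2) = k at *
  generalize p ^ 2 = P at *
  generalize q ^ 2 = Q at *
  generalize l ^ 2 = L at *
  obtain ⟨a3, hd⟩ := ha3
  have b1 : nu / 4 * (L - 4) ≤ 0.067 * (L - 4) :=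
    mul_le_mul_of_nonneg_right (by linarith) (by linarith)
  have b2 : nu / 2 * (a + k) ≤ 0.134 * (a + k) :=
    mul_le_mul_of_nonneg_right (by linarith) (by linarith)
  rcases le_total (p * q) 12.7 with hm | hm
  · have t1 : p * q * s ≤ 12.7 * s := mul_le_mul_of_nonneg_right hm h7.le
    have t2 := c1_AL4b2 (e := L - 4) (u := 4 - a) (d := k - a) (by linarith) (by linarith)
      (by linarith) (by linarith) (by linarith)
    have t3 : L * (32 + 4 * a - L) ≤ L * (4 * P - L) :=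
      mul_le_mul_of_nonneg_left (by linarith) (by linarith)
    have t4 : 0 ≤ (Q - P - (k - a)) * (2 * L - (Q - P) - (k - a)) :=
      mul_nonneg (by linarith) (by linarith)
    have t5 : 0 ≤ (k - a) * (L - 4) := mul_nonneg (by linarith) (by linarith)
    have t6 : 2.4102 + 0.0566 * (L - 4) + 0.11301 * (8 - 2 * (4 - a) + (k - a)) ≤
        p * q * s / 2 := sq_AL4b2 hA0 (by rw [hA]; linarith)
    linarith
  · have t2 := c2_AL4b2 (e := L - 4) (a := a) (by linarith) (by linarith) a3 (by linarith)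
    have t3 : L * (41.4 + 2 * a - L) ≤ L * (3 * P + Q - L) :=
      mul_le_mul_of_nonneg_left (by linarith) (by linarith)
    have t4 : 0 ≤ (Q - P) * (L - (Q - P)) := mul_nonneg (by linarith) (by linarith)
    have t6 : 2.268 + 0.067 * (L - 4) + 0.134 * (a + 4) ≤ p * q * s / 2 :=
      sq_AL4b2 hA0 (by rw [hA]; linarith)
    linarith

end



end MP7b.Sb
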