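import Pool.Agent.MP_7b7a6d_co.Sb.St2

/-! Inequalities for one triangle, third part. -/

open scoped Classical
open MeasureTheory Metric Real

noncomputable section
namespace MP7b.Sb

section


theorem chord_AG1 {y : ℝ} (h0 : 0 ≤ y) (h1 : y ≤ 1 / 2) : y ≤ sin (π / 3 * y) := by
  have hp := pi_pos
  have a := conc_Stu (x := 0) (y := π / 6) (t := 2 * y) le_rfl (by linarith) (by linarith)
    (by linarith) (by linarith)
  rw [sin_zero, sin_pi_div_six,
    show (1 - 2 * y) * 0 + 2 * y * (π / 6) = π / 3 * y by ring] at a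
  linarith

theorem ag1 : AG1_st := by
  intro x
  have hp := pi_pos
  refine ⟨fun h1 h2 => ?_, fun h1 h2 h3 => ?_⟩
  · have a1 := conc_Stu (x := π / 3) (y := π / 2) (t := 2 * (x - 1)) (by linarith) (by linarith)
      (by linarith) (by linarith) (by linarith)
    rw [sin_pi_div_three, sin_pi_div_two,
      show (1 - 2 * (x - 1)) * (π / 3) + 2 * (x - 1) * (π / 2) = π / 3 * x by ring] at a1
    have a2 := conc_Stu (x := π / 6) (y := π / 3) (t := 2 * (x - 1)) (by linarith) (by linarith)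
      (by linarith) (by linarith) (by linarith)
    rw [sin_pi_div_three, sin_pi_div_six,
      show (1 - 2 * (x - 1)) * (π / 6) + 2 * (x - 1) * (π / 3) = π / 3 * x - π / 6 by ring,
      sin_sub, sin_pi_div_six, cos_pi_div_six] at a2
    have e : cos (π / 3 * x) = sin (π / 3 * (3 / 2 - x)) := by
      rw [← sin_pi_div_two_sub]
      congr 1
      ring
    have b1 := chord_AG1 (y := 3 / 2 - x) (by linarith) (by linarith)
    have b2 := sin_le (x := π / 3 * (3 / 2 - x)) (mul_nonneg (by linarith) (by linarith))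
    have b3 : π / 3 * (3 / 2 - x) ≤ 2 * (3 / 2 - x) :=
      mul_le_mul_of_nonneg_right (by linarith [pi_lt_four]) (by linarith)
    have b4 : cos (π / 3 * x) ≤ cos (π / 3) :=
      cos_le_cos_of_nonneg_of_le_pi (by linarith) (by nlinarith) (by nlinarith)
    rw [cos_pi_div_three] at b4
    rw [← e] at b1 b2
    refine ⟨?_, by linarith, by linarith, by linarith, b4⟩
    have hn : 0 ≤ nu := by linarith [nu_bd.1]
    have a3 := mul_le_mul_of_nonneg_left (add_le_add a1 a2) hn
    have s3 : √3 * √3 = 3 := mul_self_sqrt (by norm_num)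
    have s4 : √3 * √3 * sin (π / 3 * x) = 3 * sin (π / 3 * x) := by rw [s3]
    unfold nu at *
    linarith
  · have hx : x ≤ 2 := by
      by_contra hx
      have a := cos_lt_cos_of_nonneg_of_le_pi (x := π - π / 3) (y := π / 3 * x) (by linarith)
        (by nlinarith) (by nlinarith)
      rw [cos_pi_sub, cos_pi_div_three] at a
      linarith
    have b1 := chord_AG1 (y := x - 3 / 2) (by linarith) (by linarith)
    rw [show π / 3 * (x - 3 / 2) = π / 3 * x - π / 2 by ring, sin_sub_pi_div_two] at b1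
    exact ⟨hx, by linarith⟩

end

section


theorem ag2 : AG2_st := by
  intro x h1 h2
  have hp := pi_pos
  have a1 := conc_Stu (x := π / 2) (y := π - π / 3) (t := 4 * x - 3) (by linarith) (by linarith)
    (by linarith) (by linarith) (by linarith)
  rw [sin_pi_sub, sin_pi_div_three, sin_pi_div_two,
    show (1 - (4 * x - 3)) * (π / 2) + (4 * x - 3) * (π - π / 3) = 2 * (π / 3 * x) by ring,
    sin_two_mul] at a1
  refine ⟨by unfold nu; linarith, ?_, ?_⟩
  · rw [← cos_pi_div_three]
    exact cos_le_cos_of_nonneg_of_le_pi (by nlinarith) (by linarith) (by nlinarith)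
  · rw [← sin_pi_div_two_sub]
    exact sin_le_sin_of_le_of_le_pi_div_two (by nlinarith) (by nlinarith) (by nlinarith)

theorem zcos_AG23 {z : ℝ} (h0 : 0 ≤ z) (h1 : z < π / 2) : z * cos z ≤ sin z := by
  have hc : 0 < cos z := cos_pos_of_mem_Ioo ⟨by linarith [pi_pos], h1⟩
  have h := le_tan h0 h1
  rw [tan_eq_sin_div_cos, le_div_iff₀ hc] at h
  exact h

theorem two_AG23 {x : ℝ} (h1 : 1 / 2 ≤ x) (h2 : x ≤ 3 / 4) :
    (4 * nu * (1 - x) - nu) * sin (π / 3 * x) ≤ 0.512 * (cos (π / 3 * x) - sin (π / 3 * x)) := by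
  have hp := pi_pos
  have hp4 := pi_gt_d4
  obtain ⟨u, hu⟩ : ∃ u, u = 3 - 4 * x := ⟨_, rfl⟩
  have u0 : 0 ≤ u := by linarith
  have u1 : u ≤ 1 := by linarith
  have z0 : 0 ≤ π * u / 12 := by positivity
  have z1 : π * u / 12 < π / 2 := by nlinarith
  have hz := zcos_AG23 z0 z1
  have hB : 0 ≤ sin (π * u / 12) := sin_nonneg_of_nonneg_of_le_pi z0 (by linarith)
  have hA : 0 ≤ cos (π * u / 12) := cos_nonneg_of_mem_Icc ⟨by linarith, z1.le⟩
  rw [show π / 3 * x = π / 4 - π * u / 12 by rw [hu]; ring, sin_sub, cos_sub, sin_pi_div_four,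
    cos_pi_div_four, show 4 * nu * (1 - x) - nu = nu * u by rw [hu]; ring]
  generalize sin (π * u / 12) = B at *
  generalize cos (π * u / 12) = A at *
  have hn := nu_bd
  have huA : 0 ≤ u * A := mul_nonneg u0 hA
  have huB : 0 ≤ u * B := mul_nonneg u0 hB
  have k1 : 3.1415 * (u * A) ≤ 12 * B := by nlinarith
  have k2 : nu * u * (A - B) ≤ 1.024 * B := by nlinarith
  have hr : 0 ≤ √2 / 2 := by positivity
  have k3 := mul_le_mul_of_nonneg_left k2 hr
  linarith

theorem three_AG23 {x : ℝ} (h1 : 1 / 2 ≤ x) :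
    4 * nu * (1 - x) ≤ 2 * nu - 1.18 * (sin (π / 3 * x) - 1 / 2) := by
  have hp := pi_pos
  have hp4 := pi_lt_d4
  obtain ⟨u, hu⟩ : ∃ u, u = x - 1 / 2 := ⟨_, rfl⟩
  have u0 : 0 ≤ u := by linarith
  have z0 : 0 ≤ π * u / 3 := by positivity
  have hs := sin_le z0
  have hc := cos_le_one (π * u / 3)
  rw [show π / 3 * x = π / 6 + π * u / 3 by rw [hu]; ring, sin_add, sin_pi_div_six,
    cos_pi_div_six, show 4 * nu * (1 - x) = 2 * nu - 4 * nu * u by rw [hu]; ring]
  generalize sin (π * u / 3) = B at *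
  generalize cos (π * u / 3) = A at *
  have hn := nu_bd
  have h3 : 1.732 < √3 ∧ √3 < 1.7321 := by
    unfold nu at hn
    constructor <;> linarith [hn.1, hn.2]
  have k1 : B ≤ 1.0472 * u := by nlinarith
  have k2 : √3 * B ≤ 1.7321 * (1.0472 * u) :=
    (mul_le_mul_of_nonneg_left k1 (by positivity)).trans
      (mul_le_mul_of_nonneg_right h3.2.le (by positivity))
  nlinarith [mul_le_mul_of_nonneg_right hn.1.le u0]

theorem ag3 : AG3_st := by
  intro x h1 h2
  have hp := pi_pos
  refine ⟨?_, two_AG23 h1 h2, three_AG23 h1, ?_⟩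
  · have a1 := conc_Stu (x := π / 3) (y := π / 2) (t := 4 * x - 2) (by linarith) (by linarith)
      (by linarith) (by linarith) (by linarith)
    rw [sin_pi_div_three, sin_pi_div_two,
      show (1 - (4 * x - 2)) * (π / 3) + (4 * x - 2) * (π / 2) = 2 * (π / 3 * x) by ring,
      sin_two_mul] at a1
    have a2 := conc_Stu (x := 0) (y := π / 6) (t := 3 - 4 * x) le_rfl (by linarith)
      (by linarith) (by linarith) (by linarith)
    rw [sin_zero, sin_pi_div_six,
      show (1 - (3 - 4 * x)) * 0 + (3 - 4 * x) * (π / 6) = π / 2 - 2 * (π / 3 * x) by ring,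
      sin_pi_div_two_sub, cos_two_mul] at a2
    have a3 := mul_le_mul_of_nonneg_left a2 (by linarith [nu_bd.1] : 0 ≤ nu)
    unfold nu at *
    linarith
  · rw [← sin_pi_div_two_sub]
    exact sin_le_sin_of_le_of_le_pi_div_two (by nlinarith) (by nlinarith) (by nlinarith)

end

section


theorem sgt_TR {P : Prop} (h : P) : sgr P = 1 := if_pos h

theorem sgf_TR {P : Prop} (h : ¬ P) : sgr P = -1 := if_neg h

theorem ord_TR (g2 : AG2_st) (g3 : AG3_st) (a : AL3o_st) (b : AL3a_st) (c : AL4o_st)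
    (d : AL4a_st) (e : AL4b_st) (p q l x : ℝ)
    (H : HH p q l (sin (π / 3 * x)) (cos (π / 3 * x))) (hpq : p ≤ q) (h1 : 1 / 2 ≤ x)
    (h2 : x ≤ 1) : 4 * nu * (1 - x) + nu / 4 * min (l ^ 2 - 4) 8 ≤
      dR p q l (sin (π / 3 * x)) (cos (π / 3 * x)) := by
  have G2 := g2 x
  have G3 := g3 x h1
  have hn := nu_bd
  have hnu : nu = 2 - √3 := rfl
  generalize sin (π / 3 * x) = s at *
  generalize cos (π / 3 * x) = k at *
  have H' := H
  obtain ⟨hp, hq, hl, hp4, hq4, hsc, hs, hl2, hls⟩ := H'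
  have hk0 : 0 < k := by
    rcases le_total x (3 / 4) with h | h
    · exact hs.trans_le (G3 h).2.2.2
    · linarith [(G2 h h2).2.1]
  have hk1 : k ≤ 1 := by nlinarith [sq_nonneg s]
  have e1 : sgr (q < p * k) = -1 := sgf_TR (not_lt.2 (by nlinarith))
  have e2 : sgr (k < 0) = -1 := sgf_TR (not_lt.2 hk0.le)
  unfold dR
  rw [e1, e2]
  rcases le_total x (3 / 4) with h | h
  · obtain ⟨a1, a2, a3, a4⟩ := G3 h
    have hl8 : l ^ 2 ≤ 8 := by nlinarith
    have hm : nu / 4 * min (l ^ 2 - 4) 8 ≤ nu / 4 * (l ^ 2 - 4) :=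
      mul_le_mul_of_nonneg_left (min_le_left _ _) (by linarith [hn.1])
    rw [kk_zero hl8]
    by_cases ho : p < q * k
    · rw [sgt_TR ho]
      have := c p q l s k H hpq a4 ho
      linarith
    · rw [sgf_TR ho]
      rcases le_total (p ^ 2) 8 with h8 | h8
      · have := d p q l s k H hpq a4 (not_lt.1 ho) h8
        rw [kk_zero h8]
        have key : 4 * nu * (1 - x) + nu / 4 * (l ^ 2 - 4) + nu / 2 * kk (q ^ 2) + √3 ≤
            p * q * s / 2 := by
          refine le_of_mul_le_mul_left ?_ hs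
          have h3 : √3 = 2 - nu := by linarith
          rw [h3]
          linarith
        linarith
      · have := e p q l s k H hpq a4 (not_lt.1 ho) h8
        linarith
  · obtain ⟨a1, a2, a3⟩ := G2 h h2
    by_cases ho : p < q * k
    · rw [sgt_TR ho]
      have := a p q l s k H hpq a2 a3 ho
      linarith
    · rw [sgf_TR ho]
      have := b p q l s k H hpq a2 a3 (not_lt.1 ho)
      linarith

theorem trr (g2 : AG2_st) (g3 : AG3_st) (a : AL3o_st) (b : AL3a_st) (c : AL4o_st) (d : AL4a_st)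
    (e : AL4b_st) : TR_st := by
  intro p q l x H h1 h2
  rcases le_total p q with h | h
  · exact ord_TR g2 g3 a b c d e p q l x H h h1 h2
  · rw [← dR_symm]
    exact ord_TR g2 g3 a b c d e q p l x (HH_symm H) h h1 h2

end

section


theorem sg_BR {a b c : ℂ} {P : Prop} (h : Ip a b c < 0 ↔ P) : sg a b c = sgr P := by
  unfold sg sgr
  by_cases hP : P
  · rw [if_pos (h.2 hP), if_pos hP]
  · rw [if_neg fun h' => hP (h.1 h'), if_neg hP]

theorem br : BR_st := by
  intro a b c hD hp hl hq hR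
  have hn := nu_pos
  obtain ⟨a0, a3, -, aD, aI⟩ := angs a b c hD
  have eb : D b c a = D a b c := D_rot a b c
  have ec : D c a b = D a b c := by unfold D; ring
  obtain ⟨-, -, -, bD, -⟩ := angs b c a (by rwa [eb])
  obtain ⟨-, -, -, cD, -⟩ := angs c a b (by rwa [ec])
  rw [eb] at bD
  rw [ec] at cD
  have hlaw := cos_Tie a b c
  have hIb : Ip b c a = dist a b ^ 2 - Ip a b c := by simp only [dsq_Stu, Ip]; ring
  have hIc : Ip c a b = dist c a ^ 2 - Ip a b c := by simp only [dsq_Stu, Ip]; ring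
  have h1 := side_Stu (l := dist c a) hl hp (by linarith) bD
  have h2 := side_Stu (l := dist a b) hq hl (by linarith) cD
  have h3 := side_Stu (l := dist b c) hp hq (by linarith) aD
  have hp0 : 0 < dist a b := by linarith
  have hq0 : 0 < dist c a := by linarith
  have s1 : sg c a b = sgr (dist c a < dist a b * cos (π / 3 * ang a b c)) := by
    refine sg_BR ?_
    rw [hIc, aI, show dist c a ^ 2 - dist a b * dist c a * cos (π / 3 * ang a b c) =
      dist c a * (dist c a - dist a b * cos (π / 3 * ang a b c)) by ring]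
    exact ⟨fun h => by linarith [neg_of_mul_neg_right h hq0.le],
      fun h => mul_neg_of_pos_of_neg hq0 (by linarith)⟩
  have s2 : sg a b c = sgr (cos (π / 3 * ang a b c) < 0) := by
    refine sg_BR ?_
    rw [aI]
    exact ⟨fun h => neg_of_mul_neg_right h (mul_pos hp0 hq0).le,
      fun h => mul_neg_of_pos_of_neg (mul_pos hp0 hq0) h⟩
  have s3 : sg b c a = sgr (dist a b < dist c a * cos (π / 3 * ang a b c)) := by
    refine sg_BR ?_
    rw [hIb, aI, show dist a b ^ 2 - dist a b * dist c a * cos (π / 3 * ang a b c) =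
      dist a b * (dist a b - dist c a * cos (π / 3 * ang a b c)) by ring]
    exact ⟨fun h => by linarith [neg_of_mul_neg_right h hp0.le],
      fun h => mul_neg_of_pos_of_neg hp0 (by linarith)⟩
  refine ⟨⟨hp, hq, hl, by linarith [sin_le_one (π / 3 * ang c a b)],
    by linarith [sin_le_one (π / 3 * ang b c a)], sin_sq_add_cos_sq _, by linarith,
    by rw [hlaw, aI]; ring, h3⟩, ?_, half_Stu a0 (by linarith), a3, ?_⟩
  · unfold dl dR
    rw [mul_div_cancel₀ _ (by positivity), s1, s2, s3, cap_kk, cap_kk, cap_kk, ← aD]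
    ring
  · unfold psi
    rcases le_total (dist b c ^ 2 - 4) 8 with h | h
    · rw [min_eq_left h, min_eq_left (by linarith)]
      ring
    · rw [min_eq_right h, min_eq_right (by linarith)]
      ring

end

section


theorem t1 (hB : BR_st) (h1 : AG1_st) : T1_st := by
  intro a b c h0 hab hbc hca hR
  obtain ⟨⟨hp, hq, hl, -, -, hsc, hs, hL, hl4⟩, hd, -, hx3, -⟩ := hB a b c h0 hab hbc hca hR
  have hI := sti_all a b c h0 hab hbc hca hR
  have hA := sta a b c h0 hab hbc hca hR
  have hd0 : 0 ≤ dl a b c := (abs_nonneg _).trans hI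
  have hd1 := (abs_le.1 hI).2
  obtain ⟨h2, h3⟩ := h1 (ang a b c)
  unfold psi
  unfold dR at hd
  generalize ang a b c = x at *
  generalize sin (π / 3 * x) = s at *
  generalize cos (π / 3 * x) = k at *
  generalize dist a b = p at *
  generalize dist c a = q at *
  generalize dist b c = l at *
  generalize dl a b c = d at *
  have hk : 0 < 1 - k := by nlinarith [sq_pos_of_pos hs]
  have hpq : 4 ≤ p * q := by nlinarith
  have hL8 : 8 * (1 - k) ≤ l ^ 2 := by
    have := mul_le_mul_of_nonneg_right hpq hk.le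
    nlinarith [sq_nonneg (p - q)]
  rcases le_total x 1 with hx | hx
  · have : 0 ≤ min ((l ^ 2 - 4) / 16) (1 / 2) := le_min (by nlinarith) (by norm_num)
    linarith
  rcases le_total (3 / 2) x with hy | hy
  · have h4 : l ^ 2 ≤ (4 * s) ^ 2 := pow_le_pow_left₀ (by linarith) hl4 2
    have h5 : -(1 / 2) ≤ k := by
      by_contra h
      have := mul_pos hk (show 0 < -(1 / 2) - k by linarith)
      nlinarith
    obtain ⟨h6, h7⟩ := h3 hy hx3 h5
    have : (x - 1) / 2 ≤ min ((l ^ 2 - 4) / 16) (1 / 2) := le_min (by linarith) (by linarith)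
    linarith
  obtain ⟨h4, -, h5, h6, -⟩ := h2 hx hy
  have h7 : (1 - 2 * k) / 4 ≤ min ((l ^ 2 - 4) / 16) (1 / 2) := le_min (by linarith) (by linarith)
  by_cases h8 : 8 ≤ p ^ 2 ∨ 8 ≤ l ^ 2 ∨ 8 ≤ q ^ 2
  · have := hA h8
    linarith
  simp only [not_or, not_le] at h8
  rw [kk_zero h8.1.le, kk_zero h8.2.1.le, kk_zero h8.2.2.le] at hd
  have h9 := mul_le_mul_of_nonneg_right hpq hs.le
  have h10 : nu * (x - 1) ≤ nu * (d / 2 + (1 - 2 * k) / 4) := by linarith
  have := le_of_mul_le_mul_left h10 nu_pos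
  linarith

end

section


theorem sgr_T2 (P : Prop) (t : ℝ) : -kk t ≤ sgr P * kk t := by
  have h := (kk_bd t).1
  unfold sgr
  split_ifs <;> linarith

theorem dR_T2 (p q l s c : ℝ) :
    p * q * s / 2 - √3 - nu / 2 * (kk (l ^ 2) + kk (p ^ 2) + kk (q ^ 2)) ≤ dR p q l s c := by
  have h := mul_le_mul_of_nonneg_left
    (add_le_add (add_le_add (sgr_T2 (q < p * c) (p ^ 2)) (sgr_T2 (c < 0) (l ^ 2)))
      (sgr_T2 (p < q * c) (q ^ 2))) (by linarith [nu_bd.1] : 0 ≤ nu / 2)
  unfold dR
  linarith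

theorem t2 (hB : BR_st) (h1 : AG1_st) (a1 : AL1_st) (a2 : AL2_st) (hT : TR_st) : T2_st := by
  intro a b c hD hab hbc hca hR
  obtain ⟨hH, e1, x1, -, e2⟩ := hB a b c hD hab hbc hca hR
  have hn : 0 < nu := by linarith [nu_bd.1]
  have key : 4 * nu * (1 - ang a b c) + nu / 4 * min (dist b c ^ 2 - 4) 8 ≤
      dR (dist a b) (dist c a) (dist b c) (sin (π / 3 * ang a b c)) (cos (π / 3 * ang a b c)) →
      1 - ang a b c ≤ dl a b c / 2 - psi b c := fun h => by
    rw [← e1, ← e2] at h
    exact le_of_mul_le_mul_left (by linarith) (by linarith : 0 < 4 * nu)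
  rcases le_total (ang a b c) 1 with x2 | x2
  · exact key (hT _ _ _ _ hH x1 x2)
  rcases le_total (ang a b c) (3 / 2) with x3 | x3
  · obtain ⟨-, c1, -, c2, c3⟩ := (h1 _).1 x2 x3
    rcases le_total 8 (dist b c ^ 2) with l8 | l8
    · have h2 := a2 _ _ _ _ _ hH c2 c3 l8
      have h3 := mul_le_mul_of_nonneg_left c1 (by linarith : 0 ≤ 4 * nu)
      exact key (le_trans (by linarith) (h2.trans (dR_T2 _ _ _ _ _)))
    have h4 : psi b c ≤ (dist b c ^ 2 - 4) / 16 := min_le_left _ _
    rcases le_total 8 (dist a b ^ 2) with p8 | p8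
    · linarith [sta a b c hD hab hbc hca hR (Or.inl p8)]
    rcases le_total 8 (dist c a ^ 2) with q8 | q8
    · linarith [sta a b c hD hab hbc hca hR (Or.inr (Or.inr q8))]
    have h5 := a1 _ _ _ _ _ hH p8 q8 l8
    have h6 := dR_T2 (dist a b) (dist c a) (dist b c) (sin (π / 3 * ang a b c))
      (cos (π / 3 * ang a b c))
    rw [kk_zero l8, kk_zero p8, kk_zero q8] at h6
    have h7 := mul_le_mul_of_nonneg_left (min_le_left (dist b c ^ 2 - 4) 8)
      (by linarith : 0 ≤ nu / 4)
    have h8 := mul_le_mul_of_nonneg_left (by linarith : 1 - ang a b c ≤ 0)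
      (by linarith : 0 ≤ 4 * nu)
    exact key (by linarith)
  · have h4 : psi b c ≤ 1 / 2 := min_le_right _ _
    linarith [(abs_nonneg _).trans (sti_all a b c hD hab hbc hca hR)]

end

section


theorem real_SLKr {p q l S k ρ t : ℝ} (hp : 2 ≤ p) (hq : 2 ≤ q) (hS : 0 < S) (hk : 0 < k)
    (h1 : S ^ 2 + k ^ 2 = 1) (hl : l ^ 2 = p ^ 2 + q ^ 2 + 2 * (p * q * k)) (hb : 4 * S < l)
    (ht : t ≤ 0.804 * S) (h0 : 0 ≤ ρ) (hρ : ρ ≤ 1.41) : ρ * (q + p - l) + t ≤ p * q * S / 2 := by
  have hm : 4 ≤ p * q := by nlinarith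
  have hD := mul_le_mul_of_nonneg_right hm hS.le
  rcases le_total (q + p - l) 0 with h | h
  · have := mul_nonpos_of_nonneg_of_nonpos h0 h
    linarith
  have hS1 : S ≤ 1 := by nlinarith
  have a1 : (q + p - l) * (1 + k) * (q + p + l) = 2 * (p * q) * S ^ 2 := by
    linear_combination (-(1 + k)) * hl - 2 * (p * q) * h1
  have a2 := mul_le_mul_of_nonneg_left (show 8 * S ≤ q + p + l by linarith)
    (mul_nonneg h (show 0 ≤ 1 + k by linarith))
  have a3 : (q + p - l) * (1 + k) ≤ p * q * S / 4 :=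
    le_of_mul_le_mul_right (a := 8 * S) (by linarith) (by linarith)
  have a4 := mul_le_mul_of_nonneg_right hρ h
  rcases le_total k 0.2 with c | c
  · have b1 : 0.96 ≤ S ^ 2 := by nlinarith
    have b2 : 15.36 ≤ l ^ 2 := by nlinarith
    have b3 := mul_le_mul_of_nonneg_left c (show 0 ≤ p * q by linarith)
    have b4 := mul_nonneg (show 0 ≤ p ^ 2 - 4 by nlinarith) (show 0 ≤ q ^ 2 - 4 by nlinarith)
    have b5 : 5.98 ≤ p * q := by
      by_contra g
      nlinarith
    have b6 := mul_le_mul_of_nonneg_right b5 hS.le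
    have b7 := mul_nonneg h hk.le
    linarith
  · have b7 := mul_le_mul_of_nonneg_left c h
    linarith

theorem slkr : SLKr_st := by
  intro a b c ρ hρ0 hρ hD hI hp hq hb
  obtain ⟨h0, h3, -, hS, hC⟩ := angs c a b hD
  have hl := cosine_Slk a b c
  have hn := nu_bd
  have hpi := Real.pi_pos
  set p := dist c a
  set q := dist b c
  set l := dist a b
  set θ := ang c a b
  have hpq : 4 ≤ p * q := by nlinarith
  have hsc := Real.sin_sq_add_cos_sq (π / 3 * θ)
  have hC0 : cos (π / 3 * θ) < 0 := by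
    by_contra h
    have := mul_nonneg (show 0 ≤ p * q by linarith) (not_lt.1 h)
    linarith
  have hφ : π / 3 * (3 - θ) = π - π / 3 * θ := by ring
  have hφ0 : 0 ≤ π / 3 * (3 - θ) := mul_nonneg (by positivity) (by linarith)
  have hφ1 : π / 3 * (3 - θ) ≤ π / 2 := by
    by_contra h
    have h1 : 0 ≤ π / 3 * θ := by positivity
    have h2 := Real.cos_nonneg_of_neg_pi_div_two_le_of_le (x := π / 3 * θ) (by linarith)
      (by linarith)
    linarith
  have h4 := Real.mul_le_sin hφ0 hφ1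
  have h5 : 2 / π * (π / 3 * (3 - θ)) = 2 / 3 * (3 - θ) := by field_simp
  rw [h5, hφ, Real.sin_pi_sub] at h4
  set S := sin (π / 3 * θ)
  set C := cos (π / 3 * θ)
  rw [hS] at hb ⊢
  refine real_SLKr (k := -C) hp hq (by linarith) (by linarith) (by linarith)
    (by rw [hl, hC]; ring) (lt_of_mul_lt_mul_left (a := p * q) (by linarith [not_le.1 hb])
      (by linarith)) ?_ hρ0 hρ
  have := mul_le_mul_of_nonneg_right hn.2.le (show 0 ≤ 3 - θ by linarith)
  linarith

end



end MP7b.Sb
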