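import Pool.Agent.MP_7b7a6d_co.Sb.St

/-! Stability of the inequality of Wegner: all parts. -/

open scoped Classical
open MeasureTheory Metric Real

noncomputable section
namespace MP7b.Sb

section


theorem l6b : L6b_st := by
  intro W F G τ y1 y2 hF hi hs h6
  obtain ⟨w0, hw0, ht0⟩ := Finset.exists_ne_zero_of_sum_ne_zero (by omega : ∑ w ∈ W, τ w ≠ 0)
  have hN := per_L6 hF hi hw0
  have hinj : Set.InjOn (fun k => F^[k] w0) (Finset.range (Function.minimalPeriod F w0)) := by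
    rw [Finset.coe_range]
    exact Function.iterate_injOn_Iio_minimalPeriod
  have hmod : ∀ k, F^[k % Function.minimalPeriod F w0] w0 = F^[k] w0 := fun k =>
    Function.iterate_mod_minimalPeriod_eq
  have hpN : F^[Function.minimalPeriod F w0] w0 = w0 := Function.iterate_minimalPeriod
  generalize Function.minimalPeriod F w0 = N at hN hinj hmod hpN
  obtain ⟨p, hp⟩ : ∃ p : ℕ → ℂ, p = fun k => F^[k] w0 := ⟨_, rfl⟩
  rw [← hp] at hinj
  have pW : ∀ k, p k ∈ W := fun k => hp ▸ mem_L6 hF hw0 k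
  have pS : ∀ k, p (k + 1) = F (p k) := fun k => hp ▸ Function.iterate_succ_apply' F k w0
  have p0 : p 0 = w0 := hp ▸ rfl
  have pN : p N = p 0 := hp ▸ hpN
  obtain ⟨c, hc⟩ : ∃ c : ℕ → ℕ, ∀ k, c k = ∑ i ∈ Finset.range k, τ (p (i + 1)) := ⟨_, fun _ => rfl⟩
  have cS : ∀ k, c (k + 1) = c k + τ (p (k + 1)) := fun k => by
    rw [hc, hc, Finset.sum_range_succ]
  have cM : Monotone c := monotone_nat_of_le_succ fun k => by rw [cS]; omega
  have cG : ∀ k, G (p k) = G w0 + (c k : ZMod 6) := fun k => by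
    induction k with
    | zero => simp [hc, p0]
    | succ k ih => rw [cS, pS, (hs _ (pW k)).2.2, ih]; push_cast; ring
  have hO : (Finset.range N).image p ⊆ W := fun w hw => by
    obtain ⟨k, -, rfl⟩ := Finset.mem_image.1 hw
    exact pW k
  have cN : c N = ∑ w ∈ (Finset.range N).image p, τ w := by
    have h1 := Finset.sum_range_succ (fun i => τ (p i)) N
    rw [Finset.sum_range_succ', pN] at h1
    rw [Finset.sum_image hinj, hc]
    omega
  have hsd := Finset.sum_sdiff (f := τ) hO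
  obtain ⟨M, rfl⟩ : ∃ M, N = M + 1 := ⟨N - 1, by omega⟩
  have cM1 := cS M
  rw [pN, p0] at cM1
  have c6 : c (M + 1) = 6 := by
    have h1 := cG (M + 1)
    rw [pN, p0, left_eq_add, ZMod.natCast_eq_zero_iff] at h1
    omega
  have hW : (Finset.range (M + 1)).image p = W := by
    refine hO.antisymm fun w hw => by_contra fun hn => ?_
    have hN' := per_L6 hF hi hw
    have hw' : F^[Function.minimalPeriod F w] w = w := Function.iterate_minimalPeriod
    have hz : ∀ k, τ (F^[k] w) = 0 := fun k => by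
      refine Finset.sum_eq_zero_iff.1 (by omega : ∑ x ∈ W \ (Finset.range (M + 1)).image p, τ x = 0)
        _ (Finset.mem_sdiff.2 ⟨mem_L6 hF hw k, fun h => hn ?_⟩)
      obtain ⟨i, -, hi'⟩ := Finset.mem_image.1 h
      have h1 : F^[Function.minimalPeriod F w * k] w = w :=
        (Function.isPeriodicPt_minimalPeriod F w).mul_const k
      have h2 : Function.minimalPeriod F w * k = (Function.minimalPeriod F w * k - k) + k :=
        (Nat.sub_add_cancel (Nat.le_mul_of_pos_left k hN')).symm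
      rw [h2, Function.iterate_add_apply, ← hi', hp, ← Function.iterate_add_apply, ← hmod] at h1
      exact Finset.mem_image.2 ⟨_, Finset.mem_range.2 (Nat.mod_lt _ hN), (congrFun hp _).trans h1⟩
    have hG : ∀ k, G (F^[k] w) = G w := fun k => by
      induction k with
      | zero => rfl
      | succ k ih =>
        have h1 := hz (k + 1)
        rw [Function.iterate_succ_apply'] at h1 ⊢
        rw [(hs _ (mem_L6 hF hw k)).2.2, h1, ih]
        simp
    obtain ⟨h1, h2, -⟩ := seg_L6 (fun k => y1 (F^[k] w)) (fun k => y2 (F^[k] w)) (e1 (G w))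
      (e2 (G w)) 0 (Function.minimalPeriod F w) fun k _ _ => by
        simp only [Function.iterate_succ_apply']
        rw [(hs _ (mem_L6 hF hw k)).1, (hs _ (mem_L6 hF hw k)).2.1, hG]
        exact ⟨rfl, rfl⟩
    simp only [zero_add, hw', Function.iterate_zero, id, left_eq_add, mul_eq_zero,
      Nat.cast_eq_zero, hN'.ne', false_or] at h1 h2
    have h3 := (rot_L6 (G w)).2.2
    rw [h1, h2] at h3
    norm_num at h3
  obtain ⟨b, hb⟩ : ∃ b : ℕ → ℕ, ∀ j, b j = sInf {k | j ≤ c k} := ⟨_, fun _ => rfl⟩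
  have b1 : ∀ j ≤ 6, j ≤ c (b j) := fun j hj => by
    rw [hb]
    exact Nat.sInf_mem (s := {k | j ≤ c k}) ⟨M + 1, hj.trans c6.ge⟩
  have b2 : ∀ j k, k < b j → c k < j := fun j k hk => by
    rw [hb] at hk
    exact not_le.1 (Nat.notMem_of_lt_sInf (s := {k | j ≤ c k}) hk)
  have b3 : ∀ j < 6, b j ≤ b (j + 1) := fun j hj => by
    by_contra h
    have := b2 j _ (not_le.1 h)
    have := b1 (j + 1) hj
    omega
  have b0 : b 0 = 0 := by
    by_contra h
    have := b2 0 0 (by omega)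
    omega
  have b6 : b 6 = M + 1 := by
    have h1 := b1 6 le_rfl
    have h2 := b2 6 (M + 1)
    have h3 := @cM (b 6) M
    omega
  have key : ∀ j < 6, _ := fun j hj =>
    seg_L6 (fun k => y1 (p k)) (fun k => y2 (p k)) (e1 (G w0 + (j : ZMod 6)))
      (e2 (G w0 + (j : ZMod 6))) (b j) (b (j + 1) - b j) fun k h1 h2 => by
        have h3 := b3 j hj
        have h4 := b2 (j + 1) k (by omega)
        have h5 := (b1 j hj.le).trans (cM h1)
        have h7 : c k = j := by omega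
        simp only [pS]
        rw [(hs _ (pW k)).1, (hs _ (pW k)).2.1, cG, h7]
        exact ⟨rfl, rfl⟩
  have key2 : ∀ j < 6, y1 (p (b (j + 1))) = y1 (p (b j)) +
      ((b (j + 1) - b j : ℕ) : ℚ) * e1 (G w0 + (j : ZMod 6)) ∧ y2 (p (b (j + 1))) = y2 (p (b j)) +
      ((b (j + 1) - b j : ℕ) : ℚ) * e2 (G w0 + (j : ZMod 6)) ∧
      ∑ k ∈ Finset.range (b (j + 1)), (y1 (p k) * y2 (p (k + 1)) - y2 (p k) * y1 (p (k + 1))) =
        ∑ k ∈ Finset.range (b j), (y1 (p k) * y2 (p (k + 1)) - y2 (p k) * y1 (p (k + 1))) +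
        ((b (j + 1) - b j : ℕ) : ℚ) * (y1 (p (b j)) * e2 (G w0 + (j : ZMod 6)) -
          y2 (p (b j)) * e1 (G w0 + (j : ZMod 6))) := fun j hj => by
    have h1 := key j hj
    rw [Nat.add_sub_cancel' (b3 j hj)] at h1
    exact h1
  obtain ⟨r1, r2, r3⟩ := alg_L6 (e1 (G w0)) (e2 (G w0)) (rot_L6 _).2.2
    (fun j => ((b (j + 1) - b j : ℕ) : ℚ)) (fun j => y1 (p (b j))) (fun j => y2 (p (b j)))
    (fun j => ∑ k ∈ Finset.range (b j), (y1 (p k) * y2 (p (k + 1)) - y2 (p k) * y1 (p (k + 1))))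
    (fun j => e1 (G w0 + (j : ZMod 6))) (fun j => e2 (G w0 + (j : ZMod 6))) (by simp)
    (fun j => by
      rw [Nat.cast_succ, ← add_assoc]
      exact ⟨(rot_L6 _).1, (rot_L6 _).2.1⟩)
    key2 (by simp only [b6, b0, pN]) (by simp only [b6, b0, pN]) (by simp [b0])
  refine ⟨fun j => b (j + 1) - b j, G w0, fun j => p (b j), by exact_mod_cast r1,
    by exact_mod_cast r2, ?_, ?_, fun j => pW _,
    fun j hj => ⟨(key2 j (by omega)).1, (key2 j (by omega)).2.1⟩, fun w hw => ?_⟩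
  · rw [← hW, Finset.card_image_of_injOn hinj, Finset.card_range]
    have := b3 0 (by norm_num)
    have := b3 1 (by norm_num)
    have := b3 2 (by norm_num)
    have := b3 3 (by norm_num)
    have := b3 4 (by norm_num)
    have := b3 5 (by norm_num)
    simp only [Nat.reduceAdd] at *
    omega
  · rw [← r3, ← hW, Finset.sum_image hinj]
    simp only [b6, pS]
  · rw [← hW] at hw
    obtain ⟨k, hk, rfl⟩ := Finset.mem_image.1 hw
    have k6 : c k < 6 := b2 6 k (by rw [b6]; exact Finset.mem_range.1 hk)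
    have k1 : b (c k) ≤ k := by
      by_contra h
      exact lt_irrefl _ (b2 (c k) k (not_le.1 h))
    obtain ⟨h1, h2, -⟩ := seg_L6 (fun k => y1 (p k)) (fun k => y2 (p k))
      (e1 (G w0 + (c k : ZMod 6))) (e2 (G w0 + (c k : ZMod 6))) (b (c k)) (k - b (c k))
      fun i h1 h2 => by
        have h4 : c i ≤ c k := cM (by omega)
        have h5 := (b1 (c k) k6.le).trans (cM h1)
        have h7 : c i = c k := by omega
        simp only [pS]
        rw [(hs _ (pW i)).1, (hs _ (pW i)).2.1, cG, h7]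
        exact ⟨rfl, rfl⟩
    rw [Nat.add_sub_cancel' k1] at h1 h2
    exact ⟨c k, ((k - b (c k) : ℕ) : ℚ), k6, cG k, h1, h2⟩

end

section


theorem rb5b : RB5b_st := by
  intro X t R g δ H hk G y1 y2 hG hG' hy
  have hex : ∀ w, ∃ a, kb X R g w = 1 → X.filter (fun a => bd R g a w) = {a} := by
    intro w
    by_cases h : kb X R g w = 1
    · obtain ⟨a, ha⟩ := Finset.card_eq_one.1 ((card_Rb5 H w).trans h)
      exact ⟨a, fun _ => ha⟩
    · exact ⟨w, fun h' => absurd h' h⟩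
  choose F hF using hex
  have hF1 : ∀ w, kb X R g w = 1 → F w ∈ X ∧ bd R g (F w) w := by
    intro w h
    have : F w ∈ X.filter (fun a => bd R g a w) := by
      rw [hF w h]; exact Finset.mem_singleton_self _
    exact Finset.mem_filter.1 this
  have hF2 : ∀ w ∈ X, kb X R g w = 1 → kb X R g (F w) = 1 ∧ dg X g (F w) ≤ 3 := by
    intro w hw h
    rcases hk (F w) (hF1 w h).1 with h1 | h1
    · have h2 : w ∈ X.filter (bd R g (F w)) := Finset.mem_filter.2 ⟨hw, (hF1 w h).2⟩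
      have h3 : X.filter (bd R g (F w)) = ∅ := Finset.card_eq_zero.1 h1.1
      rw [h3] at h2
      exact absurd h2 (Finset.notMem_empty _)
    · exact h1
  have hF3 : ∀ w ∈ X, kb X R g w = 1 → X.filter (bd R g (F w)) = {w} := by
    intro w hw h
    obtain ⟨a, ha⟩ := Finset.card_eq_one.1 (hF2 w hw h).1
    have h2 : w ∈ X.filter (bd R g (F w)) := Finset.mem_filter.2 ⟨hw, (hF1 w h).2⟩
    rw [ha] at h2 ⊢
    rw [Finset.mem_singleton.1 h2]
  refine ⟨F, fun w hw => ?_, fun w hw w' hw' e => ?_, ?_, fun w hw => ?_, fun a b hab => ?_⟩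
  · obtain ⟨hw, h⟩ := Finset.mem_filter.1 hw
    have hR : R w (F w) := H.Rsymm (hF1 w h).2.1
    refine ⟨Finset.mem_filter.2 ⟨(hF1 w h).1, (hF2 w hw h).1⟩, hR, ?_⟩
    have h1 := key_Rb5 H (G (F w)) (F w)
    rw [hF3 w hw h, hF (F w) (hF2 w hw h).1, Finset.sum_singleton, Finset.sum_singleton] at h1
    have h2 : ∑ q ∈ D2 X (g (F w)), G (F w) q.2 =
        ∑ q ∈ D2 X (g (F w)), G (F w) q.1 + (dg X g (F w) : ZMod 6) := by
      unfold dg
      rw [Finset.card_eq_sum_ones, Nat.cast_sum, ← Finset.sum_add_distrib]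
      refine Finset.sum_congr rfl fun q hq => ?_
      rw [memD_Rb5 H] at hq
      have e1 := hG _ _ _ hq
      have e2 := hG _ _ _ (H.grot hq)
      have e3 := hG' _ _ (H.gR (H.grot (H.grot hq)))
      have e4 : (6 : ZMod 6) = 0 := rfl
      rw [e3, e2, e1]
      push_cast
      linear_combination e4
    have h3 := hG' _ _ hR
    rw [Nat.cast_sub (hF2 w hw h).2]
    push_cast
    linear_combination h3 - h1 - h2
  · obtain ⟨hw, h⟩ := Finset.mem_filter.1 (Finset.mem_coe.1 hw)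
    obtain ⟨hw', h'⟩ := Finset.mem_filter.1 (Finset.mem_coe.1 hw')
    have h1 := hF3 w hw h
    rw [e, hF3 w' hw' h'] at h1
    exact (Finset.singleton_injective h1).symm
  · have h1 := stokes_Rb5 H (fun a b => y1 a * y2 b - y2 a * y1 b) (fun a b => by ring)
    have h2 : ∑ q ∈ T3 X g, ((y1 q.1 * y2 q.2.1 - y2 q.1 * y1 q.2.1) +
        (y1 q.2.1 * y2 q.2.2 - y2 q.2.1 * y1 q.2.2) + (y1 q.2.2 * y2 q.1 - y2 q.2.2 * y1 q.1)) =
        ((T3 X g).card : ℚ) := by
      rw [Finset.card_eq_sum_ones, Nat.cast_sum]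
      refine Finset.sum_congr rfl fun q hq => ?_
      rw [memT_Rb5 H] at hq
      obtain ⟨a1, a2⟩ := hy _ _ (H.gR hq)
      obtain ⟨b1, b2⟩ := hy _ _ (H.gR (H.grot hq))
      rw [hG _ _ _ hq] at b1 b2
      have e := det_Rb5 (G q.1 q.2.1)
      rw [b1, b2, a1, a2]
      push_cast
      linear_combination e
    rw [← h2, h1, Finset.sum_filter]
    congr 1
    refine Finset.sum_congr rfl fun w hw => ?_
    split_ifs with h
    · rw [hF w h, Finset.sum_singleton]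
    · have h3 : X.filter (fun a => bd R g a w) = ∅ := by
        rw [← Finset.card_eq_zero, card_Rb5 H]
        rcases hk w hw with h4 | h4
        · exact h4.1
        · exact absurd h4.1 h
      rw [h3, Finset.sum_empty]
  · exact (hF1 w (Finset.mem_filter.1 hw).2).2
  · have hb : b ∈ X := rmem_Rb5 H hab.1
    have ha : a ∈ X := rmem_Rb5 H (H.Rsymm hab.1)
    have hm : b ∈ X.filter (fun x => bd R g x a) := Finset.mem_filter.2 ⟨hb, hab⟩
    have h1 : kb X R g a = 1 := by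
      rcases hk a ha with h4 | h4
      · have h3 : X.filter (fun x => bd R g x a) = ∅ := by
          rw [← Finset.card_eq_zero, card_Rb5 H]
          exact h4.1
        rw [h3] at hm
        exact absurd hm (Finset.notMem_empty _)
      · exact h4.1
    refine ⟨Finset.mem_filter.2 ⟨ha, h1⟩, ?_⟩
    rw [hF a h1] at hm
    exact Finset.mem_singleton.1 hm

end

section


theorem rot1_Dev1 : ∀ i k : ZMod 6, e1 i * e2 (k + 1) - e2 i * e1 (k + 1) = e1 (i - k) := by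
  decide +kernel

theorem rot2_Dev1 : ∀ i k : ZMod 6, e1 k * e2 i - e2 k * e1 i = e2 (i - k) := by
  decide +kernel

theorem evq_Dev1 : (e1 ((0 : ℕ) : ZMod 6) = 1 ∧ e2 ((0 : ℕ) : ZMod 6) = 0) ∧
    (e1 ((1 : ℕ) : ZMod 6) = 0 ∧ e2 ((1 : ℕ) : ZMod 6) = 1) ∧
    (e1 ((2 : ℕ) : ZMod 6) = -1 ∧ e2 ((2 : ℕ) : ZMod 6) = 1) ∧
    (e1 ((3 : ℕ) : ZMod 6) = -1 ∧ e2 ((3 : ℕ) : ZMod 6) = 0) ∧
    (e1 ((4 : ℕ) : ZMod 6) = 0 ∧ e2 ((4 : ℕ) : ZMod 6) = -1) ∧
    (e1 ((5 : ℕ) : ZMod 6) = 1 ∧ e2 ((5 : ℕ) : ZMod 6) = -1) := by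
  decide +kernel

/-- the six supporting lines of the hexagon -/
theorem sup_Dev1 (a : ℕ → ℕ) (b1 : a 0 + a 5 = a 2 + a 3) (b2 : a 1 + a 2 = a 4 + a 5)
    (S U : ℕ → ℚ) (hS : S 0 = a 5) (hU : U 0 = 0)
    (hz : ∀ j < 5, S (j + 1) = S j + a j * e1 (j : ZMod 6) ∧
      U (j + 1) = U j + a j * e2 (j : ZMod 6)) (j : ℕ) (hj : j < 6) (p : ℤ × ℤ)
    (hp : p ∈ HF (a 0 + a 5) (a 1 + a 2) (a 5) (a 2)) :
    0 ≤ e1 (j : ZMod 6) * ((p.2 : ℚ) - U j) - e2 (j : ZMod 6) * ((p.1 : ℚ) - S j) := by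
  obtain ⟨⟨u0, v0⟩, ⟨u1, v1⟩, ⟨u2, v2⟩, ⟨u3, v3⟩, ⟨u4, v4⟩, ⟨u5, v5⟩⟩ := evq_Dev1
  obtain ⟨p1, p2, p3, p4, p5, p6⟩ := mem_HF.1 hp
  have q1 : (0 : ℚ) ≤ p.1 := by exact_mod_cast p1
  have q2 : (p.1 : ℚ) ≤ a 0 + a 5 := by exact_mod_cast p2
  have q3 : (0 : ℚ) ≤ p.2 := by exact_mod_cast p3
  have q4 : (p.2 : ℚ) ≤ a 1 + a 2 := by exact_mod_cast p4
  have q5 : (a 5 : ℚ) ≤ p.1 + p.2 := by exact_mod_cast p5
  have q6 : (p.1 : ℚ) + p.2 + a 2 ≤ (a 0 + a 5) + (a 1 + a 2) := by exact_mod_cast p6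
  have r1 : (a 0 + a 5 : ℚ) = a 2 + a 3 := by exact_mod_cast b1
  have r2 : (a 1 + a 2 : ℚ) = a 4 + a 5 := by exact_mod_cast b2
  obtain ⟨s1, t1⟩ := hz 0 (by omega)
  obtain ⟨s2, t2⟩ := hz 1 (by omega)
  obtain ⟨s3, t3⟩ := hz 2 (by omega)
  obtain ⟨s4, t4⟩ := hz 3 (by omega)
  obtain ⟨s5, t5⟩ := hz 4 (by omega)
  rw [u0] at s1
  rw [v0] at t1
  rw [u1] at s2
  rw [v1] at t2
  rw [u2] at s3
  rw [v2] at t3
  rw [u3] at s4
  rw [v3] at t4
  rw [u4] at s5
  rw [v4] at t5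
  norm_num at s1 t1 s2 t2 s3 t3 s4 t4 s5 t5
  interval_cases j
  · rw [u0, v0]
    linarith
  · rw [u1, v1]
    linarith
  · rw [u2, v2]
    linarith
  · rw [u3, v3]
    linarith
  · rw [u4, v4]
    linarith
  · rw [u5, v5]
    linarith

theorem dev1 (h5 : RB5b_st) (h6 : L6b_st) : DEV1_st := by
  intro X t R g δ hX hconn hexa hchi hne hDel hdeg
  obtain ⟨c1, c2, c3, -⟩ := cnt X t R g δ hX
  obtain ⟨hR, hdeg2, hstr⟩ :=
    rb1 (lc mid) (an2 mid angs) cnt X t R g δ hX hconn hne (by linarith) hdeg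
  obtain ⟨G, φ, hG1, hG2, -⟩ := rb3 angs X t R g δ hX hDel hR hstr
  have hRX : ∀ a b, R a b → a ∈ X ∧ R b a := by
    intro a b h
    refine ⟨?_, hX.Rsymm h⟩
    obtain ⟨c, hc⟩ | ⟨c, hc⟩ := hX.RE h
    · exact hX.tri.mem hc
    · exact hX.tri.mem (hX.tri.rot hc)
  have hgR : ∀ a b c, g a b c → R a b ∧ g b c a := fun a b c h => ⟨hX.gR h, hX.grot h⟩
  have huq : ∀ a b c c', g a b c → g a b c' → c = c' := fun a b c c' h h' =>
    hX.tri.uniq (hX.gt h) (hX.gt h')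
  obtain ⟨y1, hy1⟩ := pot X R g hRX hgR huq hexa (fun a b => e1 (G a b))
    (fun a b h => by rw [hG2 a b h, e1_three_Rig])
    (fun a b c h => by rw [hG1 b c a (hX.grot h), hG1 a b c h, e1_sum_Rig])
  obtain ⟨y2, hy2⟩ := pot X R g hRX hgR huq hexa (fun a b => e2 (G a b))
    (fun a b h => by rw [hG2 a b h, e2_three_Rig])
    (fun a b c h => by rw [hG1 b c a (hX.grot h), hG1 a b c h, e2_sum_Rig])
  obtain ⟨F, hF1, hF2, hF3, hF4, hF5⟩ := h5 X t R g δ hX hdeg2 G y1 y2 hG1 hG2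
    fun a b h => ⟨hy1 a b h, hy2 a b h⟩
  set W : Finset ℂ := X.filter fun w => kb X R g w = 1 with hW
  have s1 : ∑ w ∈ W, (3 - dg X g w) + ∑ w ∈ X, dg X g w + 3 * ∑ w ∈ X, kb X R g w =
      6 * X.card := by
    rw [hW, Finset.sum_filter, Finset.mul_sum, ← Finset.sum_add_distrib, ← Finset.sum_add_distrib,
      Finset.card_eq_sum_ones, Finset.mul_sum]
    refine Finset.sum_congr rfl fun w hw => ?_
    rcases hdeg2 w hw with ⟨a1, a2⟩ | ⟨a1, a2⟩
    · rw [if_neg (by omega)]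
      omega
    · rw [if_pos a1]
      omega
  have s2 : W.card = ∑ w ∈ X, kb X R g w := by
    rw [hW, Finset.card_filter]
    refine Finset.sum_congr rfl fun w hw => ?_
    rcases hdeg2 w hw with ⟨a1, -⟩ | ⟨a1, -⟩
    · rw [if_neg (by omega), a1]
    · rw [if_pos a1, a1]
  have s3 : 6 * X.card = 6 + 3 * (D2 X (bd R g)).card + (T3 X g).card := by
    unfold chi6 at hchi
    omega
  have s4 : ∑ w ∈ W, (3 - dg X g w) = 6 := by omega
  obtain ⟨a, G0, z, b1, b2, b3, b4, b5, b6, b7⟩ := h6 W F (fun w => G w (F w))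
    (fun w => 3 - dg X g w) y1 y2 (fun w hw => (hF1 w hw).1) hF2
    (fun w hw => ⟨hy1 _ _ (hF1 w hw).2.1, hy2 _ _ (hF1 w hw).2.1, (hF1 w hw).2.2⟩) s4
  have hb : (D2 X (bd R g)).card = a 0 + a 1 + a 2 + a 3 + a 4 + a 5 := by omega
  have hn : 2 * X.card + a 5 * (a 5 + 1) + a 2 * (a 2 + 1) =
      2 * (a 0 + a 5 + 1) * (a 1 + a 2 + 1) := by
    rw [b4] at hF3
    have q1 : (6 * X.card : ℚ) = 6 + 3 * (a 0 + a 1 + a 2 + a 3 + a 4 + a 5) + (T3 X g).card := by
      rw [hb] at s3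
      exact_mod_cast s3
    have q2 : (a 0 + a 5 : ℚ) = a 2 + a 3 := by exact_mod_cast b1
    have q3 : (a 1 + a 2 : ℚ) = a 4 + a 5 := by exact_mod_cast b2
    have q4 : (2 * X.card + a 5 * (a 5 + 1) + a 2 * (a 2 + 1) : ℚ) =
        2 * (a 0 + a 5 + 1) * (a 1 + a 2 + 1) := by
      linear_combination (1 / 3) * q1 - (1 / 3) * hF3 - q2 - q3
    exact_mod_cast q4
  have hzX : ∀ j, z j ∈ X := fun j => (Finset.mem_filter.1 (b5 j)).1
  obtain ⟨S, hS⟩ : ∃ S : ℂ → ℚ, ∀ x, S x = a 5 + (y1 x - y1 (z 0)) * e2 (G0 + 1) -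
    (y2 x - y2 (z 0)) * e1 (G0 + 1) := ⟨_, fun _ => rfl⟩
  obtain ⟨U, hU⟩ : ∃ U : ℂ → ℚ, ∀ x, U x = e1 G0 * (y2 x - y2 (z 0)) -
    e2 G0 * (y1 x - y1 (z 0)) := ⟨_, fun _ => rfl⟩
  have mv : ∀ (x x' : ℂ) (s : ℚ) (i : ZMod 6), y1 x' = y1 x + s * e1 i → y2 x' = y2 x + s * e2 i →
      S x' = S x + s * e1 (i - G0) ∧ U x' = U x + s * e2 (i - G0) := by
    intro x x' s i k1 k2
    rw [hS x', hS x, hU x', hU x, k1, k2, ← rot1_Dev1, ← rot2_Dev1]
    constructor <;> ring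
  have st : ∀ x x', R x x' → S x' = S x + ((ev (G x x' - G0)).1 : ℤ) ∧
      U x' = U x + ((ev (G x x' - G0)).2 : ℤ) := by
    intro x x' h
    have := mv x x' 1 (G x x') (by rw [hy1 x x' h, one_mul]) (by rw [hy2 x x' h, one_mul])
    rwa [one_mul, one_mul, ← (ev_cast _).1, ← (ev_cast _).2] at this
  have S0 : S (z 0) = a 5 := by rw [hS]; ring
  have U0 : U (z 0) = 0 := by rw [hU]; ring
  have hint : ∀ x ∈ X, ∃ m n : ℤ, S x = m ∧ U x = n := by
    intro x hx
    refine hconn (fun x => ∃ m n : ℤ, S x = m ∧ U x = n) ?_ _ (hzX 0) x hx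
      ⟨a 5, 0, by rw [S0]; simp, by rw [U0]; simp⟩
    rintro u v h ⟨m, n, hm, hn⟩
    refine ⟨m + (ev (G u v - G0)).1, n + (ev (G u v - G0)).2, ?_, ?_⟩
    · rw [(st u v h).1, hm, Int.cast_add]
    · rw [(st u v h).2, hn, Int.cast_add]
  obtain ⟨y, hy⟩ : ∃ y : ℂ → ℤ × ℤ, ∀ x ∈ X, ((y x).1 : ℚ) = S x ∧ ((y x).2 : ℚ) = U x := by
    refine ⟨fun x => (⌊S x⌋, ⌊U x⌋), fun x hx => ?_⟩
    obtain ⟨m, n, hm, hn⟩ := hint x hx
    simp only [hm, hn, Int.floor_intCast, and_self]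
  refine ⟨a 0 + a 5, a 1 + a 2, a 5, a 2, fun u v => G u v - G0, y,
    ⟨by omega, by omega, by omega, by omega, by omega, hn⟩, ?_, ?_, ?_, hR, hdeg2, ?_, ?_, ?_, ?_⟩
  · intro u v w h
    rw [hG1 u v w h]
    ring
  · intro u v h
    rw [hG2 u v h]
    ring
  · intro u v h
    have hu := hy u (hRX u v h).1
    have hv := hy v (hRX v u (hRX u v h).2).1
    obtain ⟨k1, k2⟩ := st u v h
    rw [← hu.1, ← hv.1] at k1
    rw [← hu.2, ← hv.2] at k2
    refine Prod.ext ?_ ?_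
    · rw [Prod.fst_add]
      exact_mod_cast k1
    · rw [Prod.snd_add]
      exact_mod_cast k2
  · intro u v h p hp
    obtain ⟨hu, rfl⟩ := hF5 u v h
    obtain ⟨j, s, hj, k0, k1, k2⟩ := b7 u hu
    obtain ⟨k3, k4⟩ := mv (z j) u s _ k1 k2
    have k5 : G u (F u) - G0 = (j : ZMod 6) := by
      rw [show G u (F u) = G0 + (j : ZMod 6) from k0]
      ring
    rw [add_sub_cancel_left] at k3 k4
    have k6 := sup_Dev1 a b1 b2 (fun j => S (z j)) (fun j => U (z j)) S0 U0 (fun j hj => by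
      have := mv (z j) (z (j + 1)) (a j) _ (b6 j hj).1 (b6 j hj).2
      rwa [add_sub_cancel_left] at this) j hj p hp
    obtain ⟨k7, k8⟩ := hy u (Finset.mem_filter.1 hu).1
    have k9 : (0 : ℚ) ≤ ((cr (ev (j : ZMod 6)) (p - y u) : ℤ) : ℚ) := by
      simp only [cr, Prod.fst_sub, Prod.snd_sub]
      push_cast
      rw [(ev_cast _).1, (ev_cast _).2, k7, k8, k3, k4]
      linarith
    rw [k5]
    exact_mod_cast k9
  · intro u v w h h'
    obtain ⟨hu, rfl⟩ := hF5 u v h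
    obtain ⟨-, rfl⟩ := hF5 _ w h'
    rw [(hF1 u hu).2.2]
    ring
  · intro u v h
    obtain ⟨hu, rfl⟩ := hF5 u v h
    exact ⟨_, hF4 _ (hF1 u hu).1⟩
  · refine ⟨z 0, hzX 0, Prod.ext ?_ ?_⟩
    · have := (hy _ (hzX 0)).1
      rw [S0] at this
      exact_mod_cast this
    · have := (hy _ (hzX 0)).2
      rw [U0] at this
      exact_mod_cast this

end

section


theorem seven_Fav : ∀ x : ZMod 6, x + 2 + 2 + 3 = x + 1 := by decide

theorem turn_Fav : ∀ x : ZMod 6, ∀ d : ℕ, d ≤ 3 →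
    x + 3 + ((3 - d : ℕ) : ZMod 6) + (d : ZMod 6) = x := by decide

theorem ne_Fav : ∀ x : ZMod 6, ∀ d : ℕ, d ≤ 3 → ∀ o : ℕ, o < d →
    x + (o : ZMod 6) ≠ x + (d : ZMod 6) := by decide

theorem fav : FAV_st := by
  intro X t R g δ H α β c c' G y hD w hw
  have hs : ∀ a b, g w a b → R w b ∧ G w b = G w a + 1 := fun a b h => by
    have h2 := H.gR (H.grot (H.grot h))
    exact ⟨H.Rsymm h2, by rw [hD.rev _ _ h2, hD.tri _ _ _ (H.grot h), hD.tri _ _ _ h, seven_Fav]⟩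
  have hm : ∀ b, R w b → (¬ ∃ e, g w b e) → b ∈ X.filter (bd R g w) := fun b h h' => by
    refine Finset.mem_filter.2 ⟨?_, h, h'⟩
    rcases H.RE h with ⟨e, he⟩ | ⟨e, he⟩
    · exact H.tri.mem (H.tri.rot he)
    · exact H.tri.mem he
  rcases hD.deg w hw with ⟨h0, h6⟩ | ⟨h1, h3⟩
  · left
    obtain ⟨q, hq⟩ : (D2 X (g w)).Nonempty := Finset.card_pos.1 (by rw [dg] at h6; omega)
    rw [memD_Rb5 H] at hq
    have h7 : X.filter (bd R g w) = ∅ := Finset.card_eq_zero.1 h0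
    have key : ∀ o : ℕ, ∃ a b, g w a b ∧ G w a = G w q.1 + (o : ZMod 6) := fun o => by
      induction o with
      | zero => exact ⟨_, _, hq, by rw [Nat.cast_zero, add_zero]⟩
      | succ o ih =>
        obtain ⟨a, b, h, e⟩ := ih
        by_cases h8 : ∃ e, g w b e
        · obtain ⟨f, hf⟩ := h8
          exact ⟨b, f, hf, by rw [(hs a b h).2, e, Nat.cast_succ, add_assoc]⟩
        · have := hm b (hs a b h).1 h8
          rw [h7] at this
          exact absurd this (Finset.notMem_empty _)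
    intro i
    obtain ⟨a, b, h, e⟩ := key (i - G w q.1).val
    exact ⟨a, b, h, by rw [e, ZMod.natCast_zmod_val, add_sub_cancel]⟩
  · right
    obtain ⟨a, ha⟩ := Finset.card_eq_one.1 h1
    have hb : bd R g w a := (Finset.mem_filter.1 (ha ▸ Finset.mem_singleton_self a :
      a ∈ X.filter (bd R g w))).2
    obtain ⟨e, he⟩ := hD.nxt _ _ hb
    obtain ⟨f, hf⟩ := (hD.side _ _ he.1).resolve_left he.2
    have hr := hD.rev _ _ hb.1
    have hj : G w e + (dg X g w : ZMod 6) = G w a := by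
      rw [hD.turn _ _ _ hb he, hr, turn_Fav _ _ h3]
    refine ⟨G w e, dg X g w, Finset.card_pos.2 ⟨(e, f), (memD_Rb5 H w _).2 hf⟩, h3, fun o => ?_,
      fun p hp => ⟨hD.sup _ _ he p hp, ?_⟩⟩
    · induction o with
      | zero => exact fun _ => ⟨_, _, hf, by rw [Nat.cast_zero, add_zero]⟩
      | succ o ih =>
        intro ho
        obtain ⟨a', b, h, e'⟩ := ih (by omega)
        have e2 : G w b = G w e + ((o + 1 : ℕ) : ZMod 6) := by
          rw [(hs a' b h).2, e', Nat.cast_succ, add_assoc]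
        by_cases h8 : ∃ e, g w b e
        · obtain ⟨f', hf'⟩ := h8
          exact ⟨b, f', hf', e2⟩
        · have h9 := hm b (hs a' b h).1 h8
          rw [ha, Finset.mem_singleton] at h9
          rw [h9, ← hj] at e2
          exact absurd e2.symm (ne_Fav _ _ h3 _ ho)
    · have h4 := hD.sup _ _ hb p hp
      rw [hj, ← hr, hD.step _ _ (H.Rsymm hb.1)]
      refine h4.trans_eq ?_
      simp only [cr, Prod.fst_sub, Prod.snd_sub, Prod.fst_add, Prod.snd_add]
      ring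

end

section


/-- the norm form of the lattice -/
def Q_Dev2 (v : ℤ × ℤ) : ℤ := v.1 ^ 2 + v.1 * v.2 + v.2 ^ 2

/-- its polar form -/
def B_Dev2 (v e : ℤ × ℤ) : ℤ := 2 * v.1 * e.1 + v.1 * e.2 + v.2 * e.1 + 2 * v.2 * e.2

theorem unit_Dev2 : ∀ i : ZMod 6, Q_Dev2 (ev i) = 1 := by decide

theorem sub_Dev2 (v : ℤ × ℤ) (i : ZMod 6) :
    Q_Dev2 (v - ev i) = Q_Dev2 v - B_Dev2 v (ev i) + 1 := by
  rw [← unit_Dev2 i]
  simp only [Q_Dev2, B_Dev2, Prod.fst_sub, Prod.snd_sub]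
  ring

theorem inn_Dev2 (v : ℤ × ℤ) (h : ∀ i, B_Dev2 v (ev i) < 2) : v = 0 := by
  have h0 := h 0
  have h1 := h 1
  have h2 := h 2
  have h3 := h 3
  have h4 := h 4
  have h5 := h 5
  simp +decide only [ev, B_Dev2, ↓reduceIte] at h0 h1 h2 h3 h4 h5
  exact Prod.ext (by simp only [Prod.fst_zero]; omega) (by simp only [Prod.snd_zero]; omega)

theorem bdy_Dev2 (v : ℤ × ℤ) (j : ZMod 6) (d : ℕ) (d1 : 1 ≤ d) (d3 : d ≤ 3)
    (c1 : 0 ≤ cr (ev j) v) (c2 : 0 ≤ cr (ev (j + (d : ZMod 6) + 3)) v)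
    (h : ∀ o : ℕ, o ≤ d → B_Dev2 v (ev (j + (o : ZMod 6))) < 2) : v = 0 := by
  have h0 := h 0
  have h1 := h 1
  have h2 := h 2
  have h3 := h 3
  clear h
  rcases cases_Rig j with rfl | rfl | rfl | rfl | rfl | rfl <;> interval_cases d <;>
    simp +decide only [ev, cr, B_Dev2, ↓reduceIte, forall_const, false_imp_iff]
      at h0 h1 h2 h3 c1 c2 <;>
    exact Prod.ext (by simp only [Prod.fst_zero]; omega) (by simp only [Prod.snd_zero]; omega)

theorem fin_Dev2 : ∀ j i : ZMod 6, ∀ d < 4, 1 ≤ d → 0 ≤ cr (ev j) (ev i) →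
    0 ≤ cr (ev j) (ev (i + 1)) → 0 ≤ cr (ev (j + (d : ℕ) + 3)) (ev i) →
    0 ≤ cr (ev (j + (d : ℕ) + 3)) (ev (i + 1)) → ∃ o < d, i = j + (o : ℕ) := by
  intro j i d h1 h2
  interval_cases d <;> revert j i <;> decide +kernel

theorem tri_Dev2 {X : Finset ℂ} {t g : ℂ → ℂ → ℂ → Prop} {R : ℂ → ℂ → Prop} {δ : ℂ → ℂ → ℂ → ℝ}
    (H : Cx X t R g δ) {α β c c' : ℕ} {G : ℂ → ℂ → ZMod 6} {y : ℂ → ℤ × ℤ}
    (V : Dev X R g α β c c' G y) {w a b : ℂ} (h : g w a b) :
    (a ∈ X ∧ y a = y w + ev (G w a)) ∧ b ∈ X ∧ y b = y w + ev (G w a + 1) := by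
  have h1 := H.gR (H.grot (H.grot h))
  refine ⟨⟨(gmem_Rb5 H h).2.1, V.step _ _ (H.gR h)⟩, (gmem_Rb5 H h).2.2, ?_⟩
  rw [V.step _ _ (H.Rsymm h1), V.rev _ _ h1, V.tri _ _ _ (H.grot h), V.tri _ _ _ h, add_assoc,
    add_assoc]
  rfl

theorem dev2 (hF : FAV_st) : DEV2_st := by
  intro X t R g δ H α β c c' G y p hD V
  have onto : HF α β c c' ⊆ X.image y := by
    intro q hq
    obtain ⟨z, hz, -⟩ := V.base
    obtain ⟨x, hx, hmin⟩ := X.exists_min_image (fun x => Q_Dev2 (q - y x)) ⟨z, hz⟩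
    refine Finset.mem_image.2 ⟨x, hx, (sub_eq_zero.1 ?_).symm⟩
    have key : ∀ i a, a ∈ X ∧ y a = y x + ev i → B_Dev2 (q - y x) (ev i) < 2 := by
      rintro i a ⟨ha, e⟩
      have := hmin a ha
      rw [e, ← sub_sub, sub_Dev2] at this
      omega
    rcases hF X t R g δ H α β c c' G y V x hx with h | ⟨j, d, d1, d3, h, hc⟩
    · refine inn_Dev2 _ fun i => ?_
      obtain ⟨a, b, h1, rfl⟩ := h i
      exact key _ a (tri_Dev2 H V h1).1
    · refine bdy_Dev2 _ j d d1 d3 (hc q hq).1 (hc q hq).2 fun o ho => ?_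
      rcases ho.lt_or_eq with ho | rfl
      · obtain ⟨a, b, h1, h2⟩ := h o ho
        exact key _ a (h2 ▸ (tri_Dev2 H V h1).1)
      · obtain ⟨o, rfl⟩ := Nat.exists_eq_add_of_le' d1
        obtain ⟨a, b, h1, h2⟩ := h o o.lt_succ_self
        rw [Nat.cast_succ, ← add_assoc]
        exact key _ b (h2 ▸ (tri_Dev2 H V h1).2)
  have hc : X.card ≤ (HF α β c c').card := by
    obtain ⟨Y, h1, h2⟩ := cnt_Uba α β c c' X.card hD.2.2.2.2.2.le
    rw [← h1]
    refine Finset.card_le_card_of_injOn (fun q => ((q.1 : ℤ), (q.2 : ℤ))) (fun q hq => ?_)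
      fun q _ q' _ e => ?_
    · have := h2 q hq
      simp only [Finset.mem_coe, mem_HF]
      omega
    · simp only [Prod.mk.injEq, Nat.cast_inj] at e
      exact Prod.ext e.1 e.2
  have himg := Finset.eq_of_subset_of_card_le onto (Finset.card_image_le.trans hc)
  have hB : Set.BijOn y X (HF α β c c') := by
    rw [himg, Finset.coe_image]
    exact (Finset.card_image_iff.1 (le_antisymm Finset.card_image_le
      (hc.trans (Finset.card_le_card onto)))).bijOn_image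
  have hI := hB.invOn_invFunOn
  have hB' := Set.BijOn.symm hI.symm hB
  refine ⟨_, hB', fun q hq i h1 h2 => ?_⟩
  have hx := hB'.mapsTo hq
  have hy := hI.2 hq
  have main : ∃ a b, g (Function.invFunOn y X q) a b ∧ G (Function.invFunOn y X q) a = i := by
    rcases hF X t R g δ H α β c c' G y V _ hx with h | ⟨j, d, d1, d3, h, hc⟩
    · exact h i
    · have c1 := hc _ h1
      have c2 := hc _ h2
      rw [hy, add_sub_cancel_left] at c1 c2
      obtain ⟨o, ho, rfl⟩ := fin_Dev2 j i d (by omega) d1 c1.1 c2.1 c1.2 c2.2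
      exact h o ho
  obtain ⟨a, b, h3, h4⟩ := main
  obtain ⟨⟨a1, a2⟩, b1, b2⟩ := tri_Dev2 H V h3
  rw [hy, h4] at a2 b2
  rw [← a2, ← b2, hI.1 a1, hI.1 b1]
  exact h3

end

section


theorem alg_Loc {P Q R d t r N : ℝ} (hr : r ^ 2 = 3) (r1 : 1.732 < r) (r2 : r < 1.7321)
    (p1 : 4 ≤ P) (q1 : 4 ≤ Q) (s1 : 4 ≤ R) (p2 : P < 8) (q2 : Q < 8) (s2 : R < 8)
    (t0 : 0 ≤ t) (t1 : t < 1 / 2) (hd : d = 2 * r + 4 * (2 - r) * t)
    (he : 4 * d ^ 2 = 2 * P * Q + 2 * Q * R + 2 * R * P - P ^ 2 - Q ^ 2 - R ^ 2)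
    (hN : N = (P + Q + R) / 2 - r * d) :
    N ≤ (7 / 3 * t) ^ 2 ∧ P ≤ (2 + 2 * t) ^ 2 ∧ R ≤ (2 + 2 * t) ^ 2 := by
  obtain ⟨u, rfl⟩ : ∃ u, P = 4 + u := ⟨P - 4, by ring⟩
  obtain ⟨v, rfl⟩ : ∃ v, Q = 4 + v := ⟨Q - 4, by ring⟩
  obtain ⟨w, rfl⟩ : ∃ w, R = 4 + w := ⟨R - 4, by ring⟩
  have u0 : 0 ≤ u := by linarith
  have v0 : 0 ≤ v := by linarith
  have w0 : 0 ≤ w := by linarith
  have uv := mul_nonneg u0 v0
  have vw := mul_nonneg v0 w0
  have wu := mul_nonneg w0 u0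
  have h1 : 12 + (u + v + w) ≤ d ^ 2 := by
    have a1 := mul_nonneg u0 (by linarith : 0 ≤ 4 - u)
    have a2 := mul_nonneg v0 (by linarith : 0 ≤ 4 - v)
    have a3 := mul_nonneg w0 (by linarith : 0 ≤ 4 - w)
    nlinarith
  have h2 : d ^ 2 = 12 + 8 * t - 8 * (7 - 4 * r) * (t * (1 - 2 * t)) := by
    rw [hd]
    linear_combination (4 - 16 * t + 16 * t ^ 2) * hr
  have h3 : u + v + w ≤ 8 * t := by
    have a1 := mul_nonneg (by linarith : 0 ≤ 7 - 4 * r) (mul_nonneg t0 (by linarith : 0 ≤ 1 - 2 * t))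
    nlinarith
  have h4 : N * ((4 + u + (4 + v) + (4 + w)) / 2 + r * d) =
      u ^ 2 + v ^ 2 + w ^ 2 - u * v - v * w - w * u := by
    rw [hN]
    linear_combination (-d ^ 2) * hr - 3 / 4 * he
  have h5 : 12 ≤ (4 + u + (4 + v) + (4 + w)) / 2 + r * d := by
    have a1 := mul_nonneg (mul_nonneg (by linarith : 0 ≤ r) (by linarith : 0 ≤ 2 - r)) t0
    rw [hd]
    nlinarith
  have h6 : (u + v + w) ^ 2 ≤ (8 * t) ^ 2 := pow_le_pow_left₀ (by linarith) h3 2
  refine ⟨?_, by nlinarith, by nlinarith⟩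
  by_contra hc
  have h7 : 0 ≤ N := le_trans (sq_nonneg _) (not_le.1 hc).le
  have h8 := mul_le_mul_of_nonneg_left h5 h7
  have h9 := sq_nonneg t
  nlinarith

theorem loc : LOC_st := by
  intro a b c h0 h1 h2 h3 h4 hd
  have hk : ¬ (8 ≤ dist a b ^ 2 ∨ 8 ≤ dist b c ^ 2 ∨ 8 ≤ dist c a ^ 2) := fun h =>
    absurd (sta a b c h0 h1 h2 h3 h4 h) (not_le.2 hd)
  simp only [not_or, not_le] at hk
  obtain ⟨k1, k2, k3⟩ := hk
  have z : ∀ x y : ℂ, dist x y ^ 2 < 8 → cap x y = 0 := fun x y h => by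
    rw [cap, max_eq_right (by linarith), min_eq_left (by norm_num), mul_zero]
  have hr : √3 ^ 2 = (3 : ℝ) := sq_sqrt (by norm_num)
  have t0 : 0 ≤ dl a b c := (abs_nonneg _).trans (sti_all a b c h0 h1 h2 h3 h4)
  have e1 : D a b c = 2 * √3 + 4 * (2 - √3) * dl a b c := by
    have := nu_pos
    rw [dl, z _ _ k1, z _ _ k2, z _ _ k3, show (2 : ℝ) - √3 = nu from rfl]
    field_simp
    ring
  obtain ⟨a1, a2, a3⟩ := alg_Loc (N := ‖c - a - om * (b - a)‖ ^ 2) hr sqrt3_bounds.1 sqrt3_bounds.2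
    (by nlinarith) (by nlinarith) (by nlinarith) k1 k2 k3 t0 hd e1
    (by simp only [sq_Stl, D]; ring)
    (by
      rw [Complex.sq_norm, Complex.normSq_apply]
      simp only [sq_Stl, D, om, Complex.sub_re, Complex.sub_im, Complex.mul_re, Complex.mul_im]
      linear_combination (((b.re - a.re) ^ 2 + (b.im - a.im) ^ 2) / 4) * hr)
  exact ⟨le_of_sq_le_sq a1 (by positivity), le_of_sq_le_sq a2 (by positivity),
    le_of_sq_le_sq a3 (by positivity)⟩

end

section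


/-- the directions allowed by six conditions in cyclic order -/
def av_Fan (b0 b1 b2 b3 b4 b5 : Bool) (i : ZMod 6) : Bool :=
  bif decide (i.val = 0) then b0 && b1 else bif decide (i.val = 1) then b1 && b2 else
    bif decide (i.val = 2) then b2 && b3 else bif decide (i.val = 3) then b3 && b4 else
      bif decide (i.val = 4) then b4 && b5 else b5 && b0

theorem bool_Fan : ∀ b0 b1 b2 b3 b4 b5 : Bool, ((b0 || b3) && (b1 || b4) && (b2 || b5) &&
    (!b0 || b5 || b1) && (!b1 || b0 || b2) && (!b2 || b1 || b3) && (!b3 || b2 || b4) &&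
    (!b4 || b3 || b5) && (!b5 || b4 || b0)) = true →
    ∃ (j : ZMod 6) (d : Fin 6), 1 ≤ d.val ∧
      (∀ o : Fin 6, o.val ≤ d.val → av_Fan b0 b1 b2 b3 b4 b5 (j + (o.val : ZMod 6)) = true) ∧
      ∀ i : ZMod 6, av_Fan b0 b1 b2 b3 b4 b5 i = true →
        ∃ o : Fin 6, o.val ≤ d.val ∧ i = j + (o.val : ZMod 6) := by
  decide +kernel

theorem fan : FAN_st := by
  intro α β c c' h1 h2 h3 h4 h5 h6 h7 p hp
  obtain ⟨s, u⟩ := p
  have hm := mem_HF.1 hp
  simp only at hm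
  have key : ∀ i : ZMod 6, (s, u) + ev i ∈ HF α β c c' ↔
      av_Fan (decide (s < α)) (decide (s + u + c' < α + β)) (decide (u < β)) (decide (0 < s))
        (decide ((c : ℤ) < s + u)) (decide (0 < u)) i = true := by
    intro i
    obtain ⟨e0, e1, e2, e3, e4, e5⟩ := ev_vals
    rcases cases_Rig i with rfl | rfl | rfl | rfl | rfl | rfl
    · rw [e0, mem_HF]
      change _ ↔ (decide _ && decide _) = true
      simp only [Prod.mk_add_mk, Bool.and_eq_true, decide_eq_true_eq]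
      omega
    · rw [e1, mem_HF]
      change _ ↔ (decide _ && decide _) = true
      simp only [Prod.mk_add_mk, Bool.and_eq_true, decide_eq_true_eq]
      omega
    · rw [e2, mem_HF]
      change _ ↔ (decide _ && decide _) = true
      simp only [Prod.mk_add_mk, Bool.and_eq_true, decide_eq_true_eq]
      omega
    · rw [e3, mem_HF]
      change _ ↔ (decide _ && decide _) = true
      simp only [Prod.mk_add_mk, Bool.and_eq_true, decide_eq_true_eq]
      omega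
    · rw [e4, mem_HF]
      change _ ↔ (decide _ && decide _) = true
      simp only [Prod.mk_add_mk, Bool.and_eq_true, decide_eq_true_eq]
      omega
    · rw [e5, mem_HF]
      change _ ↔ (decide _ && decide _) = true
      simp only [Prod.mk_add_mk, Bool.and_eq_true, decide_eq_true_eq]
      omega
  obtain ⟨j, d, a1, a2, a3⟩ := bool_Fan (decide (s < α)) (decide (s + u + c' < α + β))
    (decide (u < β)) (decide (0 < s)) (decide ((c : ℤ) < s + u)) (decide (0 < u)) (by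
      simp only [Bool.and_eq_true, Bool.or_eq_true, Bool.not_eq_true', decide_eq_true_eq,
        decide_eq_false_iff_not]
      omega)
  have hd := d.2
  refine ⟨j, d.val, a1, by omega, fun o ho => (key _).2 (a2 ⟨o, by omega⟩ ho), fun i hi => ?_⟩
  obtain ⟨o, b1, b2⟩ := a3 i ((key i).1 hi)
  exact ⟨o.val, b1, b2⟩

end

section


theorem sum_le_Ww (f : ZMod 6 → ℝ) (hf : ∀ i, 0 ≤ f i) (j : ZMod 6) {o : ℕ} (ho : o ≤ 6) :
    ∑ k ∈ Finset.range o, f (j + (k : ZMod 6)) ≤ ∑ i, f i := by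
  rw [← Finset.sum_image (s := Finset.range o) (g := fun k : ℕ => j + (k : ZMod 6)) (f := f)
    fun a ha b hb h => by
      have h1 := congrArg ZMod.val (add_left_cancel h)
      have ha' := Finset.mem_range.1 ha
      have hb' := Finset.mem_range.1 hb
      rwa [ZMod.val_cast_of_lt (by omega), ZMod.val_cast_of_lt (by omega)] at h1]
  exact Finset.sum_le_sum_of_subset_of_nonneg (Finset.subset_univ _) fun i _ _ => hf i

theorem ww : WW_st := by
  intro S ψ m hm hF h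
  have key : ∀ p, ∃ w : ℂ, p ∈ S → 2 ≤ ‖w‖ ∧ ‖w‖ ≤ 2 + ∑ i, m p i ∧
      ∀ i, p + ev i ∈ S → ‖ψ (p + ev i) - ψ p - om ^ i.val * w‖ ≤ ∑ i, m p i := by
    intro p
    by_cases hp : p ∈ S
    swap
    · exact ⟨0, fun h => absurd h hp⟩
    obtain ⟨j, d, d1, d5, h1, h2⟩ := hF p hp
    obtain ⟨w, hw⟩ : ∃ w, w = (ψ (p + ev j) - ψ p) * om ^ (6 - j.val) := ⟨_, rfl⟩
    have e : om ^ j.val * w = ψ (p + ev j) - ψ p := by
      rw [hw, mul_left_comm, ← pow_add, Nat.add_sub_cancel' (ZMod.val_lt j).le, om_six_Rig,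
        mul_one]
    have n : ‖w‖ = ‖ψ (p + ev j) - ψ p‖ := by
      rw [hw, norm_mul, norm_pow, norm_om_Rig, one_pow, mul_one]
    obtain ⟨-, a1, a2⟩ := h p hp j (by simpa using h1 0 d.zero_le) (by simpa using h1 1 d1)
    have ind : ∀ o : ℕ, o ≤ d → ‖ψ (p + ev (j + (o : ZMod 6))) - ψ p -
        om ^ (j + (o : ZMod 6)).val * w‖ ≤ ∑ k ∈ Finset.range o, m p (j + (k : ZMod 6)) := by
      intro o
      induction o with
      | zero => intro _; simp [e]
      | succ o ih =>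
        intro ho
        have c : j + ((o + 1 : ℕ) : ZMod 6) = j + (o : ZMod 6) + 1 := by
          rw [Nat.cast_succ, add_assoc]
        have b1 := (h p hp _ (h1 o (by omega)) (c ▸ h1 (o + 1) ho)).1
        have b2 := ih (by omega)
        rw [om_add_Rig] at b2 ⊢
        rw [Finset.sum_range_succ, c, show ψ (p + ev (j + (o : ZMod 6) + 1)) - ψ p -
            om ^ j.val * om ^ (o + 1) * w =
          om * (ψ (p + ev (j + (o : ZMod 6))) - ψ p - om ^ j.val * om ^ o * w) +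
            (ψ (p + ev (j + (o : ZMod 6) + 1)) - ψ p -
              om * (ψ (p + ev (j + (o : ZMod 6))) - ψ p)) by ring]
        refine (norm_add_le _ _).trans (add_le_add ?_ b1)
        rwa [norm_mul, norm_om_Rig, one_mul]
    refine ⟨w, fun _ => ⟨n ▸ a1, ?_, fun i hi => ?_⟩⟩
    · rw [n]
      exact a2.trans (add_le_add le_rfl
        (Finset.single_le_sum (fun i _ => hm p i) (Finset.mem_univ j)))
    · obtain ⟨o, ho, rfl⟩ := h2 i hi
      exact (ind o ho).trans (sum_le_Ww (m p) (hm p) j (by omega))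
  choose W hW using key
  exact ⟨W, hW⟩

end

section


theorem sec_Par (x y : ℤ) : ∃ a b : ℕ, (x = a ∧ y = b) ∨ (x = -b ∧ y = a + b) ∨
    (x = -a - b ∧ y = a) ∨ (x = -a ∧ y = -b) ∨ (x = b ∧ y = -a - b) ∨ (x = a + b ∧ y = -a) := by
  by_cases h : 0 ≤ x ∧ 0 ≤ y ∨ x ≤ 0 ∧ y ≤ 0
  · exact ⟨x.natAbs, y.natAbs, by omega⟩
  by_cases k : 0 ≤ y ∧ 0 ≤ x + y ∨ y ≤ 0 ∧ x + y ≤ 0
  · exact ⟨(x + y).natAbs, x.natAbs, by omega⟩
  · exact ⟨y.natAbs, (x + y).natAbs, by omega⟩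

theorem par : PAR_st := by
  rintro α β c c' ⟨q, q'⟩ hq ⟨p, p'⟩ hp
  obtain ⟨e0, e1, e2, e3, e4, e5⟩ := ev_vals
  have s0 : ev (0 + 1) = (0, 1) := by decide
  have s1 : ev (1 + 1) = (-1, 1) := by decide
  have s2 : ev (2 + 1) = (-1, 0) := by decide
  have s3 : ev (3 + 1) = (0, -1) := by decide
  have s4 : ev (4 + 1) = (1, -1) := by decide
  have s5 : ev (5 + 1) = (1, 0) := by decide
  simp only [mem_HF] at hq hp
  obtain ⟨a, b, h | h | h | h | h | h⟩ := sec_Par (p - q) (p' - q')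
  on_goal 1 => refine ⟨0, a, b, by omega, by omega, ?_, fun a' b' ha hb => ?_⟩
  on_goal 3 => refine ⟨1, a, b, by omega, by omega, ?_, fun a' b' ha hb => ?_⟩
  on_goal 5 => refine ⟨2, a, b, by omega, by omega, ?_, fun a' b' ha hb => ?_⟩
  on_goal 7 => refine ⟨3, a, b, by omega, by omega, ?_, fun a' b' ha hb => ?_⟩
  on_goal 9 => refine ⟨4, a, b, by omega, by omega, ?_, fun a' b' ha hb => ?_⟩
  on_goal 11 => refine ⟨5, a, b, by omega, by omega, ?_, fun a' b' ha hb => ?_⟩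
  all_goals
    simp only [e0, e1, e2, e3, e4, e5, s0, s1, s2, s3, s4, s5, mem_HF, Prod.smul_mk, smul_eq_mul,
      Prod.mk_add_mk, Prod.mk.injEq]
    omega

end

section


theorem om3_Pro (i : ZMod 6) : om ^ (i + 3).val = -om ^ i.val := by
  have := om_add_Rig i 3
  rw [om_cube] at this
  simpa using this

theorem nom_Pro (n : ℕ) (z : ℂ) : ‖om ^ n * z‖ = ‖z‖ := by
  rw [norm_mul, norm_pow, norm_om_Rig, one_pow, one_mul]

theorem succ_Pro (x v : ℤ × ℤ) (k : ℕ) : x + ((k + 1 : ℕ) : ℤ) • v = x + (k : ℤ) • v + v := by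
  push_cast
  rw [add_smul, one_smul, add_assoc]

theorem inj_Pro (q : ℤ × ℤ) (i : ZMod 6) {m l m' l' : ℕ}
    (h : q + (m : ℤ) • ev i + (l : ℤ) • ev (i + 1) = q + (m' : ℤ) • ev i + (l' : ℤ) • ev (i + 1)) :
    m = m' ∧ l = l' := by
  have c := cr_succ i
  have h1 := congrArg Prod.fst h
  have h2 := congrArg Prod.snd h
  simp only [Prod.fst_add, Prod.snd_add, Prod.smul_fst, Prod.smul_snd, smul_eq_mul, cr] at h1 h2 c
  have e1 : (m : ℤ) = m' := by
    linear_combination (ev (i + 1)).2 * h1 - (ev (i + 1)).1 * h2 - ((m : ℤ) - m') * c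
  have e2 : (l : ℤ) = l' := by
    linear_combination (ev i).1 * h2 - (ev i).2 * h1 - ((l : ℤ) - l') * c
  exact ⟨by exact_mod_cast e1, by exact_mod_cast e2⟩

theorem al_Pro (q : ℤ × ℤ) (j : ZMod 6) (m : ℤ) : al q (q + m • ev j) := by
  have : ∀ j, (ev j).1 = 0 ∨ (ev j).2 = 0 ∨ (ev j).1 + (ev j).2 = 0 := by decide
  simp only [al, Prod.fst_add, Prod.snd_add, Prod.smul_fst, Prod.smul_snd, smul_eq_mul]
  rcases this j with h | h | h
  · exact Or.inl (by rw [h]; ring)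
  · exact Or.inr (Or.inl (by rw [h]; ring))
  · exact Or.inr (Or.inr (by linear_combination m * h))

section
variable {S : Finset (ℤ × ℤ)} {ψ W : ℤ × ℤ → ℂ} {d : ℤ × ℤ → ℝ}

theorem sum_Pro (hd : ∀ p, 0 ≤ d p) {ι : Type} (s : Finset ι) (f : ι → ℤ × ℤ)
    (hf : ∀ x ∈ s, ∀ y ∈ s, f x = f y → x = y) (hm : ∀ x ∈ s, f x ∈ S) :
    ∑ x ∈ s, d (f x) ≤ ∑ p ∈ S, d p := by
  rw [← Finset.sum_image hf]
  exact Finset.sum_le_sum_of_subset_of_nonneg (Finset.image_subset_iff.2 hm) fun _ _ _ => hd _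

theorem line_Pro (hd : ∀ p, 0 ≤ d p) (q : ℤ × ℤ) (j : ZMod 6) (k : ℕ)
    (hk : ∀ m : ℕ, m ≤ k → q + (m : ℤ) • ev j ∈ S) :
    ∑ m ∈ Finset.range (k + 1), d (q + (m : ℤ) • ev j) ≤ ∑ p ∈ S.filter (al q), d p :=
  sum_Pro hd _ (fun m : ℕ => q + (m : ℤ) • ev j)
    (fun x _ y _ e => (inj_Pro q j (l := 0) (l' := 0) (by rw [e])).1)
    fun x hx => Finset.mem_filter.2 ⟨hk x (Nat.lt_succ_iff.1 (Finset.mem_range.1 hx)), al_Pro q j x⟩

variable (h : ∀ p ∈ S, ∀ i, p + ev i ∈ S → ‖ψ (p + ev i) - ψ p - om ^ i.val * W p‖ ≤ d p)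
include h

theorem step_Pro {p : ℤ × ℤ} {i : ZMod 6} (h1 : p ∈ S) (h2 : p + ev i ∈ S) :
    ‖W (p + ev i) - W p‖ ≤ d p + d (p + ev i) := by
  have e : p + ev i + ev (i + 3) = p := by rw [ev_three, add_neg_cancel_right]
  have a := h p h1 i h2
  have b := h _ h2 (i + 3) (by rwa [e])
  rw [e, om3_Pro] at b
  rw [← nom_Pro i.val]
  refine le_trans (le_of_eq ?_) ((norm_add_le _ _).trans (add_le_add a b))
  congr 1
  ring

theorem ray_Pro (hd : ∀ p, 0 ≤ d p) (x : ℤ × ℤ) (i : ZMod 6) (k : ℕ)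
    (hk : ∀ m : ℕ, m ≤ k → x + (m : ℤ) • ev i ∈ S) :
    ‖W (x + (k : ℤ) • ev i) - W x‖ + d (x + (k : ℤ) • ev i) ≤
      2 * ∑ m ∈ Finset.range (k + 1), d (x + (m : ℤ) • ev i) := by
  induction k with
  | zero =>
    have := hd x
    simp
    linarith
  | succ k ih =>
    have a := ih fun m hm => hk m (by omega)
    have b := step_Pro h (i := i) (hk k (by omega)) (by rw [← succ_Pro]; exact hk _ le_rfl)
    rw [← succ_Pro] at b
    have c := norm_sub_le_norm_sub_add_norm_sub (W (x + ((k + 1 : ℕ) : ℤ) • ev i))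
      (W (x + (k : ℤ) • ev i)) (W x)
    rw [Finset.sum_range_succ]
    linarith

theorem tel_Pro (x : ℤ × ℤ) (i : ZMod 6) (w : ℂ) (e : ℕ → ℝ) (k : ℕ)
    (hk : ∀ m : ℕ, m ≤ k → x + (m : ℤ) • ev i ∈ S)
    (he : ∀ m : ℕ, m < k → ‖W (x + (m : ℤ) • ev i) - w‖ + d (x + (m : ℤ) • ev i) ≤ e m) :
    ‖ψ (x + (k : ℤ) • ev i) - ψ x - w * (k * om ^ i.val)‖ ≤ ∑ m ∈ Finset.range k, e m := by
  induction k with
  | zero => simp
  | succ k ih =>
    have a := ih (fun m hm => hk m (by omega)) fun m hm => he m (by omega)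
    have b := h _ (hk k (by omega)) i (by rw [← succ_Pro]; exact hk _ le_rfl)
    rw [← succ_Pro] at b
    have c := he k (by omega)
    rw [← nom_Pro i.val] at c
    rw [Finset.sum_range_succ]
    refine le_trans (le_trans (le_of_eq ?_) (norm_add₃_le
      (a := ψ (x + (k : ℤ) • ev i) - ψ x - w * (k * om ^ i.val))
      (b := ψ (x + ((k + 1 : ℕ) : ℤ) • ev i) - ψ (x + (k : ℤ) • ev i) -
        om ^ i.val * W (x + (k : ℤ) • ev i))
      (c := om ^ i.val * (W (x + (k : ℤ) • ev i) - w)))) (by linarith)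
    congr 1
    rw [Nat.cast_succ (R := ℂ) k]
    ring

end

theorem pro : PRO_st := by
  intro S ψ W d hd h q i a b hS
  have r0 : 0 ≤ ∑ p ∈ S.filter (al q), d p := Finset.sum_nonneg fun _ _ => hd _
  have T0 : 0 ≤ ∑ p ∈ S, d p := Finset.sum_nonneg fun _ _ => hd _
  have s1 : ∀ l : ℕ, l ≤ b → q + (l : ℤ) • ev (i + 1) ∈ S := fun l hl => by
    simpa using hS 0 l (Nat.zero_le _) hl
  have s2 : ∀ m : ℕ, m ≤ a → q + (m : ℤ) • ev i ∈ S := fun m hm => by
    simpa using hS m 0 hm (Nat.zero_le _)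
  have t1 := tel_Pro h q (i + 1) (W q) (fun _ => 2 * ∑ p ∈ S.filter (al q), d p) b s1
    fun l hl => by
      have s : ∀ m : ℕ, m ≤ l → q + (m : ℤ) • ev (i + 1) ∈ S := fun m hm => s1 m (by omega)
      linarith [ray_Pro h hd q (i + 1) l s, line_Pro hd q (i + 1) l s]
  have t2 := tel_Pro h (q + (b : ℤ) • ev (i + 1)) i (W q)
    (fun m => 2 * ∑ l ∈ Finset.range (b + 1), d (q + (m : ℤ) • ev i + (l : ℤ) • ev (i + 1)) +
      2 * ∑ p ∈ S.filter (al q), d p) a
    (fun m hm => by rw [add_right_comm]; exact hS m b hm le_rfl)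
    fun m hm => by
      have s : ∀ m' : ℕ, m' ≤ m → q + (m' : ℤ) • ev i ∈ S := fun m' hm' => s2 m' (by omega)
      rw [add_right_comm]
      linarith [ray_Pro h hd q i m s, line_Pro hd q i m s, hd (q + (m : ℤ) • ev i),
        ray_Pro h hd (q + (m : ℤ) • ev i) (i + 1) b fun l hl => hS m l hm.le hl,
        norm_sub_le_norm_sub_add_norm_sub (W (q + (m : ℤ) • ev i + (b : ℤ) • ev (i + 1)))
          (W (q + (m : ℤ) • ev i)) (W q)]
  have t3 := sum_Pro (S := S) hd (Finset.range a ×ˢ Finset.range (b + 1))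
    (fun z : ℕ × ℕ => q + (z.1 : ℤ) • ev i + (z.2 : ℤ) • ev (i + 1))
    (fun x _ y _ e => Prod.ext (inj_Pro q i e).1 (inj_Pro q i e).2)
    fun x hx => by
      simp only [Finset.mem_product, Finset.mem_range] at hx
      exact hS _ _ hx.1.le (by omega)
  rw [Finset.sum_product] at t3
  rw [Finset.sum_add_distrib, ← Finset.mul_sum, add_right_comm] at t2
  simp only [Finset.sum_const, Finset.card_range, nsmul_eq_mul] at t1 t2 t3
  have a0 := mul_nonneg (Nat.cast_nonneg a : (0 : ℝ) ≤ a) r0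
  have b0 := mul_nonneg (Nat.cast_nonneg b : (0 : ℝ) ≤ b) r0
  refine le_trans (le_trans (le_of_eq ?_) ((norm_add_le _ _).trans (add_le_add t1 t2)))
    (by linarith)
  congr 1
  ring

end

section


theorem line_Avg (S : Finset (ℤ × ℤ)) (f : ℤ × ℤ → ℤ) (M : ℕ)
    (h : ∀ q ∈ S, 0 ≤ f q ∧ f q ≤ M) (hi : Set.InjOn f S) : S.card ≤ M + 1 := by
  have := Finset.card_le_card_of_injOn (t := Finset.Icc (0 : ℤ) M) f
    (fun q hq => by simpa using h q hq) hi
  rw [Int.card_Icc] at this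
  omega

theorem card_Avg (α β c c' : ℕ) (p : ℤ × ℤ) :
    ((HF α β c c').filter fun q => al q p).card ≤ 3 * (max α β + 1) := by
  have h1 := line_Avg ((HF α β c c').filter fun q => p.1 = q.1) Prod.snd (max α β)
    (fun q hq => by have := mem_HF.1 (Finset.mem_filter.1 hq).1; omega) fun x hx y hy e =>
      Prod.ext ((Finset.mem_filter.1 hx).2.symm.trans (Finset.mem_filter.1 hy).2) e
  have h2 := line_Avg ((HF α β c c').filter fun q => p.2 = q.2) Prod.fst (max α β)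
    (fun q hq => by have := mem_HF.1 (Finset.mem_filter.1 hq).1; omega) fun x hx y hy e =>
      Prod.ext e ((Finset.mem_filter.1 hx).2.symm.trans (Finset.mem_filter.1 hy).2)
  have h3 := line_Avg ((HF α β c c').filter fun q => p.1 + p.2 = q.1 + q.2) Prod.fst (max α β)
    (fun q hq => by have := mem_HF.1 (Finset.mem_filter.1 hq).1; omega) fun x hx y hy e =>
      Prod.ext e (by
        have := (Finset.mem_filter.1 hx).2
        have := (Finset.mem_filter.1 hy).2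
        omega)
  have h4 : ((HF α β c c').filter fun q => al q p) ⊆
      ((HF α β c c').filter fun q => p.1 = q.1) ∪ (((HF α β c c').filter fun q => p.2 = q.2) ∪
        (HF α β c c').filter fun q => p.1 + p.2 = q.1 + q.2) := fun q hq => by
    obtain ⟨a, b⟩ := Finset.mem_filter.1 hq
    simp only [Finset.mem_filter, Finset.mem_union, a, true_and]
    exact b
  have h5 := (Finset.card_le_card h4).trans ((Finset.card_union_le _ _).trans
    (Nat.add_le_add_left (Finset.card_union_le _ _) _))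
  omega

theorem avg : AVG_st := by
  intro α β c c' d hd hS
  refine Finset.exists_le_of_sum_le hS ?_
  rw [← Finset.mul_sum, Finset.sum_const, nsmul_eq_mul]
  refine mul_le_mul_of_nonneg_left ?_ (Nat.cast_nonneg _)
  simp only [Finset.sum_filter]
  rw [Finset.sum_comm, Finset.mul_sum]
  refine Finset.sum_le_sum fun p _ => ?_
  rw [← Finset.sum_filter, Finset.sum_const, nsmul_eq_mul]
  refine mul_le_mul_of_nonneg_right ?_ (hd p)
  exact_mod_cast card_Avg α β c c' p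

end

section


theorem unit_Met {W : ℂ} (h : 2 ≤ ‖W‖) : ∃ u : ℂ, ‖u‖ = 1 ∧ ‖W - 2 * u‖ = ‖W‖ - 2 := by
  have h0 : (0 : ℝ) < ‖W‖ := by linarith
  have h1 : ((‖W‖ : ℝ) : ℂ) ≠ 0 := by exact_mod_cast h0.ne'
  have hu : ‖W / (‖W‖ : ℝ)‖ = 1 := by
    rw [norm_div, Complex.norm_real, norm_norm, div_self h0.ne']
  refine ⟨W / (‖W‖ : ℝ), hu, ?_⟩
  rw [show W - 2 * (W / (‖W‖ : ℝ)) = ((‖W‖ - 2 : ℝ) : ℂ) * (W / (‖W‖ : ℝ)) by
    push_cast; field_simp, norm_mul, hu, mul_one, Complex.norm_real,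
    Real.norm_of_nonneg (by linarith)]

theorem met (hW : WW_st) (hP : PAR_st) (hR : PRO_st) (hA : AVG_st) : MET_st := by
  intro n p α β c c' hD hn hp hF ψ m hm H
  obtain ⟨W, hW⟩ := hW _ ψ m hm hF H
  have hd : ∀ p, 0 ≤ ∑ i, m p i := fun p => Finset.sum_nonneg fun i _ => hm p i
  have hn0 : 0 < n := by omega
  obtain ⟨q0, hq0, hav⟩ := hA α β c c' (fun p => ∑ i, m p i) hd
    (Finset.card_pos.1 (by omega))
  have hpro := hR _ ψ W (fun p => ∑ i, m p i) hd (fun p hp => (hW p hp).2.2) q0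
  have hr : ∑ i, m q0 i ≤ ∑ p ∈ (HF α β c c').filter (al q0), ∑ i, m p i :=
    Finset.single_le_sum (f := fun p => ∑ i, m p i) (fun p _ => hd p)
      (Finset.mem_filter.2 ⟨hq0, Or.inl rfl⟩)
  have hT : 0 ≤ ∑ p ∈ HF α β c c', ∑ i, m p i := Finset.sum_nonneg fun p _ => hd p
  have hr0 := (hd q0).trans hr
  rw [hn] at hav
  generalize ∑ p ∈ HF α β c c', ∑ i, m p i = T at hav hpro hT
  generalize ∑ p ∈ (HF α β c c').filter (al q0), ∑ i, m p i = r at hav hpro hr hr0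
  have hL : (((max α β : ℕ) : ℝ) + 1) ^ 2 ≤ 3 * n := by
    obtain ⟨h1, h2, h3, h4, h5, -⟩ := hD
    have h6 : 2 * (max α β + 1) ≤ p + 2 := by omega
    have h7 := Nat.pow_le_pow_left h6 2
    have h8 : (max α β + 1) ^ 2 ≤ 3 * n := by
      rw [mul_pow] at h7
      omega
    exact_mod_cast h8
  have hM : (0 : ℝ) ≤ ((max α β : ℕ) : ℝ) := Nat.cast_nonneg _
  have hLr : (((max α β : ℕ) : ℝ) + 1) * r ≤ 9 * T := by
    have hn1 : (0 : ℝ) < n := by exact_mod_cast hn0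
    refine le_of_mul_le_mul_left ?_ hn1
    have h1 := mul_le_mul_of_nonneg_left hav (by linarith : 0 ≤ ((max α β : ℕ) : ℝ) + 1)
    have h2 := mul_le_mul_of_nonneg_right hL hT
    nlinarith
  obtain ⟨u, hu, hWu⟩ := unit_Met (hW q0 hq0).1
  refine ⟨ψ q0 - u * pt q0, u, hu, fun q hq => ?_⟩
  obtain ⟨i, a, b, ha, hb, e, hab⟩ := hP α β c c' q0 hq0 q hq
  have h1 := hpro i a b hab
  rw [← e] at h1
  have h2 : ‖(a : ℂ) * om ^ i.val + (b : ℂ) * om ^ (i + 1).val‖ ≤ a + b := by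
    refine (norm_add_le _ _).trans (le_of_eq ?_)
    simp [norm_om_Rig]
  have h3 : pt q = pt q0 + 2 * ((a : ℂ) * om ^ i.val + (b : ℂ) * om ^ (i + 1).val) := by
    rw [e, pt_add, pt_add, pt_smul, pt_smul, pt_ev, pt_ev]
    push_cast
    ring
  generalize (a : ℂ) * om ^ i.val + (b : ℂ) * om ^ (i + 1).val = v at h1 h2 h3
  have ha' : (a : ℝ) ≤ ((max α β : ℕ) : ℝ) := by exact_mod_cast ha
  have hb' : (b : ℝ) ≤ ((max α β : ℕ) : ℝ) := by exact_mod_cast hb
  have h4 : ‖(W q0 - 2 * u) * v‖ ≤ r * (a + b) := by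
    rw [norm_mul, hWu]
    exact mul_le_mul (by linarith [(hW q0 hq0).2.1]) h2 (norm_nonneg _) hr0
  rw [dist_eq_norm, h3, show ψ q - (ψ q0 - u * pt q0 + u * (pt q0 + 2 * v)) =
    (ψ q - ψ q0 - W q0 * v) + (W q0 - 2 * u) * v by ring]
  refine (norm_add_le _ _).trans ?_
  have h5 := mul_le_mul_of_nonneg_right (add_le_add ha' hb') hr0
  nlinarith

end

section


theorem sumt : SUM_st := by
  intro X t R g δ H S ψ hinj hg
  let P : (ℤ × ℤ) × ZMod 6 → Prop := fun x =>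
    x.1 ∈ S ∧ x.1 + ev x.2 ∈ S ∧ x.1 + ev (x.2 + 1) ∈ S
  let φ : (ℤ × ℤ) × ZMod 6 → ℂ × ℂ × ℂ := fun x =>
    (ψ x.1, ψ (x.1 + ev x.2), ψ (x.1 + ev (x.2 + 1)))
  let f : ℂ × ℂ × ℂ → ℝ := fun q => δ q.1 q.2.1 q.2.2
  have e1 : ∑ q ∈ S, ∑ i, (if q ∈ S ∧ q + ev i ∈ S ∧ q + ev (i + 1) ∈ S then
      δ (ψ q) (ψ (q + ev i)) (ψ (q + ev (i + 1))) else 0) =
      ∑ x ∈ (S ×ˢ (Finset.univ : Finset (ZMod 6))).filter P, f (φ x) := by
    rw [Finset.sum_filter, Finset.sum_product]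
  have e2 : 3 * Del X g δ = ∑ q ∈ T3 X g, f q := by
    unfold Del
    simp only [f]
    ring
  have hφ : Set.InjOn φ ((S ×ˢ (Finset.univ : Finset (ZMod 6))).filter P : Finset _) := by
    intro x hx y hy e
    have px : P x := (Finset.mem_filter.1 (Finset.mem_coe.1 hx)).2
    have py : P y := (Finset.mem_filter.1 (Finset.mem_coe.1 hy)).2
    have a1 : ψ x.1 = ψ y.1 := congrArg Prod.fst e
    have a2 : ψ (x.1 + ev x.2) = ψ (y.1 + ev y.2) := congrArg (fun z => z.2.1) e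
    have b1 : x.1 = y.1 := hinj px.1 py.1 a1
    have b2 : x.1 + ev x.2 = y.1 + ev y.2 := hinj px.2.1 py.2.1 a2
    rw [b1] at b2
    exact Prod.ext b1 (ev_inj _ _ (add_left_cancel b2))
  rw [e1, e2, ← Finset.sum_image (f := f) hφ]
  refine Finset.sum_le_sum_of_subset_of_nonneg ?_ ?_
  · intro q hq
    obtain ⟨x, hx, rfl⟩ := Finset.mem_image.1 hq
    have px : P x := (Finset.mem_filter.1 hx).2
    exact (memT_Rb5 H _).2 (hg _ px.1 _ px.2.1 px.2.2)
  · intro q hq _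
    exact (abs_nonneg _).trans (H.dev ((memT_Rb5 H _).1 hq))

theorem form_Sum (s u : ℤ) (h : s ^ 2 + s * u + u ^ 2 = 1) : ∃ i, (s, u) = ev i := by
  obtain ⟨h0, h1, h2, h3, h4, h5⟩ := ev_vals
  have a1 : s ≤ 1 := by nlinarith [sq_nonneg (s + 2 * u)]
  have a2 : -1 ≤ s := by nlinarith [sq_nonneg (s + 2 * u)]
  have a3 : u ≤ 1 := by nlinarith [sq_nonneg (2 * s + u)]
  have a4 : -1 ≤ u := by nlinarith [sq_nonneg (2 * s + u)]
  interval_cases s <;> interval_cases u <;> first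
    | exact ⟨0, h0.symm⟩
    | exact ⟨1, h1.symm⟩
    | exact ⟨2, h2.symm⟩
    | exact ⟨3, h3.symm⟩
    | exact ⟨4, h4.symm⟩
    | exact ⟨5, h5.symm⟩
    | (exfalso; omega)

theorem nb : NB_st := by
  intro p q h
  have h3 : √3 * √3 = 3 := Real.mul_self_sqrt (by norm_num)
  have h2 : dist (pt p) (pt q) ^ 2 = 4 * (((q.1 : ℝ) - p.1) ^ 2 +
      ((q.1 : ℝ) - p.1) * ((q.2 : ℝ) - p.2) + ((q.2 : ℝ) - p.2) ^ 2) := by
    rw [Complex.dist_eq, Complex.sq_norm, Complex.normSq_apply]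
    simp [pt, om]
    linear_combination ((q.2 : ℝ) - p.2) ^ 2 * h3
  rw [h] at h2
  have h1 : ((q.1 : ℝ) - p.1) ^ 2 + ((q.1 : ℝ) - p.1) * ((q.2 : ℝ) - p.2) +
      ((q.2 : ℝ) - p.2) ^ 2 = 1 := by linarith
  have h0 : (q.1 - p.1) ^ 2 + (q.1 - p.1) * (q.2 - p.2) + (q.2 - p.2) ^ 2 = 1 := by
    exact_mod_cast h1
  obtain ⟨i, hi⟩ := form_Sum _ _ h0
  refine ⟨i, ?_⟩
  rw [← hi]
  ext <;> simp

end

section


theorem pz_small_Red {n : ℕ} (hn : 3 ≤ n) : pz n + 3 ≤ 2 * n := by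
  obtain ⟨k, rfl⟩ : ∃ k, n = k + 3 := ⟨n - 3, by omega⟩
  have := pz_le (n := k + 3) (p := 2 * k + 3) (by omega) (by nlinarith)
  omega

theorem pz_floor_Red {n m b : ℕ} {Δ : ℝ} (hn : 1 ≤ n) (hm : n ≤ m)
    (h : ∀ S : ℤ, (b : ℝ) + 2 + Δ < S → 12 * (m : ℤ) - 3 ≤ S ^ 2) : pz n ≤ b + ⌊Δ⌋₊ := by
  have hj := h ((b : ℤ) + 3 + (⌊Δ⌋₊ : ℕ)) (by push_cast; linarith [Nat.lt_floor_add_one Δ])
  refine pz_le hn ?_
  zify at *
  nlinarith

theorem red : RED_st := by
  intro X h3 hS K hK hb ε hε hεν hv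
  have hn : 1 ≤ X.card := by omega
  have hne : X.Nonempty := Finset.card_pos.1 hn
  have hnu := nu_pos
  have hs3 := sqrt3_bounds
  have n3 : (3 : ℝ) ≤ X.card := by exact_mod_cast h3
  have pz0 : (0 : ℝ) ≤ pz X.card := Nat.cast_nonneg _
  have pz1 : (pz X.card : ℝ) + 3 ≤ 2 * X.card := by exact_mod_cast pz_small_Red h3
  have cmp : ∀ x : ℝ, ENNReal.ofReal x ≤ volume K →
      x ≤ 2 * √3 * ((X.card : ℝ) - 1) + nu * pz X.card + π + ε := fun x hx =>
    (ENNReal.ofReal_le_ofReal_iff (by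
      have := mul_nonneg hnu.le pz0
      have := mul_nonneg (show (0 : ℝ) ≤ 2 * √3 by positivity)
        (show (0 : ℝ) ≤ (X.card : ℝ) - 1 by linarith)
      linarith [pi_pos])).1 (hx.trans hv)
  have hNC : NonCol X := by
    by_contra hN
    have h1 := cmp _ (lin gst X hne hS hN K hK hb)
    have h2 := mul_le_mul_of_nonneg_left pz1 hnu.le
    unfold nu at *
    linarith
  have hSat : Sat X := by
    obtain ⟨Y, hXY, hSY, hT, hY⟩ := sat X hS
    have hNY : NonCol Y := by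
      obtain ⟨a, ha, b, hb, c, hc, h⟩ := hNC
      exact ⟨a, hXY ha, b, hXY hb, c, hXY hc, h⟩
    obtain ⟨b, Δ, h0, hw, h1, -⟩ :=
      core_all Y hSY hT hNY K hK fun y hy => ball_hull hK hb (hY hy)
    have hm := Finset.card_le_card hXY
    rcases hm.lt_or_eq with hm' | hm'
    · exfalso
      have hj : (pz X.card : ℝ) ≤ b + ⌊Δ⌋₊ := by exact_mod_cast pz_floor_Red hn hm h1
      have hj3 : (⌊Δ⌋₊ : ℝ) ≤ Δ := Nat.floor_le h0
      have h2 : (X.card : ℝ) + 1 ≤ Y.card := by exact_mod_cast hm'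
      have h4 := cmp _ hw
      have h5 : nu * pz X.card ≤ nu * (b + 2 * Δ) := mul_le_mul_of_nonneg_left (by linarith) hnu.le
      have h6 := mul_le_mul_of_nonneg_left h2 (show (0 : ℝ) ≤ 2 * √3 by positivity)
      have h7 : nu < 1 := by unfold nu; linarith
      linarith
    · rw [Finset.eq_of_subset_of_card_le hXY hm'.ge]
      exact hT
  obtain ⟨t, h⟩ := tri_all X hS hNC
  have cx := cx_of sti_all (col badf obt) h hS hSat
  obtain ⟨c1, c2, c3, c4⟩ := col badf obt X t h hSat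
  obtain ⟨d1, d2⟩ := ch1 eps ll X t h hne
  have hE := h1 mid eps ll X t h
  have hE0 : Exa X (e0 t) (good t) := exs X t _ _ h hE (fun _ _ e => e.1) (fun _ _ _ e => e.1) c1
  have hchi : chi6 X (e0 t) (good t) = 6 := by
    refine le_antisymm (c3 ▸ d1) (chi X X _ _ subset_rfl hne ?_ ?_ ?_ hE0)
    · exact fun a b e => ⟨(E_mem h e.1).1, E_ne h e.1, cx.Rsymm e⟩
    · exact fun a b c e => ⟨cx.gR e, cx.grot e⟩
    · exact fun a b c c' e e' => h.uniq e.1 e'.1
  have hcnt := (cnt X t _ _ _ cx).1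
  have hP := peel (pes (lc mid)) (pea (lc mid) chi) (peb angs (an2 mid angs)) X t _ _ _ cx hne hE c1
  have hV := vol_lb mid gst (trv otv) h hne hK hb
  have e1 := acb badf obt (slk angs) X t h hS hSat
  have e2 := acg badf X t h hS c4
  have hR := ra_all X t cx hSat
  have hchi' := hchi
  unfold chi6 at hchi'
  rw [hcnt] at hchi'
  have hD := Del_nonneg cx X
  have hSL : 0 ≤ SL X t := Finset.sum_nonneg fun q hq => (SL_term angs h q hq).le
  have hTe : (T3 X (good t)).card ≠ 0 → (T3 X (good t)).Nonempty := Finset.card_ne_zero.1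
  generalize hbdef : (D2 X (bd (e0 t) (good t))).card = b at *
  generalize hNdef : (T3 X (good t)).card = N at *
  have hz : 6 * (X.card : ℤ) - 3 * b - N = 6 := by push_cast at hchi'; linarith
  have hr : 6 * (X.card : ℝ) - 3 * b - N = 6 := by exact_mod_cast hz
  have hw : 2 * √3 * ((X.card : ℝ) - 1) + nu * b + 2 * nu * (Del X (good t) dl + SL X t) + π ≤
      2 * √3 * ((X.card : ℝ) - 1) + nu * pz X.card + π + ε := by
    refine le_trans ?_ (cmp _ hV)
    have e3 : (N : ℝ) = 6 * X.card - 3 * b - 6 := by linarith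
    rw [e3] at e2
    unfold nu at *
    linarith
  have hj := pz_floor_Red (b := b) (Δ := Del X (good t) dl) hn le_rfl
    fun S hlt => hP S (by linarith)
  have hj2 : (pz X.card : ℝ) ≤ b + ⌊Del X (good t) dl⌋₊ := by exact_mod_cast hj
  have hj3 : (⌊Del X (good t) dl⌋₊ : ℝ) ≤ Del X (good t) dl := Nat.floor_le hD
  have hk : (b : ℝ) + 2 * (Del X (good t) dl + SL X t) < pz X.card + 1 :=
    lt_of_mul_lt_mul_left (a := nu) (by linarith) hnu.le
  have hf : ⌊Del X (good t) dl⌋₊ = 0 := by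
    have : (⌊Del X (good t) dl⌋₊ : ℝ) < 1 := by linarith
    exact Nat.lt_one_iff.1 (by exact_mod_cast this)
  have hb1 : b = pz X.card := by
    have : (b : ℝ) < pz X.card + 1 := by linarith
    have : b < pz X.card + 1 := by exact_mod_cast this
    omega
  have hb2 : (b : ℝ) = pz X.card := by exact_mod_cast hb1
  have hsl := mul_nonneg hnu.le hSL
  refine ⟨t, cx, c2 d2, hE0, hchi, hTe ?_, hR (by linarith), hbdef.trans hb1, ?_⟩
  · intro h0
    have := pz_small_Red h3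
    omega
  · rw [hb2] at hw
    linarith

end

section


theorem pw_Hk {s t : ℝ} (hs : 0 ≤ s) (h : s * (s * s) ≤ t) : s * s ≤ t ^ (2 / 3 : ℝ) := by
  have h1 := Real.rpow_le_rpow (by positivity) h (by norm_num : (0 : ℝ) ≤ 2 / 3)
  have h2 : (s * (s * s)) ^ (2 / 3 : ℝ) = s * s := by
    rw [show s * (s * s) = s ^ (3 : ℝ) by rw [show (3 : ℝ) = (3 : ℕ) by norm_num, rpow_natCast]; ring,
      ← rpow_mul hs, show (3 : ℝ) * (2 / 3) = (2 : ℕ) by norm_num, rpow_natCast]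
    ring
  linarith

/-- the triangle beyond the supporting line -/
theorem core_Hk {P K : Set ℂ} {q n : ℂ} {s : ℝ} (hK : Convex ℝ K) (hR : Rd P ⊆ K) (hq : q ∈ P)
    (n1 : n.re * n.re + n.im * n.im = 1) (s0 : 0 < s) (s1 : s * s ≤ 1)
    (hy : q + ((1 + s * s : ℝ) : ℂ) * n ∈ K)
    (hP : ∀ z ∈ P, n.re * (z.re - q.re) + n.im * (z.im - q.im) ≤ 0) :
    volume (Rd P) + ENNReal.ofReal (s * (s * s) / 2) ≤ volume K := by
  have side : ∀ t : ℝ, t * t = s * s → q + n + ((t / 2 : ℝ) : ℂ) * Complex.I * n ∈ K := by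
    intro t ht
    have m : q + (((1 - s * s : ℝ) : ℂ) + (t : ℂ) * Complex.I) * n ∈ K := by
      refine hR ⟨q, hq, ?_⟩
      rw [dist_self_add_left, ← sq_le_one_iff₀ (norm_nonneg _), Complex.sq_norm, Complex.normSq_mul,
        Complex.normSq_add_mul_I, Complex.normSq_apply n, n1]
      nlinarith [mul_pos s0 s0]
    have h := hK m hy (by norm_num : (0 : ℝ) ≤ 1 / 2) (by norm_num : (0 : ℝ) ≤ 1 / 2) (by norm_num)
    have e : q + n + ((t / 2 : ℝ) : ℂ) * Complex.I * n =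
        (1 / 2 : ℝ) • (q + (((1 - s * s : ℝ) : ℂ) + (t : ℂ) * Complex.I) * n) +
          (1 / 2 : ℝ) • (q + ((1 + s * s : ℝ) : ℂ) * n) := by
      simp only [Complex.real_smul]
      push_cast
      ring
    rw [e]
    exact h
  have hA := side (-s) (by ring)
  have hB := side s rfl
  obtain ⟨A, eA⟩ : ∃ A, A = q + n + ((-s / 2 : ℝ) : ℂ) * Complex.I * n := ⟨_, rfl⟩
  obtain ⟨B, eB⟩ : ∃ B, B = q + n + ((s / 2 : ℝ) : ℂ) * Complex.I * n := ⟨_, rfl⟩
  obtain ⟨Y, eY⟩ : ∃ Y, Y = q + ((1 + s * s : ℝ) : ℂ) * n := ⟨_, rfl⟩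
  rw [← eA] at hA
  rw [← eB] at hB
  rw [← eY] at hy
  have Ar : A.re = q.re + n.re + s / 2 * n.im := by
    rw [eA]; simp only [Complex.add_re, Complex.mul_re, Complex.mul_im, Complex.ofReal_re,
      Complex.ofReal_im, Complex.I_re, Complex.I_im]; ring
  have Ai : A.im = q.im + n.im - s / 2 * n.re := by
    rw [eA]; simp only [Complex.add_im, Complex.mul_re, Complex.mul_im, Complex.ofReal_re,
      Complex.ofReal_im, Complex.I_re, Complex.I_im]; ring
  have Br : B.re = q.re + n.re - s / 2 * n.im := by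
    rw [eB]; simp only [Complex.add_re, Complex.mul_re, Complex.mul_im, Complex.ofReal_re,
      Complex.ofReal_im, Complex.I_re, Complex.I_im]; ring
  have Bi : B.im = q.im + n.im + s / 2 * n.re := by
    rw [eB]; simp only [Complex.add_im, Complex.mul_re, Complex.mul_im, Complex.ofReal_re,
      Complex.ofReal_im, Complex.I_re, Complex.I_im]; ring
  have Yr : Y.re = q.re + (1 + s * s) * n.re := by
    rw [eY]; simp only [Complex.add_re, Complex.mul_re, Complex.ofReal_re, Complex.ofReal_im]; ring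
  have Yi : Y.im = q.im + (1 + s * s) * n.im := by
    rw [eY]; simp only [Complex.add_im, Complex.mul_im, Complex.ofReal_re, Complex.ofReal_im]; ring
  have hD : D A Y B = s * (s * s) := by
    unfold D
    rw [Ar, Ai, Br, Bi, Yr, Yi]
    linear_combination (s * (s * s)) * n1
  have vol : volume (otri A Y B) = ENNReal.ofReal (s * (s * s) / 2) := by
    rw [← hD]
    exact otv A Y B (by rw [hD]; positivity)
  have dis : Disjoint (Rd P) (otri A Y B) := Set.disjoint_left.2 fun w ⟨z, hz, h⟩ hw => by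
    have a := hP z hz
    have b : 0 < D B A w := hw.2.2
    have c : D B A w = s * (n.re * (w.re - q.re) + n.im * (w.im - q.im) - 1) := by
      unfold D
      rw [Ar, Ai, Br, Bi]
      linear_combination (-s) * n1
    rw [c] at b
    have b' := (mul_pos_iff_of_pos_left s0).1 b
    rw [dist_eq_norm, ← sq_le_one_iff₀ (norm_nonneg _), Complex.sq_norm, Complex.normSq_apply,
      Complex.sub_re, Complex.sub_im] at h
    nlinarith [sq_nonneg (n.re - (w.re - z.re)), sq_nonneg (n.im - (w.im - z.im))]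
  have le := measure_mono (μ := volume)
    (Set.union_subset hR (show otri A Y B ⊆ K from fun p hp => sub_Trv hK hA hy hB hp))
  rwa [measure_union dis (meas_Trv A Y B), vol] at le

theorem hk : HK_st := by
  intro P K v ε hP hn hc hK hR hv he he' h1 h2 y hy
  obtain ⟨q, hq, hm⟩ := exists_norm_eq_iInf_of_complete_convex hn hP.isComplete hc y
  rw [norm_eq_iInf_iff_real_inner_le_zero hc hq] at hm
  refine ⟨q, hq, ?_⟩
  have r0 : 0 ≤ (2 * ε) ^ (2 / 3 : ℝ) := by positivity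
  have r1 : (2 * ε) ^ (2 / 3 : ℝ) < 1 := rpow_lt_one (by positivity) (by linarith) (by norm_num)
  by_contra hlt
  rw [not_le, dist_eq_norm] at hlt
  obtain ⟨d, hd⟩ : ∃ d, d = ‖y - q‖ := ⟨_, rfl⟩
  rw [← hd] at hlt
  have d0 : 0 < d := by linarith
  have dC : (d : ℂ) ≠ 0 := by exact_mod_cast d0.ne'
  obtain ⟨n, en⟩ : ∃ n : ℂ, n = (y - q) / d := ⟨_, rfl⟩
  have yn : y - q = d * n := by rw [en]; field_simp
  have n0 : ‖n‖ = 1 := by
    rw [en, norm_div, Complex.norm_real, Real.norm_of_nonneg d0.le, ← hd, div_self d0.ne']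
  have n1 : n.re * n.re + n.im * n.im = 1 := by
    rw [← Complex.normSq_apply, ← Complex.sq_norm, n0]; norm_num
  obtain ⟨e, e0, e1, e2⟩ : ∃ e : ℝ, (2 * ε) ^ (2 / 3 : ℝ) < e ∧ e ≤ 1 ∧ e ≤ d - 1 :=
    ⟨min 1 (d - 1), lt_min r1 (by linarith), min_le_left _ _, min_le_right _ _⟩
  have ep : 0 < e := by linarith
  have s0 : 0 < √e := sqrt_pos.2 ep
  have ss : √e * √e = e := mul_self_sqrt ep.le
  have qK : q ∈ K := hR ⟨q, hq, by simp⟩
  have hY : q + ((1 + √e * √e : ℝ) : ℂ) * n ∈ K := by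
    have h := hK.add_smul_sub_mem qK hy (t := (1 + e) / d)
      ⟨by positivity, (div_le_one d0).2 (by linarith)⟩
    have e3 : ((1 + e) / d) • (y - q) = ((1 + √e * √e : ℝ) : ℂ) * n := by
      rw [ss, yn, Complex.real_smul]
      push_cast
      field_simp
    rwa [e3] at h
  have hz : ∀ z ∈ P, n.re * (z.re - q.re) + n.im * (z.im - q.im) ≤ 0 := by
    intro z hz
    have h := hm z hz
    rw [yn, Complex.inner] at h
    simp only [map_mul, Complex.conj_ofReal, Complex.mul_re, Complex.mul_im, Complex.sub_re,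
      Complex.sub_im, Complex.conj_re, Complex.conj_im, Complex.ofReal_re, Complex.ofReal_im] at h
    by_contra hc'
    rw [not_le] at hc'
    nlinarith [mul_pos d0 hc']
  have le := core_Hk hK hR hq n1 s0 (by linarith) hY hz
  have le2 : ENNReal.ofReal (v + √e * (√e * √e) / 2) ≤ ENNReal.ofReal (v + ε) := by
    rw [ENNReal.ofReal_add hv (by positivity)]
    exact ((add_le_add h1 le_rfl).trans le).trans h2
  rw [ENNReal.ofReal_le_ofReal_iff (by linarith)] at le2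
  have := pw_Hk (t := 2 * ε) s0.le (by linarith)
  linarith

end

section


theorem cv_Hd {H : Set ℂ} (h : Convex ℝ H) (z u : ℂ) (η : ℝ) :
    Convex ℝ {w | ∃ q ∈ H, dist w (z + u * q) ≤ η} := by
  rintro x ⟨p, hp, h1⟩ y ⟨q, hq, h2⟩ a b ha hb hab
  refine ⟨a • p + b • q, h hp hq ha hb hab, ?_⟩
  have e : z + u * (a • p + b • q) = a • (z + u * p) + b • (z + u * q) := by
    have : (a : ℂ) + b = 1 := by exact_mod_cast hab
    simp only [Complex.real_smul]
    linear_combination -z * this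
  rw [e]
  refine (dist_add_add_le _ _ _ _).trans ?_
  rw [dist_smul₀, dist_smul₀, Real.norm_of_nonneg ha, Real.norm_of_nonneg hb]
  have := mul_le_mul_of_nonneg_left h1 ha
  have := mul_le_mul_of_nonneg_left h2 hb
  have : a * η + b * η = η := by rw [← add_mul, hab, one_mul]
  linarith

theorem cut_Hd (v : ℂ) {r : ℝ} (hr : 0 ≤ r) (h : ‖v‖ ≤ 1 + r) :
    ∃ t : ℂ, ‖t‖ ≤ 1 ∧ ‖v - t‖ ≤ r := by
  rcases le_or_gt ‖v‖ 1 with k | k
  · exact ⟨v, k, by simpa using hr⟩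
  · have h0 : 0 < ‖v‖ := by linarith
    refine ⟨‖v‖⁻¹ • v, by rw [norm_smul, norm_inv, norm_norm, inv_mul_cancel₀ h0.ne'], ?_⟩
    nth_rewrite 1 [← one_smul ℝ v]
    rw [← sub_smul, norm_smul, Real.norm_of_nonneg (sub_nonneg.2 (inv_le_one_of_one_le₀ k.le)),
      sub_mul, inv_mul_cancel₀ h0.ne']
    linarith

theorem hd : HD_st := by
  intro α β c c' h1 h2 h3 h4 X K ψ z u η ρ hu hη hρ hK hb hψ hq hy
  have hu0 : u ≠ 0 := norm_pos_iff.1 (hu ▸ one_pos)
  refine ⟨fun y hyK => ?_, ?_⟩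
  · obtain ⟨q, q1, q2⟩ := hy y hyK
    obtain ⟨h, k1, k2⟩ := convexHull_min (t := {w | ∃ q ∈ Hx α β c c', dist w (z + u * q) ≤ η})
      (fun x hx => by
        obtain ⟨p, hp, rfl⟩ := hψ.surjOn hx
        obtain ⟨a1, a2, a3, a4, a5, a6⟩ := mem_HF.1 hp
        refine ⟨pt p, ⟨p.1, p.2, by simp [pt], by exact_mod_cast a1, by exact_mod_cast a2,
          by exact_mod_cast a3, by exact_mod_cast a4, by exact_mod_cast a5, ?_⟩, hq p hp⟩
        have : ((p.1 + p.2 + c' : ℤ) : ℝ) ≤ (α + β : ℤ) := by exact_mod_cast a6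
        push_cast at this
        linarith) (cv_Hd (cvx_Uba _ _ _ _) z u η) q1
    obtain ⟨t, t1, t2⟩ := cut_Hd (y - (z + u * h)) (r := η + ρ) (by linarith) (by
      rw [← dist_eq_norm]; linarith [dist_triangle y q (z + u * h)])
    refine ⟨h + t / u, ⟨h, k1, ?_⟩, ?_⟩
    · rw [dist_eq_norm, add_sub_cancel_left, norm_div, hu, div_one]; exact t1
    · rw [dist_eq_norm, mul_add, mul_div_cancel₀ _ hu0, ← add_assoc, ← sub_sub]; exact t2
  · rintro w ⟨h, k1, k2⟩
    obtain ⟨A, e1⟩ := Nat.exists_eq_add_of_le' h1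
    obtain ⟨B, e2⟩ := Nat.exists_eq_add_of_le' h2
    obtain ⟨A', e3⟩ := Nat.exists_eq_add_of_le h3
    obtain ⟨B', e4⟩ := Nat.exists_eq_add_of_le' h4
    have E1 : (α : ℂ) = A + c := by exact_mod_cast e1
    have E2 : (β : ℂ) = B + c := by exact_mod_cast e2
    have E3 : (α : ℂ) = c' + A' := by exact_mod_cast e3
    have E4 : (β : ℂ) = B' + c' := by exact_mod_cast e4
    have o := om_sq_Rig
    let k : ℕ → ℤ × ℤ := fun j =>
      [((c : ℤ), (0 : ℤ)), (α, 0), (α, B'), (A', β), (0, β)].getD j (0, c)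
    have hk : ∀ j, k j ∈ HF α β c c' := fun j => by
      rcases j with _ | _ | _ | _ | _ | j <;> simp [k, mem_HF] <;> omega
    obtain ⟨q, q1, q2⟩ := hxc (fun j => [A, B', c', A', B].getD j c) u (fun j => z + u * pt (k j))
      {w | ∃ q ∈ convexHull ℝ (X : Set ℂ), dist w (0 + 1 * q) ≤ η} (by simp; omega)
      (by simp; omega) (cv_Hd (convex_convexHull ℝ _) 0 1 η)
      (fun j => ⟨ψ (k j), subset_convexHull ℝ _ (hψ.mapsTo (hk j)), by
        rw [zero_add, one_mul, dist_comm]; exact hq _ (hk j)⟩)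
      (fun j hj => by
        interval_cases j <;> simp [k, pt]
        · linear_combination 2 * u * E1
        · ring
        · linear_combination -2 * u * E3 + 2 * u * om * E4 - 2 * c' * u * o
        · linear_combination -2 * A' * u * (om + 1) * o
        · linear_combination -2 * u * om * E2 - 2 * B * u * om * (om + 1) * o) h
      (by simpa [← e1, ← e4, ← E1] using k1)
    refine ⟨q + u * (w - h), ball_hull hK hb q1 ?_, ?_⟩
    · rw [mem_closedBall, dist_eq_norm, add_sub_cancel_left, norm_mul, hu, one_mul, ← dist_eq_norm]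
      exact k2
    · rw [dist_comm, dist_eq_norm] at q2
      rw [dist_eq_norm]
      convert q2 using 2
      simp [k, pt]
      ring

end

section


theorem single_Stb {X t R g δ} (cx : Cx X t R g δ) {a b d : ℂ} (h : g a b d) :
    0 ≤ δ a b d ∧ δ a b d ≤ Del X g δ := by
  refine ⟨(abs_nonneg _).trans (cx.dev h), le_trans ?_ ((cnt X t R g δ cx).2.2.2 a)⟩
  exact Finset.single_le_sum (f := fun q : ℂ × ℂ => δ a q.1 q.2)
    (fun q hq => (abs_nonneg _).trans (cx.dev ((memD_Rb5 cx a q).1 hq)))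
    ((memD_Rb5 cx a (b, d)).2 h)

theorem nondeg_Stb {n p α β c c' : ℕ} (h : Data n p α β c c') (hp : p + 3 ≤ 2 * n) :
    1 ≤ α ∧ 1 ≤ β ∧ c + c' + 1 ≤ α + β := by
  obtain ⟨h1, h2, h3, h4, h5, h6⟩ := h
  refine ⟨?_, ?_, ?_⟩
  · by_contra e
    obtain rfl : α = 0 := by omega
    obtain rfl : c = 0 := by omega
    obtain rfl : c' = 0 := by omega
    omega
  · by_contra e
    obtain rfl : β = 0 := by omega
    obtain rfl : c = 0 := by omega
    obtain rfl : c' = 0 := by omega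
    omega
  · by_contra e
    obtain rfl : β = α := by omega
    obtain rfl : c = β := by omega
    obtain rfl : c' = c := by omega
    nlinarith

theorem stb (hR : RED_st) (h1 : DEV1_st) (h2 : DEV2_st) (hL : LOC_st) (hF : FAN_st) (hM : MET_st)
    (hS : SUM_st) (hN : NB_st) (hK : HK_st) (hD : HD_st) : STB_st := by
  intro X h3 hsep K hKc hb ε e0' e1' hv
  obtain ⟨t, cx, hconn, hexa, hchi, hne, hdeg, hbp, hΔ⟩ := hR X h3 hsep K hKc hb ε e0' e1' hv
  have hnu := nu_pos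
  have hs3 := sqrt3_bounds
  have hnu1 : 0.2679 < nu := by unfold nu; linarith [hs3.2]
  have hnu2 : nu < 0.268 := by unfold nu; linarith [hs3.1]
  have hΔ0 := Del_nonneg cx X
  have hΔ1 : Del X (good t) dl < 1 / 2 := by nlinarith
  have hΔ2 : Del X (good t) dl ≤ 1.87 * ε := by nlinarith
  obtain ⟨α, β, c, c', G, y, hd, hdev⟩ := h1 X t _ _ _ cx hconn hexa hchi hne hΔ1 hdeg
  rw [hbp] at hd
  obtain ⟨ψ, hbij, htri⟩ := h2 X t _ _ _ cx α β c c' G y _ hd hdev
  have hcard : (HF α β c c').card = X.card :=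
    Finset.card_nbij ψ hbij.mapsTo hbij.injOn hbij.surjOn
  have hp := pz_spec (n := X.card) (by omega)
  have hp2 : pz X.card + 3 ≤ 2 * X.card := by
    obtain ⟨k, hk⟩ : ∃ k, X.card = k + 3 := ⟨X.card - 3, by omega⟩
    have : pz X.card ≤ 2 * k + 3 := pz_le (by omega) (by rw [hk]; nlinarith)
    omega
  obtain ⟨n1, n2, n3⟩ := nondeg_Stb hd hp2
  have hfan := hF α β c c' hd.1 hd.2.1 hd.2.2.1 hd.2.2.2.1 n1 n2 n3
  set S := HF α β c c' with hSdef
  have loc : ∀ {a b d : ℂ}, good t a b d → ‖d - a - om * (b - a)‖ ≤ 7 / 3 * dl a b d ∧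
      dist a b ≤ 2 + 2 * dl a b d ∧ dist d a ≤ 2 + 2 * dl a b d := fun {a b d} e =>
    hL a b d (cx.tri.pos e.1) (t_sep cx.tri hsep e.1) (t_sep cx.tri hsep (cx.tri.rot e.1))
      (t_sep cx.tri hsep (cx.tri.rot (cx.tri.rot e.1))) e.2 ((single_Stb cx e).2.trans_lt hΔ1)
  obtain ⟨m, hm⟩ : ∃ m : ℤ × ℤ → ZMod 6 → ℝ, ∀ q i, m q i = 7 / 3 *
      (if q ∈ S ∧ q + ev i ∈ S ∧ q + ev (i + 1) ∈ S then
        dl (ψ q) (ψ (q + ev i)) (ψ (q + ev (i + 1))) else 0) := ⟨_, fun _ _ => rfl⟩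
  have hm0 : ∀ q i, 0 ≤ m q i := fun q i => by
    rw [hm]
    split_ifs with h
    · have := (single_Stb cx (htri q h.1 i h.2.1 h.2.2)).1
      positivity
    · simp
  have hT : ∑ q ∈ S, ∑ i, m q i ≤ 7 * Del X (good t) dl := by
    have := hS X t _ _ _ cx S ψ hbij.injOn htri
    simp only [hm, ← Finset.mul_sum]
    linarith
  obtain ⟨z, u, hu, hz⟩ := hM X.card (pz X.card) α β c c' hd hcard (by omega) hfan ψ m hm0
    fun q hq i k1 k2 => by
      have e := htri q hq i k1 k2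
      have l := loc e
      have s := t_sep cx.tri hsep e.1
      have s0 := (single_Stb cx e).1
      rw [hm, if_pos ⟨hq, k1, k2⟩, ← dist_eq_norm (ψ (q + ev i)), dist_comm]
      exact ⟨l.1, s, by linarith [l.2.1]⟩
  have hz' : ∀ q ∈ S, dist (ψ q) (z + u * pt q) ≤ 1000 * ε := fun q hq =>
    (hz q hq).trans (by linarith)
  have hXne : X.Nonempty := Finset.card_pos.1 (by omega)
  have hsub : Rd (convexHull ℝ (X : Set ℂ)) ⊆ K := fun x ⟨w, hw, h⟩ => ball_hull hKc hb hw h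
  have hn1 : (0 : ℝ) ≤ (X.card : ℝ) - 1 := by
    have : (3 : ℝ) ≤ X.card := by exact_mod_cast h3
    linarith
  have hlow : ENNReal.ofReal (2 * √3 * ((X.card : ℝ) - 1) + nu * pz X.card + π) ≤
      volume (Rd (convexHull ℝ (X : Set ℂ))) := by
    refine le_trans (ENNReal.ofReal_le_ofReal ?_) (main_all X hXne hsep _
      (rd_Uba (convex_convexHull ℝ _)) fun x hx => ball_Rd (subset_convexHull ℝ _ hx)).1
    have k1 : pz X.card ≤ ps X.card := by unfold ps; split_ifs <;> omega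
    have k2 : (pz X.card : ℝ) ≤ ps X.card := by exact_mod_cast k1
    have := mul_le_mul_of_nonneg_left k2 hnu.le
    unfold val
    linarith
  have hk := hK _ K _ ε (X.finite_toSet.isCompact_convexHull ℝ)
    (hXne.to_set.mono (subset_convexHull ℝ _)) (convex_convexHull ℝ _) hKc hsub (by positivity) e0'
    (by linarith) hlow hv
  obtain ⟨d1, d2⟩ := hD α β c c' hd.1 hd.2.1 hd.2.2.1 hd.2.2.2.1 X K ψ z u (1000 * ε) _ hu
    (by positivity) (by positivity) hKc hb hbij hz' hk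
  refine ⟨α, β, c, c', hd, ψ, z, u, hu, hbij, fun p hp q hq h => ?_, hz', d1, d2⟩
  obtain ⟨i, rfl⟩ := hN p q h
  obtain ⟨j, d, k1, -, k3, k4⟩ := hfan p hp
  obtain ⟨o, k5, rfl⟩ := k4 i hq
  rcases k5.lt_or_eq with k6 | rfl
  · have k7 := k3 (o + 1) k6
    rw [Nat.cast_succ, ← add_assoc] at k7
    have e := htri p hp _ hq k7
    linarith [(loc e).2.1, (single_Stb cx e).2]
  · obtain ⟨o, rfl⟩ : ∃ o', o = o' + 1 := ⟨o - 1, by omega⟩
    rw [Nat.cast_succ, ← add_assoc] at hq ⊢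
    have e := htri p hp _ (k3 o (by omega)) hq
    rw [dist_comm]
    linarith [(loc e).2.2, (single_Stb cx e).2]

end

theorem stb_all : STB_st :=
  stb red (dev1 rb5b l6b) (dev2 fav) loc fan (met ww par pro avg) sumt nb hk hd

end MP7b.Sb
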