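import Pool.Agent.MP_7b7a6d_co.Sb.All
import Pool.Agent.MP_7b7a6d_co.Sb.AlgA
import Pool.Agent.MP_7b7a6d_co.Sb.AlgB
import Pool.Agent.MP_7b7a6d_co.Sb.AlgC

/-! Parametric stability theorem: all parts. -/

open scoped Classical
open MeasureTheory Metric Real

noncomputable section
namespace MP7b.Sb

section


theorem pea3 : PEa3_st := by
  intro X t R g δ hX hE V hV hS hne
  have hpp : pV V (pV V g) = pV V g := by
    funext a b c
    exact propext ⟨fun h => h.2.2.2, fun h => ⟨h.1, h.2.1, h.2.2.1, h⟩⟩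
  have hX' : Cx X t (fun a b => R a b ∧ ((∃ c, pV V g a b c) ∨ ∃ c, pV V g b a c)) (pV V g) δ :=
    ⟨hX.tri, fun h => hX.gt h.2.2.2, fun h => ⟨h.2.1, h.2.2.1, h.1, hX.grot h.2.2.2⟩,
      fun h => ⟨hX.gR h.2.2.2, Or.inl ⟨_, h⟩⟩, fun h => ⟨hX.Rsymm h.1, h.2.symm⟩,
      fun h => hX.RE h.1, fun h => hX.drot h.2.2.2, fun h => hX.dev h.2.2.2⟩
  have h1 := (pea (lc mid) chi X t _ _ δ hX' hE V hV (by
    rw [hpp]
    exact fun c hc h => hS c hc fun a b k => h a b fun m => k ⟨m.1, m.2.1, m.2.2.1⟩)).2 (by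
      obtain ⟨q, hq⟩ := hne
      simp only [T3, Finset.mem_filter, Finset.mem_product] at hq
      refine ⟨(q.1, q.2.1), ?_⟩
      simp only [D2, Finset.mem_filter, Finset.mem_product]
      exact ⟨⟨hq.1.1, hq.1.2.1⟩, hX.gR hq.2, Or.inl ⟨_, hq.1.1, hq.1.2.1, hq.1.2.2, hq.2⟩⟩)
  have e1 : inn t V (pV V g) = inn t V g := by rw [inn, hpp, inn]
  have e2 : T3 V (pV V g) = T3 V g := by
    ext q
    simp only [T3, Finset.mem_filter, Finset.mem_product]
    exact ⟨fun h => ⟨h.1, h.2.2.2.2⟩, fun h => ⟨h.1, h.1.1, h.1.2.1, h.1.2.2, h.2⟩⟩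
  have e3 : (D2 V fun a b => R a b ∧ ((∃ c, pV V g a b c) ∨ ∃ c, pV V g b a c)).card +
      wd V R g = (D2 V R).card := by
    rw [← Finset.card_filter_add_card_filter_not (s := D2 V R)
      fun q => (∃ c, pV V g q.1 q.2 c) ∨ ∃ c, pV V g q.2 q.1 c, wd]
    congr 2
    · ext q
      simp only [D2, Finset.mem_filter, and_assoc]
    · ext q
      simp only [D2, Finset.mem_filter, not_or]
      exact ⟨fun h => ⟨⟨h.1, h.2.1.1⟩, h.2.1.2, h.2.2.2⟩,
        fun h => ⟨h.1.1, ⟨h.1.2, h.2.1⟩, hX.Rsymm h.1.2, h.2.2⟩⟩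
  unfold chi6 at h1 ⊢
  rw [e1, e2] at h1
  omega

end

section


theorem tri_PEc {X : Finset ℂ} {t : ℂ → ℂ → ℂ → Prop} {R : ℂ → ℂ → Prop}
    {g : ℂ → ℂ → ℂ → Prop} {δ : ℂ → ℂ → ℂ → ℝ} (hX : Cx X t R g δ) (V : Finset ℂ)
    (f : ℂ → ℂ → ℝ) : ∑ q ∈ T3 V g, f q.1 q.2.1 =
      ∑ p ∈ V ×ˢ V, if ∃ c, pV V g p.1 p.2 c then f p.1 p.2 else 0 := by
  rw [← Finset.sum_filter]
  refine Finset.sum_bij (fun q _ => (q.1, q.2.1)) (fun q hq => ?_) ?_ ?_ fun _ _ => rfl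
  · simp only [T3, Finset.mem_filter, Finset.mem_product] at hq ⊢
    exact ⟨⟨hq.1.1, hq.1.2.1⟩, q.2.2, hq.1.1, hq.1.2.1, hq.1.2.2, hq.2⟩
  · rintro ⟨a, b, c⟩ hq ⟨a', b', c'⟩ hq' e
    simp only [T3, Finset.mem_filter, Prod.mk.injEq] at hq hq' e
    obtain ⟨rfl, rfl⟩ := e
    rw [hX.tri.uniq (hX.gt hq.2) (hX.gt hq'.2)]
  · rintro ⟨a, b⟩ hp
    obtain ⟨-, c, h1, h2, h3, h4⟩ := Finset.mem_filter.1 hp
    exact ⟨(a, b, c), Finset.mem_filter.2 ⟨by simp_all, h4⟩, rfl⟩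

theorem swap_PEc (V : Finset ℂ) (f : ℂ → ℂ → ℝ) :
    ∑ p ∈ V ×ˢ V, f p.1 p.2 = ∑ p ∈ V ×ˢ V, f p.2 p.1 := by
  rw [Finset.sum_product' (f := f), Finset.sum_product' (f := fun a b => f b a), Finset.sum_comm]

theorem pec : PEc_st := by
  intro X t R g δ hX V _
  have hR : ∀ {U : Finset ℂ} {a b : ℂ}, (∃ c, pV U g a b c) → R a b := fun ⟨_, h⟩ => hX.gR h.2.2.2
  refine ⟨fun a b h => ⟨fun ha => ?_, fun hb => h.2 ((Finset.mem_filter.1 hb).2 a (hX.RE h.1))⟩,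
    ?_, fun ψ hψ => ⟨?_, ?_⟩⟩
  · have h1 := (Finset.mem_filter.1 ha).2
    have h2 := hX.RE (hX.Rsymm h.1)
    obtain ⟨c, hc⟩ := h1 b h2
    obtain ⟨d, hd⟩ := lc mid X t hX.tri a c (fun x => ∃ d, pV V g a d x) ⟨b, hc⟩
      (fun x ⟨d, hd⟩ => (h1 x (.inr ⟨d, hX.gt (hX.grot (hX.grot hd.2.2.2))⟩)).imp
        fun y hy => ⟨⟨x, hy⟩, hX.gt hy.2.2.2⟩) b h2
    exact h.2 ⟨d, hd.2.2.1, hd.1, hd.2.1, hX.grot (hX.grot hd.2.2.2)⟩
  · have e1 := tri_PEc hX V fun _ _ => 1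
    rw [Finset.sum_const, nsmul_eq_mul, mul_one] at e1
    rw [e1, tri_PEc hX V fun a b => if bd R (pV V g) b a then 1 else 0,
      swap_PEc V fun a b => if ∃ c, pV V g a b c then (if bd R (pV V g) b a then 1 else 0) else 0,
      wd, D2, D2, Finset.card_filter, Finset.card_filter]
    push_cast
    rw [← Finset.sum_add_distrib, ← Finset.sum_add_distrib]
    refine Finset.sum_congr rfl fun p _ => ?_
    by_cases h1 : R p.1 p.2
    · have h2 := hX.Rsymm h1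
      by_cases h3 : ∃ c, pV V g p.1 p.2 c <;> by_cases h4 : ∃ c, pV V g p.2 p.1 c <;>
        simp only [bd, h1, h2, h3, h4] <;> simp
    · have h3 : ¬ ∃ c, pV V g p.1 p.2 c := fun h => h1 (hR h)
      simp only [bd, h1, h3]
      simp
  · rw [tri_PEc hX V fun a b => if bd R (pV V g) b a then ψ a b else 0,
      swap_PEc V fun a b =>
        if ∃ c, pV V g a b c then (if bd R (pV V g) b a then ψ a b else 0) else 0,
      Psi, D2, Finset.sum_filter]
    refine Finset.sum_le_sum fun p _ => ?_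
    split_ifs with h1 h2 h2
    exacts [(hψ _ _ h2.1).2.2.le, le_rfl, (hψ _ _ h2.1).1, le_rfl]
  · refine le_trans ?_ (Finset.sum_le_sum (f := fun q => if (q.1, q.2.1) ∈
      D2 (inn t V g) (bd R (pV (inn t V g) g)) then ψ q.1 q.2.1 else 0) fun q hq => ?_)
    · rw [tri_PEc hX V fun a b => if (a, b) ∈ D2 (inn t V g) (bd R (pV (inn t V g) g)) then ψ a b
        else 0, Psi]
      refine le_trans (le_of_eq (Finset.sum_congr rfl fun p hp => ?_))
        (Finset.sum_le_sum_of_subset_of_nonneg (fun p hp => ?_) fun p _ hp => ?_)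
      · obtain ⟨h1, h2⟩ := Finset.mem_filter.1 hp
        rw [if_pos ((Finset.mem_filter.1 (Finset.mem_product.1 h1).1).2 _ (hX.RE h2.1)), if_pos hp]
      · exact Finset.product_subset_product (Finset.filter_subset _ _) (Finset.filter_subset _ _)
          (Finset.mem_filter.1 hp).1
      · rw [if_neg hp, ite_self]
    · have h0 := (Finset.mem_filter.1 hq).2
      split_ifs with h1 h2 h2
      · exact le_rfl
      · obtain ⟨h3, h4⟩ := Finset.mem_filter.1 h1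
        obtain ⟨h5, h6⟩ := Finset.mem_product.1 h3
        exact (h2 ⟨h5, h6, fun h7 => h4.2 ⟨_, h5, h6, h7, h0⟩⟩).elim
      · exact (hψ _ _ (hX.gR h0)).1
      · exact le_rfl

end

section


theorem key_PEb3 {pa pb pc i1 i2 i3 : Prop} [Decidable pa] [Decidable pb] [Decidable pc]
    [Decidable i1] [Decidable i2] [Decidable i3] {x y z δ u v w : ℝ} (h1 : i1 → ¬ pa ∧ ¬ pb)
    (h2 : i2 → ¬ pb ∧ ¬ pc) (h3 : i3 → ¬ pc ∧ ¬ pa) (s : x + y + z = 3) (d0 : 0 ≤ δ)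
    (hx : x - 1 ≤ δ / 2 + v ∧ 1 - x ≤ δ / 2 - v) (hy : y - 1 ≤ δ / 2 + w ∧ 1 - y ≤ δ / 2 - w)
    (hz : z - 1 ≤ δ / 2 + u ∧ 1 - z ≤ δ / 2 - u) (u0 : 0 ≤ u) (u1 : u ≤ 1 / 2) (v0 : 0 ≤ v)
    (v1 : v ≤ 1 / 2) (w0 : 0 ≤ w) (w1 : w ≤ 1 / 2) :
    2 * (if pa then x else 0) + 2 * (if pb then y else 0) + 2 * (if pc then z else 0) +
      (if i1 then (1 : ℝ) else 0) + (if i2 then (1 : ℝ) else 0) + (if i3 then (1 : ℝ) else 0) +
      (if pa ∧ pb ∧ pc then δ else 0) + 2 * (if pa ∧ pb ∧ ¬ pc then u else 0) +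
      2 * (if pb ∧ pc ∧ ¬ pa then v else 0) + 2 * (if pc ∧ pa ∧ ¬ pb then w else 0) ≤
    (if pa ∧ pb then (1 : ℝ) else 0) + (if pb ∧ pc then (1 : ℝ) else 0) +
      (if pc ∧ pa then (1 : ℝ) else 0) + 3 + δ + 2 * (if i1 then u else 0) +
      2 * (if i2 then v else 0) + 2 * (if i3 then w else 0) := by
  obtain ⟨x1, x2⟩ := hx
  obtain ⟨y1, y2⟩ := hy
  obtain ⟨z1, z2⟩ := hz
  by_cases ha : pa <;> by_cases hb : pb <;> by_cases hc : pc <;> by_cases j1 : i1 <;>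
    by_cases j2 : i2 <;> by_cases j3 : i3 <;>
    first
      | (exfalso; tauto)
      | (simp only [ha, hb, hc, j1, j2, j3, and_self, and_true, and_false,
          not_true_eq_false, not_false_eq_true, if_true, if_false]; linarith)

open Finset in
theorem peb3 (hc : PEc_st) : PEb3_st := by
  intro X t R g δ ψ C hA V hV
  obtain ⟨c1, c2, c3⟩ := hc X t R g δ C V hV
  obtain ⟨c3, c4⟩ := c3 ψ hA.2
  have hU : inn t V g ⊆ V := filter_subset _ _
  have s1 : ∀ u ∈ inn t V g, ∑ q ∈ D2 V (g u), ang u q.1 q.2 = 6 := by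
    intro u hu
    have hi := (mem_filter.1 hu).2
    rw [← an2 mid angs X t C.tri u (hV (hU hu)) fun a ha =>
      (hi a ha).imp fun b hb => C.gt hb.2.2.2]
    refine sum_congr (Finset.ext fun q => ?_) fun _ _ => rfl
    rw [mem2_Peb, mem2_Peb]
    refine ⟨fun h => ⟨⟨hV h.1.1, hV h.1.2⟩, C.gt h.2⟩, fun h => ?_⟩
    obtain ⟨b, -, b1, b2, b3⟩ := hi q.1 (Or.inl ⟨_, h.2⟩)
    obtain rfl := C.tri.uniq (C.gt b3) h.2
    exact ⟨⟨b1, b2⟩, b3⟩
  generalize inn t V g = U at *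
  have s2 : ∑ q ∈ T3 V g, (if q.1 ∈ U then ang q.1 q.2.1 q.2.2 else 0) = 6 * (U.card : ℝ) := by
    rw [T3, sum_filter, sum_product, ← sum_subset hU fun x _ hx => by simp [hx], mul_comm,
      ← nsmul_eq_mul, ← sum_const]
    refine sum_congr rfl fun u hu => ?_
    rw [← s1 u hu, D2, sum_filter]
    simp [hu]
  have s3 : ∑ q ∈ T3 V g, (if q.1 ∈ U ∧ q.2.1 ∈ U then (1 : ℝ) else 0) ≤ (D2 U R).card := by
    rw [sum_boole, Nat.cast_le]
    refine card_le_card_of_injOn (fun q => (q.1, q.2.1)) (fun q hq => ?_) ?_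
    · have := mem_filter.1 (mem_coe.1 hq)
      exact mem_coe.2 (mem2_Peb.2 ⟨this.2, C.gR (mem3_Peb.1 this.1).2⟩)
    · rintro ⟨a, b, c⟩ hq ⟨a', b', c'⟩ hq' e
      obtain ⟨rfl, rfl⟩ := Prod.mk.inj e
      obtain rfl : c = c' := C.tri.uniq (C.gt (mem3_Peb.1 (mem_filter.1 (mem_coe.1 hq)).1).2)
        (C.gt (mem3_Peb.1 (mem_filter.1 (mem_coe.1 hq')).1).2)
      rfl
  have s4 : ∑ q ∈ T3 V g, (if q.1 ∈ U ∧ q.2.1 ∈ U ∧ q.2.2 ∈ U then δ q.1 q.2.1 q.2.2 else 0) =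
      ∑ q ∈ T3 U g, δ q.1 q.2.1 q.2.2 := by
    rw [← sum_filter]
    refine sum_congr (Finset.ext fun q => ?_) fun _ _ => rfl
    rw [mem_filter, mem3_Peb, mem3_Peb]
    exact ⟨fun h => ⟨h.2, h.1.2⟩, fun h => ⟨⟨⟨hU h.1.1, hU h.1.2.1, hU h.1.2.2⟩, h.2⟩, h.1⟩⟩
  have rot : ∀ F : ℂ → ℂ → ℂ → ℝ,
      ∑ q ∈ T3 V g, F q.2.1 q.2.2 q.1 = ∑ q ∈ T3 V g, F q.1 q.2.1 q.2.2 ∧
      ∑ q ∈ T3 V g, F q.2.2 q.1 q.2.1 = ∑ q ∈ T3 V g, F q.1 q.2.1 q.2.2 := fun F =>
    ⟨rot_Peb C.grot F, (rot_Peb C.grot fun a b c => F b c a).trans (rot_Peb C.grot F)⟩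
  obtain ⟨r1, r2⟩ := rot fun a b c => if a ∈ U then ang a b c else 0
  obtain ⟨r3, r4⟩ := rot fun a b _ => if a ∈ U ∧ b ∈ U then (1 : ℝ) else 0
  obtain ⟨r5, r6⟩ := rot fun a b _ => if bd R (pV V g) b a then (1 : ℝ) else 0
  obtain ⟨r7, r8⟩ := rot fun a b _ => if bd R (pV V g) b a then ψ a b else 0
  obtain ⟨r9, r0⟩ := rot fun a b c => if a ∈ U ∧ b ∈ U ∧ c ∉ U then ψ a b else 0
  have key := sum_le_sum (s := T3 V g) fun q hq => by
    have g1 := (mem3_Peb.1 hq).2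
    have g2 := C.grot g1
    have g3 := C.grot g2
    have a2 := hA.1 _ _ _ g2
    have a3 := hA.1 _ _ _ g3
    rw [C.drot g2, C.drot g1] at a3
    rw [C.drot g1] at a2
    exact key_PEb3 (c1 q.1 q.2.1) (c1 q.2.1 q.2.2) (c1 q.2.2 q.1)
      (angs _ _ _ (C.tri.pos (C.gt g1))).2.2.1 ((abs_nonneg _).trans (C.dev g1)) (hA.1 _ _ _ g1)
      a2 a3 (hA.2 _ _ (C.gR g1)).1 (hA.2 _ _ (C.gR g1)).2.1 (hA.2 _ _ (C.gR g2)).1
      (hA.2 _ _ (C.gR g2)).2.1 (hA.2 _ _ (C.gR g3)).1 (hA.2 _ _ (C.gR g3)).2.1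
  simp only [sum_add_distrib, sum_const, nsmul_eq_mul, ← mul_sum] at key
  unfold Del
  linarith

end

section


theorem ind_PEEL3 (ha3 : PEa3_st) (hb3 : PEb3_st) {X t R g δ ψ} (h : Cx X t R g δ)
    (hA : Ab R g δ ψ) (hE : Exa X (E t) t) (n : ℕ) : ∀ V : Finset ℂ, V.card = n → V ⊆ X → V.Nonempty →
    Solid t (rV V R) (pV V g) → ∀ S : ℤ,
    2 * (V.card : ℝ) - ((T3 V g).card : ℝ) / 3 + Del V g δ / 2 + Psi V R g ψ < S →
    12 * (V.card : ℤ) - 3 ≤ S ^ 2 := by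
  have hs := pes (lc mid)
  have ha := pea (lc mid) chi
  induction n using Nat.strong_induction_on with
  | _ n ih =>
  intro V hn hV hne hS S hlt
  have hD := Del_nonneg h V
  have hP : 0 ≤ Psi V R g ψ :=
    Finset.sum_nonneg fun q hq => (hA.2 _ _ (mem_D2.1 hq).2.2.1).1
  have hw : (0 : ℝ) ≤ wd V R g := Nat.cast_nonneg _
  by_cases he : (T3 V g).Nonempty
  · have h1 := (ha X t R g δ h hE V hV hS).1 hne
    have h2 := ha3 X t R g δ h hE V hV hS he
    have hUV : inn t V g ⊆ V := Finset.filter_subset _ _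
    set U := inn t V g with hU
    unfold chi6 at h1 h2
    have h1r : (6 : ℝ) ≤ 6 * (V.card : ℝ) - 3 * ((D2 V R).card : ℝ) + 2 * ((T3 V g).card : ℝ) := by
      exact_mod_cast h1
    have h2r : 6 * ((V.card : ℝ) - U.card) + 6 + 3 * wd V R g ≤
        6 * (((D2 V R).card : ℝ) - (T3 V g).card) +
        (6 * (V.card : ℝ) - 3 * ((D2 V R).card : ℝ) + 2 * ((T3 V g).card : ℝ)) := by
      exact_mod_cast h2
    have hW : ((V.card : ℤ) - U.card) + 2 < S := by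
      have : ((V.card : ℝ) - U.card) + 2 < S := by linarith
      exact_mod_cast this
    by_cases hUe : U.Nonempty
    · have hSU := hs X t R g δ h V hS
      have h3 := (ha X t R g δ h hE U (hUV.trans hV) hSU).1 hUe
      unfold chi6 at h3
      have h3r : (6 : ℝ) ≤ 6 * (U.card : ℝ) - 3 * ((D2 U R).card : ℝ) +
          2 * ((T3 U g).card : ℝ) := by exact_mod_cast h3
      have h4 := hb3 X t R g δ ψ h hA V hV
      rw [← hU] at h4
      have hlt' : U.card < n := by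
        rcases (Finset.card_le_card hUV).lt_or_eq with h5 | h5
        · exact hn ▸ h5
        · have h6 : U = V := Finset.eq_of_subset_of_card_le hUV h5.ge
          rw [h6] at h4 h3r h2r
          exfalso
          linarith
      have h7 := ih _ hlt' U rfl (hUV.trans hV) hUe hSU (S - 6) (by push_cast; linarith)
      nlinarith
    · rw [Finset.not_nonempty_iff_eq_empty] at hUe
      rw [hUe] at hW
      simp only [Finset.card_empty, Nat.cast_zero, sub_zero] at hW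
      nlinarith [sq_nonneg (S - 6)]
  · have hT : T3 V g = ∅ := Finset.not_nonempty_iff_eq_empty.1 he
    rw [hT] at hlt
    simp only [Finset.card_empty, Nat.cast_zero, zero_div, sub_zero] at hlt
    have h1 : 2 * (V.card : ℤ) < S := by
      have : 2 * (V.card : ℝ) < S := by linarith
      exact_mod_cast this
    have h2 : (0 : ℤ) ≤ V.card := Int.natCast_nonneg _
    nlinarith [sq_nonneg ((V.card : ℤ) - 1)]

theorem peel3 (ha3 : PEa3_st) (hb3 : PEb3_st) : PEEL3_st := by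
  intro X t R g δ ψ h hA hne hE hS S hlt
  refine ind_PEEL3 ha3 hb3 h hA hE _ X rfl subset_rfl hne ?_ S hlt
  intro c hc hsym a b d ht hn
  refine hS c hc (fun a b hR => hsym a b fun h' => hR h'.2.2) a b d ht fun hg => hn ?_
  exact ⟨h.tri.mem ht, h.tri.mem (h.tri.rot ht), h.tri.mem (h.tri.rot (h.tri.rot ht)), hg⟩

end

section


/-- the dart a b has the label i with an error in the interval -/
def Lab_RB3b (φ : ℝ) (a b : ℂ) (i : ℤ) (lo hi : ℝ) : Prop :=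
  ∃ e, lo ≤ e ∧ e ≤ hi ∧ Dir_Rb3 φ a b (i + e)

def Lb_RB3b (φ : ℝ) (a b c : ℂ) (lo hi : ℝ) : Prop :=
  ∃ i : ℤ, Lab_RB3b φ a b i lo hi ∧ Lab_RB3b φ b c (i + 2) lo hi ∧ Lab_RB3b φ c a (i + 4) lo hi

theorem mono_RB3b {φ : ℝ} {a b : ℂ} {i : ℤ} {lo hi lo' hi' : ℝ} (h : Lab_RB3b φ a b i lo hi)
    (h1 : lo' ≤ lo) (h2 : hi ≤ hi') : Lab_RB3b φ a b i lo' hi' :=
  let ⟨e, a1, a2, a3⟩ := h
  ⟨e, h1.trans a1, a2.trans h2, a3⟩

theorem rev_RB3b {φ : ℝ} {a b : ℂ} {i : ℤ} {lo hi : ℝ} (h : Lab_RB3b φ a b i lo hi) :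
    Lab_RB3b φ b a (i + 3) lo hi := by
  obtain ⟨e, h0, h1, h2⟩ := h
  refine ⟨e, h0, h1, ?_⟩
  have := rev_Rb3 h2
  rwa [show (i : ℝ) + e + 3 = ((i + 3 : ℤ) : ℝ) + e by push_cast; ring] at this

theorem rot_RB3b {φ : ℝ} {a b c : ℂ} {lo hi : ℝ} (h : Lb_RB3b φ a b c lo hi) :
    Lb_RB3b φ b c a lo hi := by
  obtain ⟨i, ⟨e, h0, h1, h4⟩, h2, h3⟩ := h
  refine ⟨i + 2, h2, by rwa [show i + 2 + 2 = i + 4 by ring], e, h0, h1, ?_⟩
  have := per_Rb3 h4 1
  rwa [show (i : ℝ) + e + 6 * ((1 : ℤ) : ℝ) = ((i + 2 + 4 : ℤ) : ℝ) + e by push_cast; ring] at this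

theorem uniq_RB3b {φ : ℝ} {a b : ℂ} (hab : a ≠ b) {i j : ℤ} {lo hi : ℝ} (hε : hi - lo < 1)
    (h : Lab_RB3b φ a b i lo hi) (h' : Lab_RB3b φ a b j lo hi) : (i : ZMod 6) = j := by
  obtain ⟨e, h0, h1, h2⟩ := h
  obtain ⟨e', h5, h3, h4⟩ := h'
  obtain ⟨k, hk⟩ := uniq_Rb3 hab h2 h4
  have h7 : ((i - j - 6 * k : ℤ) : ℝ) < 1 := by push_cast; linarith
  have h8 : (-1 : ℝ) < ((i - j - 6 * k : ℤ) : ℝ) := by push_cast; linarith
  have h9 : i - j - 6 * k < 1 := by exact_mod_cast h7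
  have h10 : -1 < i - j - 6 * k := by exact_mod_cast h8
  have h11 : i = j + 6 * k := by omega
  rw [h11]
  push_cast
  have : (6 : ZMod 6) = 0 := by decide
  rw [this]
  ring

theorem ext_RB3b {φ : ℝ} {a b c : ℂ} (hD : 0 < D a b c) {i : ℤ} {lo hi d : ℝ}
    (h : Lab_RB3b φ a b i lo hi) (h1 : |ang a b c - 1| ≤ d) (h2 : |ang b c a - 1| ≤ d)
    (h3 : |ang c a b - 1| ≤ d) :
    ∃ lo' hi', lo' ≤ lo ∧ hi ≤ hi' ∧ hi' - lo' ≤ hi - lo + d ∧ Lb_RB3b φ a b c lo' hi' := by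
  obtain ⟨hab, hbc, hca⟩ := ne_Rb3 hD
  obtain ⟨e, e0, e1, h4⟩ := h
  have hs := (angs a b c hD).2.2.1
  have k1 := abs_le.1 h1
  have k2 := abs_le.1 h2
  have k3 := abs_le.1 h3
  refine ⟨min lo (min (e - (ang b c a - 1)) (e + (ang a b c - 1))),
    max hi (max (e - (ang b c a - 1)) (e + (ang a b c - 1))), min_le_left _ _, le_max_left _ _,
    ?_, i, ⟨e, (min_le_left _ _).trans e0, e1.trans (le_max_left _ _), h4⟩,
    ⟨e - (ang b c a - 1), (min_le_right _ _).trans (min_le_left _ _),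
      (le_max_left _ _).trans (le_max_right _ _), ?_⟩,
    ⟨e + (ang a b c - 1), (min_le_right _ _).trans (min_le_right _ _),
      (le_max_right _ _).trans (le_max_right _ _), ?_⟩⟩
  · simp only [max_def, min_def]
    split_ifs <;> linarith [k1.1, k1.2, k2.1, k2.2, k3.1, k3.2]
  · rw [ang_Rb3 hbc hab.symm]
    have := rev_Rb3 h4
    rwa [show (i : ℝ) + e + 3 = ((i + 2 : ℤ) : ℝ) + (e - (ang b c a - 1)) + ang b c a by
      push_cast; ring] at this
  · have := rev_Rb3 ((ang_Rb3 hab hca.symm).1 h4)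
    rwa [show (i : ℝ) + e + ang a b c + 3 = ((i + 4 : ℤ) : ℝ) + (e + (ang a b c - 1)) by
      push_cast; ring] at this

/-- rotation closed sets of triangles, labelled within a common interval -/
def Good_RB3b (g : ℂ → ℂ → ℂ → Prop) (δ : ℂ → ℂ → ℂ → ℝ) (φ : ℝ) (C : Finset (ℂ × ℂ × ℂ))
    (lo hi : ℝ) : Prop :=
  hi - lo ≤ (∑ q ∈ C, δ q.1 q.2.1 q.2.2) / 3 ∧
    ∀ a b c, (a, b, c) ∈ C → g a b c ∧ (b, c, a) ∈ C ∧ Lb_RB3b φ a b c lo hi

theorem ins_RB3b {X : Finset ℂ} {t : ℂ → ℂ → ℂ → Prop} {R : ℂ → ℂ → Prop}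
    {g : ℂ → ℂ → ℂ → Prop} {δ : ℂ → ℂ → ℂ → ℝ} (H : Cx X t R g δ) {φ lo hi : ℝ}
    {C : Finset (ℂ × ℂ × ℂ)} (hC : Good_RB3b g δ φ C lo hi) {a b c : ℂ} (hg : g a b c) {i : ℤ}
    (hl : Lab_RB3b φ a b i lo hi) (h0 : (a, b, c) ∉ C) :
    ∃ C' lo' hi', Good_RB3b g δ φ C' lo' hi' ∧ C.card < C'.card := by
  have hD := H.tri.pos (H.gt hg)
  obtain ⟨hab, hbc, hca⟩ := ne_Rb3 hD
  have h2 : (c, a, b) ∉ C := fun h => h0 (hC.2 _ _ _ h).2.1
  have h1 : (b, c, a) ∉ C := fun h => h2 (hC.2 _ _ _ h).2.1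
  have d1 : δ b c a = δ a b c := H.drot hg
  have d2 : δ c a b = δ a b c := (H.drot (H.grot hg)).trans d1
  have hs : (∑ q ∈ insert (a, b, c) (insert (b, c, a) (insert (c, a, b) C)),
      δ q.1 q.2.1 q.2.2) / 3 = (∑ q ∈ C, δ q.1 q.2.1 q.2.2) / 3 + δ a b c := by
    rw [Finset.sum_insert (by simp [hab, hca.symm, h0]), Finset.sum_insert (by simp [hbc, h1]),
      Finset.sum_insert h2]
    simp only [d1, d2]
    ring
  obtain ⟨lo', hi', l1, l2, l3, hL⟩ := ext_RB3b hD hl (H.dev hg) (d1 ▸ H.dev (H.grot hg))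
    (d2 ▸ H.dev (H.grot (H.grot hg)))
  refine ⟨insert (a, b, c) (insert (b, c, a) (insert (c, a, b) C)), lo', hi',
    ⟨by rw [hs]; linarith [hC.1], fun x y z hm => ?_⟩, Finset.card_lt_card ⟨fun q hq => ?_,
      fun h => h0 (h (Finset.mem_insert_self _ _))⟩⟩
  · simp only [Finset.mem_insert, Prod.mk.injEq] at hm
    rcases hm with ⟨rfl, rfl, rfl⟩ | ⟨rfl, rfl, rfl⟩ | ⟨rfl, rfl, rfl⟩ | hm
    · exact ⟨hg, by simp, hL⟩
    · exact ⟨H.grot hg, by simp, rot_RB3b hL⟩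
    · exact ⟨H.grot (H.grot hg), by simp, rot_RB3b (rot_RB3b hL)⟩
    · obtain ⟨h3, h4, j, h5, h6, h7⟩ := hC.2 _ _ _ hm
      exact ⟨h3, by simp [h4], j, mono_RB3b h5 l1 l2, mono_RB3b h6 l1 l2, mono_RB3b h7 l1 l2⟩
  · simp [hq]

theorem rb3b : RB3b_st := by
  intro X t R g δ H hDel hR hconn
  by_cases hne : ∃ a b c, g a b c
  swap
  · push Not at hne
    refine ⟨fun _ _ => 0, fun a b c h => (hne a b c h).elim, fun a b h => ?_⟩
    rcases hR a b h with ⟨c, hc⟩ | ⟨c, hc⟩ <;> exact (hne _ _ _ hc).elim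
  obtain ⟨a0, b0, c0, h0⟩ := hne
  set φ := Complex.arg (b0 - a0) with hφ
  have hroot : Lab_RB3b φ a0 b0 0 0 0 := by
    refine ⟨0, le_rfl, le_rfl, ?_⟩
    unfold Dir_Rb3
    have := Complex.norm_mul_exp_arg_mul_I (b0 - a0)
    rw [dist_comm, dist_eq_norm]
    rw [show φ + π / 3 * (((0 : ℤ) : ℝ) + 0) = φ by simp]
    exact this.symm
  have sub : ∀ {C lo hi}, Good_RB3b g δ φ C lo hi → C ⊆ T3 X g := fun hC q hq => by
    have hq' := (hC.2 q.1 q.2.1 q.2.2 hq).1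
    simp only [T3, Finset.mem_filter, Finset.mem_product]
    exact ⟨⟨H.tri.mem (H.gt hq'), H.tri.mem (H.gt (H.grot hq')),
      H.tri.mem (H.gt (H.grot (H.grot hq')))⟩, hq'⟩
  have hemp : Good_RB3b g δ φ ∅ 0 0 := ⟨by simp, fun _ _ _ h => by simp at h⟩
  obtain ⟨C, hm, hmax⟩ := Finset.exists_max_image
    ((T3 X g).powerset.filter fun C => ∃ lo hi, Good_RB3b g δ φ C lo hi) Finset.card
    ⟨∅, Finset.mem_filter.2 ⟨Finset.empty_mem_powerset _, 0, 0, hemp⟩⟩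
  obtain ⟨lo, hi, hC⟩ := (Finset.mem_filter.1 hm).2
  have hmx : ∀ {C' lo' hi'}, Good_RB3b g δ φ C' lo' hi' → C'.card ≤ C.card := fun h =>
    hmax _ (Finset.mem_filter.2 ⟨Finset.mem_powerset.2 (sub h), _, _, h⟩)
  have hn : C.Nonempty := by
    obtain ⟨C', lo', hi', k1, k2⟩ := ins_RB3b H hemp h0 hroot (by simp)
    exact Finset.card_pos.1 (by have := hmx k1; omega)
  have hall := hconn (fun a b c => (a, b, c) ∈ C)
    (fun a b c hm => ⟨(hC.2 _ _ _ hm).1, (hC.2 _ _ _ hm).2.1⟩)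
    (fun a b c d hm hg => by
      obtain ⟨i, h1, -, -⟩ := (hC.2 _ _ _ hm).2.2
      by_contra hc
      obtain ⟨C', lo', hi', k1, k2⟩ := ins_RB3b H hC hg (rev_RB3b h1) hc
      exact absurd (hmx k1) (not_le.2 k2))
    (let ⟨q, hq⟩ := hn; ⟨q.1, q.2.1, q.2.2, hq⟩)
  have hlt : hi - lo < 1 := by
    refine (hC.1.trans ?_).trans_lt hDel
    unfold Del
    gcongr ?_ / 3
    exact Finset.sum_le_sum_of_subset_of_nonneg (sub hC) fun q hq _ =>
      (abs_nonneg _).trans (H.dev (Finset.mem_filter.1 hq).2)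
  have hL : ∀ a b c, g a b c → Lb_RB3b φ a b c lo hi := fun a b c hg =>
    (hC.2 _ _ _ (hall a b c hg)).2.2
  let G : ℂ → ℂ → ZMod 6 := fun a b =>
    if h : ∃ i : ℤ, Lab_RB3b φ a b i lo hi then (h.choose : ZMod 6) else 0
  have hG : ∀ a b, a ≠ b → ∀ i : ℤ, Lab_RB3b φ a b i lo hi → G a b = i := by
    intro a b hab i hi
    have h : ∃ i : ℤ, Lab_RB3b φ a b i lo _ := ⟨i, hi⟩
    simp only [G, dif_pos h]
    exact uniq_RB3b hab hlt h.choose_spec hi
  refine ⟨G, fun a b c hg => ?_, fun a b h => ?_⟩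
  · obtain ⟨i, h1, h2, -⟩ := hL _ _ _ hg
    obtain ⟨hab, hbc, -⟩ := ne_Rb3 (H.tri.pos (H.gt hg))
    rw [hG _ _ hab _ h1, hG _ _ hbc _ h2]
    push_cast
    rfl
  · have hRl : a ≠ b ∧ ∃ i : ℤ, Lab_RB3b φ a b i lo hi := by
      rcases hR a b h with ⟨c, hc⟩ | ⟨c, hc⟩
      · obtain ⟨i, h1, -⟩ := hL _ _ _ hc
        exact ⟨(ne_Rb3 (H.tri.pos (H.gt hc))).1, i, h1⟩
      · obtain ⟨i, h1, -⟩ := hL _ _ _ hc
        exact ⟨(ne_Rb3 (H.tri.pos (H.gt hc))).1.symm, _, rev_RB3b h1⟩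
    obtain ⟨hab, i, hi⟩ := hRl
    rw [hG _ _ hab _ hi, hG _ _ hab.symm _ (rev_RB3b hi)]
    push_cast
    rfl

end

section


theorem rigb (h3 : RB3b_st) : RIGb_st := by
  intro X t R g δ hX hconn hexa hchi hne hDel hdeg
  obtain ⟨c1, c2, c3, -⟩ := cnt X t R g δ hX
  obtain ⟨hR, hdeg2, hstr⟩ :=
    rb1 (lc mid) (an2 mid angs) cnt X t R g δ hX hconn hne hDel hdeg
  obtain ⟨G, hG1, hG2⟩ := h3 X t R g δ hX hDel hR hstr
  have hRX : ∀ a b, R a b → a ∈ X ∧ R b a := by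
    intro a b h
    refine ⟨?_, hX.Rsymm h⟩
    obtain ⟨c, hc⟩ | ⟨c, hc⟩ := hX.RE h
    · exact hX.tri.mem hc
    · exact hX.tri.mem (hX.tri.rot hc)
  have hgR : ∀ a b c, g a b c → R a b ∧ g b c a := fun a b c h => ⟨hX.gR h, hX.grot h⟩
  have huq : ∀ a b c c', g a b c → g a b c' → c = c' := fun a b c c' h h' =>
    hX.tri.uniq (hX.gt h) (hX.gt h')
  obtain ⟨y1, hy1⟩ := pot X R g hRX hgR huq hexa (fun a b => e1 (G a b))
    (fun a b h => by rw [hG2 a b h, e1_three_Rig])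
    (fun a b c h => by rw [hG1 b c a (hX.grot h), hG1 a b c h, e1_sum_Rig])
  obtain ⟨y2, hy2⟩ := pot X R g hRX hgR huq hexa (fun a b => e2 (G a b))
    (fun a b h => by rw [hG2 a b h, e2_three_Rig])
    (fun a b c h => by rw [hG1 b c a (hX.grot h), hG1 a b c h, e2_sum_Rig])
  obtain ⟨F, hF1, hF2, hF3⟩ := rb5 X t R g δ hX hR hdeg2 G y1 y2 hG1 hG2
    fun a b h => ⟨hy1 a b h, hy2 a b h⟩
  set W : Finset ℂ := X.filter fun w => kb X R g w = 1 with hW
  have s1 : ∑ w ∈ W, (3 - dg X g w) + ∑ w ∈ X, dg X g w + 3 * ∑ w ∈ X, kb X R g w =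
      6 * X.card := by
    rw [hW, Finset.sum_filter, Finset.mul_sum, ← Finset.sum_add_distrib, ← Finset.sum_add_distrib,
      Finset.card_eq_sum_ones, Finset.mul_sum]
    refine Finset.sum_congr rfl fun w hw => ?_
    rcases hdeg2 w hw with ⟨a1, a2⟩ | ⟨a1, a2⟩
    · rw [if_neg (by omega)]
      omega
    · rw [if_pos a1]
      omega
  have s2 : W.card = ∑ w ∈ X, kb X R g w := by
    rw [hW, Finset.card_filter]
    refine Finset.sum_congr rfl fun w hw => ?_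
    rcases hdeg2 w hw with ⟨a1, -⟩ | ⟨a1, -⟩
    · rw [if_neg (by omega), a1]
    · rw [if_pos a1, a1]
  have s3 : 6 * X.card = 6 + 3 * (D2 X (bd R g)).card + (T3 X g).card := by
    unfold chi6 at hchi
    omega
  have s4 : ∑ w ∈ W, (3 - dg X g w) = 6 := by omega
  obtain ⟨a, G0, z, b1, b2, b3, b4, b5, b6⟩ := l6 W F (fun w => G w (F w)) (fun w => 3 - dg X g w)
    y1 y2 (fun w hw => (hF1 w hw).1) hF2
    (fun w hw => ⟨hy1 _ _ (hF1 w hw).2.1, hy2 _ _ (hF1 w hw).2.1, (hF1 w hw).2.2⟩) s4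
  have hb : (D2 X (bd R g)).card = a 0 + a 1 + a 2 + a 3 + a 4 + a 5 := by omega
  refine sides_groemer (a := a) ⟨b1, b2, hb, ?_⟩
  rw [b4] at hF3
  have q1 : (6 * X.card : ℚ) = 6 + 3 * (a 0 + a 1 + a 2 + a 3 + a 4 + a 5) + (T3 X g).card := by
    rw [hb] at s3
    exact_mod_cast s3
  have q2 : (a 0 + a 5 : ℚ) = a 2 + a 3 := by exact_mod_cast b1
  have q3 : (a 1 + a 2 : ℚ) = a 4 + a 5 := by exact_mod_cast b2
  have q4 : (2 * X.card + a 5 * (a 5 + 1) + a 2 * (a 2 + 1) : ℚ) =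
      2 * (a 0 + a 5 + 1) * (a 1 + a 2 + 1) := by
    linear_combination (1 / 3) * q1 - (1 / 3) * hF3 - q2 - q3
  exact_mod_cast q4

end

section


theorem acbr_ACbr (hB : BAD_st) (hO : OBT_st) (hS : SLKr_st) : ACbr_st := by
  intro X t h hs hsat ρ r0 r1
  obtain ⟨b1, b2, -⟩ := hB X t h
  have ng : ∀ a b c, bad t b c a → ¬ good t a b c := fun a b c x y =>
    x.2 (by rw [Drot_Acb]; linarith [y.2])
  have ng' : ∀ a b c, bad t c a b → ¬ good t a b c := fun a b c x y =>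
    x.2 (by rw [← Drot_Acb]; linarith [y.2])
  have A : ∑ q ∈ T3 X (good t), D q.1 q.2.1 q.2.2 + 3 * ∑ q ∈ T3 X (ap t), D q.1 q.2.1 q.2.2 ≤
      ∑ q ∈ T3 X t, D q.1 q.2.1 q.2.2 := by
    have e1 := rot_Acb X (ap t) D
    have e2 := rot_Acb X (fun a b c => ap t b c a) D
    simp only [Drot_Acb] at e1 e2
    have : ∑ q ∈ T3 X (good t), D q.1 q.2.1 q.2.2 + ∑ q ∈ T3 X (ap t), D q.1 q.2.1 q.2.2 +
        ∑ q ∈ T3 X (fun a b c => ap t b c a), D q.1 q.2.1 q.2.2 +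
        ∑ q ∈ T3 X (fun a b c => ap t c a b), D q.1 q.2.1 q.2.2 ≤
        ∑ q ∈ T3 X t, D q.1 q.2.1 q.2.2 := by
      simp only [T3, Finset.sum_filter, ← Finset.sum_add_distrib]
      refine Finset.sum_le_sum fun ⟨a, b, c⟩ _ => ?_
      dsimp only
      by_cases ht : t a b c
      · have p := h.pos ht
        by_cases h1 : ap t a b c
        · have o := hO b c a h1.2
          rw [if_neg fun y : good t a b c => h1.1.2 y.2, if_pos h1,
            if_neg fun y : ap t b c a => o.1.not_gt y.2,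
            if_neg fun y : ap t c a b => o.2.1.not_gt y.2, if_pos ht]
          linarith
        by_cases h2 : ap t b c a
        · have o := hO c a b h2.2
          rw [if_neg (ng _ _ _ h2.1), if_neg h1, if_pos h2,
            if_neg fun y : ap t c a b => o.1.not_gt y.2, if_pos ht]
          linarith
        by_cases h3 : ap t c a b
        · rw [if_neg (ng' _ _ _ h3.1), if_neg h1, if_neg h2, if_pos h3, if_pos ht]
          linarith
        · rw [if_neg h1, if_neg h2, if_neg h3, if_pos ht]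
          split_ifs <;> linarith
      · rw [if_neg fun y : good t a b c => ht y.1, if_neg fun y : ap t a b c => ht y.1.1,
          if_neg fun y : ap t b c a => ht (h.rot (h.rot y.1.1)),
          if_neg fun y : ap t c a b => ht (h.rot y.1.1), if_neg ht]
        simp
    linarith
  have B : ∑ q ∈ D2 X (bd (e0 t) (good t)), dist q.1 q.2 + ∑ q ∈ T3 X (ap t), dist q.2.1 q.2.2 ≤
      ∑ q ∈ D2 X (bd (E t) t), dist q.1 q.2 + ∑ q ∈ T3 X (ap t), dist q.1 q.2.1 +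
        ∑ q ∈ T3 X (ap t), dist q.2.2 q.1 := by
    rw [rot_Acb X (ap t) fun _ a b => dist a b, rot_Acb X _ fun b _ a => dist a b,
      rot_Acb X (ap t) fun c _ b => dist b c,
      proj_Acb (P := fun a b c => ap t c a b) h fun a b c y => h.rot y.1.1,
      proj_Acb (P := fun a b c => ap t b c a) h fun a b c y => h.rot (h.rot y.1.1),
      proj_Acb (P := ap t) h fun a b c y => y.1.1, swap_Acb X fun a b => ∃ c, ap t c a b]
    simp only [D2, Finset.sum_filter, ← Finset.sum_add_distrib]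
    refine Finset.sum_le_sum fun ⟨a, b⟩ _ => ?_
    dsimp only
    have p : 0 ≤ dist a b := dist_nonneg
    have key : E t a b → (¬ ∃ c, good t a b c) → ¬ lng t a b →
        dist a b ≤ ((if bd (E t) t a b then dist a b else 0) +
          if ∃ c, ap t a b c then dist a b else 0) + if ∃ c, ap t b c a then dist a b else 0 := by
      intro x y z
      by_cases ht : ∃ c, t a b c
      · obtain ⟨c, ht⟩ := ht
        rcases b1 hsat a b c ⟨ht, fun w => y ⟨c, ht, w⟩⟩ with w | w | w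
        · rw [if_pos (⟨c, w⟩ : ∃ c, ap t a b c)]
          split_ifs <;> linarith
        · rw [if_pos (⟨c, w⟩ : ∃ c, ap t b c a)]
          split_ifs <;> linarith
        · exact absurd ⟨c, w⟩ z
      · have w : bd (E t) t a b := ⟨x, ht⟩
        rw [if_pos w]
        split_ifs <;> linarith
    by_cases h1 : ∃ c, ap t c b a
    · rw [if_neg fun y : bd (e0 t) (good t) a b => y.1.2.2 h1, if_pos h1, zero_add]
      obtain ⟨c, hc⟩ := h1
      exact key (Or.inr ⟨c, h.rot hc.1.1⟩) (fun ⟨d, y⟩ => (b2 _ _ _ _ hc y.1).1.2 y.2)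
        fun ⟨d, y⟩ => (b2 _ _ _ _ hc (h.rot y.1.1)).2.not_gt y.2
    · rw [if_neg h1, add_zero]
      by_cases h2 : bd (e0 t) (good t) a b
      · rw [if_pos h2]
        exact key h2.1.1 h2.2 h2.1.2.1
      · rw [if_neg h2]
        split_ifs <;> linarith
  have C : ∑ q ∈ T3 X (ap t), (ρ * (dist q.2.2 q.1 + dist q.1 q.2.1 - dist q.2.1 q.2.2) +
      2 * nu * (3 - ang q.1 q.2.1 q.2.2)) ≤ ∑ q ∈ T3 X (ap t), D q.1 q.2.1 q.2.2 / 2 := by
    refine Finset.sum_le_sum fun ⟨c, a, b⟩ hq => ?_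
    simp only [T3, Finset.mem_filter, Finset.mem_product] at hq
    have p := h.pos hq.2.1.1
    refine hS a b c ρ r0 r1 p hq.2.2 (hs _ hq.1.1 _ hq.1.2.1 ?_) (hs _ hq.1.2.2 _ hq.1.1 ?_)
      hq.2.1.2
    · rintro rfl
      simp [D] at p
    · rintro rfl
      simp [D] at p
  rw [Finset.sum_add_distrib, ← Finset.mul_sum, Finset.sum_sub_distrib, Finset.sum_add_distrib,
    ← Finset.mul_sum, ← Finset.sum_div] at C
  have B' := mul_le_mul_of_nonneg_left B r0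
  unfold SL
  linarith

theorem acbr (hS : SLKr_st) : ACbr_st := acbr_ACbr badf obt hS

end

section


theorem num_ACgr {l : ℝ} (hl : 2 ≤ l) :
    4 * nu * min ((l ^ 2 - 4) / 16) (1 / 2) + nu / 2 * kk (l ^ 2) ≤ 0.866 * (l - 2) := by
  obtain ⟨n1, n2⟩ := nu_bd
  have m1 : 4 * nu * min ((l ^ 2 - 4) / 16) (1 / 2) ≤ 4 * nu * ((l ^ 2 - 4) / 16) :=
    mul_le_mul_of_nonneg_left (min_le_left _ _) (by linarith)
  have m2 : 4 * nu * min ((l ^ 2 - 4) / 16) (1 / 2) ≤ 4 * nu * (1 / 2) :=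
    mul_le_mul_of_nonneg_left (min_le_right _ _) (by linarith)
  rcases kk_cases (l ^ 2) with ⟨h1, e⟩ | ⟨h1, h2, e⟩ | ⟨h1, e⟩ <;> rw [e]
  · have h3 : l ≤ 3 := by nlinarith
    have h4 : 0 ≤ l ^ 2 - 4 := by nlinarith
    have h5 : nu * (l ^ 2 - 4) ≤ 0.268 * (l ^ 2 - 4) := mul_le_mul_of_nonneg_right n2.le h4
    nlinarith [mul_nonneg (sub_nonneg.2 hl) (sub_nonneg.2 h3)]
  · have h3 : 2.82 ≤ l := by nlinarith
    have h4 : l ≤ 3.47 := by nlinarith
    have h5 : nu * (3 * l ^ 2 / 4 - 5) ≤ 0.268 * (3 * l ^ 2 / 4 - 5) :=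
      mul_le_mul_of_nonneg_right n2.le (by linarith)
    nlinarith [mul_nonneg (sub_nonneg.2 h3) (sub_nonneg.2 h4)]
  · have h3 : 3.46 ≤ l := by nlinarith
    linarith

theorem pt_ACgr {a b : ℂ} {ρ : ℝ} (hρ : √3 / 2 ≤ ρ) (h : 2 ≤ dist a b) :
    4 * nu * psi a b + cap a b ≤ ρ * (dist a b - 2) := by
  have h1 := num_ACgr h
  have h2 : 0.866 * (dist a b - 2) ≤ ρ * (dist a b - 2) :=
    mul_le_mul_of_nonneg_right (by linarith [sqrt3_bounds.1]) (by linarith)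
  rw [cap_kk, psi]
  linarith

theorem acgr : ACgr_st := by
  intro X t h hS hg ρ hρ
  have h1 := acg2 badf X t h hS hg
  have e : D2 X (bd (e0 t) (pV X (good t))) = D2 X (bd (e0 t) (good t)) := by
    ext q
    simp only [mem_D2, bd, pV]
    refine and_congr_right fun a1 => and_congr_right fun a2 => and_congr_right fun _ =>
      not_congr (exists_congr fun c => ⟨fun k => k.2.2.2, fun k => ⟨a1, a2, ?_, k⟩⟩)
    exact h.mem (h.rot (h.rot k.1))
  have h2 : ∑ q ∈ D2 X (bd (e0 t) (good t)), (4 * nu * psi q.1 q.2 + cap q.1 q.2) ≤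
      ∑ q ∈ D2 X (bd (e0 t) (good t)), ρ * (dist q.1 q.2 - 2) := by
    refine Finset.sum_le_sum fun q hq => ?_
    obtain ⟨a1, a2, a3⟩ := mem_D2.1 hq
    exact pt_ACgr hρ (hS _ a1 _ a2 (E_ne h a3.1.1))
  rw [Finset.sum_add_distrib, ← Finset.mul_sum, ← Finset.mul_sum, Finset.sum_sub_distrib,
    Finset.sum_const, nsmul_eq_mul] at h2
  rw [BS, Finset.sum_sub_distrib, Finset.sum_sub_distrib, Finset.sum_const, nsmul_eq_mul] at h1
  rw [Psi, e]
  linarith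

end

section


open Pointwise in
theorem vol_GSTr {ρ : ℝ} (hρ : 0 < ρ) (S : Set ℂ) :
    ENNReal.ofReal (ρ ^ 2) * volume (ρ⁻¹ • S) = volume S := by
  rw [Measure.addHaar_smul, Complex.finrank_real_complex, abs_of_nonneg (sq_nonneg _), ← mul_assoc,
    ← ENNReal.ofReal_mul (sq_nonneg _), ← mul_pow, mul_inv_cancel₀ hρ.ne', one_pow,
    ENNReal.ofReal_one, one_mul]

open Pointwise in
theorem gstr : GSTr_st := by
  intro X H K ρ hρ hX hK hb hH
  have c0 : ρ⁻¹ ≠ 0 := inv_ne_zero hρ.ne'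
  have inj : Function.Injective fun x : ℂ => ρ⁻¹ • x := smul_right_injective ℂ c0
  have key := gst (X.image fun x => ρ⁻¹ • x)
    (H.image (Prod.map (fun x => ρ⁻¹ • x) fun x => ρ⁻¹ • x)) (ρ⁻¹ • K) (hX.image _) (hK.smul _)
    (fun x' hx' => by
      obtain ⟨x, hx, rfl⟩ := Finset.mem_image.1 hx'
      have := Set.smul_set_mono (a := ρ⁻¹) (hb x hx)
      rwa [smul_closedBall' c0, Real.norm_of_nonneg (inv_pos.2 hρ).le, inv_mul_cancel₀ hρ.ne']
        at this)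
    (fun q' hq' => by
      obtain ⟨q, hq, rfl⟩ := Finset.mem_image.1 hq'
      obtain ⟨h1, h2, h3, h4, h5⟩ := hH q hq
      refine ⟨Finset.mem_image_of_mem _ h1, Finset.mem_image_of_mem _ h2, inj.ne h3,
        fun x' hx' => ?_, fun x' hx' s s0 s1 e => ?_⟩
      · obtain ⟨x, hx, rfl⟩ := Finset.mem_image.1 hx'
        have e : D (ρ⁻¹ • q.1) (ρ⁻¹ • q.2) (ρ⁻¹ • x) = ρ⁻¹ ^ 2 * D q.1 q.2 x := by
          simp only [D, Complex.smul_re, Complex.smul_im, smul_eq_mul]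
          ring
        exact e.trans_le (mul_nonpos_of_nonneg_of_nonpos (sq_nonneg _) (h4 x hx))
      · obtain ⟨x, hx, rfl⟩ := Finset.mem_image.1 hx'
        refine h5 x hx s s0 s1 (inj (e.trans ?_))
        simp only [Prod.map_fst, Prod.map_snd, Complex.real_smul]
        ring)
  rw [Finset.coe_image, Set.image_smul, convexHull_smul,
    Finset.sum_image (inj.prodMap inj).injOn] at key
  simp only [Prod.map_fst, Prod.map_snd, dist_smul₀, Real.norm_of_nonneg (inv_pos.2 hρ).le,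
    ← Finset.mul_sum] at key
  have k2 := mul_le_mul_right key (ENNReal.ofReal (ρ ^ 2))
  rw [mul_add, vol_GSTr hρ, vol_GSTr hρ, ← ENNReal.ofReal_mul (sq_nonneg _)] at k2
  convert k2 using 3
  field_simp

end

section


theorem linr (hG : GSTr_st) : LINr_st := by
  intro X hX hS hN K ρ hρ hK hB
  obtain ⟨⟨p, q⟩, hm, hmax⟩ := Finset.exists_max_image (X ×ˢ X) (fun z => dist z.1 z.2)
    (hX.product hX)
  obtain ⟨hp, hq⟩ := Finset.mem_product.mp hm
  dsimp only at hp hq hmax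
  have hle : ∀ a ∈ X, ∀ b ∈ X, dist a b ≤ dist p q := fun a ha b hb =>
    hmax (a, b) (Finset.mem_product.mpr ⟨ha, hb⟩)
  by_cases hpq : p = q
  · have h1 : X.card ≤ 1 := Finset.card_le_one.mpr fun a ha b hb => by
      have := hle a ha b hb
      rw [hpq, dist_self] at this
      exact dist_le_zero.mp this
    have h2 := hG X ∅ K ρ hρ hX hK hB fun z hz => absurd hz (Finset.notMem_empty z)
    refine le_trans (ENNReal.ofReal_le_ofReal ?_) (le_trans le_add_self h2)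
    have h3 : (X.card : ℝ) ≤ 1 := by exact_mod_cast h1
    rw [Finset.sum_empty]
    nlinarith [mul_le_mul_of_nonneg_left h3 hρ.le]
  have hD : ∀ x ∈ X, D p q x = 0 := fun x hx => by
    by_contra h
    exact hN ⟨p, hp, q, hq, x, hx, h⟩
  choose! s hs using fun x hx => col_Lin hpq (hD x hx)
  have hL : 0 < dist p q := dist_pos.mpr hpq
  have hd : ∀ u v : ℝ, dist (p + u * (q - p)) (p + v * (q - p)) = |u - v| * dist p q := by
    intro u v
    rw [dist_add_left, dist_eq_norm, ← sub_mul, norm_mul, ← Complex.ofReal_sub, Complex.norm_real,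
      Real.norm_eq_abs, dist_eq_norm, norm_sub_rev]
  have h01 : ∀ x ∈ X, 0 ≤ s x ∧ s x ≤ 1 := fun x hx => by
    have a1 := hle x hx p hp
    have a2 := hle x hx q hq
    have a3 := hd (s x) 0
    have a4 := hd (s x) 1
    rw [← hs x hx] at a3 a4
    simp only [Complex.ofReal_zero, zero_mul, add_zero, sub_zero] at a3
    simp only [Complex.ofReal_one, one_mul, add_sub_cancel] at a4
    rw [a3] at a1
    rw [a4] at a2
    have a5 := abs_le.mp (le_of_mul_le_mul_right (a1.trans (one_mul _).symm.le) hL)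
    have a6 := abs_le.mp (le_of_mul_le_mul_right (a2.trans (one_mul _).symm.le) hL)
    constructor <;> linarith [a5.2, a6.1]
  have hc : X.card ≤ ⌊dist p q / 2⌋₊ + 1 := by
    rw [← Finset.card_range (⌊dist p q / 2⌋₊ + 1)]
    refine Finset.card_le_card_of_injOn (fun x => ⌊s x * dist p q / 2⌋₊) (fun x hx => ?_)
      fun a ha b hb e => ?_
    · refine Finset.mem_coe.mpr (Finset.mem_range.mpr (Nat.lt_succ_of_le (Nat.floor_le_floor ?_)))
      nlinarith [(h01 x hx).2]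
    · by_contra hab
      have a1 := hS a ha b hb hab
      rw [hs a ha, hs b hb, hd, ← abs_of_pos hL, ← abs_mul] at a1
      have a2 := Nat.floor_le (a := s a * dist p q / 2) (by have := (h01 a ha).1; positivity)
      have a3 := Nat.floor_le (a := s b * dist p q / 2) (by have := (h01 b hb).1; positivity)
      have a4 := Nat.lt_floor_add_one (s a * dist p q / 2)
      have a5 := Nat.lt_floor_add_one (s b * dist p q / 2)
      dsimp only at e
      rw [e] at a2 a4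
      exact absurd a1 (not_le.mpr (abs_lt.mpr ⟨by linarith, by linarith⟩))
  have hc' : (X.card : ℝ) ≤ dist p q / 2 + 1 := by
    have a1 : (X.card : ℝ) ≤ (⌊dist p q / 2⌋₊ : ℝ) + 1 := by exact_mod_cast hc
    linarith [Nat.floor_le (a := dist p q / 2) (by positivity)]
  have key : ∀ a b : ℂ, a ≠ b → ∀ x, x = a ∨ x = b → D a b x ≤ 0 ∧
      ∀ u : ℝ, 0 < u → u < 1 → x ≠ a + u * (b - a) := by
    intro a b hab x hx
    have h1 : b - a ≠ 0 := sub_ne_zero.mpr hab.symm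
    rcases hx with rfl | rfl
    · refine ⟨le_of_eq (by simp [D]), fun u u0 _ e => ?_⟩
      have : (u : ℂ) * (b - x) = 0 := by linear_combination -e
      exact u0.ne' (by exact_mod_cast (mul_eq_zero.mp this).resolve_right h1)
    · refine ⟨le_of_eq (by simp only [D]; ring), fun u _ u1 e => ?_⟩
      have : ((u : ℂ) - 1) * (x - a) = 0 := by linear_combination -e
      exact u1.ne (by exact_mod_cast sub_eq_zero.mp ((mul_eq_zero.mp this).resolve_right h1))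
  have h2 := hG {p, q} {(p, q), (q, p)} K ρ hρ (Finset.insert_nonempty _ _) hK
    (fun x hx => hB x (by rcases Finset.mem_insert.mp hx with rfl | h
                          exacts [hp, Finset.mem_singleton.mp h ▸ hq]))
    (fun z hz => by
      simp only [Finset.mem_insert, Finset.mem_singleton] at hz ⊢
      rcases hz with rfl | rfl
      · exact ⟨Or.inl rfl, Or.inr rfl, hpq, fun x hx => (key p q hpq x hx).1,
          fun x hx => (key p q hpq x hx).2⟩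
      · exact ⟨Or.inr rfl, Or.inl rfl, Ne.symm hpq, fun x hx => (key q p (Ne.symm hpq) x hx.symm).1,
          fun x hx => (key q p (Ne.symm hpq) x hx.symm).2⟩)
  refine le_trans (ENNReal.ofReal_le_ofReal ?_) (le_trans le_add_self h2)
  rw [Finset.sum_pair fun e => hpq (Prod.mk.inj e).1, dist_comm q p]
  nlinarith [mul_le_mul_of_nonneg_left hc' hρ.le]

end

section


theorem vol_COREr (hG : GSTr_st) {X t} (h : Tri X t) (hne : X.Nonempty) {ρ : ℝ} (hρ : 0 < ρ)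
    {K : Set ℂ} (hK : Convex ℝ K) (hb : ∀ x ∈ X, closedBall x ρ ⊆ K) :
    ENNReal.ofReal ((∑ q ∈ T3 X t, D q.1 q.2.1 q.2.2) / 6 +
      (ρ * ∑ q ∈ D2 X (bd (E t) t), dist q.1 q.2 + π * ρ ^ 2)) ≤ volume K := by
  refine ENNReal.ofReal_add_le.trans ?_
  refine le_trans (add_le_add (trv otv X t h) le_rfl) (hG X _ K ρ hρ hne hK hb fun q hq => ?_)
  obtain ⟨h1, h2, h3, h4⟩ := mem_D2.1 hq
  refine ⟨h1, h2, E_ne h h3, fun x hx => ?_, fun x hx s s0 s1 => mid X t h _ _ x s h3 hx s0 s1⟩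
  rcases h3 with h3 | ⟨c, h3⟩
  · exact absurd h3 h4
  · by_contra hlt
    refine h4 (h.nbr h3 hx ?_)
    have : D q.2 q.1 x = - D q.1 q.2 x := by unfold D; ring
    linarith

theorem psi_COREr {a b : ℂ} (h : 2 ≤ dist a b) :
    0 ≤ psi a b ∧ psi a b ≤ 1 / 2 ∧ psi b a = psi a b :=
  ⟨le_min (by nlinarith) (by norm_num), min_le_right _ _, by rw [psi, psi, dist_comm]⟩

theorem corer (h1' : T1_st) (h2' : T2_st) (hP : PEEL3_st) (hb : ACbr_st) (hg : ACgr_st)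
    (hG : GSTr_st) : COREr_st := by
  intro X hS hSat hNC ρ r0 r1
  obtain ⟨t, h⟩ := tri_all X hS hNC
  have hne : X.Nonempty := by obtain ⟨a, ha, -⟩ := hNC; exact ⟨a, ha⟩
  have hρ : 0 < ρ := by linarith [sqrt3_bounds.1]
  have cx := cx_of sti_all (col badf obt) h hS hSat
  obtain ⟨c1, c2, c3, c4⟩ := col badf obt X t h hSat
  obtain ⟨d1, d2⟩ := ch1 eps ll X t h hne
  have hE := h1 mid eps ll X t h
  have hE0 : Exa X (e0 t) (good t) := exs X t _ _ h hE (fun _ _ e => e.1) (fun _ _ _ e => e.1) c1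
  have hchi : chi6 X (e0 t) (good t) = 6 := by
    refine le_antisymm (c3 ▸ d1) (chi X X _ _ subset_rfl hne ?_ ?_ ?_ hE0)
    · exact fun a b e => ⟨(E_mem h e.1).1, E_ne h e.1, cx.Rsymm e⟩
    · exact fun a b c e => ⟨cx.gR e, cx.grot e⟩
    · exact fun a b c c' e e' => h.uniq e.1 e'.1
  have hcnt := (cnt X t _ _ _ cx).1
  have hψ : ∀ a b, e0 t a b → 0 ≤ psi a b ∧ psi a b ≤ 1 / 2 ∧ psi b a = psi a b := fun a b e =>
    psi_COREr (hS a (E_mem h e.1).1 b (E_mem h e.1).2 (E_ne h e.1))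
  have hA : Ab (e0 t) (good t) dl psi := ⟨fun a b c e =>
    ⟨h1' _ _ _ (h.pos e.1) (t_sep h hS e.1) (t_sep h hS (h.rot e.1))
      (t_sep h hS (h.rot (h.rot e.1))) e.2, h2' _ _ _ (h.pos e.1) (t_sep h hS e.1)
      (t_sep h hS (h.rot e.1)) (t_sep h hS (h.rot (h.rot e.1))) e.2⟩, hψ⟩
  have hP' := hP X t _ _ _ _ cx hA hne hE c1
  have e1 := hb X t h hS hSat ρ hρ.le r1
  have e2 := hg X t h hS c4 ρ r0
  have hchi' := hchi
  unfold chi6 at hchi'
  rw [hcnt] at hchi'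
  have hSL : 0 ≤ SL X t := Finset.sum_nonneg fun q hq => (SL_term angs h q hq).le
  have hΨ : 0 ≤ Psi X (e0 t) (good t) psi :=
    Finset.sum_nonneg fun q hq => (hψ _ _ (mem_D2.1 hq).2.2.1).1
  have hz : 3 * ((D2 X (bd (e0 t) (good t))).card : ℤ) + (T3 X (good t)).card + 6 =
      6 * (X.card : ℤ) := by push_cast at hchi'; linarith
  have hr : ((T3 X (good t)).card : ℝ) =
      6 * X.card - 3 * (D2 X (bd (e0 t) (good t))).card - 6 := by
    have : 3 * ((D2 X (bd (e0 t) (good t))).card : ℝ) + (T3 X (good t)).card + 6 =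
      6 * (X.card : ℝ) := by exact_mod_cast hz
    linarith
  refine ⟨t, _, SL X t, Psi X (e0 t) (good t) psi, cx, c2 d2, hE0, hchi, rfl,
    by exact_mod_cast hz, hSL, hΨ, ra_all X t cx hSat, fun K hK hB => ?_, fun S hs => hP' S ?_⟩
  · refine le_trans (ENNReal.ofReal_le_ofReal ?_) (vol_COREr hG h hne hρ hK hB)
    rw [hr] at e2
    linarith
  · rw [hr]
    linarith

end

section


theorem ps_small_REDr {n : ℕ} (hn : 3 ≤ n) : ps n + 3 ≤ 2 * n := by
  rcases hn.eq_or_lt with h | h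
  · subst h
    have := ps_le (n := 3) (p := 3) (by omega)
      ⟨1, 1, 0, 1, by omega, by omega, by omega, by omega, by omega, by omega⟩
    omega
  · obtain ⟨k, rfl⟩ : ∃ k, n = k + 4 := ⟨n - 4, by omega⟩
    have h1 := pz_le (n := k + 4) (p := 2 * k + 4) (by omega) (by nlinarith)
    have h2 := ps_le_succ (k + 4)
    omega

theorem pz_le_ps_REDr (n : ℕ) : pz n ≤ ps n := by unfold ps; split_ifs <;> omega

theorem redr (hC : COREr_st) (hG : RIGb_st) (hL : LINr_st) : REDr_st := by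
  intro X h3 hS K ρ ε hK hb hgap hv
  obtain ⟨hε, g1, g2, g3, g4⟩ := hgap
  have hn : 1 ≤ X.card := by omega
  have hne : X.Nonempty := Finset.card_pos.1 hn
  have hnu := nu_pos
  have enu : nu = 2 - √3 := rfl
  have hs3 := sqrt3_bounds
  have n3 : (3 : ℝ) ≤ X.card := by exact_mod_cast h3
  have hρ1 : √3 / 2 ≤ ρ := by linarith
  have hρ2 : ρ ≤ 1.41 := by linarith [hs3.1]
  have hρ0 : 0 < ρ := by linarith [hs3.1]
  obtain ⟨c, hc⟩ : ∃ c : ℝ, c = 2 * ρ - √3 := ⟨_, rfl⟩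
  have c0 : 0 < c := by linarith
  have c4 : c < 4 * nu := by linarith
  have psn := ps_small_REDr h3
  have pn1 := pz_le_ps_REDr X.card
  have pn2 := ps_le_succ X.card
  have ps0 : (0 : ℝ) ≤ ps X.card := Nat.cast_nonneg _
  have ps1 : (ps X.card : ℝ) + 3 ≤ 2 * X.card := by exact_mod_cast psn
  have ps2 : (ps X.card : ℝ) ≤ pz X.card + 1 := by exact_mod_cast pn2
  have cmp : ∀ x : ℝ, ENNReal.ofReal x ≤ volume K →
      x ≤ 2 * √3 * ((X.card : ℝ) - 1) + c * ps X.card + π * ρ ^ 2 + ε := fun x hx => by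
    have h := hx.trans hv
    unfold Wr at h
    rw [← hc] at h
    refine (ENNReal.ofReal_le_ofReal_iff ?_).1 h
    have := mul_nonneg c0.le ps0
    have := mul_nonneg (show (0 : ℝ) ≤ 2 * √3 by positivity)
      (show (0 : ℝ) ≤ (X.card : ℝ) - 1 by linarith)
    have : 0 ≤ π * ρ ^ 2 := by positivity
    linarith
  have hNC : NonCol X := by
    by_contra hN
    have h1 := cmp _ (hL X hne hS hN K ρ hρ0 hK hb)
    have h2 := mul_le_mul_of_nonneg_left ps1 c0.le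
    have h4 : 4 * ρ * ((X.card : ℝ) - 1) =
        2 * √3 * ((X.card : ℝ) - 1) + c * (2 * X.card) - 2 * c := by
      rw [hc]
      ring
    linarith
  have hSat : Sat X := by
    obtain ⟨Y, hXY, hSY, hT, hY⟩ := sat X hS
    have hNY : NonCol Y := by
      obtain ⟨a, ha, b, hb, d, hd, h⟩ := hNC
      exact ⟨a, hXY ha, b, hXY hb, d, hXY hd, h⟩
    have hm := Finset.card_le_card hXY
    rcases hm.lt_or_eq with hm' | hm'
    · exfalso
      obtain ⟨t, b, σ, Ψ, cx, -, -, -, -, -, hσ, hΨ, -, hw, h1⟩ := hC Y hSY hT hNY ρ hρ1 hρ2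
      have hD := Del_nonneg cx Y
      have h4 := cmp _ (hw K hK fun y hy => ball_hullr hK hb (hY hy))
      rw [← hc] at h4
      generalize Del Y (good t) dl = Δ at *
      have h0 : 0 ≤ Δ / 2 + Ψ := by linarith
      have hj : (pz X.card : ℝ) ≤ b + ⌊Δ / 2 + Ψ⌋₊ := by exact_mod_cast pz_floor_Red hn hm h1
      have hj3 : (⌊Δ / 2 + Ψ⌋₊ : ℝ) ≤ Δ / 2 + Ψ := Nat.floor_le h0
      have h2 : (X.card : ℝ) + 1 ≤ Y.card := by exact_mod_cast hm'
      have h5 : c * (ps X.card - 1) ≤ c * (b + (Δ / 2 + Ψ)) :=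
        mul_le_mul_of_nonneg_left (by linarith) c0.le
      have h6 := mul_le_mul_of_nonneg_left h2 (show (0 : ℝ) ≤ 2 * √3 by positivity)
      have h7 := mul_le_mul_of_nonneg_right c4.le h0
      have h8 := mul_nonneg hnu.le hσ
      linarith [hs3.1]
    · rw [Finset.eq_of_subset_of_card_le hXY hm'.ge]
      exact hT
  obtain ⟨t, b, σ, Ψ, cx, hcon, hexa, hchi, hbd, hcnt, hσ, hΨ, hdeg, hw, h1⟩ :=
    hC X hS hSat hNC ρ hρ1 hρ2
  have hD := Del_nonneg cx X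
  have h4 := cmp _ (hw K hK hb)
  rw [← hc] at h4 hw
  have hG' := hG X t _ _ _ cx hcon hexa hchi
  rw [hbd] at hG'
  have hTe : b + 3 ≤ 2 * X.card → (T3 X (good t)).Nonempty := fun h =>
    Finset.card_pos.1 (by omega)
  generalize hΔ : Del X (good t) dl = Δ at *
  have h0 : 0 ≤ Δ / 2 + Ψ := by linarith
  have hj := pz_floor_Red hn le_rfl h1
  have hj3 : (⌊Δ / 2 + Ψ⌋₊ : ℝ) ≤ Δ / 2 + Ψ := Nat.floor_le h0
  have m1 := mul_nonneg hnu.le hσ
  have m2 := mul_nonneg hnu.le hΨ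
  have m3 := mul_nonneg hnu.le hD
  have h5 : c * b + 2 * nu * (Δ + σ) + 4 * nu * Ψ ≤ c * ps X.card + ε := by linarith
  have k1 : b ≤ ps X.card := by
    by_contra hlt
    have e : (ps X.card : ℝ) + 1 ≤ b := by exact_mod_cast not_le.1 hlt
    have := mul_le_mul_of_nonneg_left e c0.le
    linarith
  have k2 : pz X.card ≤ b := by
    by_contra hlt
    have e : (b : ℝ) + 1 ≤ pz X.card := by exact_mod_cast not_le.1 hlt
    have hj2 : (pz X.card : ℝ) ≤ b + ⌊Δ / 2 + Ψ⌋₊ := by exact_mod_cast hj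
    have e1 : 4 * nu * ((pz X.card : ℝ) - b) ≤ 4 * nu * (Δ / 2 + Ψ) :=
      mul_le_mul_of_nonneg_left (by linarith) (by linarith)
    have e2 : (4 * nu - c) * 1 ≤ (4 * nu - c) * ((pz X.card : ℝ) - b) :=
      mul_le_mul_of_nonneg_left (by linarith) (by linarith)
    by_cases hp : ps X.card = pz X.card
    · rw [hp] at h5
      linarith
    · have := g4 hp
      have := mul_le_mul_of_nonneg_left ps2 c0.le
      linarith
  have k3 : b = ps X.card := by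
    by_contra hne'
    have e1 : b = pz X.card := by omega
    have e2 : ps X.card ≠ pz X.card := by omega
    have e3 := g4 e2
    have e4 : (ps X.card : ℝ) ≤ b + 1 := by rw [e1]; exact ps2
    have e5 := mul_le_mul_of_nonneg_left e4 c0.le
    have e6 : Δ + σ < 1 := lt_of_mul_lt_mul_left (a := 2 * nu) (by linarith) (by linarith)
    have e7 := hG' (hTe (by omega)) (by linarith) (hdeg e6)
    rw [e1] at e7
    exact e2 (by unfold ps; rw [if_pos e7])
  have k4 : (b : ℝ) = ps X.card := by exact_mod_cast k3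
  rw [k4] at h5 hw
  have e6 : Δ + σ < 1 := lt_of_mul_lt_mul_left (a := 2 * nu) (by linarith) (by linarith)
  refine ⟨t, cx, hcon, hexa, hchi, hTe (by omega), hdeg e6, hbd.trans k3, psn, ?_,
    fun K' hK' hb' => le_trans (ENNReal.ofReal_le_ofReal ?_) (hw K' hK' hb')⟩
  · rw [hΔ]
    linarith
  · unfold Wr
    rw [← hc]
    linarith

end

section


theorem metb : METb_st := by
  have hW := ww
  have hP := par
  have hR := pro
  have hA := avg
  intro n p α β c c' hD hn hp hF ψ m hm H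
  obtain ⟨W, hW⟩ := hW _ ψ m hm hF H
  have hd : ∀ p, 0 ≤ ∑ i, m p i := fun p => Finset.sum_nonneg fun i _ => hm p i
  have hn0 : 0 < n := by omega
  obtain ⟨q0, hq0, hav⟩ := hA α β c c' (fun p => ∑ i, m p i) hd
    (Finset.card_pos.1 (by omega))
  have hpro := hR _ ψ W (fun p => ∑ i, m p i) hd (fun p hp => (hW p hp).2.2) q0
  have hr : ∑ i, m q0 i ≤ ∑ p ∈ (HF α β c c').filter (al q0), ∑ i, m p i :=
    Finset.single_le_sum (f := fun p => ∑ i, m p i) (fun p _ => hd p)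
      (Finset.mem_filter.2 ⟨hq0, Or.inl rfl⟩)
  have hT : 0 ≤ ∑ p ∈ HF α β c c', ∑ i, m p i := Finset.sum_nonneg fun p _ => hd p
  have hr0 := (hd q0).trans hr
  rw [hn] at hav
  generalize ∑ p ∈ HF α β c c', ∑ i, m p i = T at hav hpro hT
  generalize ∑ p ∈ (HF α β c c').filter (al q0), ∑ i, m p i = r at hav hpro hr hr0
  have hL : ((max α β : ℕ) : ℝ) * (((max α β : ℕ) : ℝ) + 1) ≤ 3 * n := by
    obtain ⟨h1, h2, h3, h4, h5, -⟩ := hD
    have h6 : 2 * max α β ≤ p := by omega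
    have h7 : (2 * max α β + 1) ^ 2 ≤ (p + 1) ^ 2 := Nat.pow_le_pow_left (by omega) 2
    have h8 : max α β * (max α β + 1) ≤ 3 * n := by
      generalize max α β = M at h7
      have h9 : (2 * M + 1) ^ 2 = 4 * (M * (M + 1)) + 1 := by ring
      omega
    exact_mod_cast h8
  have hM : (0 : ℝ) ≤ ((max α β : ℕ) : ℝ) := Nat.cast_nonneg _
  have hLr : ((max α β : ℕ) : ℝ) * r ≤ 9 * T := by
    have hn1 : (0 : ℝ) < n := by exact_mod_cast hn0
    refine le_of_mul_le_mul_left ?_ hn1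
    have h1 := mul_le_mul_of_nonneg_left hav hM
    have h2 := mul_le_mul_of_nonneg_right hL hT
    nlinarith
  obtain ⟨u, hu, hWu⟩ := unit_Met (hW q0 hq0).1
  refine ⟨ψ q0 - u * pt q0, u, hu, fun q hq => ?_⟩
  obtain ⟨i, a, b, ha, hb, e, hab⟩ := hP α β c c' q0 hq0 q hq
  have h1 := hpro i a b hab
  rw [← e] at h1
  have h2 : ‖(a : ℂ) * om ^ i.val + (b : ℂ) * om ^ (i + 1).val‖ ≤ a + b := by
    refine (norm_add_le _ _).trans (le_of_eq ?_)
    simp [norm_om_Rig]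
  have h3 : pt q = pt q0 + 2 * ((a : ℂ) * om ^ i.val + (b : ℂ) * om ^ (i + 1).val) := by
    rw [e, pt_add, pt_add, pt_smul, pt_smul, pt_ev, pt_ev]
    push_cast
    ring
  generalize (a : ℂ) * om ^ i.val + (b : ℂ) * om ^ (i + 1).val = v at h1 h2 h3
  have ha' : (a : ℝ) ≤ ((max α β : ℕ) : ℝ) := by exact_mod_cast ha
  have hb' : (b : ℝ) ≤ ((max α β : ℕ) : ℝ) := by exact_mod_cast hb
  have h4 : ‖(W q0 - 2 * u) * v‖ ≤ r * (a + b) := by
    rw [norm_mul, hWu]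
    exact mul_le_mul (by linarith [(hW q0 hq0).2.1]) h2 (norm_nonneg _) hr0
  rw [dist_eq_norm, h3, show ψ q - (ψ q0 - u * pt q0 + u * (pt q0 + 2 * v)) =
    (ψ q - ψ q0 - W q0 * v) + (W q0 - 2 * u) * v by ring]
  refine (norm_add_le _ _).trans ?_
  have h5 := mul_le_mul_of_nonneg_right (add_le_add ha' hb') hr0
  nlinarith

end

section


open Pointwise in
theorem vol_HKr {r : ℝ} (hr : 0 < r) (S : Set ℂ) :
    volume (r⁻¹ • S) = ENNReal.ofReal (r ^ 2)⁻¹ * volume S := by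
  rw [Measure.addHaar_smul, Complex.finrank_real_complex, abs_of_pos (by positivity), inv_pow]

theorem dist_HKr {r : ℝ} (hr : 0 < r) (x z : ℂ) : dist x z = r * dist (r⁻¹ • x) (r⁻¹ • z) := by
  rw [dist_smul₀, norm_inv, Real.norm_of_nonneg hr.le, mul_inv_cancel_left₀ hr.ne']

open Pointwise in
theorem rd_HKr {r : ℝ} (hr : 0 < r) (P : Set ℂ) : Rd (r⁻¹ • P) = r⁻¹ • Rdr r P := by
  ext x
  constructor
  · rintro ⟨_, ⟨z, hz, rfl⟩, h⟩
    have e : r⁻¹ • (r • x) = x := inv_smul_smul₀ hr.ne' x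
    refine ⟨r • x, ⟨z, hz, ?_⟩, e⟩
    rw [dist_HKr hr, e]
    exact mul_le_of_le_one_right hr.le h
  · rintro ⟨y, ⟨z, hz, h⟩, rfl⟩
    refine ⟨r⁻¹ • z, ⟨z, hz, rfl⟩, le_of_mul_le_mul_left ?_ hr⟩
    rw [← dist_HKr hr, mul_one]
    exact h

open Pointwise in
theorem hkr : HKr_st := by
  intro P K r v ε hr hP hn hc hK hR hv he he' h1 h2 y hy
  have h0 : 0 ≤ (r ^ 2)⁻¹ := by positivity
  obtain ⟨_, ⟨q, hq, rfl⟩, h⟩ := hk (r⁻¹ • P) (r⁻¹ • K) ((r ^ 2)⁻¹ * v) ((r ^ 2)⁻¹ * ε)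
    (hP.smul _) hn.smul_set (hc.smul _) (hK.smul _)
    (by rw [rd_HKr hr]; exact Set.smul_set_mono hR) (by positivity) (by positivity)
    (by rw [inv_mul_lt_iff₀ (by positivity)]; linarith)
    (by rw [rd_HKr hr, vol_HKr hr, ENNReal.ofReal_mul h0]; gcongr)
    (by rw [vol_HKr hr, ← mul_add, ENNReal.ofReal_mul h0]; gcongr)
    (r⁻¹ • y) (Set.smul_mem_smul_set hy)
  refine ⟨q, hq, ?_⟩
  have e : 2 * ε / r ^ 2 = 2 * ((r ^ 2)⁻¹ * ε) := by ring
  rw [dist_HKr hr, e, ← mul_one_add]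
  exact mul_le_mul_of_nonneg_left h hr.le

end

section


theorem cut_HDr (v : ℂ) {r s : ℝ} (hr : 0 < r) (hs : 0 ≤ s) (h : ‖v‖ ≤ r + s) :
    ∃ t : ℂ, ‖t‖ ≤ r ∧ ‖v - t‖ ≤ s := by
  rcases le_or_gt ‖v‖ r with k | k
  · exact ⟨v, k, by simpa using hs⟩
  · have h0 : 0 < ‖v‖ := by linarith
    have h1 : 0 ≤ r / ‖v‖ := by positivity
    refine ⟨(r / ‖v‖) • v, by
      rw [norm_smul, Real.norm_of_nonneg h1, div_mul_cancel₀ _ h0.ne'], ?_⟩
    nth_rewrite 1 [← one_smul ℝ v]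
    rw [← sub_smul, norm_smul, Real.norm_of_nonneg (sub_nonneg.2 ((div_le_one h0).2 k.le)),
      sub_mul, div_mul_cancel₀ _ h0.ne']
    linarith

theorem hdr : HDr_st := by
  intro α β c c' h1 h2 h3 h4 X K ψ z u r η ρ hu hr hη hρ hK hb hψ hq hy
  have hu0 : u ≠ 0 := norm_pos_iff.1 (hu ▸ one_pos)
  refine ⟨fun y hyK => ?_, ?_⟩
  · obtain ⟨q, q1, q2⟩ := hy y hyK
    obtain ⟨h, k1, k2⟩ := convexHull_min (t := {w | ∃ q ∈ Hx α β c c', dist w (z + u * q) ≤ η})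
      (fun x hx => by
        obtain ⟨p, hp, rfl⟩ := hψ.surjOn hx
        obtain ⟨a1, a2, a3, a4, a5, a6⟩ := mem_HF.1 hp
        refine ⟨pt p, ⟨p.1, p.2, by simp [pt], by exact_mod_cast a1, by exact_mod_cast a2,
          by exact_mod_cast a3, by exact_mod_cast a4, by exact_mod_cast a5, ?_⟩, hq p hp⟩
        have : ((p.1 + p.2 + c' : ℤ) : ℝ) ≤ (α + β : ℤ) := by exact_mod_cast a6
        push_cast at this
        linarith) (cv_Hd (cvx_Uba _ _ _ _) z u η) q1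
    obtain ⟨t, t1, t2⟩ := cut_HDr (y - (z + u * h)) (s := η + ρ) hr (by linarith) (by
      rw [← dist_eq_norm]; linarith [dist_triangle y q (z + u * h)])
    refine ⟨h + t / u, ⟨h, k1, ?_⟩, ?_⟩
    · rw [dist_eq_norm, add_sub_cancel_left, norm_div, hu, div_one]; exact t1
    · rw [dist_eq_norm, mul_add, mul_div_cancel₀ _ hu0, ← add_assoc, ← sub_sub]; exact t2
  · rintro w ⟨h, k1, k2⟩
    obtain ⟨A, e1⟩ := Nat.exists_eq_add_of_le' h1
    obtain ⟨B, e2⟩ := Nat.exists_eq_add_of_le' h2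
    obtain ⟨A', e3⟩ := Nat.exists_eq_add_of_le h3
    obtain ⟨B', e4⟩ := Nat.exists_eq_add_of_le' h4
    have E1 : (α : ℂ) = A + c := by exact_mod_cast e1
    have E2 : (β : ℂ) = B + c := by exact_mod_cast e2
    have E3 : (α : ℂ) = c' + A' := by exact_mod_cast e3
    have E4 : (β : ℂ) = B' + c' := by exact_mod_cast e4
    have o := om_sq_Rig
    let k : ℕ → ℤ × ℤ := fun j =>
      [((c : ℤ), (0 : ℤ)), (α, 0), (α, B'), (A', β), (0, β)].getD j (0, c)
    have hk : ∀ j, k j ∈ HF α β c c' := fun j => by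
      rcases j with _ | _ | _ | _ | _ | j <;> simp [k, mem_HF] <;> omega
    obtain ⟨q, q1, q2⟩ := hxc (fun j => [A, B', c', A', B].getD j c) u (fun j => z + u * pt (k j))
      {w | ∃ q ∈ convexHull ℝ (X : Set ℂ), dist w (0 + 1 * q) ≤ η} (by simp; omega)
      (by simp; omega) (cv_Hd (convex_convexHull ℝ _) 0 1 η)
      (fun j => ⟨ψ (k j), subset_convexHull ℝ _ (hψ.mapsTo (hk j)), by
        rw [zero_add, one_mul, dist_comm]; exact hq _ (hk j)⟩)
      (fun j hj => by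
        interval_cases j <;> simp [k, pt]
        · linear_combination 2 * u * E1
        · ring
        · linear_combination -2 * u * E3 + 2 * u * om * E4 - 2 * c' * u * o
        · linear_combination -2 * A' * u * (om + 1) * o
        · linear_combination -2 * u * om * E2 - 2 * B * u * om * (om + 1) * o) h
      (by simpa [← e1, ← e4, ← E1] using k1)
    refine ⟨q + u * (w - h), ball_hullr hK hb q1 ?_, ?_⟩
    · rw [mem_closedBall, dist_eq_norm, add_sub_cancel_left, norm_mul, hu, one_mul, ← dist_eq_norm]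
      exact k2
    · rw [dist_comm, dist_eq_norm] at q2
      rw [dist_eq_norm]
      convert q2 using 2
      simp [k, pt]
      ring

end

section


theorem cvx_STBr (ρ : ℝ) {H : Set ℂ} (h : Convex ℝ H) : Convex ℝ (Rdr ρ H) := by
  have := cv_Hd h 0 1 ρ
  simp only [zero_add, one_mul] at this
  exact this

theorem stbr (hR : REDr_st) (hM : METb_st) (hK : HKr_st) (hD : HDr_st) : STBr_st := by
  intro X h3 hsep K ρ ε hKc hb hg hv
  have h1 := dev1 rb5b l6b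
  have h2 := dev2 fav
  have hL := loc
  have hF := fan
  have hS := sumt
  have hN := nb
  obtain ⟨t, cx, hconn, hexa, hchi, hne, hdeg, hbp, hp2, hΔ, hlo⟩ :=
    hR X h3 hsep K ρ ε hKc hb hg hv
  obtain ⟨e0', e2', e3', -, -⟩ := hg
  have e1' : ε < nu := e3'
  have hnu := nu_pos
  have hs3 := sqrt3_bounds
  have hnu1 : 0.2679 < nu := by unfold nu; linarith [hs3.2]
  have hnu2 : nu < 0.268 := by unfold nu; linarith [hs3.1]
  have hΔ0 := Del_nonneg cx X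
  have hΔ1 : Del X (good t) dl < 1 / 2 := by nlinarith
  have hΔ2 : Del X (good t) dl ≤ 1.87 * ε := by nlinarith
  obtain ⟨α, β, c, c', G, y, hd, hdev⟩ := h1 X t _ _ _ cx hconn hexa hchi hne hΔ1 hdeg
  rw [hbp] at hd
  obtain ⟨ψ, hbij, htri⟩ := h2 X t _ _ _ cx α β c c' G y _ hd hdev
  have hcard : (HF α β c c').card = X.card :=
    Finset.card_nbij ψ hbij.mapsTo hbij.injOn hbij.surjOn
  have hp := pz_spec (n := X.card) (by omega)
  have hp1 : (ps X.card + 1) ^ 2 < 12 * X.card := by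
    have a1 : (ps X.card + 1) ^ 2 ≤ (pz X.card + 2) ^ 2 :=
      Nat.pow_le_pow_left (by have := ps_le_succ X.card; omega) 2
    omega
  have hρ : 0.866 < ρ := by linarith [hs3.1]
  have hρ0 : 0 < ρ := by linarith
  obtain ⟨n1, n2, n3⟩ := nondeg_Stb hd hp2
  have hfan := hF α β c c' hd.1 hd.2.1 hd.2.2.1 hd.2.2.2.1 n1 n2 n3
  set S := HF α β c c' with hSdef
  have loc : ∀ {a b d : ℂ}, good t a b d → ‖d - a - om * (b - a)‖ ≤ 7 / 3 * dl a b d ∧
      dist a b ≤ 2 + 2 * dl a b d ∧ dist d a ≤ 2 + 2 * dl a b d := fun {a b d} e =>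
    hL a b d (cx.tri.pos e.1) (t_sep cx.tri hsep e.1) (t_sep cx.tri hsep (cx.tri.rot e.1))
      (t_sep cx.tri hsep (cx.tri.rot (cx.tri.rot e.1))) e.2 ((single_Stb cx e).2.trans_lt hΔ1)
  obtain ⟨m, hm⟩ : ∃ m : ℤ × ℤ → ZMod 6 → ℝ, ∀ q i, m q i = 7 / 3 *
      (if q ∈ S ∧ q + ev i ∈ S ∧ q + ev (i + 1) ∈ S then
        dl (ψ q) (ψ (q + ev i)) (ψ (q + ev (i + 1))) else 0) := ⟨_, fun _ _ => rfl⟩
  have hm0 : ∀ q i, 0 ≤ m q i := fun q i => by
    rw [hm]
    split_ifs with h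
    · have := (single_Stb cx (htri q h.1 i h.2.1 h.2.2)).1
      positivity
    · simp
  have hT : ∑ q ∈ S, ∑ i, m q i ≤ 7 * Del X (good t) dl := by
    have := hS X t _ _ _ cx S ψ hbij.injOn htri
    simp only [hm, ← Finset.mul_sum]
    linarith
  obtain ⟨z, u, hu, hz⟩ := hM X.card (ps X.card) α β c c' hd hcard hp1 hfan ψ m hm0
    fun q hq i k1 k2 => by
      have e := htri q hq i k1 k2
      have l := loc e
      have s := t_sep cx.tri hsep e.1
      have s0 := (single_Stb cx e).1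
      rw [hm, if_pos ⟨hq, k1, k2⟩, ← dist_eq_norm (ψ (q + ev i)), dist_comm]
      exact ⟨l.1, s, by linarith [l.2.1]⟩
  have hz' : ∀ q ∈ S, dist (ψ q) (z + u * pt q) ≤ 1000 * ε := fun q hq =>
    (hz q hq).trans (by linarith)
  have hXne : X.Nonempty := Finset.card_pos.1 (by omega)
  have hsub : Rdr ρ (convexHull ℝ (X : Set ℂ)) ⊆ K := fun x ⟨w, hw, h⟩ => ball_hullr hKc hb hw h
  have hn1 : (0 : ℝ) ≤ (X.card : ℝ) - 1 := by
    have : (3 : ℝ) ≤ X.card := by exact_mod_cast h3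
    linarith
  have hlow := hlo _ (cvx_STBr ρ (convex_convexHull ℝ (X : Set ℂ)))
    fun x hx w hw => ⟨x, subset_convexHull ℝ _ hx, hw⟩
  have hW : 0 ≤ Wr X.card ρ := by
    have : 0 ≤ 2 * ρ - √3 := by linarith
    unfold Wr
    positivity
  have hk := hK _ K ρ _ ε hρ0 (X.finite_toSet.isCompact_convexHull ℝ)
    (hXne.to_set.mono (subset_convexHull ℝ _)) (convex_convexHull ℝ _) hKc hsub hW e0'
    (by nlinarith) hlow hv
  obtain ⟨d1, d2⟩ := hD α β c c' hd.1 hd.2.1 hd.2.2.1 hd.2.2.2.1 X K ψ z u ρ (1000 * ε) _ hu hρ0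
    (by positivity) (by positivity) hKc hb hbij hz' hk
  refine ⟨α, β, c, c', hd, ψ, z, u, hu, hbij, fun p hp q hq h => ?_, hz', d1, d2⟩
  obtain ⟨i, rfl⟩ := hN p q h
  obtain ⟨j, d, k1, -, k3, k4⟩ := hfan p hp
  obtain ⟨o, k5, rfl⟩ := k4 i hq
  rcases k5.lt_or_eq with k6 | rfl
  · have k7 := k3 (o + 1) k6
    rw [Nat.cast_succ, ← add_assoc] at k7
    have e := htri p hp _ hq k7
    linarith [(loc e).2.1, (single_Stb cx e).2]
  · obtain ⟨o, rfl⟩ : ∃ o', o = o' + 1 := ⟨o - 1, by omega⟩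
    rw [Nat.cast_succ, ← add_assoc] at hq ⊢
    have e := htri p hp _ (k3 o (by omega)) hq
    rw [dist_comm]
    linarith [(loc e).2.2, (single_Stb cx e).2]

end

section


theorem upperr {n p α β c c' : ℕ} (h : Data n p α β c c') {ρ : ℝ} (hρ : 0 < ρ) :
    volume (Rdr ρ (Hx α β c c')) ≤
      ENNReal.ofReal (2 * √3 * ((n : ℝ) - 1) + (2 * ρ - √3) * p + π * ρ ^ 2) := by
  obtain ⟨h1, h2, h3, h4, h5, h6⟩ := h
  have k1 : (c : ℝ) ≤ α := by exact_mod_cast h1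
  have k2 : (c : ℝ) ≤ β := by exact_mod_cast h2
  have k3 : (c' : ℝ) ≤ α := by exact_mod_cast h3
  have k4 : (c' : ℝ) ≤ β := by exact_mod_cast h4
  have k5 : (p : ℝ) + c + c' = 2 * α + 2 * β := by exact_mod_cast h5
  have k6 : 2 * (n : ℝ) + c * (c + 1) + c' * (c' + 1) = 2 * (α + 1) * (β + 1) := by
    exact_mod_cast h6
  have c0 : (0 : ℝ) ≤ c := Nat.cast_nonneg _
  have c1 : (0 : ℝ) ≤ c' := Nat.cast_nonneg _
  have hρ' : (ρ : ℂ) ≠ 0 := by exact_mod_cast hρ.ne'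
  have sub : Rdr ρ (Hx α β c c') ⊆
      (fun w : ℂ => ρ⁻¹ • w) ⁻¹' Rd (Hx (α / ρ) (β / ρ) (c / ρ) (c' / ρ)) := by
    rintro x ⟨_, ⟨s, u, rfl, a1, a2, a3, a4, a5, a6⟩, hx⟩
    refine ⟨ρ⁻¹ • (2 * s + 2 * u * om), ⟨s / ρ, u / ρ, ?_, by positivity, by gcongr,
      by positivity, by gcongr, ?_, ?_⟩, ?_⟩
    · rw [Complex.real_smul]
      push_cast
      field_simp
    · rw [← add_div]; gcongr
    · rw [← add_div, ← add_div, ← sub_div]; gcongr
    · rw [dist_smul₀, norm_inv, Real.norm_of_nonneg hρ.le, inv_mul_le_iff₀ hρ, mul_one]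
      exact hx
  refine (measure_mono sub).trans ?_
  have e := Measure.addHaar_preimage_smul (volume : Measure ℂ) (inv_ne_zero hρ.ne')
    (Rd (Hx (α / ρ) (β / ρ) (c / ρ) (c' / ρ)))
  rw [Complex.finrank_real_complex, inv_pow, inv_inv, abs_of_nonneg (sq_nonneg ρ)] at e
  refine e.le.trans ?_
  have d0 : (0 : ℝ) ≤ c / ρ := by positivity
  have d1 : (0 : ℝ) ≤ c' / ρ := by positivity
  have u1 := ubb (α / ρ) (β / ρ) (c / ρ) (c' / ρ) d0 d1 (by gcongr) (by gcongr) (by gcongr)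
    (by gcongr)
  have u2 := ubh (α / ρ) (β / ρ) (c / ρ) (c' / ρ) d0 d1 (by gcongr) (by gcongr) (by gcongr)
    (by gcongr)
  have p0 : (0 : ℝ) ≤ 2 * α * β - c ^ 2 - c' ^ 2 := by nlinarith
  have p1 : (0 : ℝ) ≤ p := Nat.cast_nonneg _
  have e1 : √3 * (2 * (α / ρ) * (β / ρ) - (c / ρ) ^ 2 - (c' / ρ) ^ 2) =
      √3 * (2 * α * β - c ^ 2 - c' ^ 2) / ρ ^ 2 := by field_simp
  have e2 : 2 * (2 * (α / ρ) + 2 * (β / ρ) - c / ρ - c' / ρ) = 2 * p / ρ := by
    field_simp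
    linarith
  rw [e2] at u1
  rw [e1] at u2
  refine (mul_le_mul_right (u1.trans (add_le_add u2 le_rfl)) _).trans ?_
  rw [← ENNReal.ofReal_add (by positivity) (by positivity), ← ENNReal.ofReal_mul (sq_nonneg ρ)]
  refine ENNReal.ofReal_le_ofReal (le_of_eq ?_)
  field_simp
  linear_combination (-√3) * k6 + √3 * k5

theorem cvx_Ubr {H : Set ℂ} (h : Convex ℝ H) (ρ : ℝ) : Convex ℝ (Rdr ρ H) := by
  simpa [Rdr] using cv_Hd h 0 1 ρ

/-- the lower bound and the area of the extremal bodies -/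
theorem extra (hR : REDr_st) {n : ℕ} (h3 : 3 ≤ n) {ρ ε : ℝ} (hG : Gap n ρ ε) {α β c c' : ℕ}
    (h : Data n (ps n) α β c c') : volume (Rdr ρ (Hx α β c c')) = ENNReal.ofReal (Wr n ρ) := by
  have hρ : 0 < ρ := by linarith [hG.1, hG.2.1, sqrt3_bounds.1]
  have h2 := upperr h hρ
  obtain ⟨⟨X, rfl, hS, hX⟩, -⟩ := upper h
  have hc := cvx_Ubr (cvx_Uba α β c c') ρ
  have hb : ∀ x ∈ X, closedBall x ρ ⊆ Rdr ρ (Hx α β c c') := fun x hx _ hy => ⟨x, hX x hx, hy⟩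
  obtain ⟨t, -, -, -, -, -, -, -, -, -, hl⟩ := hR X h3 hS _ ρ ε hc hb hG
    (h2.trans (ENNReal.ofReal_le_ofReal (by unfold Wr; linarith [hG.1])))
  exact le_antisymm h2 (hl _ hc hb)

end

theorem al3a : AL3a_st := fun p q l s c h h1 h2 h3 h4 => by
  rcases le_total 8 (p ^ 2) with k | k
  · exact al3a1 p q l s c h h1 h2 h3 k
  rcases le_total (l ^ 2) 8 with k' | k'
  · exact al3a2 p q l s c h h1 h2 h3 h4 k k'
  · exact al3a3 p q l s c h h1 h2 h3 h4 k k'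

theorem al4b : AL4b_st := fun p q l s c h h1 h2 h3 h4 => by
  rcases le_total (p ^ 2) 11 with k | k
  · exact al4b1 p q l s c h h1 h2 h3 h4 k
  · exact al4b2 p q l s c h h1 h2 h3 k

theorem redr_all : REDr_st :=
  redr (corer (t1 br ag1) (t2 br ag1 al1 al2 (trr ag2 ag3 al3o al3a al4o al4a al4b))
    (peel3 pea3 (peb3 pec)) (acbr slkr) acgr gstr) (rigb rb3b) (linr gstr)

theorem stbr_all : STBr_st := stbr redr_all metb hkr hdr

end MP7b.Sb
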