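import Pool.Agent.MP_7b7a6d_co.Sb.St

open scoped Classical
open MeasureTheory Metric Real

noncomputable section
namespace MP7b.Sb

theorem line_Avg (S : Finset (ℤ × ℤ)) (f : ℤ × ℤ → ℤ) (M : ℕ)
    (h : ∀ q ∈ S, 0 ≤ f q ∧ f q ≤ M) (hi : Set.InjOn f S) : S.card ≤ M + 1 := by
  have := Finset.card_le_card_of_injOn (t := Finset.Icc (0 : ℤ) M) f
    (fun q hq => by simpa using h q hq) hi
  rw [Int.card_Icc] at this
  omega

theorem card_Avg (α β c c' : ℕ) (p : ℤ × ℤ) :
    ((HF α β c c').filter fun q => al q p).card ≤ 3 * (max α β + 1) := by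
  have h1 := line_Avg ((HF α β c c').filter fun q => p.1 = q.1) Prod.snd (max α β)
    (fun q hq => by have := mem_HF.1 (Finset.mem_filter.1 hq).1; omega) fun x hx y hy e =>
      Prod.ext ((Finset.mem_filter.1 hx).2.symm.trans (Finset.mem_filter.1 hy).2) e
  have h2 := line_Avg ((HF α β c c').filter fun q => p.2 = q.2) Prod.fst (max α β)
    (fun q hq => by have := mem_HF.1 (Finset.mem_filter.1 hq).1; omega) fun x hx y hy e =>
      Prod.ext e ((Finset.mem_filter.1 hx).2.symm.trans (Finset.mem_filter.1 hy).2)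
  have h3 := line_Avg ((HF α β c c').filter fun q => p.1 + p.2 = q.1 + q.2) Prod.fst (max α β)
    (fun q hq => by have := mem_HF.1 (Finset.mem_filter.1 hq).1; omega) fun x hx y hy e =>
      Prod.ext e (by
        have := (Finset.mem_filter.1 hx).2
        have := (Finset.mem_filter.1 hy).2
        omega)
  have h4 : ((HF α β c c').filter fun q => al q p) ⊆
      ((HF α β c c').filter fun q => p.1 = q.1) ∪ (((HF α β c c').filter fun q => p.2 = q.2) ∪
        (HF α β c c').filter fun q => p.1 + p.2 = q.1 + q.2) := fun q hq => by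
    obtain ⟨a, b⟩ := Finset.mem_filter.1 hq
    simp only [Finset.mem_filter, Finset.mem_union, a, true_and]
    exact b
  have h5 := (Finset.card_le_card h4).trans ((Finset.card_union_le _ _).trans
    (Nat.add_le_add_left (Finset.card_union_le _ _) _))
  omega

theorem avg : AVG_st := by
  intro α β c c' d hd hS
  refine Finset.exists_le_of_sum_le hS ?_
  rw [← Finset.mul_sum, Finset.sum_const, nsmul_eq_mul]
  refine mul_le_mul_of_nonneg_left ?_ (Nat.cast_nonneg _)
  simp only [Finset.sum_filter]
  rw [Finset.sum_comm, Finset.mul_sum]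
  refine Finset.sum_le_sum fun p _ => ?_
  rw [← Finset.sum_filter, Finset.sum_const, nsmul_eq_mul]
  refine mul_le_mul_of_nonneg_right ?_ (hd p)
  exact_mod_cast card_Avg α β c c' p

end MP7b.Sb
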