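import Pool.Agent.MP_7b7a6d_co.Sb.St

open scoped Classical
open MeasureTheory Metric Real

noncomputable section
namespace MP7b.Sb

theorem rot1_Dev1 : ∀ i k : ZMod 6, e1 i * e2 (k + 1) - e2 i * e1 (k + 1) = e1 (i - k) := by
  decide +kernel

theorem rot2_Dev1 : ∀ i k : ZMod 6, e1 k * e2 i - e2 k * e1 i = e2 (i - k) := by
  decide +kernel

theorem evq_Dev1 : (e1 ((0 : ℕ) : ZMod 6) = 1 ∧ e2 ((0 : ℕ) : ZMod 6) = 0) ∧
    (e1 ((1 : ℕ) : ZMod 6) = 0 ∧ e2 ((1 : ℕ) : ZMod 6) = 1) ∧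
    (e1 ((2 : ℕ) : ZMod 6) = -1 ∧ e2 ((2 : ℕ) : ZMod 6) = 1) ∧
    (e1 ((3 : ℕ) : ZMod 6) = -1 ∧ e2 ((3 : ℕ) : ZMod 6) = 0) ∧
    (e1 ((4 : ℕ) : ZMod 6) = 0 ∧ e2 ((4 : ℕ) : ZMod 6) = -1) ∧
    (e1 ((5 : ℕ) : ZMod 6) = 1 ∧ e2 ((5 : ℕ) : ZMod 6) = -1) := by
  decide +kernel

/-- the six supporting lines of the hexagon -/
theorem sup_Dev1 (a : ℕ → ℕ) (b1 : a 0 + a 5 = a 2 + a 3) (b2 : a 1 + a 2 = a 4 + a 5)
    (S U : ℕ → ℚ) (hS : S 0 = a 5) (hU : U 0 = 0)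
    (hz : ∀ j < 5, S (j + 1) = S j + a j * e1 (j : ZMod 6) ∧
      U (j + 1) = U j + a j * e2 (j : ZMod 6)) (j : ℕ) (hj : j < 6) (p : ℤ × ℤ)
    (hp : p ∈ HF (a 0 + a 5) (a 1 + a 2) (a 5) (a 2)) :
    0 ≤ e1 (j : ZMod 6) * ((p.2 : ℚ) - U j) - e2 (j : ZMod 6) * ((p.1 : ℚ) - S j) := by
  obtain ⟨⟨u0, v0⟩, ⟨u1, v1⟩, ⟨u2, v2⟩, ⟨u3, v3⟩, ⟨u4, v4⟩, ⟨u5, v5⟩⟩ := evq_Dev1
  obtain ⟨p1, p2, p3, p4, p5, p6⟩ := mem_HF.1 hp
  have q1 : (0 : ℚ) ≤ p.1 := by exact_mod_cast p1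
  have q2 : (p.1 : ℚ) ≤ a 0 + a 5 := by exact_mod_cast p2
  have q3 : (0 : ℚ) ≤ p.2 := by exact_mod_cast p3
  have q4 : (p.2 : ℚ) ≤ a 1 + a 2 := by exact_mod_cast p4
  have q5 : (a 5 : ℚ) ≤ p.1 + p.2 := by exact_mod_cast p5
  have q6 : (p.1 : ℚ) + p.2 + a 2 ≤ (a 0 + a 5) + (a 1 + a 2) := by exact_mod_cast p6
  have r1 : (a 0 + a 5 : ℚ) = a 2 + a 3 := by exact_mod_cast b1
  have r2 : (a 1 + a 2 : ℚ) = a 4 + a 5 := by exact_mod_cast b2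
  obtain ⟨s1, t1⟩ := hz 0 (by omega)
  obtain ⟨s2, t2⟩ := hz 1 (by omega)
  obtain ⟨s3, t3⟩ := hz 2 (by omega)
  obtain ⟨s4, t4⟩ := hz 3 (by omega)
  obtain ⟨s5, t5⟩ := hz 4 (by omega)
  rw [u0] at s1
  rw [v0] at t1
  rw [u1] at s2
  rw [v1] at t2
  rw [u2] at s3
  rw [v2] at t3
  rw [u3] at s4
  rw [v3] at t4
  rw [u4] at s5
  rw [v4] at t5
  norm_num at s1 t1 s2 t2 s3 t3 s4 t4 s5 t5
  interval_cases j
  · rw [u0, v0]
    linarith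
  · rw [u1, v1]
    linarith
  · rw [u2, v2]
    linarith
  · rw [u3, v3]
    linarith
  · rw [u4, v4]
    linarith
  · rw [u5, v5]
    linarith

theorem dev1 (h5 : RB5b_st) (h6 : L6b_st) : DEV1_st := by
  intro X t R g δ hX hconn hexa hchi hne hDel hdeg
  obtain ⟨c1, c2, c3, -⟩ := cnt X t R g δ hX
  obtain ⟨hR, hdeg2, hstr⟩ :=
    rb1 (lc mid) (an2 mid angs) cnt X t R g δ hX hconn hne (by linarith) hdeg
  obtain ⟨G, φ, hG1, hG2, -⟩ := rb3 angs X t R g δ hX hDel hR hstr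
  have hRX : ∀ a b, R a b → a ∈ X ∧ R b a := by
    intro a b h
    refine ⟨?_, hX.Rsymm h⟩
    obtain ⟨c, hc⟩ | ⟨c, hc⟩ := hX.RE h
    · exact hX.tri.mem hc
    · exact hX.tri.mem (hX.tri.rot hc)
  have hgR : ∀ a b c, g a b c → R a b ∧ g b c a := fun a b c h => ⟨hX.gR h, hX.grot h⟩
  have huq : ∀ a b c c', g a b c → g a b c' → c = c' := fun a b c c' h h' =>
    hX.tri.uniq (hX.gt h) (hX.gt h')
  obtain ⟨y1, hy1⟩ := pot X R g hRX hgR huq hexa (fun a b => e1 (G a b))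
    (fun a b h => by rw [hG2 a b h, e1_three_Rig])
    (fun a b c h => by rw [hG1 b c a (hX.grot h), hG1 a b c h, e1_sum_Rig])
  obtain ⟨y2, hy2⟩ := pot X R g hRX hgR huq hexa (fun a b => e2 (G a b))
    (fun a b h => by rw [hG2 a b h, e2_three_Rig])
    (fun a b c h => by rw [hG1 b c a (hX.grot h), hG1 a b c h, e2_sum_Rig])
  obtain ⟨F, hF1, hF2, hF3, hF4, hF5⟩ := h5 X t R g δ hX hdeg2 G y1 y2 hG1 hG2
    fun a b h => ⟨hy1 a b h, hy2 a b h⟩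
  set W : Finset ℂ := X.filter fun w => kb X R g w = 1 with hW
  have s1 : ∑ w ∈ W, (3 - dg X g w) + ∑ w ∈ X, dg X g w + 3 * ∑ w ∈ X, kb X R g w =
      6 * X.card := by
    rw [hW, Finset.sum_filter, Finset.mul_sum, ← Finset.sum_add_distrib, ← Finset.sum_add_distrib,
      Finset.card_eq_sum_ones, Finset.mul_sum]
    refine Finset.sum_congr rfl fun w hw => ?_
    rcases hdeg2 w hw with ⟨a1, a2⟩ | ⟨a1, a2⟩
    · rw [if_neg (by omega)]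
      omega
    · rw [if_pos a1]
      omega
  have s2 : W.card = ∑ w ∈ X, kb X R g w := by
    rw [hW, Finset.card_filter]
    refine Finset.sum_congr rfl fun w hw => ?_
    rcases hdeg2 w hw with ⟨a1, -⟩ | ⟨a1, -⟩
    · rw [if_neg (by omega), a1]
    · rw [if_pos a1, a1]
  have s3 : 6 * X.card = 6 + 3 * (D2 X (bd R g)).card + (T3 X g).card := by
    unfold chi6 at hchi
    omega
  have s4 : ∑ w ∈ W, (3 - dg X g w) = 6 := by omega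
  obtain ⟨a, G0, z, b1, b2, b3, b4, b5, b6, b7⟩ := h6 W F (fun w => G w (F w))
    (fun w => 3 - dg X g w) y1 y2 (fun w hw => (hF1 w hw).1) hF2
    (fun w hw => ⟨hy1 _ _ (hF1 w hw).2.1, hy2 _ _ (hF1 w hw).2.1, (hF1 w hw).2.2⟩) s4
  have hb : (D2 X (bd R g)).card = a 0 + a 1 + a 2 + a 3 + a 4 + a 5 := by omega
  have hn : 2 * X.card + a 5 * (a 5 + 1) + a 2 * (a 2 + 1) =
      2 * (a 0 + a 5 + 1) * (a 1 + a 2 + 1) := by
    rw [b4] at hF3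
    have q1 : (6 * X.card : ℚ) = 6 + 3 * (a 0 + a 1 + a 2 + a 3 + a 4 + a 5) + (T3 X g).card := by
      rw [hb] at s3
      exact_mod_cast s3
    have q2 : (a 0 + a 5 : ℚ) = a 2 + a 3 := by exact_mod_cast b1
    have q3 : (a 1 + a 2 : ℚ) = a 4 + a 5 := by exact_mod_cast b2
    have q4 : (2 * X.card + a 5 * (a 5 + 1) + a 2 * (a 2 + 1) : ℚ) =
        2 * (a 0 + a 5 + 1) * (a 1 + a 2 + 1) := by
      linear_combination (1 / 3) * q1 - (1 / 3) * hF3 - q2 - q3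
    exact_mod_cast q4
  have hzX : ∀ j, z j ∈ X := fun j => (Finset.mem_filter.1 (b5 j)).1
  obtain ⟨S, hS⟩ : ∃ S : ℂ → ℚ, ∀ x, S x = a 5 + (y1 x - y1 (z 0)) * e2 (G0 + 1) -
    (y2 x - y2 (z 0)) * e1 (G0 + 1) := ⟨_, fun _ => rfl⟩
  obtain ⟨U, hU⟩ : ∃ U : ℂ → ℚ, ∀ x, U x = e1 G0 * (y2 x - y2 (z 0)) -
    e2 G0 * (y1 x - y1 (z 0)) := ⟨_, fun _ => rfl⟩
  have mv : ∀ (x x' : ℂ) (s : ℚ) (i : ZMod 6), y1 x' = y1 x + s * e1 i → y2 x' = y2 x + s * e2 i →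
      S x' = S x + s * e1 (i - G0) ∧ U x' = U x + s * e2 (i - G0) := by
    intro x x' s i k1 k2
    rw [hS x', hS x, hU x', hU x, k1, k2, ← rot1_Dev1, ← rot2_Dev1]
    constructor <;> ring
  have st : ∀ x x', R x x' → S x' = S x + ((ev (G x x' - G0)).1 : ℤ) ∧
      U x' = U x + ((ev (G x x' - G0)).2 : ℤ) := by
    intro x x' h
    have := mv x x' 1 (G x x') (by rw [hy1 x x' h, one_mul]) (by rw [hy2 x x' h, one_mul])
    rwa [one_mul, one_mul, ← (ev_cast _).1, ← (ev_cast _).2] at this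
  have S0 : S (z 0) = a 5 := by rw [hS]; ring
  have U0 : U (z 0) = 0 := by rw [hU]; ring
  have hint : ∀ x ∈ X, ∃ m n : ℤ, S x = m ∧ U x = n := by
    intro x hx
    refine hconn (fun x => ∃ m n : ℤ, S x = m ∧ U x = n) ?_ _ (hzX 0) x hx
      ⟨a 5, 0, by rw [S0]; simp, by rw [U0]; simp⟩
    rintro u v h ⟨m, n, hm, hn⟩
    refine ⟨m + (ev (G u v - G0)).1, n + (ev (G u v - G0)).2, ?_, ?_⟩
    · rw [(st u v h).1, hm, Int.cast_add]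
    · rw [(st u v h).2, hn, Int.cast_add]
  obtain ⟨y, hy⟩ : ∃ y : ℂ → ℤ × ℤ, ∀ x ∈ X, ((y x).1 : ℚ) = S x ∧ ((y x).2 : ℚ) = U x := by
    refine ⟨fun x => (⌊S x⌋, ⌊U x⌋), fun x hx => ?_⟩
    obtain ⟨m, n, hm, hn⟩ := hint x hx
    simp only [hm, hn, Int.floor_intCast, and_self]
  refine ⟨a 0 + a 5, a 1 + a 2, a 5, a 2, fun u v => G u v - G0, y,
    ⟨by omega, by omega, by omega, by omega, by omega, hn⟩, ?_, ?_, ?_, hR, hdeg2, ?_, ?_, ?_, ?_⟩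
  · intro u v w h
    rw [hG1 u v w h]
    ring
  · intro u v h
    rw [hG2 u v h]
    ring
  · intro u v h
    have hu := hy u (hRX u v h).1
    have hv := hy v (hRX v u (hRX u v h).2).1
    obtain ⟨k1, k2⟩ := st u v h
    rw [← hu.1, ← hv.1] at k1
    rw [← hu.2, ← hv.2] at k2
    refine Prod.ext ?_ ?_
    · rw [Prod.fst_add]
      exact_mod_cast k1
    · rw [Prod.snd_add]
      exact_mod_cast k2
  · intro u v h p hp
    obtain ⟨hu, rfl⟩ := hF5 u v h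
    obtain ⟨j, s, hj, k0, k1, k2⟩ := b7 u hu
    obtain ⟨k3, k4⟩ := mv (z j) u s _ k1 k2
    have k5 : G u (F u) - G0 = (j : ZMod 6) := by
      rw [show G u (F u) = G0 + (j : ZMod 6) from k0]
      ring
    rw [add_sub_cancel_left] at k3 k4
    have k6 := sup_Dev1 a b1 b2 (fun j => S (z j)) (fun j => U (z j)) S0 U0 (fun j hj => by
      have := mv (z j) (z (j + 1)) (a j) _ (b6 j hj).1 (b6 j hj).2
      rwa [add_sub_cancel_left] at this) j hj p hp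
    obtain ⟨k7, k8⟩ := hy u (Finset.mem_filter.1 hu).1
    have k9 : (0 : ℚ) ≤ ((cr (ev (j : ZMod 6)) (p - y u) : ℤ) : ℚ) := by
      simp only [cr, Prod.fst_sub, Prod.snd_sub]
      push_cast
      rw [(ev_cast _).1, (ev_cast _).2, k7, k8, k3, k4]
      linarith
    rw [k5]
    exact_mod_cast k9
  · intro u v w h h'
    obtain ⟨hu, rfl⟩ := hF5 u v h
    obtain ⟨-, rfl⟩ := hF5 _ w h'
    rw [(hF1 u hu).2.2]
    ring
  · intro u v h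
    obtain ⟨hu, rfl⟩ := hF5 u v h
    exact ⟨_, hF4 _ (hF1 u hu).1⟩
  · refine ⟨z 0, hzX 0, Prod.ext ?_ ?_⟩
    · have := (hy _ (hzX 0)).1
      rw [S0] at this
      exact_mod_cast this
    · have := (hy _ (hzX 0)).2
      rw [U0] at this
      exact_mod_cast this

end MP7b.Sb
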