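import Pool.Agent.MP_7b7a6d_co.Sb.St

/-! The developing map is a bijection onto the lattice points of the hexagon. -/

open scoped Classical
open MeasureTheory Metric Real

noncomputable section
namespace MP7b.Sb

/-- the norm form of the lattice -/
def Q_Dev2 (v : ℤ × ℤ) : ℤ := v.1 ^ 2 + v.1 * v.2 + v.2 ^ 2

/-- its polar form -/
def B_Dev2 (v e : ℤ × ℤ) : ℤ := 2 * v.1 * e.1 + v.1 * e.2 + v.2 * e.1 + 2 * v.2 * e.2

theorem unit_Dev2 : ∀ i : ZMod 6, Q_Dev2 (ev i) = 1 := by decide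

theorem sub_Dev2 (v : ℤ × ℤ) (i : ZMod 6) :
    Q_Dev2 (v - ev i) = Q_Dev2 v - B_Dev2 v (ev i) + 1 := by
  rw [← unit_Dev2 i]
  simp only [Q_Dev2, B_Dev2, Prod.fst_sub, Prod.snd_sub]
  ring

theorem inn_Dev2 (v : ℤ × ℤ) (h : ∀ i, B_Dev2 v (ev i) < 2) : v = 0 := by
  have h0 := h 0
  have h1 := h 1
  have h2 := h 2
  have h3 := h 3
  have h4 := h 4
  have h5 := h 5
  simp +decide only [ev, B_Dev2, ↓reduceIte] at h0 h1 h2 h3 h4 h5
  exact Prod.ext (by simp only [Prod.fst_zero]; omega) (by simp only [Prod.snd_zero]; omega)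

theorem bdy_Dev2 (v : ℤ × ℤ) (j : ZMod 6) (d : ℕ) (d1 : 1 ≤ d) (d3 : d ≤ 3)
    (c1 : 0 ≤ cr (ev j) v) (c2 : 0 ≤ cr (ev (j + (d : ZMod 6) + 3)) v)
    (h : ∀ o : ℕ, o ≤ d → B_Dev2 v (ev (j + (o : ZMod 6))) < 2) : v = 0 := by
  have h0 := h 0
  have h1 := h 1
  have h2 := h 2
  have h3 := h 3
  clear h
  rcases cases_Rig j with rfl | rfl | rfl | rfl | rfl | rfl <;> interval_cases d <;>
    simp +decide only [ev, cr, B_Dev2, ↓reduceIte, forall_const, false_imp_iff]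
      at h0 h1 h2 h3 c1 c2 <;>
    exact Prod.ext (by simp only [Prod.fst_zero]; omega) (by simp only [Prod.snd_zero]; omega)

theorem fin_Dev2 : ∀ j i : ZMod 6, ∀ d < 4, 1 ≤ d → 0 ≤ cr (ev j) (ev i) →
    0 ≤ cr (ev j) (ev (i + 1)) → 0 ≤ cr (ev (j + (d : ℕ) + 3)) (ev i) →
    0 ≤ cr (ev (j + (d : ℕ) + 3)) (ev (i + 1)) → ∃ o < d, i = j + (o : ℕ) := by
  intro j i d h1 h2
  interval_cases d <;> revert j i <;> decide +kernel

theorem tri_Dev2 {X : Finset ℂ} {t g : ℂ → ℂ → ℂ → Prop} {R : ℂ → ℂ → Prop} {δ : ℂ → ℂ → ℂ → ℝ}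
    (H : Cx X t R g δ) {α β c c' : ℕ} {G : ℂ → ℂ → ZMod 6} {y : ℂ → ℤ × ℤ}
    (V : Dev X R g α β c c' G y) {w a b : ℂ} (h : g w a b) :
    (a ∈ X ∧ y a = y w + ev (G w a)) ∧ b ∈ X ∧ y b = y w + ev (G w a + 1) := by
  have h1 := H.gR (H.grot (H.grot h))
  refine ⟨⟨(gmem_Rb5 H h).2.1, V.step _ _ (H.gR h)⟩, (gmem_Rb5 H h).2.2, ?_⟩
  rw [V.step _ _ (H.Rsymm h1), V.rev _ _ h1, V.tri _ _ _ (H.grot h), V.tri _ _ _ h, add_assoc,
    add_assoc]
  rfl

theorem dev2 (hF : FAV_st) : DEV2_st := by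
  intro X t R g δ H α β c c' G y p hD V
  have onto : HF α β c c' ⊆ X.image y := by
    intro q hq
    obtain ⟨z, hz, -⟩ := V.base
    obtain ⟨x, hx, hmin⟩ := X.exists_min_image (fun x => Q_Dev2 (q - y x)) ⟨z, hz⟩
    refine Finset.mem_image.2 ⟨x, hx, (sub_eq_zero.1 ?_).symm⟩
    have key : ∀ i a, a ∈ X ∧ y a = y x + ev i → B_Dev2 (q - y x) (ev i) < 2 := by
      rintro i a ⟨ha, e⟩
      have := hmin a ha
      rw [e, ← sub_sub, sub_Dev2] at this
      omega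
    rcases hF X t R g δ H α β c c' G y V x hx with h | ⟨j, d, d1, d3, h, hc⟩
    · refine inn_Dev2 _ fun i => ?_
      obtain ⟨a, b, h1, rfl⟩ := h i
      exact key _ a (tri_Dev2 H V h1).1
    · refine bdy_Dev2 _ j d d1 d3 (hc q hq).1 (hc q hq).2 fun o ho => ?_
      rcases ho.lt_or_eq with ho | rfl
      · obtain ⟨a, b, h1, h2⟩ := h o ho
        exact key _ a (h2 ▸ (tri_Dev2 H V h1).1)
      · obtain ⟨o, rfl⟩ := Nat.exists_eq_add_of_le' d1
        obtain ⟨a, b, h1, h2⟩ := h o o.lt_succ_self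
        rw [Nat.cast_succ, ← add_assoc]
        exact key _ b (h2 ▸ (tri_Dev2 H V h1).2)
  have hc : X.card ≤ (HF α β c c').card := by
    obtain ⟨Y, h1, h2⟩ := cnt_Uba α β c c' X.card hD.2.2.2.2.2.le
    rw [← h1]
    refine Finset.card_le_card_of_injOn (fun q => ((q.1 : ℤ), (q.2 : ℤ))) (fun q hq => ?_)
      fun q _ q' _ e => ?_
    · have := h2 q hq
      simp only [Finset.mem_coe, mem_HF]
      omega
    · simp only [Prod.mk.injEq, Nat.cast_inj] at e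
      exact Prod.ext e.1 e.2
  have himg := Finset.eq_of_subset_of_card_le onto (Finset.card_image_le.trans hc)
  have hB : Set.BijOn y X (HF α β c c') := by
    rw [himg, Finset.coe_image]
    exact (Finset.card_image_iff.1 (le_antisymm Finset.card_image_le
      (hc.trans (Finset.card_le_card onto)))).bijOn_image
  have hI := hB.invOn_invFunOn
  have hB' := Set.BijOn.symm hI.symm hB
  refine ⟨_, hB', fun q hq i h1 h2 => ?_⟩
  have hx := hB'.mapsTo hq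
  have hy := hI.2 hq
  have main : ∃ a b, g (Function.invFunOn y X q) a b ∧ G (Function.invFunOn y X q) a = i := by
    rcases hF X t R g δ H α β c c' G y V _ hx with h | ⟨j, d, d1, d3, h, hc⟩
    · exact h i
    · have c1 := hc _ h1
      have c2 := hc _ h2
      rw [hy, add_sub_cancel_left] at c1 c2
      obtain ⟨o, ho, rfl⟩ := fin_Dev2 j i d (by omega) d1 c1.1 c2.1 c1.2 c2.2
      exact h o ho
  obtain ⟨a, b, h3, h4⟩ := main
  obtain ⟨⟨a1, a2⟩, b1, b2⟩ := tri_Dev2 H V h3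
  rw [hy, h4] at a2 b2
  rw [← a2, ← b2, hI.1 a1, hI.1 b1]
  exact h3

end MP7b.Sb
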