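import Pool.Agent.MP_7b7a6d_co.Sb.St

open scoped Classical
open MeasureTheory Metric Real

noncomputable section
namespace MP7b.Sb

/-- the directions allowed by six conditions in cyclic order -/
def av_Fan (b0 b1 b2 b3 b4 b5 : Bool) (i : ZMod 6) : Bool :=
  bif decide (i.val = 0) then b0 && b1 else bif decide (i.val = 1) then b1 && b2 else
    bif decide (i.val = 2) then b2 && b3 else bif decide (i.val = 3) then b3 && b4 else
      bif decide (i.val = 4) then b4 && b5 else b5 && b0

theorem bool_Fan : ∀ b0 b1 b2 b3 b4 b5 : Bool, ((b0 || b3) && (b1 || b4) && (b2 || b5) &&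
    (!b0 || b5 || b1) && (!b1 || b0 || b2) && (!b2 || b1 || b3) && (!b3 || b2 || b4) &&
    (!b4 || b3 || b5) && (!b5 || b4 || b0)) = true →
    ∃ (j : ZMod 6) (d : Fin 6), 1 ≤ d.val ∧
      (∀ o : Fin 6, o.val ≤ d.val → av_Fan b0 b1 b2 b3 b4 b5 (j + (o.val : ZMod 6)) = true) ∧
      ∀ i : ZMod 6, av_Fan b0 b1 b2 b3 b4 b5 i = true →
        ∃ o : Fin 6, o.val ≤ d.val ∧ i = j + (o.val : ZMod 6) := by
  decide +kernel

theorem fan : FAN_st := by
  intro α β c c' h1 h2 h3 h4 h5 h6 h7 p hp
  obtain ⟨s, u⟩ := p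
  have hm := mem_HF.1 hp
  simp only at hm
  have key : ∀ i : ZMod 6, (s, u) + ev i ∈ HF α β c c' ↔
      av_Fan (decide (s < α)) (decide (s + u + c' < α + β)) (decide (u < β)) (decide (0 < s))
        (decide ((c : ℤ) < s + u)) (decide (0 < u)) i = true := by
    intro i
    obtain ⟨e0, e1, e2, e3, e4, e5⟩ := ev_vals
    rcases cases_Rig i with rfl | rfl | rfl | rfl | rfl | rfl
    · rw [e0, mem_HF]
      change _ ↔ (decide _ && decide _) = true
      simp only [Prod.mk_add_mk, Bool.and_eq_true, decide_eq_true_eq]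
      omega
    · rw [e1, mem_HF]
      change _ ↔ (decide _ && decide _) = true
      simp only [Prod.mk_add_mk, Bool.and_eq_true, decide_eq_true_eq]
      omega
    · rw [e2, mem_HF]
      change _ ↔ (decide _ && decide _) = true
      simp only [Prod.mk_add_mk, Bool.and_eq_true, decide_eq_true_eq]
      omega
    · rw [e3, mem_HF]
      change _ ↔ (decide _ && decide _) = true
      simp only [Prod.mk_add_mk, Bool.and_eq_true, decide_eq_true_eq]
      omega
    · rw [e4, mem_HF]
      change _ ↔ (decide _ && decide _) = true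
      simp only [Prod.mk_add_mk, Bool.and_eq_true, decide_eq_true_eq]
      omega
    · rw [e5, mem_HF]
      change _ ↔ (decide _ && decide _) = true
      simp only [Prod.mk_add_mk, Bool.and_eq_true, decide_eq_true_eq]
      omega
  obtain ⟨j, d, a1, a2, a3⟩ := bool_Fan (decide (s < α)) (decide (s + u + c' < α + β))
    (decide (u < β)) (decide (0 < s)) (decide ((c : ℤ) < s + u)) (decide (0 < u)) (by
      simp only [Bool.and_eq_true, Bool.or_eq_true, Bool.not_eq_true', decide_eq_true_eq,
        decide_eq_false_iff_not]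
      omega)
  have hd := d.2
  refine ⟨j, d.val, a1, by omega, fun o ho => (key _).2 (a2 ⟨o, by omega⟩ ho), fun i hi => ?_⟩
  obtain ⟨o, b1, b2⟩ := a3 i ((key i).1 hi)
  exact ⟨o.val, b1, b2⟩

end MP7b.Sb
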