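import Pool.Agent.MP_7b7a6d_co.Sb.St

open scoped Classical
open MeasureTheory Metric Real

noncomputable section
namespace MP7b.Sb

theorem seven_Fav : ∀ x : ZMod 6, x + 2 + 2 + 3 = x + 1 := by decide

theorem turn_Fav : ∀ x : ZMod 6, ∀ d : ℕ, d ≤ 3 →
    x + 3 + ((3 - d : ℕ) : ZMod 6) + (d : ZMod 6) = x := by decide

theorem ne_Fav : ∀ x : ZMod 6, ∀ d : ℕ, d ≤ 3 → ∀ o : ℕ, o < d →
    x + (o : ZMod 6) ≠ x + (d : ZMod 6) := by decide

theorem fav : FAV_st := by
  intro X t R g δ H α β c c' G y hD w hw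
  have hs : ∀ a b, g w a b → R w b ∧ G w b = G w a + 1 := fun a b h => by
    have h2 := H.gR (H.grot (H.grot h))
    exact ⟨H.Rsymm h2, by rw [hD.rev _ _ h2, hD.tri _ _ _ (H.grot h), hD.tri _ _ _ h, seven_Fav]⟩
  have hm : ∀ b, R w b → (¬ ∃ e, g w b e) → b ∈ X.filter (bd R g w) := fun b h h' => by
    refine Finset.mem_filter.2 ⟨?_, h, h'⟩
    rcases H.RE h with ⟨e, he⟩ | ⟨e, he⟩
    · exact H.tri.mem (H.tri.rot he)
    · exact H.tri.mem he
  rcases hD.deg w hw with ⟨h0, h6⟩ | ⟨h1, h3⟩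
  · left
    obtain ⟨q, hq⟩ : (D2 X (g w)).Nonempty := Finset.card_pos.1 (by rw [dg] at h6; omega)
    rw [memD_Rb5 H] at hq
    have h7 : X.filter (bd R g w) = ∅ := Finset.card_eq_zero.1 h0
    have key : ∀ o : ℕ, ∃ a b, g w a b ∧ G w a = G w q.1 + (o : ZMod 6) := fun o => by
      induction o with
      | zero => exact ⟨_, _, hq, by rw [Nat.cast_zero, add_zero]⟩
      | succ o ih =>
        obtain ⟨a, b, h, e⟩ := ih
        by_cases h8 : ∃ e, g w b e
        · obtain ⟨f, hf⟩ := h8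
          exact ⟨b, f, hf, by rw [(hs a b h).2, e, Nat.cast_succ, add_assoc]⟩
        · have := hm b (hs a b h).1 h8
          rw [h7] at this
          exact absurd this (Finset.notMem_empty _)
    intro i
    obtain ⟨a, b, h, e⟩ := key (i - G w q.1).val
    exact ⟨a, b, h, by rw [e, ZMod.natCast_zmod_val, add_sub_cancel]⟩
  · right
    obtain ⟨a, ha⟩ := Finset.card_eq_one.1 h1
    have hb : bd R g w a := (Finset.mem_filter.1 (ha ▸ Finset.mem_singleton_self a :
      a ∈ X.filter (bd R g w))).2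
    obtain ⟨e, he⟩ := hD.nxt _ _ hb
    obtain ⟨f, hf⟩ := (hD.side _ _ he.1).resolve_left he.2
    have hr := hD.rev _ _ hb.1
    have hj : G w e + (dg X g w : ZMod 6) = G w a := by
      rw [hD.turn _ _ _ hb he, hr, turn_Fav _ _ h3]
    refine ⟨G w e, dg X g w, Finset.card_pos.2 ⟨(e, f), (memD_Rb5 H w _).2 hf⟩, h3, fun o => ?_,
      fun p hp => ⟨hD.sup _ _ he p hp, ?_⟩⟩
    · induction o with
      | zero => exact fun _ => ⟨_, _, hf, by rw [Nat.cast_zero, add_zero]⟩
      | succ o ih =>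
        intro ho
        obtain ⟨a', b, h, e'⟩ := ih (by omega)
        have e2 : G w b = G w e + ((o + 1 : ℕ) : ZMod 6) := by
          rw [(hs a' b h).2, e', Nat.cast_succ, add_assoc]
        by_cases h8 : ∃ e, g w b e
        · obtain ⟨f', hf'⟩ := h8
          exact ⟨b, f', hf', e2⟩
        · have h9 := hm b (hs a' b h).1 h8
          rw [ha, Finset.mem_singleton] at h9
          rw [h9, ← hj] at e2
          exact absurd e2.symm (ne_Fav _ _ h3 _ ho)
    · have h4 := hD.sup _ _ hb p hp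
      rw [hj, ← hr, hD.step _ _ (H.Rsymm hb.1)]
      refine h4.trans_eq ?_
      simp only [cr, Prod.fst_sub, Prod.snd_sub, Prod.fst_add, Prod.snd_add]
      ring

end MP7b.Sb
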