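import Pool.Agent.MP_7b7a6d_co.Sb.St

/-! From the centres to the regions. -/

open scoped Classical
open MeasureTheory Metric Real

noncomputable section
namespace MP7b.Sb

theorem cv_Hd {H : Set ℂ} (h : Convex ℝ H) (z u : ℂ) (η : ℝ) :
    Convex ℝ {w | ∃ q ∈ H, dist w (z + u * q) ≤ η} := by
  rintro x ⟨p, hp, h1⟩ y ⟨q, hq, h2⟩ a b ha hb hab
  refine ⟨a • p + b • q, h hp hq ha hb hab, ?_⟩
  have e : z + u * (a • p + b • q) = a • (z + u * p) + b • (z + u * q) := by
    have : (a : ℂ) + b = 1 := by exact_mod_cast hab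
    simp only [Complex.real_smul]
    linear_combination -z * this
  rw [e]
  refine (dist_add_add_le _ _ _ _).trans ?_
  rw [dist_smul₀, dist_smul₀, Real.norm_of_nonneg ha, Real.norm_of_nonneg hb]
  have := mul_le_mul_of_nonneg_left h1 ha
  have := mul_le_mul_of_nonneg_left h2 hb
  have : a * η + b * η = η := by rw [← add_mul, hab, one_mul]
  linarith

theorem cut_Hd (v : ℂ) {r : ℝ} (hr : 0 ≤ r) (h : ‖v‖ ≤ 1 + r) :
    ∃ t : ℂ, ‖t‖ ≤ 1 ∧ ‖v - t‖ ≤ r := by
  rcases le_or_gt ‖v‖ 1 with k | k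
  · exact ⟨v, k, by simpa using hr⟩
  · have h0 : 0 < ‖v‖ := by linarith
    refine ⟨‖v‖⁻¹ • v, by rw [norm_smul, norm_inv, norm_norm, inv_mul_cancel₀ h0.ne'], ?_⟩
    nth_rewrite 1 [← one_smul ℝ v]
    rw [← sub_smul, norm_smul, Real.norm_of_nonneg (sub_nonneg.2 (inv_le_one_of_one_le₀ k.le)),
      sub_mul, inv_mul_cancel₀ h0.ne']
    linarith

theorem hd : HD_st := by
  intro α β c c' h1 h2 h3 h4 X K ψ z u η ρ hu hη hρ hK hb hψ hq hy
  have hu0 : u ≠ 0 := norm_pos_iff.1 (hu ▸ one_pos)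
  refine ⟨fun y hyK => ?_, ?_⟩
  · obtain ⟨q, q1, q2⟩ := hy y hyK
    obtain ⟨h, k1, k2⟩ := convexHull_min (t := {w | ∃ q ∈ Hx α β c c', dist w (z + u * q) ≤ η})
      (fun x hx => by
        obtain ⟨p, hp, rfl⟩ := hψ.surjOn hx
        obtain ⟨a1, a2, a3, a4, a5, a6⟩ := mem_HF.1 hp
        refine ⟨pt p, ⟨p.1, p.2, by simp [pt], by exact_mod_cast a1, by exact_mod_cast a2,
          by exact_mod_cast a3, by exact_mod_cast a4, by exact_mod_cast a5, ?_⟩, hq p hp⟩
        have : ((p.1 + p.2 + c' : ℤ) : ℝ) ≤ (α + β : ℤ) := by exact_mod_cast a6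
        push_cast at this
        linarith) (cv_Hd (cvx_Uba _ _ _ _) z u η) q1
    obtain ⟨t, t1, t2⟩ := cut_Hd (y - (z + u * h)) (r := η + ρ) (by linarith) (by
      rw [← dist_eq_norm]; linarith [dist_triangle y q (z + u * h)])
    refine ⟨h + t / u, ⟨h, k1, ?_⟩, ?_⟩
    · rw [dist_eq_norm, add_sub_cancel_left, norm_div, hu, div_one]; exact t1
    · rw [dist_eq_norm, mul_add, mul_div_cancel₀ _ hu0, ← add_assoc, ← sub_sub]; exact t2
  · rintro w ⟨h, k1, k2⟩
    obtain ⟨A, e1⟩ := Nat.exists_eq_add_of_le' h1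
    obtain ⟨B, e2⟩ := Nat.exists_eq_add_of_le' h2
    obtain ⟨A', e3⟩ := Nat.exists_eq_add_of_le h3
    obtain ⟨B', e4⟩ := Nat.exists_eq_add_of_le' h4
    have E1 : (α : ℂ) = A + c := by exact_mod_cast e1
    have E2 : (β : ℂ) = B + c := by exact_mod_cast e2
    have E3 : (α : ℂ) = c' + A' := by exact_mod_cast e3
    have E4 : (β : ℂ) = B' + c' := by exact_mod_cast e4
    have o := om_sq_Rig
    let k : ℕ → ℤ × ℤ := fun j =>
      [((c : ℤ), (0 : ℤ)), (α, 0), (α, B'), (A', β), (0, β)].getD j (0, c)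
    have hk : ∀ j, k j ∈ HF α β c c' := fun j => by
      rcases j with _ | _ | _ | _ | _ | j <;> simp [k, mem_HF] <;> omega
    obtain ⟨q, q1, q2⟩ := hxc (fun j => [A, B', c', A', B].getD j c) u (fun j => z + u * pt (k j))
      {w | ∃ q ∈ convexHull ℝ (X : Set ℂ), dist w (0 + 1 * q) ≤ η} (by simp; omega)
      (by simp; omega) (cv_Hd (convex_convexHull ℝ _) 0 1 η)
      (fun j => ⟨ψ (k j), subset_convexHull ℝ _ (hψ.mapsTo (hk j)), by
        rw [zero_add, one_mul, dist_comm]; exact hq _ (hk j)⟩)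
      (fun j hj => by
        interval_cases j <;> simp [k, pt]
        · linear_combination 2 * u * E1
        · ring
        · linear_combination -2 * u * E3 + 2 * u * om * E4 - 2 * c' * u * o
        · linear_combination -2 * A' * u * (om + 1) * o
        · linear_combination -2 * u * om * E2 - 2 * B * u * om * (om + 1) * o) h
      (by simpa [← e1, ← e4, ← E1] using k1)
    refine ⟨q + u * (w - h), ball_hull hK hb q1 ?_, ?_⟩
    · rw [mem_closedBall, dist_eq_norm, add_sub_cancel_left, norm_mul, hu, one_mul, ← dist_eq_norm]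
      exact k2
    · rw [dist_comm, dist_eq_norm] at q2
      rw [dist_eq_norm]
      convert q2 using 2
      simp [k, pt]
      ring

end MP7b.Sb
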