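import Pool.Agent.MP_7b7a6d_co.Sb.St

open scoped Classical
open MeasureTheory Metric Real

noncomputable section
namespace MP7b.Sb

theorem pw_Hk {s t : ℝ} (hs : 0 ≤ s) (h : s * (s * s) ≤ t) : s * s ≤ t ^ (2 / 3 : ℝ) := by
  have h1 := Real.rpow_le_rpow (by positivity) h (by norm_num : (0 : ℝ) ≤ 2 / 3)
  have h2 : (s * (s * s)) ^ (2 / 3 : ℝ) = s * s := by
    rw [show s * (s * s) = s ^ (3 : ℝ) by rw [show (3 : ℝ) = (3 : ℕ) by norm_num, rpow_natCast]; ring,
      ← rpow_mul hs, show (3 : ℝ) * (2 / 3) = (2 : ℕ) by norm_num, rpow_natCast]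
    ring
  linarith

/-- the triangle beyond the supporting line -/
theorem core_Hk {P K : Set ℂ} {q n : ℂ} {s : ℝ} (hK : Convex ℝ K) (hR : Rd P ⊆ K) (hq : q ∈ P)
    (n1 : n.re * n.re + n.im * n.im = 1) (s0 : 0 < s) (s1 : s * s ≤ 1)
    (hy : q + ((1 + s * s : ℝ) : ℂ) * n ∈ K)
    (hP : ∀ z ∈ P, n.re * (z.re - q.re) + n.im * (z.im - q.im) ≤ 0) :
    volume (Rd P) + ENNReal.ofReal (s * (s * s) / 2) ≤ volume K := by
  have side : ∀ t : ℝ, t * t = s * s → q + n + ((t / 2 : ℝ) : ℂ) * Complex.I * n ∈ K := by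
    intro t ht
    have m : q + (((1 - s * s : ℝ) : ℂ) + (t : ℂ) * Complex.I) * n ∈ K := by
      refine hR ⟨q, hq, ?_⟩
      rw [dist_self_add_left, ← sq_le_one_iff₀ (norm_nonneg _), Complex.sq_norm, Complex.normSq_mul,
        Complex.normSq_add_mul_I, Complex.normSq_apply n, n1]
      nlinarith [mul_pos s0 s0]
    have h := hK m hy (by norm_num : (0 : ℝ) ≤ 1 / 2) (by norm_num : (0 : ℝ) ≤ 1 / 2) (by norm_num)
    have e : q + n + ((t / 2 : ℝ) : ℂ) * Complex.I * n =
        (1 / 2 : ℝ) • (q + (((1 - s * s : ℝ) : ℂ) + (t : ℂ) * Complex.I) * n) +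
          (1 / 2 : ℝ) • (q + ((1 + s * s : ℝ) : ℂ) * n) := by
      simp only [Complex.real_smul]
      push_cast
      ring
    rw [e]
    exact h
  have hA := side (-s) (by ring)
  have hB := side s rfl
  obtain ⟨A, eA⟩ : ∃ A, A = q + n + ((-s / 2 : ℝ) : ℂ) * Complex.I * n := ⟨_, rfl⟩
  obtain ⟨B, eB⟩ : ∃ B, B = q + n + ((s / 2 : ℝ) : ℂ) * Complex.I * n := ⟨_, rfl⟩
  obtain ⟨Y, eY⟩ : ∃ Y, Y = q + ((1 + s * s : ℝ) : ℂ) * n := ⟨_, rfl⟩
  rw [← eA] at hA
  rw [← eB] at hB
  rw [← eY] at hy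
  have Ar : A.re = q.re + n.re + s / 2 * n.im := by
    rw [eA]; simp only [Complex.add_re, Complex.mul_re, Complex.mul_im, Complex.ofReal_re,
      Complex.ofReal_im, Complex.I_re, Complex.I_im]; ring
  have Ai : A.im = q.im + n.im - s / 2 * n.re := by
    rw [eA]; simp only [Complex.add_im, Complex.mul_re, Complex.mul_im, Complex.ofReal_re,
      Complex.ofReal_im, Complex.I_re, Complex.I_im]; ring
  have Br : B.re = q.re + n.re - s / 2 * n.im := by
    rw [eB]; simp only [Complex.add_re, Complex.mul_re, Complex.mul_im, Complex.ofReal_re,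
      Complex.ofReal_im, Complex.I_re, Complex.I_im]; ring
  have Bi : B.im = q.im + n.im + s / 2 * n.re := by
    rw [eB]; simp only [Complex.add_im, Complex.mul_re, Complex.mul_im, Complex.ofReal_re,
      Complex.ofReal_im, Complex.I_re, Complex.I_im]; ring
  have Yr : Y.re = q.re + (1 + s * s) * n.re := by
    rw [eY]; simp only [Complex.add_re, Complex.mul_re, Complex.ofReal_re, Complex.ofReal_im]; ring
  have Yi : Y.im = q.im + (1 + s * s) * n.im := by
    rw [eY]; simp only [Complex.add_im, Complex.mul_im, Complex.ofReal_re, Complex.ofReal_im]; ring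
  have hD : D A Y B = s * (s * s) := by
    unfold D
    rw [Ar, Ai, Br, Bi, Yr, Yi]
    linear_combination (s * (s * s)) * n1
  have vol : volume (otri A Y B) = ENNReal.ofReal (s * (s * s) / 2) := by
    rw [← hD]
    exact otv A Y B (by rw [hD]; positivity)
  have dis : Disjoint (Rd P) (otri A Y B) := Set.disjoint_left.2 fun w ⟨z, hz, h⟩ hw => by
    have a := hP z hz
    have b : 0 < D B A w := hw.2.2
    have c : D B A w = s * (n.re * (w.re - q.re) + n.im * (w.im - q.im) - 1) := by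
      unfold D
      rw [Ar, Ai, Br, Bi]
      linear_combination (-s) * n1
    rw [c] at b
    have b' := (mul_pos_iff_of_pos_left s0).1 b
    rw [dist_eq_norm, ← sq_le_one_iff₀ (norm_nonneg _), Complex.sq_norm, Complex.normSq_apply,
      Complex.sub_re, Complex.sub_im] at h
    nlinarith [sq_nonneg (n.re - (w.re - z.re)), sq_nonneg (n.im - (w.im - z.im))]
  have le := measure_mono (μ := volume)
    (Set.union_subset hR (show otri A Y B ⊆ K from fun p hp => sub_Trv hK hA hy hB hp))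
  rwa [measure_union dis (meas_Trv A Y B), vol] at le

theorem hk : HK_st := by
  intro P K v ε hP hn hc hK hR hv he he' h1 h2 y hy
  obtain ⟨q, hq, hm⟩ := exists_norm_eq_iInf_of_complete_convex hn hP.isComplete hc y
  rw [norm_eq_iInf_iff_real_inner_le_zero hc hq] at hm
  refine ⟨q, hq, ?_⟩
  have r0 : 0 ≤ (2 * ε) ^ (2 / 3 : ℝ) := by positivity
  have r1 : (2 * ε) ^ (2 / 3 : ℝ) < 1 := rpow_lt_one (by positivity) (by linarith) (by norm_num)
  by_contra hlt
  rw [not_le, dist_eq_norm] at hlt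
  obtain ⟨d, hd⟩ : ∃ d, d = ‖y - q‖ := ⟨_, rfl⟩
  rw [← hd] at hlt
  have d0 : 0 < d := by linarith
  have dC : (d : ℂ) ≠ 0 := by exact_mod_cast d0.ne'
  obtain ⟨n, en⟩ : ∃ n : ℂ, n = (y - q) / d := ⟨_, rfl⟩
  have yn : y - q = d * n := by rw [en]; field_simp
  have n0 : ‖n‖ = 1 := by
    rw [en, norm_div, Complex.norm_real, Real.norm_of_nonneg d0.le, ← hd, div_self d0.ne']
  have n1 : n.re * n.re + n.im * n.im = 1 := by
    rw [← Complex.normSq_apply, ← Complex.sq_norm, n0]; norm_num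
  obtain ⟨e, e0, e1, e2⟩ : ∃ e : ℝ, (2 * ε) ^ (2 / 3 : ℝ) < e ∧ e ≤ 1 ∧ e ≤ d - 1 :=
    ⟨min 1 (d - 1), lt_min r1 (by linarith), min_le_left _ _, min_le_right _ _⟩
  have ep : 0 < e := by linarith
  have s0 : 0 < √e := sqrt_pos.2 ep
  have ss : √e * √e = e := mul_self_sqrt ep.le
  have qK : q ∈ K := hR ⟨q, hq, by simp⟩
  have hY : q + ((1 + √e * √e : ℝ) : ℂ) * n ∈ K := by
    have h := hK.add_smul_sub_mem qK hy (t := (1 + e) / d)
      ⟨by positivity, (div_le_one d0).2 (by linarith)⟩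
    have e3 : ((1 + e) / d) • (y - q) = ((1 + √e * √e : ℝ) : ℂ) * n := by
      rw [ss, yn, Complex.real_smul]
      push_cast
      field_simp
    rwa [e3] at h
  have hz : ∀ z ∈ P, n.re * (z.re - q.re) + n.im * (z.im - q.im) ≤ 0 := by
    intro z hz
    have h := hm z hz
    rw [yn, Complex.inner] at h
    simp only [map_mul, Complex.conj_ofReal, Complex.mul_re, Complex.mul_im, Complex.sub_re,
      Complex.sub_im, Complex.conj_re, Complex.conj_im, Complex.ofReal_re, Complex.ofReal_im] at h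
    by_contra hc'
    rw [not_le] at hc'
    nlinarith [mul_pos d0 hc']
  have le := core_Hk hK hR hq n1 s0 (by linarith) hY hz
  have le2 : ENNReal.ofReal (v + √e * (√e * √e) / 2) ≤ ENNReal.ofReal (v + ε) := by
    rw [ENNReal.ofReal_add hv (by positivity)]
    exact ((add_le_add h1 le_rfl).trans le).trans h2
  rw [ENNReal.ofReal_le_ofReal_iff (by linarith)] at le2
  have := pw_Hk (t := 2 * ε) s0.le (by linarith)
  linarith

end MP7b.Sb
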