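import Pool.Agent.MP_7b7a6d_co.Sb.St

open scoped Classical
open MeasureTheory Metric Real

noncomputable section
namespace MP7b.Sb

theorem l6b : L6b_st := by
  intro W F G τ y1 y2 hF hi hs h6
  obtain ⟨w0, hw0, ht0⟩ := Finset.exists_ne_zero_of_sum_ne_zero (by omega : ∑ w ∈ W, τ w ≠ 0)
  have hN := per_L6 hF hi hw0
  have hinj : Set.InjOn (fun k => F^[k] w0) (Finset.range (Function.minimalPeriod F w0)) := by
    rw [Finset.coe_range]
    exact Function.iterate_injOn_Iio_minimalPeriod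
  have hmod : ∀ k, F^[k % Function.minimalPeriod F w0] w0 = F^[k] w0 := fun k =>
    Function.iterate_mod_minimalPeriod_eq
  have hpN : F^[Function.minimalPeriod F w0] w0 = w0 := Function.iterate_minimalPeriod
  generalize Function.minimalPeriod F w0 = N at hN hinj hmod hpN
  obtain ⟨p, hp⟩ : ∃ p : ℕ → ℂ, p = fun k => F^[k] w0 := ⟨_, rfl⟩
  rw [← hp] at hinj
  have pW : ∀ k, p k ∈ W := fun k => hp ▸ mem_L6 hF hw0 k
  have pS : ∀ k, p (k + 1) = F (p k) := fun k => hp ▸ Function.iterate_succ_apply' F k w0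
  have p0 : p 0 = w0 := hp ▸ rfl
  have pN : p N = p 0 := hp ▸ hpN
  obtain ⟨c, hc⟩ : ∃ c : ℕ → ℕ, ∀ k, c k = ∑ i ∈ Finset.range k, τ (p (i + 1)) := ⟨_, fun _ => rfl⟩
  have cS : ∀ k, c (k + 1) = c k + τ (p (k + 1)) := fun k => by
    rw [hc, hc, Finset.sum_range_succ]
  have cM : Monotone c := monotone_nat_of_le_succ fun k => by rw [cS]; omega
  have cG : ∀ k, G (p k) = G w0 + (c k : ZMod 6) := fun k => by
    induction k with
    | zero => simp [hc, p0]
    | succ k ih => rw [cS, pS, (hs _ (pW k)).2.2, ih]; push_cast; ring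
  have hO : (Finset.range N).image p ⊆ W := fun w hw => by
    obtain ⟨k, -, rfl⟩ := Finset.mem_image.1 hw
    exact pW k
  have cN : c N = ∑ w ∈ (Finset.range N).image p, τ w := by
    have h1 := Finset.sum_range_succ (fun i => τ (p i)) N
    rw [Finset.sum_range_succ', pN] at h1
    rw [Finset.sum_image hinj, hc]
    omega
  have hsd := Finset.sum_sdiff (f := τ) hO
  obtain ⟨M, rfl⟩ : ∃ M, N = M + 1 := ⟨N - 1, by omega⟩
  have cM1 := cS M
  rw [pN, p0] at cM1
  have c6 : c (M + 1) = 6 := by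
    have h1 := cG (M + 1)
    rw [pN, p0, left_eq_add, ZMod.natCast_eq_zero_iff] at h1
    omega
  have hW : (Finset.range (M + 1)).image p = W := by
    refine hO.antisymm fun w hw => by_contra fun hn => ?_
    have hN' := per_L6 hF hi hw
    have hw' : F^[Function.minimalPeriod F w] w = w := Function.iterate_minimalPeriod
    have hz : ∀ k, τ (F^[k] w) = 0 := fun k => by
      refine Finset.sum_eq_zero_iff.1 (by omega : ∑ x ∈ W \ (Finset.range (M + 1)).image p, τ x = 0)
        _ (Finset.mem_sdiff.2 ⟨mem_L6 hF hw k, fun h => hn ?_⟩)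
      obtain ⟨i, -, hi'⟩ := Finset.mem_image.1 h
      have h1 : F^[Function.minimalPeriod F w * k] w = w :=
        (Function.isPeriodicPt_minimalPeriod F w).mul_const k
      have h2 : Function.minimalPeriod F w * k = (Function.minimalPeriod F w * k - k) + k :=
        (Nat.sub_add_cancel (Nat.le_mul_of_pos_left k hN')).symm
      rw [h2, Function.iterate_add_apply, ← hi', hp, ← Function.iterate_add_apply, ← hmod] at h1
      exact Finset.mem_image.2 ⟨_, Finset.mem_range.2 (Nat.mod_lt _ hN), (congrFun hp _).trans h1⟩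
    have hG : ∀ k, G (F^[k] w) = G w := fun k => by
      induction k with
      | zero => rfl
      | succ k ih =>
        have h1 := hz (k + 1)
        rw [Function.iterate_succ_apply'] at h1 ⊢
        rw [(hs _ (mem_L6 hF hw k)).2.2, h1, ih]
        simp
    obtain ⟨h1, h2, -⟩ := seg_L6 (fun k => y1 (F^[k] w)) (fun k => y2 (F^[k] w)) (e1 (G w))
      (e2 (G w)) 0 (Function.minimalPeriod F w) fun k _ _ => by
        simp only [Function.iterate_succ_apply']
        rw [(hs _ (mem_L6 hF hw k)).1, (hs _ (mem_L6 hF hw k)).2.1, hG]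
        exact ⟨rfl, rfl⟩
    simp only [zero_add, hw', Function.iterate_zero, id, left_eq_add, mul_eq_zero,
      Nat.cast_eq_zero, hN'.ne', false_or] at h1 h2
    have h3 := (rot_L6 (G w)).2.2
    rw [h1, h2] at h3
    norm_num at h3
  obtain ⟨b, hb⟩ : ∃ b : ℕ → ℕ, ∀ j, b j = sInf {k | j ≤ c k} := ⟨_, fun _ => rfl⟩
  have b1 : ∀ j ≤ 6, j ≤ c (b j) := fun j hj => by
    rw [hb]
    exact Nat.sInf_mem (s := {k | j ≤ c k}) ⟨M + 1, hj.trans c6.ge⟩
  have b2 : ∀ j k, k < b j → c k < j := fun j k hk => by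
    rw [hb] at hk
    exact not_le.1 (Nat.notMem_of_lt_sInf (s := {k | j ≤ c k}) hk)
  have b3 : ∀ j < 6, b j ≤ b (j + 1) := fun j hj => by
    by_contra h
    have := b2 j _ (not_le.1 h)
    have := b1 (j + 1) hj
    omega
  have b0 : b 0 = 0 := by
    by_contra h
    have := b2 0 0 (by omega)
    omega
  have b6 : b 6 = M + 1 := by
    have h1 := b1 6 le_rfl
    have h2 := b2 6 (M + 1)
    have h3 := @cM (b 6) M
    omega
  have key : ∀ j < 6, _ := fun j hj =>
    seg_L6 (fun k => y1 (p k)) (fun k => y2 (p k)) (e1 (G w0 + (j : ZMod 6)))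
      (e2 (G w0 + (j : ZMod 6))) (b j) (b (j + 1) - b j) fun k h1 h2 => by
        have h3 := b3 j hj
        have h4 := b2 (j + 1) k (by omega)
        have h5 := (b1 j hj.le).trans (cM h1)
        have h7 : c k = j := by omega
        simp only [pS]
        rw [(hs _ (pW k)).1, (hs _ (pW k)).2.1, cG, h7]
        exact ⟨rfl, rfl⟩
  have key2 : ∀ j < 6, y1 (p (b (j + 1))) = y1 (p (b j)) +
      ((b (j + 1) - b j : ℕ) : ℚ) * e1 (G w0 + (j : ZMod 6)) ∧ y2 (p (b (j + 1))) = y2 (p (b j)) +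
      ((b (j + 1) - b j : ℕ) : ℚ) * e2 (G w0 + (j : ZMod 6)) ∧
      ∑ k ∈ Finset.range (b (j + 1)), (y1 (p k) * y2 (p (k + 1)) - y2 (p k) * y1 (p (k + 1))) =
        ∑ k ∈ Finset.range (b j), (y1 (p k) * y2 (p (k + 1)) - y2 (p k) * y1 (p (k + 1))) +
        ((b (j + 1) - b j : ℕ) : ℚ) * (y1 (p (b j)) * e2 (G w0 + (j : ZMod 6)) -
          y2 (p (b j)) * e1 (G w0 + (j : ZMod 6))) := fun j hj => by
    have h1 := key j hj
    rw [Nat.add_sub_cancel' (b3 j hj)] at h1
    exact h1
  obtain ⟨r1, r2, r3⟩ := alg_L6 (e1 (G w0)) (e2 (G w0)) (rot_L6 _).2.2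
    (fun j => ((b (j + 1) - b j : ℕ) : ℚ)) (fun j => y1 (p (b j))) (fun j => y2 (p (b j)))
    (fun j => ∑ k ∈ Finset.range (b j), (y1 (p k) * y2 (p (k + 1)) - y2 (p k) * y1 (p (k + 1))))
    (fun j => e1 (G w0 + (j : ZMod 6))) (fun j => e2 (G w0 + (j : ZMod 6))) (by simp)
    (fun j => by
      rw [Nat.cast_succ, ← add_assoc]
      exact ⟨(rot_L6 _).1, (rot_L6 _).2.1⟩)
    key2 (by simp only [b6, b0, pN]) (by simp only [b6, b0, pN]) (by simp [b0])
  refine ⟨fun j => b (j + 1) - b j, G w0, fun j => p (b j), by exact_mod_cast r1,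
    by exact_mod_cast r2, ?_, ?_, fun j => pW _,
    fun j hj => ⟨(key2 j (by omega)).1, (key2 j (by omega)).2.1⟩, fun w hw => ?_⟩
  · rw [← hW, Finset.card_image_of_injOn hinj, Finset.card_range]
    have := b3 0 (by norm_num)
    have := b3 1 (by norm_num)
    have := b3 2 (by norm_num)
    have := b3 3 (by norm_num)
    have := b3 4 (by norm_num)
    have := b3 5 (by norm_num)
    simp only [Nat.reduceAdd] at *
    omega
  · rw [← r3, ← hW, Finset.sum_image hinj]
    simp only [b6, pS]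
  · rw [← hW] at hw
    obtain ⟨k, hk, rfl⟩ := Finset.mem_image.1 hw
    have k6 : c k < 6 := b2 6 k (by rw [b6]; exact Finset.mem_range.1 hk)
    have k1 : b (c k) ≤ k := by
      by_contra h
      exact lt_irrefl _ (b2 (c k) k (not_le.1 h))
    obtain ⟨h1, h2, -⟩ := seg_L6 (fun k => y1 (p k)) (fun k => y2 (p k))
      (e1 (G w0 + (c k : ZMod 6))) (e2 (G w0 + (c k : ZMod 6))) (b (c k)) (k - b (c k))
      fun i h1 h2 => by
        have h4 : c i ≤ c k := cM (by omega)
        have h5 := (b1 (c k) k6.le).trans (cM h1)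
        have h7 : c i = c k := by omega
        simp only [pS]
        rw [(hs _ (pW i)).1, (hs _ (pW i)).2.1, cG, h7]
        exact ⟨rfl, rfl⟩
    rw [Nat.add_sub_cancel' k1] at h1 h2
    exact ⟨c k, ((k - b (c k) : ℕ) : ℚ), k6, cG k, h1, h2⟩

end MP7b.Sb

end
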