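import Pool.Agent.MP_7b7a6d_co.Sb.St

open scoped Classical
open MeasureTheory Metric Real

noncomputable section
namespace MP7b.Sb

theorem alg_Loc {P Q R d t r N : ℝ} (hr : r ^ 2 = 3) (r1 : 1.732 < r) (r2 : r < 1.7321)
    (p1 : 4 ≤ P) (q1 : 4 ≤ Q) (s1 : 4 ≤ R) (p2 : P < 8) (q2 : Q < 8) (s2 : R < 8)
    (t0 : 0 ≤ t) (t1 : t < 1 / 2) (hd : d = 2 * r + 4 * (2 - r) * t)
    (he : 4 * d ^ 2 = 2 * P * Q + 2 * Q * R + 2 * R * P - P ^ 2 - Q ^ 2 - R ^ 2)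
    (hN : N = (P + Q + R) / 2 - r * d) :
    N ≤ (7 / 3 * t) ^ 2 ∧ P ≤ (2 + 2 * t) ^ 2 ∧ R ≤ (2 + 2 * t) ^ 2 := by
  obtain ⟨u, rfl⟩ : ∃ u, P = 4 + u := ⟨P - 4, by ring⟩
  obtain ⟨v, rfl⟩ : ∃ v, Q = 4 + v := ⟨Q - 4, by ring⟩
  obtain ⟨w, rfl⟩ : ∃ w, R = 4 + w := ⟨R - 4, by ring⟩
  have u0 : 0 ≤ u := by linarith
  have v0 : 0 ≤ v := by linarith
  have w0 : 0 ≤ w := by linarith
  have uv := mul_nonneg u0 v0
  have vw := mul_nonneg v0 w0
  have wu := mul_nonneg w0 u0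
  have h1 : 12 + (u + v + w) ≤ d ^ 2 := by
    have a1 := mul_nonneg u0 (by linarith : 0 ≤ 4 - u)
    have a2 := mul_nonneg v0 (by linarith : 0 ≤ 4 - v)
    have a3 := mul_nonneg w0 (by linarith : 0 ≤ 4 - w)
    nlinarith
  have h2 : d ^ 2 = 12 + 8 * t - 8 * (7 - 4 * r) * (t * (1 - 2 * t)) := by
    rw [hd]
    linear_combination (4 - 16 * t + 16 * t ^ 2) * hr
  have h3 : u + v + w ≤ 8 * t := by
    have a1 := mul_nonneg (by linarith : 0 ≤ 7 - 4 * r) (mul_nonneg t0 (by linarith : 0 ≤ 1 - 2 * t))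
    nlinarith
  have h4 : N * ((4 + u + (4 + v) + (4 + w)) / 2 + r * d) =
      u ^ 2 + v ^ 2 + w ^ 2 - u * v - v * w - w * u := by
    rw [hN]
    linear_combination (-d ^ 2) * hr - 3 / 4 * he
  have h5 : 12 ≤ (4 + u + (4 + v) + (4 + w)) / 2 + r * d := by
    have a1 := mul_nonneg (mul_nonneg (by linarith : 0 ≤ r) (by linarith : 0 ≤ 2 - r)) t0
    rw [hd]
    nlinarith
  have h6 : (u + v + w) ^ 2 ≤ (8 * t) ^ 2 := pow_le_pow_left₀ (by linarith) h3 2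
  refine ⟨?_, by nlinarith, by nlinarith⟩
  by_contra hc
  have h7 : 0 ≤ N := le_trans (sq_nonneg _) (not_le.1 hc).le
  have h8 := mul_le_mul_of_nonneg_left h5 h7
  have h9 := sq_nonneg t
  nlinarith

theorem loc : LOC_st := by
  intro a b c h0 h1 h2 h3 h4 hd
  have hk : ¬ (8 ≤ dist a b ^ 2 ∨ 8 ≤ dist b c ^ 2 ∨ 8 ≤ dist c a ^ 2) := fun h =>
    absurd (sta a b c h0 h1 h2 h3 h4 h) (not_le.2 hd)
  simp only [not_or, not_le] at hk
  obtain ⟨k1, k2, k3⟩ := hk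
  have z : ∀ x y : ℂ, dist x y ^ 2 < 8 → cap x y = 0 := fun x y h => by
    rw [cap, max_eq_right (by linarith), min_eq_left (by norm_num), mul_zero]
  have hr : √3 ^ 2 = (3 : ℝ) := sq_sqrt (by norm_num)
  have t0 : 0 ≤ dl a b c := (abs_nonneg _).trans (sti_all a b c h0 h1 h2 h3 h4)
  have e1 : D a b c = 2 * √3 + 4 * (2 - √3) * dl a b c := by
    have := nu_pos
    rw [dl, z _ _ k1, z _ _ k2, z _ _ k3, show (2 : ℝ) - √3 = nu from rfl]
    field_simp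
    ring
  obtain ⟨a1, a2, a3⟩ := alg_Loc (N := ‖c - a - om * (b - a)‖ ^ 2) hr sqrt3_bounds.1 sqrt3_bounds.2
    (by nlinarith) (by nlinarith) (by nlinarith) k1 k2 k3 t0 hd e1
    (by simp only [sq_Stl, D]; ring)
    (by
      rw [Complex.sq_norm, Complex.normSq_apply]
      simp only [sq_Stl, D, om, Complex.sub_re, Complex.sub_im, Complex.mul_re, Complex.mul_im]
      linear_combination (((b.re - a.re) ^ 2 + (b.im - a.im) ^ 2) / 4) * hr)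
  exact ⟨le_of_sq_le_sq a1 (by positivity), le_of_sq_le_sq a2 (by positivity),
    le_of_sq_le_sq a3 (by positivity)⟩

end MP7b.Sb
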