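import Pool.Agent.MP_7b7a6d_co.Sb.St

/-! From local estimates to the distance from a congruent copy of the lattice hexagon. -/

open scoped Classical
open MeasureTheory Metric Real

noncomputable section
namespace MP7b.Sb

theorem unit_Met {W : ℂ} (h : 2 ≤ ‖W‖) : ∃ u : ℂ, ‖u‖ = 1 ∧ ‖W - 2 * u‖ = ‖W‖ - 2 := by
  have h0 : (0 : ℝ) < ‖W‖ := by linarith
  have h1 : ((‖W‖ : ℝ) : ℂ) ≠ 0 := by exact_mod_cast h0.ne'
  have hu : ‖W / (‖W‖ : ℝ)‖ = 1 := by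
    rw [norm_div, Complex.norm_real, norm_norm, div_self h0.ne']
  refine ⟨W / (‖W‖ : ℝ), hu, ?_⟩
  rw [show W - 2 * (W / (‖W‖ : ℝ)) = ((‖W‖ - 2 : ℝ) : ℂ) * (W / (‖W‖ : ℝ)) by
    push_cast; field_simp, norm_mul, hu, mul_one, Complex.norm_real,
    Real.norm_of_nonneg (by linarith)]

theorem met (hW : WW_st) (hP : PAR_st) (hR : PRO_st) (hA : AVG_st) : MET_st := by
  intro n p α β c c' hD hn hp hF ψ m hm H
  obtain ⟨W, hW⟩ := hW _ ψ m hm hF H
  have hd : ∀ p, 0 ≤ ∑ i, m p i := fun p => Finset.sum_nonneg fun i _ => hm p i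
  have hn0 : 0 < n := by omega
  obtain ⟨q0, hq0, hav⟩ := hA α β c c' (fun p => ∑ i, m p i) hd
    (Finset.card_pos.1 (by omega))
  have hpro := hR _ ψ W (fun p => ∑ i, m p i) hd (fun p hp => (hW p hp).2.2) q0
  have hr : ∑ i, m q0 i ≤ ∑ p ∈ (HF α β c c').filter (al q0), ∑ i, m p i :=
    Finset.single_le_sum (f := fun p => ∑ i, m p i) (fun p _ => hd p)
      (Finset.mem_filter.2 ⟨hq0, Or.inl rfl⟩)
  have hT : 0 ≤ ∑ p ∈ HF α β c c', ∑ i, m p i := Finset.sum_nonneg fun p _ => hd p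
  have hr0 := (hd q0).trans hr
  rw [hn] at hav
  generalize ∑ p ∈ HF α β c c', ∑ i, m p i = T at hav hpro hT
  generalize ∑ p ∈ (HF α β c c').filter (al q0), ∑ i, m p i = r at hav hpro hr hr0
  have hL : (((max α β : ℕ) : ℝ) + 1) ^ 2 ≤ 3 * n := by
    obtain ⟨h1, h2, h3, h4, h5, -⟩ := hD
    have h6 : 2 * (max α β + 1) ≤ p + 2 := by omega
    have h7 := Nat.pow_le_pow_left h6 2
    have h8 : (max α β + 1) ^ 2 ≤ 3 * n := by
      rw [mul_pow] at h7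
      omega
    exact_mod_cast h8
  have hM : (0 : ℝ) ≤ ((max α β : ℕ) : ℝ) := Nat.cast_nonneg _
  have hLr : (((max α β : ℕ) : ℝ) + 1) * r ≤ 9 * T := by
    have hn1 : (0 : ℝ) < n := by exact_mod_cast hn0
    refine le_of_mul_le_mul_left ?_ hn1
    have h1 := mul_le_mul_of_nonneg_left hav (by linarith : 0 ≤ ((max α β : ℕ) : ℝ) + 1)
    have h2 := mul_le_mul_of_nonneg_right hL hT
    nlinarith
  obtain ⟨u, hu, hWu⟩ := unit_Met (hW q0 hq0).1
  refine ⟨ψ q0 - u * pt q0, u, hu, fun q hq => ?_⟩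
  obtain ⟨i, a, b, ha, hb, e, hab⟩ := hP α β c c' q0 hq0 q hq
  have h1 := hpro i a b hab
  rw [← e] at h1
  have h2 : ‖(a : ℂ) * om ^ i.val + (b : ℂ) * om ^ (i + 1).val‖ ≤ a + b := by
    refine (norm_add_le _ _).trans (le_of_eq ?_)
    simp [norm_om_Rig]
  have h3 : pt q = pt q0 + 2 * ((a : ℂ) * om ^ i.val + (b : ℂ) * om ^ (i + 1).val) := by
    rw [e, pt_add, pt_add, pt_smul, pt_smul, pt_ev, pt_ev]
    push_cast
    ring
  generalize (a : ℂ) * om ^ i.val + (b : ℂ) * om ^ (i + 1).val = v at h1 h2 h3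
  have ha' : (a : ℝ) ≤ ((max α β : ℕ) : ℝ) := by exact_mod_cast ha
  have hb' : (b : ℝ) ≤ ((max α β : ℕ) : ℝ) := by exact_mod_cast hb
  have h4 : ‖(W q0 - 2 * u) * v‖ ≤ r * (a + b) := by
    rw [norm_mul, hWu]
    exact mul_le_mul (by linarith [(hW q0 hq0).2.1]) h2 (norm_nonneg _) hr0
  rw [dist_eq_norm, h3, show ψ q - (ψ q0 - u * pt q0 + u * (pt q0 + 2 * v)) =
    (ψ q - ψ q0 - W q0 * v) + (W q0 - 2 * u) * v by ring]
  refine (norm_add_le _ _).trans ?_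
  have h5 := mul_le_mul_of_nonneg_right (add_le_add ha' hb') hr0
  nlinarith

end MP7b.Sb
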