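import Pool.Agent.MP_7b7a6d_co.Sb.St

open scoped Classical
open MeasureTheory Metric Real

noncomputable section

namespace MP7b.Sb

theorem sec_Par (x y : ℤ) : ∃ a b : ℕ, (x = a ∧ y = b) ∨ (x = -b ∧ y = a + b) ∨
    (x = -a - b ∧ y = a) ∨ (x = -a ∧ y = -b) ∨ (x = b ∧ y = -a - b) ∨ (x = a + b ∧ y = -a) := by
  by_cases h : 0 ≤ x ∧ 0 ≤ y ∨ x ≤ 0 ∧ y ≤ 0
  · exact ⟨x.natAbs, y.natAbs, by omega⟩
  by_cases k : 0 ≤ y ∧ 0 ≤ x + y ∨ y ≤ 0 ∧ x + y ≤ 0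
  · exact ⟨(x + y).natAbs, x.natAbs, by omega⟩
  · exact ⟨y.natAbs, (x + y).natAbs, by omega⟩

theorem par : PAR_st := by
  rintro α β c c' ⟨q, q'⟩ hq ⟨p, p'⟩ hp
  obtain ⟨e0, e1, e2, e3, e4, e5⟩ := ev_vals
  have s0 : ev (0 + 1) = (0, 1) := by decide
  have s1 : ev (1 + 1) = (-1, 1) := by decide
  have s2 : ev (2 + 1) = (-1, 0) := by decide
  have s3 : ev (3 + 1) = (0, -1) := by decide
  have s4 : ev (4 + 1) = (1, -1) := by decide
  have s5 : ev (5 + 1) = (1, 0) := by decide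
  simp only [mem_HF] at hq hp
  obtain ⟨a, b, h | h | h | h | h | h⟩ := sec_Par (p - q) (p' - q')
  on_goal 1 => refine ⟨0, a, b, by omega, by omega, ?_, fun a' b' ha hb => ?_⟩
  on_goal 3 => refine ⟨1, a, b, by omega, by omega, ?_, fun a' b' ha hb => ?_⟩
  on_goal 5 => refine ⟨2, a, b, by omega, by omega, ?_, fun a' b' ha hb => ?_⟩
  on_goal 7 => refine ⟨3, a, b, by omega, by omega, ?_, fun a' b' ha hb => ?_⟩
  on_goal 9 => refine ⟨4, a, b, by omega, by omega, ?_, fun a' b' ha hb => ?_⟩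
  on_goal 11 => refine ⟨5, a, b, by omega, by omega, ?_, fun a' b' ha hb => ?_⟩
  all_goals
    simp only [e0, e1, e2, e3, e4, e5, s0, s1, s2, s3, s4, s5, mem_HF, Prod.smul_mk, smul_eq_mul,
      Prod.mk_add_mk, Prod.mk.injEq]
    omega

end MP7b.Sb
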