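import Pool.Agent.MP_7b7a6d_co.Sb.St

open scoped Classical
open MeasureTheory Metric Real

noncomputable section
namespace MP7b.Sb

theorem om3_Pro (i : ZMod 6) : om ^ (i + 3).val = -om ^ i.val := by
  have := om_add_Rig i 3
  rw [om_cube] at this
  simpa using this

theorem nom_Pro (n : ℕ) (z : ℂ) : ‖om ^ n * z‖ = ‖z‖ := by
  rw [norm_mul, norm_pow, norm_om_Rig, one_pow, one_mul]

theorem succ_Pro (x v : ℤ × ℤ) (k : ℕ) : x + ((k + 1 : ℕ) : ℤ) • v = x + (k : ℤ) • v + v := by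
  push_cast
  rw [add_smul, one_smul, add_assoc]

theorem inj_Pro (q : ℤ × ℤ) (i : ZMod 6) {m l m' l' : ℕ}
    (h : q + (m : ℤ) • ev i + (l : ℤ) • ev (i + 1) = q + (m' : ℤ) • ev i + (l' : ℤ) • ev (i + 1)) :
    m = m' ∧ l = l' := by
  have c := cr_succ i
  have h1 := congrArg Prod.fst h
  have h2 := congrArg Prod.snd h
  simp only [Prod.fst_add, Prod.snd_add, Prod.smul_fst, Prod.smul_snd, smul_eq_mul, cr] at h1 h2 c
  have e1 : (m : ℤ) = m' := by
    linear_combination (ev (i + 1)).2 * h1 - (ev (i + 1)).1 * h2 - ((m : ℤ) - m') * c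
  have e2 : (l : ℤ) = l' := by
    linear_combination (ev i).1 * h2 - (ev i).2 * h1 - ((l : ℤ) - l') * c
  exact ⟨by exact_mod_cast e1, by exact_mod_cast e2⟩

theorem al_Pro (q : ℤ × ℤ) (j : ZMod 6) (m : ℤ) : al q (q + m • ev j) := by
  have : ∀ j, (ev j).1 = 0 ∨ (ev j).2 = 0 ∨ (ev j).1 + (ev j).2 = 0 := by decide
  simp only [al, Prod.fst_add, Prod.snd_add, Prod.smul_fst, Prod.smul_snd, smul_eq_mul]
  rcases this j with h | h | h
  · exact Or.inl (by rw [h]; ring)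
  · exact Or.inr (Or.inl (by rw [h]; ring))
  · exact Or.inr (Or.inr (by linear_combination m * h))

section
variable {S : Finset (ℤ × ℤ)} {ψ W : ℤ × ℤ → ℂ} {d : ℤ × ℤ → ℝ}

theorem sum_Pro (hd : ∀ p, 0 ≤ d p) {ι : Type} (s : Finset ι) (f : ι → ℤ × ℤ)
    (hf : ∀ x ∈ s, ∀ y ∈ s, f x = f y → x = y) (hm : ∀ x ∈ s, f x ∈ S) :
    ∑ x ∈ s, d (f x) ≤ ∑ p ∈ S, d p := by
  rw [← Finset.sum_image hf]
  exact Finset.sum_le_sum_of_subset_of_nonneg (Finset.image_subset_iff.2 hm) fun _ _ _ => hd _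

theorem line_Pro (hd : ∀ p, 0 ≤ d p) (q : ℤ × ℤ) (j : ZMod 6) (k : ℕ)
    (hk : ∀ m : ℕ, m ≤ k → q + (m : ℤ) • ev j ∈ S) :
    ∑ m ∈ Finset.range (k + 1), d (q + (m : ℤ) • ev j) ≤ ∑ p ∈ S.filter (al q), d p :=
  sum_Pro hd _ (fun m : ℕ => q + (m : ℤ) • ev j)
    (fun x _ y _ e => (inj_Pro q j (l := 0) (l' := 0) (by rw [e])).1)
    fun x hx => Finset.mem_filter.2 ⟨hk x (Nat.lt_succ_iff.1 (Finset.mem_range.1 hx)), al_Pro q j x⟩

variable (h : ∀ p ∈ S, ∀ i, p + ev i ∈ S → ‖ψ (p + ev i) - ψ p - om ^ i.val * W p‖ ≤ d p)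
include h

theorem step_Pro {p : ℤ × ℤ} {i : ZMod 6} (h1 : p ∈ S) (h2 : p + ev i ∈ S) :
    ‖W (p + ev i) - W p‖ ≤ d p + d (p + ev i) := by
  have e : p + ev i + ev (i + 3) = p := by rw [ev_three, add_neg_cancel_right]
  have a := h p h1 i h2
  have b := h _ h2 (i + 3) (by rwa [e])
  rw [e, om3_Pro] at b
  rw [← nom_Pro i.val]
  refine le_trans (le_of_eq ?_) ((norm_add_le _ _).trans (add_le_add a b))
  congr 1
  ring

theorem ray_Pro (hd : ∀ p, 0 ≤ d p) (x : ℤ × ℤ) (i : ZMod 6) (k : ℕ)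
    (hk : ∀ m : ℕ, m ≤ k → x + (m : ℤ) • ev i ∈ S) :
    ‖W (x + (k : ℤ) • ev i) - W x‖ + d (x + (k : ℤ) • ev i) ≤
      2 * ∑ m ∈ Finset.range (k + 1), d (x + (m : ℤ) • ev i) := by
  induction k with
  | zero =>
    have := hd x
    simp
    linarith
  | succ k ih =>
    have a := ih fun m hm => hk m (by omega)
    have b := step_Pro h (i := i) (hk k (by omega)) (by rw [← succ_Pro]; exact hk _ le_rfl)
    rw [← succ_Pro] at b
    have c := norm_sub_le_norm_sub_add_norm_sub (W (x + ((k + 1 : ℕ) : ℤ) • ev i))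
      (W (x + (k : ℤ) • ev i)) (W x)
    rw [Finset.sum_range_succ]
    linarith

theorem tel_Pro (x : ℤ × ℤ) (i : ZMod 6) (w : ℂ) (e : ℕ → ℝ) (k : ℕ)
    (hk : ∀ m : ℕ, m ≤ k → x + (m : ℤ) • ev i ∈ S)
    (he : ∀ m : ℕ, m < k → ‖W (x + (m : ℤ) • ev i) - w‖ + d (x + (m : ℤ) • ev i) ≤ e m) :
    ‖ψ (x + (k : ℤ) • ev i) - ψ x - w * (k * om ^ i.val)‖ ≤ ∑ m ∈ Finset.range k, e m := by
  induction k with
  | zero => simp
  | succ k ih =>
    have a := ih (fun m hm => hk m (by omega)) fun m hm => he m (by omega)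
    have b := h _ (hk k (by omega)) i (by rw [← succ_Pro]; exact hk _ le_rfl)
    rw [← succ_Pro] at b
    have c := he k (by omega)
    rw [← nom_Pro i.val] at c
    rw [Finset.sum_range_succ]
    refine le_trans (le_trans (le_of_eq ?_) (norm_add₃_le
      (a := ψ (x + (k : ℤ) • ev i) - ψ x - w * (k * om ^ i.val))
      (b := ψ (x + ((k + 1 : ℕ) : ℤ) • ev i) - ψ (x + (k : ℤ) • ev i) -
        om ^ i.val * W (x + (k : ℤ) • ev i))
      (c := om ^ i.val * (W (x + (k : ℤ) • ev i) - w)))) (by linarith)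
    congr 1
    rw [Nat.cast_succ (R := ℂ) k]
    ring

end

theorem pro : PRO_st := by
  intro S ψ W d hd h q i a b hS
  have r0 : 0 ≤ ∑ p ∈ S.filter (al q), d p := Finset.sum_nonneg fun _ _ => hd _
  have T0 : 0 ≤ ∑ p ∈ S, d p := Finset.sum_nonneg fun _ _ => hd _
  have s1 : ∀ l : ℕ, l ≤ b → q + (l : ℤ) • ev (i + 1) ∈ S := fun l hl => by
    simpa using hS 0 l (Nat.zero_le _) hl
  have s2 : ∀ m : ℕ, m ≤ a → q + (m : ℤ) • ev i ∈ S := fun m hm => by
    simpa using hS m 0 hm (Nat.zero_le _)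
  have t1 := tel_Pro h q (i + 1) (W q) (fun _ => 2 * ∑ p ∈ S.filter (al q), d p) b s1
    fun l hl => by
      have s : ∀ m : ℕ, m ≤ l → q + (m : ℤ) • ev (i + 1) ∈ S := fun m hm => s1 m (by omega)
      linarith [ray_Pro h hd q (i + 1) l s, line_Pro hd q (i + 1) l s]
  have t2 := tel_Pro h (q + (b : ℤ) • ev (i + 1)) i (W q)
    (fun m => 2 * ∑ l ∈ Finset.range (b + 1), d (q + (m : ℤ) • ev i + (l : ℤ) • ev (i + 1)) +
      2 * ∑ p ∈ S.filter (al q), d p) a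
    (fun m hm => by rw [add_right_comm]; exact hS m b hm le_rfl)
    fun m hm => by
      have s : ∀ m' : ℕ, m' ≤ m → q + (m' : ℤ) • ev i ∈ S := fun m' hm' => s2 m' (by omega)
      rw [add_right_comm]
      linarith [ray_Pro h hd q i m s, line_Pro hd q i m s, hd (q + (m : ℤ) • ev i),
        ray_Pro h hd (q + (m : ℤ) • ev i) (i + 1) b fun l hl => hS m l hm.le hl,
        norm_sub_le_norm_sub_add_norm_sub (W (q + (m : ℤ) • ev i + (b : ℤ) • ev (i + 1)))
          (W (q + (m : ℤ) • ev i)) (W q)]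
  have t3 := sum_Pro (S := S) hd (Finset.range a ×ˢ Finset.range (b + 1))
    (fun z : ℕ × ℕ => q + (z.1 : ℤ) • ev i + (z.2 : ℤ) • ev (i + 1))
    (fun x _ y _ e => Prod.ext (inj_Pro q i e).1 (inj_Pro q i e).2)
    fun x hx => by
      simp only [Finset.mem_product, Finset.mem_range] at hx
      exact hS _ _ hx.1.le (by omega)
  rw [Finset.sum_product] at t3
  rw [Finset.sum_add_distrib, ← Finset.mul_sum, add_right_comm] at t2
  simp only [Finset.sum_const, Finset.card_range, nsmul_eq_mul] at t1 t2 t3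
  have a0 := mul_nonneg (Nat.cast_nonneg a : (0 : ℝ) ≤ a) r0
  have b0 := mul_nonneg (Nat.cast_nonneg b : (0 : ℝ) ≤ b) r0
  refine le_trans (le_trans (le_of_eq ?_) ((norm_add_le _ _).trans (add_le_add t1 t2)))
    (by linarith)
  congr 1
  ring

end MP7b.Sb
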