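import Pool.Agent.MP_7b7a6d_co.Sb.St

open scoped Classical
open MeasureTheory Metric Real

noncomputable section
namespace MP7b.Sb

theorem rb5b : RB5b_st := by
  intro X t R g δ H hk G y1 y2 hG hG' hy
  have hex : ∀ w, ∃ a, kb X R g w = 1 → X.filter (fun a => bd R g a w) = {a} := by
    intro w
    by_cases h : kb X R g w = 1
    · obtain ⟨a, ha⟩ := Finset.card_eq_one.1 ((card_Rb5 H w).trans h)
      exact ⟨a, fun _ => ha⟩
    · exact ⟨w, fun h' => absurd h' h⟩
  choose F hF using hex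
  have hF1 : ∀ w, kb X R g w = 1 → F w ∈ X ∧ bd R g (F w) w := by
    intro w h
    have : F w ∈ X.filter (fun a => bd R g a w) := by
      rw [hF w h]; exact Finset.mem_singleton_self _
    exact Finset.mem_filter.1 this
  have hF2 : ∀ w ∈ X, kb X R g w = 1 → kb X R g (F w) = 1 ∧ dg X g (F w) ≤ 3 := by
    intro w hw h
    rcases hk (F w) (hF1 w h).1 with h1 | h1
    · have h2 : w ∈ X.filter (bd R g (F w)) := Finset.mem_filter.2 ⟨hw, (hF1 w h).2⟩
      have h3 : X.filter (bd R g (F w)) = ∅ := Finset.card_eq_zero.1 h1.1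
      rw [h3] at h2
      exact absurd h2 (Finset.notMem_empty _)
    · exact h1
  have hF3 : ∀ w ∈ X, kb X R g w = 1 → X.filter (bd R g (F w)) = {w} := by
    intro w hw h
    obtain ⟨a, ha⟩ := Finset.card_eq_one.1 (hF2 w hw h).1
    have h2 : w ∈ X.filter (bd R g (F w)) := Finset.mem_filter.2 ⟨hw, (hF1 w h).2⟩
    rw [ha] at h2 ⊢
    rw [Finset.mem_singleton.1 h2]
  refine ⟨F, fun w hw => ?_, fun w hw w' hw' e => ?_, ?_, fun w hw => ?_, fun a b hab => ?_⟩
  · obtain ⟨hw, h⟩ := Finset.mem_filter.1 hw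
    have hR : R w (F w) := H.Rsymm (hF1 w h).2.1
    refine ⟨Finset.mem_filter.2 ⟨(hF1 w h).1, (hF2 w hw h).1⟩, hR, ?_⟩
    have h1 := key_Rb5 H (G (F w)) (F w)
    rw [hF3 w hw h, hF (F w) (hF2 w hw h).1, Finset.sum_singleton, Finset.sum_singleton] at h1
    have h2 : ∑ q ∈ D2 X (g (F w)), G (F w) q.2 =
        ∑ q ∈ D2 X (g (F w)), G (F w) q.1 + (dg X g (F w) : ZMod 6) := by
      unfold dg
      rw [Finset.card_eq_sum_ones, Nat.cast_sum, ← Finset.sum_add_distrib]
      refine Finset.sum_congr rfl fun q hq => ?_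
      rw [memD_Rb5 H] at hq
      have e1 := hG _ _ _ hq
      have e2 := hG _ _ _ (H.grot hq)
      have e3 := hG' _ _ (H.gR (H.grot (H.grot hq)))
      have e4 : (6 : ZMod 6) = 0 := rfl
      rw [e3, e2, e1]
      push_cast
      linear_combination e4
    have h3 := hG' _ _ hR
    rw [Nat.cast_sub (hF2 w hw h).2]
    push_cast
    linear_combination h3 - h1 - h2
  · obtain ⟨hw, h⟩ := Finset.mem_filter.1 (Finset.mem_coe.1 hw)
    obtain ⟨hw', h'⟩ := Finset.mem_filter.1 (Finset.mem_coe.1 hw')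
    have h1 := hF3 w hw h
    rw [e, hF3 w' hw' h'] at h1
    exact (Finset.singleton_injective h1).symm
  · have h1 := stokes_Rb5 H (fun a b => y1 a * y2 b - y2 a * y1 b) (fun a b => by ring)
    have h2 : ∑ q ∈ T3 X g, ((y1 q.1 * y2 q.2.1 - y2 q.1 * y1 q.2.1) +
        (y1 q.2.1 * y2 q.2.2 - y2 q.2.1 * y1 q.2.2) + (y1 q.2.2 * y2 q.1 - y2 q.2.2 * y1 q.1)) =
        ((T3 X g).card : ℚ) := by
      rw [Finset.card_eq_sum_ones, Nat.cast_sum]
      refine Finset.sum_congr rfl fun q hq => ?_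
      rw [memT_Rb5 H] at hq
      obtain ⟨a1, a2⟩ := hy _ _ (H.gR hq)
      obtain ⟨b1, b2⟩ := hy _ _ (H.gR (H.grot hq))
      rw [hG _ _ _ hq] at b1 b2
      have e := det_Rb5 (G q.1 q.2.1)
      rw [b1, b2, a1, a2]
      push_cast
      linear_combination e
    rw [← h2, h1, Finset.sum_filter]
    congr 1
    refine Finset.sum_congr rfl fun w hw => ?_
    split_ifs with h
    · rw [hF w h, Finset.sum_singleton]
    · have h3 : X.filter (fun a => bd R g a w) = ∅ := by
        rw [← Finset.card_eq_zero, card_Rb5 H]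
        rcases hk w hw with h4 | h4
        · exact h4.1
        · exact absurd h4.1 h
      rw [h3, Finset.sum_empty]
  · exact (hF1 w (Finset.mem_filter.1 hw).2).2
  · have hb : b ∈ X := rmem_Rb5 H hab.1
    have ha : a ∈ X := rmem_Rb5 H (H.Rsymm hab.1)
    have hm : b ∈ X.filter (fun x => bd R g x a) := Finset.mem_filter.2 ⟨hb, hab⟩
    have h1 : kb X R g a = 1 := by
      rcases hk a ha with h4 | h4
      · have h3 : X.filter (fun x => bd R g x a) = ∅ := by
          rw [← Finset.card_eq_zero, card_Rb5 H]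
          exact h4.1
        rw [h3] at hm
        exact absurd hm (Finset.notMem_empty _)
      · exact h4.1
    refine ⟨Finset.mem_filter.2 ⟨ha, h1⟩, ?_⟩
    rw [hF a h1] at hm
    exact Finset.mem_singleton.1 hm

end MP7b.Sb
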