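import Pool.Agent.MP_7b7a6d_co.Sb.St

open scoped Classical
open MeasureTheory Metric Real

noncomputable section
namespace MP7b.Sb

theorem pz_small_Red {n : ℕ} (hn : 3 ≤ n) : pz n + 3 ≤ 2 * n := by
  obtain ⟨k, rfl⟩ : ∃ k, n = k + 3 := ⟨n - 3, by omega⟩
  have := pz_le (n := k + 3) (p := 2 * k + 3) (by omega) (by nlinarith)
  omega

theorem pz_floor_Red {n m b : ℕ} {Δ : ℝ} (hn : 1 ≤ n) (hm : n ≤ m)
    (h : ∀ S : ℤ, (b : ℝ) + 2 + Δ < S → 12 * (m : ℤ) - 3 ≤ S ^ 2) : pz n ≤ b + ⌊Δ⌋₊ := by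
  have hj := h ((b : ℤ) + 3 + (⌊Δ⌋₊ : ℕ)) (by push_cast; linarith [Nat.lt_floor_add_one Δ])
  refine pz_le hn ?_
  zify at *
  nlinarith

theorem red : RED_st := by
  intro X h3 hS K hK hb ε hε hεν hv
  have hn : 1 ≤ X.card := by omega
  have hne : X.Nonempty := Finset.card_pos.1 hn
  have hnu := nu_pos
  have hs3 := sqrt3_bounds
  have n3 : (3 : ℝ) ≤ X.card := by exact_mod_cast h3
  have pz0 : (0 : ℝ) ≤ pz X.card := Nat.cast_nonneg _
  have pz1 : (pz X.card : ℝ) + 3 ≤ 2 * X.card := by exact_mod_cast pz_small_Red h3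
  have cmp : ∀ x : ℝ, ENNReal.ofReal x ≤ volume K →
      x ≤ 2 * √3 * ((X.card : ℝ) - 1) + nu * pz X.card + π + ε := fun x hx =>
    (ENNReal.ofReal_le_ofReal_iff (by
      have := mul_nonneg hnu.le pz0
      have := mul_nonneg (show (0 : ℝ) ≤ 2 * √3 by positivity)
        (show (0 : ℝ) ≤ (X.card : ℝ) - 1 by linarith)
      linarith [pi_pos])).1 (hx.trans hv)
  have hNC : NonCol X := by
    by_contra hN
    have h1 := cmp _ (lin gst X hne hS hN K hK hb)
    have h2 := mul_le_mul_of_nonneg_left pz1 hnu.le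
    unfold nu at *
    linarith
  have hSat : Sat X := by
    obtain ⟨Y, hXY, hSY, hT, hY⟩ := sat X hS
    have hNY : NonCol Y := by
      obtain ⟨a, ha, b, hb, c, hc, h⟩ := hNC
      exact ⟨a, hXY ha, b, hXY hb, c, hXY hc, h⟩
    obtain ⟨b, Δ, h0, hw, h1, -⟩ :=
      core_all Y hSY hT hNY K hK fun y hy => ball_hull hK hb (hY hy)
    have hm := Finset.card_le_card hXY
    rcases hm.lt_or_eq with hm' | hm'
    · exfalso
      have hj : (pz X.card : ℝ) ≤ b + ⌊Δ⌋₊ := by exact_mod_cast pz_floor_Red hn hm h1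
      have hj3 : (⌊Δ⌋₊ : ℝ) ≤ Δ := Nat.floor_le h0
      have h2 : (X.card : ℝ) + 1 ≤ Y.card := by exact_mod_cast hm'
      have h4 := cmp _ hw
      have h5 : nu * pz X.card ≤ nu * (b + 2 * Δ) := mul_le_mul_of_nonneg_left (by linarith) hnu.le
      have h6 := mul_le_mul_of_nonneg_left h2 (show (0 : ℝ) ≤ 2 * √3 by positivity)
      have h7 : nu < 1 := by unfold nu; linarith
      linarith
    · rw [Finset.eq_of_subset_of_card_le hXY hm'.ge]
      exact hT
  obtain ⟨t, h⟩ := tri_all X hS hNC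
  have cx := cx_of sti_all (col badf obt) h hS hSat
  obtain ⟨c1, c2, c3, c4⟩ := col badf obt X t h hSat
  obtain ⟨d1, d2⟩ := ch1 eps ll X t h hne
  have hE := h1 mid eps ll X t h
  have hE0 : Exa X (e0 t) (good t) := exs X t _ _ h hE (fun _ _ e => e.1) (fun _ _ _ e => e.1) c1
  have hchi : chi6 X (e0 t) (good t) = 6 := by
    refine le_antisymm (c3 ▸ d1) (chi X X _ _ subset_rfl hne ?_ ?_ ?_ hE0)
    · exact fun a b e => ⟨(E_mem h e.1).1, E_ne h e.1, cx.Rsymm e⟩
    · exact fun a b c e => ⟨cx.gR e, cx.grot e⟩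
    · exact fun a b c c' e e' => h.uniq e.1 e'.1
  have hcnt := (cnt X t _ _ _ cx).1
  have hP := peel (pes (lc mid)) (pea (lc mid) chi) (peb angs (an2 mid angs)) X t _ _ _ cx hne hE c1
  have hV := vol_lb mid gst (trv otv) h hne hK hb
  have e1 := acb badf obt (slk angs) X t h hS hSat
  have e2 := acg badf X t h hS c4
  have hR := ra_all X t cx hSat
  have hchi' := hchi
  unfold chi6 at hchi'
  rw [hcnt] at hchi'
  have hD := Del_nonneg cx X
  have hSL : 0 ≤ SL X t := Finset.sum_nonneg fun q hq => (SL_term angs h q hq).le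
  have hTe : (T3 X (good t)).card ≠ 0 → (T3 X (good t)).Nonempty := Finset.card_ne_zero.1
  generalize hbdef : (D2 X (bd (e0 t) (good t))).card = b at *
  generalize hNdef : (T3 X (good t)).card = N at *
  have hz : 6 * (X.card : ℤ) - 3 * b - N = 6 := by push_cast at hchi'; linarith
  have hr : 6 * (X.card : ℝ) - 3 * b - N = 6 := by exact_mod_cast hz
  have hw : 2 * √3 * ((X.card : ℝ) - 1) + nu * b + 2 * nu * (Del X (good t) dl + SL X t) + π ≤
      2 * √3 * ((X.card : ℝ) - 1) + nu * pz X.card + π + ε := by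
    refine le_trans ?_ (cmp _ hV)
    have e3 : (N : ℝ) = 6 * X.card - 3 * b - 6 := by linarith
    rw [e3] at e2
    unfold nu at *
    linarith
  have hj := pz_floor_Red (b := b) (Δ := Del X (good t) dl) hn le_rfl
    fun S hlt => hP S (by linarith)
  have hj2 : (pz X.card : ℝ) ≤ b + ⌊Del X (good t) dl⌋₊ := by exact_mod_cast hj
  have hj3 : (⌊Del X (good t) dl⌋₊ : ℝ) ≤ Del X (good t) dl := Nat.floor_le hD
  have hk : (b : ℝ) + 2 * (Del X (good t) dl + SL X t) < pz X.card + 1 :=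
    lt_of_mul_lt_mul_left (a := nu) (by linarith) hnu.le
  have hf : ⌊Del X (good t) dl⌋₊ = 0 := by
    have : (⌊Del X (good t) dl⌋₊ : ℝ) < 1 := by linarith
    exact Nat.lt_one_iff.1 (by exact_mod_cast this)
  have hb1 : b = pz X.card := by
    have : (b : ℝ) < pz X.card + 1 := by linarith
    have : b < pz X.card + 1 := by exact_mod_cast this
    omega
  have hb2 : (b : ℝ) = pz X.card := by exact_mod_cast hb1
  have hsl := mul_nonneg hnu.le hSL
  refine ⟨t, cx, c2 d2, hE0, hchi, hTe ?_, hR (by linarith), hbdef.trans hb1, ?_⟩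
  · intro h0
    have := pz_small_Red h3
    omega
  · rw [hb2] at hw
    linarith

end MP7b.Sb
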