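import Pool.Agent.Mg.F7b7a6d.G5995e0

/-! Stability of Wegner's inequality: definitions and the statements of the parts. -/

open scoped Classical
open MeasureTheory Metric Real

noncomputable section
namespace MP7b.Sb

/-- the six lattice directions in skew coordinates -/
def ev (i : ZMod 6) : ℤ × ℤ :=
  if i = 0 then (1, 0) else if i = 1 then (0, 1) else if i = 2 then (-1, 1) else
    if i = 3 then (-1, 0) else if i = 4 then (0, -1) else (1, -1)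

/-- determinant of two lattice vectors -/
def cr (u v : ℤ × ℤ) : ℤ := u.1 * v.2 - u.2 * v.1

/-- lattice points of the hexagon -/
def HF (α β c c' : ℕ) : Finset (ℤ × ℤ) :=
  (Finset.Icc (0 : ℤ) α ×ˢ Finset.Icc (0 : ℤ) β).filter fun p =>
    (c : ℤ) ≤ p.1 + p.2 ∧ p.1 + p.2 + c' ≤ α + β

theorem mem_HF {α β c c' : ℕ} {p : ℤ × ℤ} : p ∈ HF α β c c' ↔
    0 ≤ p.1 ∧ p.1 ≤ α ∧ 0 ≤ p.2 ∧ p.2 ≤ β ∧ (c : ℤ) ≤ p.1 + p.2 ∧ p.1 + p.2 + c' ≤ α + β := by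
  simp [HF, and_assoc]

/-- the point of the plane with skew coordinates `p` -/
def pt (p : ℤ × ℤ) : ℂ := 2 * (p.1 : ℂ) + 2 * (p.2 : ℂ) * om

/-- `p` lies on one of the three lattice lines through `q` -/
def al (q p : ℤ × ℤ) : Prop := p.1 = q.1 ∨ p.2 = q.2 ∨ p.1 + p.2 = q.1 + q.2

theorem ev_vals : ev 0 = (1, 0) ∧ ev 1 = (0, 1) ∧ ev 2 = (-1, 1) ∧ ev 3 = (-1, 0) ∧
    ev 4 = (0, -1) ∧ ev 5 = (1, -1) := by decide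

theorem ev_three : ∀ i : ZMod 6, ev (i + 3) = - ev i := by decide

theorem ev_inj : ∀ i j : ZMod 6, ev i = ev j → i = j := by decide

theorem cr_succ : ∀ i : ZMod 6, cr (ev i) (ev (i + 1)) = 1 := by decide

theorem ev_cast : ∀ i : ZMod 6, (((ev i).1 : ℤ) : ℚ) = e1 i ∧ (((ev i).2 : ℤ) : ℚ) = e2 i := by
  decide +kernel

theorem pt_add (p q : ℤ × ℤ) : pt (p + q) = pt p + pt q := by
  simp only [pt, Prod.fst_add, Prod.snd_add]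
  push_cast
  ring

theorem pt_smul (a : ℤ) (p : ℤ × ℤ) : pt (a • p) = a * pt p := by
  simp only [pt, Prod.smul_fst, Prod.smul_snd, smul_eq_mul]
  push_cast
  ring

theorem pt_ev (i : ZMod 6) : pt (ev i) = 2 * om ^ i.val := by
  have h1 : (((ev i).1 : ℤ) : ℂ) = ((e1 i : ℚ) : ℂ) := by rw [← (ev_cast i).1]; simp
  have h2 : (((ev i).2 : ℤ) : ℂ) = ((e2 i : ℚ) : ℂ) := by rw [← (ev_cast i).2]; simp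
  rw [pt, h1, h2, ← ev_Rig]
  ring

/-- a developing map `y` of the flat disc `R, g` whose boundary darts support the hexagon -/
structure Dev (X : Finset ℂ) (R : ℂ → ℂ → Prop) (g : ℂ → ℂ → ℂ → Prop) (α β c c' : ℕ)
    (G : ℂ → ℂ → ZMod 6) (y : ℂ → ℤ × ℤ) : Prop where
  tri : ∀ a b d, g a b d → G b d = G a b + 2
  rev : ∀ a b, R a b → G b a = G a b + 3
  step : ∀ a b, R a b → y b = y a + ev (G a b)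
  side : ∀ a b, R a b → (∃ d, g a b d) ∨ ∃ d, g b a d
  deg : ∀ w ∈ X, (kb X R g w = 0 ∧ dg X g w = 6) ∨ (kb X R g w = 1 ∧ dg X g w ≤ 3)
  sup : ∀ a b, bd R g b a → ∀ p ∈ HF α β c c', 0 ≤ cr (ev (G a b)) (p - y a)
  turn : ∀ a b d, bd R g b a → bd R g d b → G b d = G a b + ((3 - dg X g b : ℕ) : ZMod 6)
  nxt : ∀ a b, bd R g b a → ∃ d, bd R g d b
  base : ∃ z ∈ X, y z = ((c : ℤ), 0)

/-- the directions at `p` that stay in `S` form a fan -/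
def Fan (S : Finset (ℤ × ℤ)) : Prop := ∀ p ∈ S, ∃ (j : ZMod 6) (d : ℕ), 1 ≤ d ∧ d ≤ 5 ∧
  (∀ o : ℕ, o ≤ d → p + ev (j + (o : ZMod 6)) ∈ S) ∧
    ∀ i, p + ev i ∈ S → ∃ o : ℕ, o ≤ d ∧ i = j + (o : ZMod 6)

def L6b_st : Prop := ∀ (W : Finset ℂ) (F : ℂ → ℂ) (G : ℂ → ZMod 6) (τ : ℂ → ℕ) (y1 y2 : ℂ → ℚ),
  (∀ w ∈ W, F w ∈ W) → Set.InjOn F W →
  (∀ w ∈ W, y1 (F w) = y1 w + e1 (G w) ∧ y2 (F w) = y2 w + e2 (G w) ∧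
    G (F w) = G w + (τ (F w) : ZMod 6)) → ∑ w ∈ W, τ w = 6 →
  ∃ (a : ℕ → ℕ) (G0 : ZMod 6) (z : ℕ → ℂ), a 0 + a 5 = a 2 + a 3 ∧ a 1 + a 2 = a 4 + a 5 ∧
    W.card = a 0 + a 1 + a 2 + a 3 + a 4 + a 5 ∧
    ∑ w ∈ W, (y1 w * y2 (F w) - y2 w * y1 (F w)) =
      2 * ((a 0 : ℚ) + a 5) * (a 1 + a 2) - (a 5 : ℚ) ^ 2 - (a 2 : ℚ) ^ 2 ∧
    (∀ j, z j ∈ W) ∧ (∀ j < 5, y1 (z (j + 1)) = y1 (z j) + a j * e1 (G0 + (j : ZMod 6)) ∧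
      y2 (z (j + 1)) = y2 (z j) + a j * e2 (G0 + (j : ZMod 6))) ∧
    ∀ w ∈ W, ∃ (j : ℕ) (s : ℚ), j < 6 ∧ G w = G0 + (j : ZMod 6) ∧
      y1 w = y1 (z j) + s * e1 (G0 + (j : ZMod 6)) ∧ y2 w = y2 (z j) + s * e2 (G0 + (j : ZMod 6))

def RB5b_st : Prop := ∀ X t R g δ, Cx X t R g δ →
  (∀ w ∈ X, (kb X R g w = 0 ∧ dg X g w = 6) ∨ (kb X R g w = 1 ∧ dg X g w ≤ 3)) →
  ∀ (G : ℂ → ℂ → ZMod 6) (y1 y2 : ℂ → ℚ), (∀ a b c, g a b c → G b c = G a b + 2) →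
  (∀ a b, R a b → G b a = G a b + 3) →
  (∀ a b, R a b → y1 b = y1 a + e1 (G a b) ∧ y2 b = y2 a + e2 (G a b)) →
  ∃ F : ℂ → ℂ, (∀ w ∈ X.filter (fun w => kb X R g w = 1), F w ∈ X.filter (fun w => kb X R g w = 1) ∧
      R w (F w) ∧ G (F w) (F (F w)) = G w (F w) + ((3 - dg X g (F w) : ℕ) : ZMod 6)) ∧
    Set.InjOn F (X.filter (fun w => kb X R g w = 1)) ∧
    3 * ∑ w ∈ X.filter (fun w => kb X R g w = 1), (y1 w * y2 (F w) - y2 w * y1 (F w)) =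
      ((T3 X g).card : ℚ) ∧
    (∀ w ∈ X.filter (fun w => kb X R g w = 1), bd R g (F w) w) ∧
    ∀ a b, bd R g b a → a ∈ X.filter (fun w => kb X R g w = 1) ∧ b = F a

def DEV1_st : Prop := ∀ X t R g δ, Cx X t R g δ → Conn X R → Exa X R g → chi6 X R g = 6 →
  (T3 X g).Nonempty → Del X g δ < 1 / 2 → (∀ w ∈ X, dg X g w + 3 * kb X R g w ≤ 6) →
  ∃ α β c c' G y, Data X.card (D2 X (bd R g)).card α β c c' ∧ Dev X R g α β c c' G y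

/-- the fan of triangles at a vertex -/
def FAV_st : Prop := ∀ X t R g δ, Cx X t R g δ → ∀ α β c c' G y, Dev X R g α β c c' G y →
  ∀ w ∈ X, (∀ i, ∃ a b, g w a b ∧ G w a = i) ∨ ∃ (j : ZMod 6) (d : ℕ), 1 ≤ d ∧ d ≤ 3 ∧
    (∀ o : ℕ, o < d → ∃ a b, g w a b ∧ G w a = j + (o : ZMod 6)) ∧
    ∀ p ∈ HF α β c c', 0 ≤ cr (ev j) (p - y w) ∧ 0 ≤ cr (ev (j + (d : ZMod 6) + 3)) (p - y w)

def DEV2_st : Prop := ∀ X t R g δ, Cx X t R g δ → ∀ α β c c' G y p,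
  Data X.card p α β c c' → Dev X R g α β c c' G y →
  ∃ ψ : ℤ × ℤ → ℂ, Set.BijOn ψ (HF α β c c') X ∧ ∀ q ∈ HF α β c c', ∀ i,
    q + ev i ∈ HF α β c c' → q + ev (i + 1) ∈ HF α β c c' →
      g (ψ q) (ψ (q + ev i)) (ψ (q + ev (i + 1)))

def LOC_st : Prop := ∀ a b c : ℂ, 0 < D a b c → 2 ≤ dist a b → 2 ≤ dist b c → 2 ≤ dist c a →
  dist a b * dist b c * dist c a ≤ 4 * D a b c → dl a b c < 1 / 2 →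
  ‖c - a - om * (b - a)‖ ≤ 7 / 3 * dl a b c ∧ dist a b ≤ 2 + 2 * dl a b c ∧
    dist c a ≤ 2 + 2 * dl a b c

def FAN_st : Prop := ∀ α β c c' : ℕ, c ≤ α → c ≤ β → c' ≤ α → c' ≤ β → 1 ≤ α → 1 ≤ β →
  c + c' + 1 ≤ α + β → Fan (HF α β c c')

def WW_st : Prop := ∀ (S : Finset (ℤ × ℤ)) (ψ : ℤ × ℤ → ℂ) (m : ℤ × ℤ → ZMod 6 → ℝ),
  (∀ p i, 0 ≤ m p i) → Fan S →
  (∀ p ∈ S, ∀ i, p + ev i ∈ S → p + ev (i + 1) ∈ S →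
    ‖ψ (p + ev (i + 1)) - ψ p - om * (ψ (p + ev i) - ψ p)‖ ≤ m p i ∧
      2 ≤ ‖ψ (p + ev i) - ψ p‖ ∧ ‖ψ (p + ev i) - ψ p‖ ≤ 2 + m p i) →
  ∃ W : ℤ × ℤ → ℂ, ∀ p ∈ S, 2 ≤ ‖W p‖ ∧ ‖W p‖ ≤ 2 + ∑ i, m p i ∧
    ∀ i, p + ev i ∈ S → ‖ψ (p + ev i) - ψ p - om ^ i.val * W p‖ ≤ ∑ i, m p i

def PAR_st : Prop := ∀ α β c c' : ℕ, ∀ q ∈ HF α β c c', ∀ p ∈ HF α β c c',
  ∃ (i : ZMod 6) (a b : ℕ), a ≤ max α β ∧ b ≤ max α β ∧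
    p = q + (a : ℤ) • ev i + (b : ℤ) • ev (i + 1) ∧
    ∀ a' b' : ℕ, a' ≤ a → b' ≤ b → q + (a' : ℤ) • ev i + (b' : ℤ) • ev (i + 1) ∈ HF α β c c'

def PRO_st : Prop := ∀ (S : Finset (ℤ × ℤ)) (ψ W : ℤ × ℤ → ℂ) (d : ℤ × ℤ → ℝ), (∀ p, 0 ≤ d p) →
  (∀ p ∈ S, ∀ i, p + ev i ∈ S → ‖ψ (p + ev i) - ψ p - om ^ i.val * W p‖ ≤ d p) →
  ∀ (q : ℤ × ℤ) (i : ZMod 6) (a b : ℕ),
    (∀ a' b' : ℕ, a' ≤ a → b' ≤ b → q + (a' : ℤ) • ev i + (b' : ℤ) • ev (i + 1) ∈ S) →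
    ‖ψ (q + (a : ℤ) • ev i + (b : ℤ) • ev (i + 1)) - ψ q -
        W q * ((a : ℂ) * om ^ i.val + (b : ℂ) * om ^ (i + 1).val)‖ ≤
      3 * ∑ p ∈ S, d p + 3 * ((a : ℝ) + b) * ∑ p ∈ S.filter (al q), d p

def AVG_st : Prop := ∀ (α β c c' : ℕ) (d : ℤ × ℤ → ℝ), (∀ p, 0 ≤ d p) →
  (HF α β c c').Nonempty → ∃ q ∈ HF α β c c',
    ((HF α β c c').card : ℝ) * ∑ p ∈ (HF α β c c').filter (al q), d p ≤
      3 * ((max α β : ℕ) + 1) * ∑ p ∈ HF α β c c', d p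

def MET_st : Prop := ∀ (n p α β c c' : ℕ), Data n p α β c c' → (HF α β c c').card = n →
  (p + 2) ^ 2 < 12 * n → Fan (HF α β c c') →
  ∀ (ψ : ℤ × ℤ → ℂ) (m : ℤ × ℤ → ZMod 6 → ℝ), (∀ p i, 0 ≤ m p i) →
  (∀ p ∈ HF α β c c', ∀ i, p + ev i ∈ HF α β c c' → p + ev (i + 1) ∈ HF α β c c' →
    ‖ψ (p + ev (i + 1)) - ψ p - om * (ψ (p + ev i) - ψ p)‖ ≤ m p i ∧
      2 ≤ ‖ψ (p + ev i) - ψ p‖ ∧ ‖ψ (p + ev i) - ψ p‖ ≤ 2 + m p i) →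
  ∃ z u : ℂ, ‖u‖ = 1 ∧ ∀ q ∈ HF α β c c',
    dist (ψ q) (z + u * pt q) ≤ 75 * ∑ p ∈ HF α β c c', ∑ i, m p i

def SUM_st : Prop := ∀ X t R g δ, Cx X t R g δ → ∀ (S : Finset (ℤ × ℤ)) (ψ : ℤ × ℤ → ℂ),
  Set.InjOn ψ S →
  (∀ q ∈ S, ∀ i, q + ev i ∈ S → q + ev (i + 1) ∈ S → g (ψ q) (ψ (q + ev i)) (ψ (q + ev (i + 1)))) →
  ∑ q ∈ S, ∑ i, (if q ∈ S ∧ q + ev i ∈ S ∧ q + ev (i + 1) ∈ S then
    δ (ψ q) (ψ (q + ev i)) (ψ (q + ev (i + 1))) else 0) ≤ 3 * Del X g δ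

def NB_st : Prop := ∀ p q : ℤ × ℤ, dist (pt p) (pt q) = 2 → ∃ i, q = p + ev i

def RED_st : Prop := ∀ X : Finset ℂ, 3 ≤ X.card → Sep X → ∀ K : Set ℂ, Convex ℝ K →
  (∀ x ∈ X, closedBall x 1 ⊆ K) → ∀ ε : ℝ, 0 ≤ ε → ε < nu →
  volume K ≤ ENNReal.ofReal (2 * √3 * ((X.card : ℝ) - 1) + nu * pz X.card + π + ε) →
  ∃ t, Cx X t (e0 t) (good t) dl ∧ Conn X (e0 t) ∧ Exa X (e0 t) (good t) ∧
    chi6 X (e0 t) (good t) = 6 ∧ (T3 X (good t)).Nonempty ∧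
    (∀ w ∈ X, dg X (good t) w + 3 * kb X (e0 t) (good t) w ≤ 6) ∧
    (D2 X (bd (e0 t) (good t))).card = pz X.card ∧ 2 * nu * Del X (good t) dl ≤ ε

/-- a convex set of almost the area of the parallel body stays close to it -/
def HK_st : Prop := ∀ (P K : Set ℂ) (v ε : ℝ), IsCompact P → P.Nonempty → Convex ℝ P →
  Convex ℝ K → Rd P ⊆ K → 0 ≤ v → 0 ≤ ε → ε < 1 / 2 → ENNReal.ofReal v ≤ volume (Rd P) →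
  volume K ≤ ENNReal.ofReal (v + ε) → ∀ y ∈ K, ∃ q ∈ P, dist y q ≤ 1 + (2 * ε) ^ (2 / 3 : ℝ)

/-- from the centres to the regions -/
def HD_st : Prop := ∀ (α β c c' : ℕ), c ≤ α → c ≤ β → c' ≤ α → c' ≤ β →
  ∀ (X : Finset ℂ) (K : Set ℂ) (ψ : ℤ × ℤ → ℂ) (z u : ℂ) (η ρ : ℝ), ‖u‖ = 1 → 0 ≤ η → 0 ≤ ρ →
  Convex ℝ K → (∀ x ∈ X, closedBall x 1 ⊆ K) → Set.BijOn ψ (HF α β c c') X →
  (∀ q ∈ HF α β c c', dist (ψ q) (z + u * pt q) ≤ η) →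
  (∀ y ∈ K, ∃ q ∈ convexHull ℝ (X : Set ℂ), dist y q ≤ 1 + ρ) →
  (∀ y ∈ K, ∃ w ∈ Rd (Hx α β c c'), dist y (z + u * w) ≤ η + ρ) ∧
    ∀ w ∈ Rd (Hx α β c c'), ∃ y ∈ K, dist y (z + u * w) ≤ η

/-- the theorem in the complex plane -/
def STB_st : Prop := ∀ X : Finset ℂ, 3 ≤ X.card → Sep X → ∀ K : Set ℂ, Convex ℝ K →
  (∀ x ∈ X, closedBall x 1 ⊆ K) → ∀ ε : ℝ, 0 ≤ ε → ε < nu →
  volume K ≤ ENNReal.ofReal (2 * √3 * ((X.card : ℝ) - 1) + nu * pz X.card + π + ε) →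
  ∃ α β c c', Data X.card (pz X.card) α β c c' ∧ ∃ (ψ : ℤ × ℤ → ℂ) (z u : ℂ), ‖u‖ = 1 ∧
    Set.BijOn ψ (HF α β c c') X ∧
    (∀ p ∈ HF α β c c', ∀ q ∈ HF α β c c', dist (pt p) (pt q) = 2 →
      dist (ψ p) (ψ q) ≤ 2 + 4 * ε) ∧
    (∀ q ∈ HF α β c c', dist (ψ q) (z + u * pt q) ≤ 1000 * ε) ∧
    (∀ y ∈ K, ∃ w ∈ Rd (Hx α β c c'),
      dist y (z + u * w) ≤ 1000 * ε + (2 * ε) ^ (2 / 3 : ℝ)) ∧
    ∀ w ∈ Rd (Hx α β c c'), ∃ y ∈ K, dist y (z + u * w) ≤ 1000 * ε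

end MP7b.Sb
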