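import Pool.Agent.MP_7b7a6d_co.Sb.St

/-! Parametric form of the stability theorem: definitions and the statements of the parts. -/

open scoped Classical
open MeasureTheory Metric Real

noncomputable section
namespace MP7b.Sb

/-- outer parallel body at distance `ρ` -/
def Rdr (ρ : ℝ) (H : Set ℂ) : Set ℂ := {x | ∃ z ∈ H, dist x z ≤ ρ}

/-- charge of an edge -/
def psi (a b : ℂ) : ℝ := min ((dist a b ^ 2 - 4) / 16) (1 / 2)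

def kk (t : ℝ) : ℝ := min (max (t - 8) 0) 4

def sgr (P : Prop) : ℝ := if P then 1 else -1

/-- the defect of a triangle with sides `p, q` at the angle with sine `s` and cosine `c` -/
def dR (p q l s c : ℝ) : ℝ := p * q * s / 2 - √3 +
  nu / 2 * (sgr (q < p * c) * kk (p ^ 2) + sgr (c < 0) * kk (l ^ 2) + sgr (p < q * c) * kk (q ^ 2))

/-- sides at least 2, circumradius at most 2 -/
def HH (p q l s c : ℝ) : Prop := 2 ≤ p ∧ 2 ≤ q ∧ 2 ≤ l ∧ p ≤ 4 ∧ q ≤ 4 ∧ s ^ 2 + c ^ 2 = 1 ∧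
  0 < s ∧ l ^ 2 = p ^ 2 + q ^ 2 - 2 * p * q * c ∧ l ≤ 4 * s

/-- total charge of the boundary darts of the complex induced on `V` -/
def Psi (V : Finset ℂ) (R : ℂ → ℂ → Prop) (g : ℂ → ℂ → ℂ → Prop) (ψ : ℂ → ℂ → ℝ) : ℝ :=
  ∑ q ∈ D2 V (bd R (pV V g)), ψ q.1 q.2

/-- darts of the complex induced on `V` without a triangle on either side -/
def wd (V : Finset ℂ) (R : ℂ → ℂ → Prop) (g : ℂ → ℂ → ℂ → Prop) : ℕ :=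
  (D2 V fun a b => bd R (pV V g) a b ∧ bd R (pV V g) b a).card

/-- the refined local inequalities -/
def Ab (R : ℂ → ℂ → Prop) (g : ℂ → ℂ → ℂ → Prop) (δ : ℂ → ℂ → ℂ → ℝ) (ψ : ℂ → ℂ → ℝ) : Prop :=
  (∀ a b c, g a b c → ang a b c - 1 ≤ δ a b c / 2 + ψ b c ∧ 1 - ang a b c ≤ δ a b c / 2 - ψ b c) ∧
    ∀ a b, R a b → 0 ≤ ψ a b ∧ ψ a b ≤ 1 / 2 ∧ ψ b a = ψ a b

def Wr (n : ℕ) (ρ : ℝ) : ℝ := 2 * √3 * ((n : ℝ) - 1) + (2 * ρ - √3) * ps n + π * ρ ^ 2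

def Gap (n : ℕ) (ρ ε : ℝ) : Prop := 0 ≤ ε ∧ ε < 2 * ρ - √3 ∧ ε < 2 - √3 ∧
  ε < 8 - 3 * √3 - 2 * ρ ∧ (ps n ≠ pz n → ε < 4 - √3 - 2 * ρ)

theorem nu_bd : 0.2679 < nu ∧ nu < 0.268 := by
  unfold nu
  constructor <;> linarith [sqrt3_bounds.1, sqrt3_bounds.2]

theorem kk_bd (t : ℝ) : 0 ≤ kk t ∧ kk t ≤ 4 :=
  ⟨le_min (le_max_right _ _) (by norm_num), min_le_right _ _⟩

theorem kk_le {t : ℝ} (h : 8 ≤ t) : kk t ≤ t - 8 :=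
  (min_le_left _ _).trans (max_le le_rfl (by linarith))

theorem kk_zero {t : ℝ} (h : t ≤ 8) : kk t = 0 := by
  unfold kk
  rw [max_eq_right (by linarith), min_eq_left (by norm_num)]

theorem kk_mono {t u : ℝ} (h : t ≤ u) : kk t ≤ kk u :=
  min_le_min (max_le_max (by linarith) le_rfl) le_rfl

theorem kk_cases (t : ℝ) : (t ≤ 8 ∧ kk t = 0) ∨ (8 ≤ t ∧ t ≤ 12 ∧ kk t = t - 8) ∨
    (12 ≤ t ∧ kk t = 4) := by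
  rcases le_total t 8 with h | h
  · exact Or.inl ⟨h, kk_zero h⟩
  unfold kk
  rw [max_eq_left (by linarith)]
  rcases le_total t 12 with h' | h'
  · exact Or.inr (Or.inl ⟨h, h', min_eq_left (by linarith)⟩)
  · exact Or.inr (Or.inr ⟨h', min_eq_right (by linarith)⟩)

theorem cap_kk (a b : ℂ) : cap a b = nu / 2 * kk (dist a b ^ 2) := rfl

theorem HH_symm {p q l s c : ℝ} (h : HH p q l s c) : HH q p l s c := by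
  obtain ⟨h1, h2, h3, h4, h5, h6, h7, h8, h9⟩ := h
  exact ⟨h2, h1, h3, h5, h4, h6, h7, by linarith, h9⟩

theorem dR_symm (p q l s c : ℝ) : dR q p l s c = dR p q l s c := by
  unfold dR
  ring

theorem ball_hullr {X : Finset ℂ} {K : Set ℂ} {ρ : ℝ} (hK : Convex ℝ K)
    (hb : ∀ x ∈ X, closedBall x ρ ⊆ K) {p : ℂ} (hp : p ∈ convexHull ℝ (X : Set ℂ)) :
    closedBall p ρ ⊆ K := by
  intro y hy
  have h1 : convexHull ℝ (X : Set ℂ) ⊆ (fun x => (y - p) + x) ⁻¹' K := by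
    refine convexHull_min (fun x hx => hb x hx ?_) (hK.translate_preimage_right _)
    rw [mem_closedBall, dist_eq_norm] at *
    simpa using hy
  simpa using h1 hp

/-! ### Angles -/

def AG1_st : Prop := ∀ x : ℝ, (1 ≤ x → x ≤ 3 / 2 →
    4 * nu * (x - 1) ≤ 2 * sin (π / 3 * x) - √3 + nu * (1 - 2 * cos (π / 3 * x)) ∧
    1 - x ≤ cos (π / 3 * x) - 1 / 2 ∧ cos (π / 3 * x) ≤ 3 - 2 * x ∧
    0 ≤ cos (π / 3 * x) ∧ cos (π / 3 * x) ≤ 1 / 2) ∧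
  (3 / 2 ≤ x → x < 3 → -(1 / 2) ≤ cos (π / 3 * x) →
    x ≤ 2 ∧ x - 1 ≤ 1 / 2 - cos (π / 3 * x))

def AG2_st : Prop := ∀ x : ℝ, 3 / 4 ≤ x → x ≤ 1 →
  4 * nu * (1 - x) ≤ 4 * sin (π / 3 * x) * cos (π / 3 * x) - √3 ∧
    1 / 2 ≤ cos (π / 3 * x) ∧ cos (π / 3 * x) ≤ sin (π / 3 * x)

def AG3_st : Prop := ∀ x : ℝ, 1 / 2 ≤ x → x ≤ 3 / 4 →
  4 * nu * (1 - x) ≤ 4 * sin (π / 3 * x) * cos (π / 3 * x) +
    4 * nu * (2 * cos (π / 3 * x) ^ 2 - 1) - √3 ∧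
  (4 * nu * (1 - x) - nu) * sin (π / 3 * x) ≤ 0.512 * (cos (π / 3 * x) - sin (π / 3 * x)) ∧
  4 * nu * (1 - x) ≤ 2 * nu - 1.18 * (sin (π / 3 * x) - 1 / 2) ∧
  sin (π / 3 * x) ≤ cos (π / 3 * x)

/-! ### Algebra of one triangle -/

def AL1_st : Prop := ∀ p q l s c : ℝ, HH p q l s c → p ^ 2 ≤ 8 → q ^ 2 ≤ 8 → l ^ 2 ≤ 8 →
  nu / 4 * (l ^ 2 - 4) ≤ p * q * s / 2 - √3

def AL2_st : Prop := ∀ p q l s c : ℝ, HH p q l s c → 0 ≤ c → c ≤ 1 / 2 → 8 ≤ l ^ 2 →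
  nu / 4 * min (l ^ 2 - 4) 8 + 4 * nu * (c - 1 / 2) ≤
    p * q * s / 2 - √3 - nu / 2 * (kk (l ^ 2) + kk (p ^ 2) + kk (q ^ 2))

def AL3o_st : Prop := ∀ p q l s c : ℝ, HH p q l s c → p ≤ q → 1 / 2 ≤ c → c ≤ s → p < q * c →
  4 * s * c + nu / 4 * min (l ^ 2 - 4) 8 ≤
    p * q * s / 2 - nu / 2 * (kk (l ^ 2) + kk (p ^ 2)) + nu / 2 * kk (q ^ 2)

def AL3a_st : Prop := ∀ p q l s c : ℝ, HH p q l s c → p ≤ q → 1 / 2 ≤ c → c ≤ s → q * c ≤ p →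
  4 * s * c + nu / 4 * min (l ^ 2 - 4) 8 ≤
    p * q * s / 2 - nu / 2 * (kk (l ^ 2) + kk (p ^ 2) + kk (q ^ 2))

def AL4o_st : Prop := ∀ p q l s c : ℝ, HH p q l s c → p ≤ q → s ≤ c → p < q * c →
  4 * s * c + 4 * nu * (2 * c ^ 2 - 1) + nu / 4 * (l ^ 2 - 4) ≤
    p * q * s / 2 - nu / 2 * kk (p ^ 2) + nu / 2 * kk (q ^ 2)

def AL4a_st : Prop := ∀ p q l s c : ℝ, HH p q l s c → p ≤ q → s ≤ c → q * c ≤ p → p ^ 2 ≤ 8 →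
  s * (2 + nu / 4 * (l ^ 2 - 4) + nu / 2 * kk (q ^ 2)) + 0.512 * (c - s) ≤ p * q * s ^ 2 / 2

def AL4b_st : Prop := ∀ p q l s c : ℝ, HH p q l s c → p ≤ q → s ≤ c → q * c ≤ p → 8 ≤ p ^ 2 →
  √3 + 2 * nu - 1.18 * (s - 1 / 2) + nu / 4 * (l ^ 2 - 4) + nu / 2 * (kk (p ^ 2) + kk (q ^ 2)) ≤
    p * q * s / 2

/-- acute angles -/
def TR_st : Prop := ∀ p q l x : ℝ, HH p q l (sin (π / 3 * x)) (cos (π / 3 * x)) → 1 / 2 ≤ x →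
  x ≤ 1 → 4 * nu * (1 - x) + nu / 4 * min (l ^ 2 - 4) 8 ≤
    dR p q l (sin (π / 3 * x)) (cos (π / 3 * x))

/-- from points to numbers -/
def BR_st : Prop := ∀ a b c : ℂ, 0 < D a b c → 2 ≤ dist a b → 2 ≤ dist b c → 2 ≤ dist c a →
  dist a b * dist b c * dist c a ≤ 4 * D a b c →
  HH (dist a b) (dist c a) (dist b c) (sin (π / 3 * ang a b c)) (cos (π / 3 * ang a b c)) ∧
    2 * nu * dl a b c =
      dR (dist a b) (dist c a) (dist b c) (sin (π / 3 * ang a b c)) (cos (π / 3 * ang a b c)) ∧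
    1 / 2 ≤ ang a b c ∧ ang a b c < 3 ∧ 4 * nu * psi b c = nu / 4 * min (dist b c ^ 2 - 4) 8

def T1_st : Prop := ∀ a b c : ℂ, 0 < D a b c → 2 ≤ dist a b → 2 ≤ dist b c → 2 ≤ dist c a →
  dist a b * dist b c * dist c a ≤ 4 * D a b c → ang a b c - 1 ≤ dl a b c / 2 + psi b c

def T2_st : Prop := ∀ a b c : ℂ, 0 < D a b c → 2 ≤ dist a b → 2 ≤ dist b c → 2 ≤ dist c a →
  dist a b * dist b c * dist c a ≤ 4 * D a b c → 1 - ang a b c ≤ dl a b c / 2 - psi b c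

/-! ### The refined peeling -/

def PEa3_st : Prop := ∀ X t R g δ, Cx X t R g δ → Exa X (E t) t → ∀ V : Finset ℂ, V ⊆ X →
  Solid t (rV V R) (pV V g) → (T3 V g).Nonempty →
  6 * ((V.card : ℤ) - (inn t V g).card) + 6 + 3 * wd V R g ≤
    6 * (((D2 V R).card : ℤ) - (T3 V g).card) + chi6 V R g

def PEc_st : Prop := ∀ X t R g δ, Cx X t R g δ → ∀ V : Finset ℂ, V ⊆ X →
  (∀ a b, bd R (pV V g) b a → a ∉ inn t V g ∧ b ∉ inn t V g) ∧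
  ((D2 V R).card : ℝ) = (T3 V g).card + wd V R g +
    ∑ q ∈ T3 V g, (if bd R (pV V g) q.2.1 q.1 then (1 : ℝ) else 0) ∧
  ∀ ψ : ℂ → ℂ → ℝ, (∀ a b, R a b → 0 ≤ ψ a b ∧ ψ a b ≤ 1 / 2 ∧ ψ b a = ψ a b) →
    ∑ q ∈ T3 V g, (if bd R (pV V g) q.2.1 q.1 then ψ q.1 q.2.1 else 0) ≤ Psi V R g ψ ∧
    Psi (inn t V g) R g ψ ≤ ∑ q ∈ T3 V g,
      (if q.1 ∈ inn t V g ∧ q.2.1 ∈ inn t V g ∧ q.2.2 ∉ inn t V g then ψ q.1 q.2.1 else 0)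

def PEb3_st : Prop := ∀ X t R g δ ψ, Cx X t R g δ → Ab R g δ ψ → ∀ V : Finset ℂ, V ⊆ X →
  12 * ((inn t V g).card : ℝ) + (D2 V R).card ≤ (D2 (inn t V g) R).card + 2 * (T3 V g).card +
    wd V R g + (Del V g δ - Del (inn t V g) g δ) + 2 * (Psi V R g ψ - Psi (inn t V g) R g ψ)

def PEEL3_st : Prop := ∀ X t R g δ ψ, Cx X t R g δ → Ab R g δ ψ → X.Nonempty → Exa X (E t) t →
  Solid t R g → ∀ S : ℤ,
    2 * (X.card : ℝ) - ((T3 X g).card : ℝ) / 3 + Del X g δ / 2 + Psi X R g ψ < S →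
    12 * (X.card : ℤ) - 3 ≤ S ^ 2

/-! ### Rigidity up to total defect one -/

def RB3b_st : Prop := ∀ X t R g δ, Cx X t R g δ → Del X g δ < 1 →
  (∀ a b, R a b → (∃ c, g a b c) ∨ ∃ c, g b a c) →
  (∀ C : ℂ → ℂ → ℂ → Prop, (∀ a b c, C a b c → g a b c ∧ C b c a) →
    (∀ a b c d, C a b c → g b a d → C b a d) → (∃ a b c, C a b c) → ∀ a b c, g a b c → C a b c) →
  ∃ G : ℂ → ℂ → ZMod 6, (∀ a b c, g a b c → G b c = G a b + 2) ∧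
    ∀ a b, R a b → G b a = G a b + 3

def RIGb_st : Prop := ∀ X t R g δ, Cx X t R g δ → Conn X R → Exa X R g → chi6 X R g = 6 →
  (T3 X g).Nonempty → Del X g δ < 1 → (∀ w ∈ X, dg X g w + 3 * kb X R g w ≤ 6) →
  Groemer X.card (D2 X (bd R g)).card

/-! ### Areas -/

def SLKr_st : Prop := ∀ (a b c : ℂ) (ρ : ℝ), 0 ≤ ρ → ρ ≤ 1.41 → 0 < D c a b → Ip c a b < 0 →
  2 ≤ dist c a → 2 ≤ dist b c → ¬ dist c a * dist a b * dist b c ≤ 4 * D c a b →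
  ρ * (dist b c + dist c a - dist a b) + 2 * nu * (3 - ang c a b) ≤ D c a b / 2

def ACbr_st : Prop := ∀ X t, Tri X t → Sep X → Sat X → ∀ ρ : ℝ, 0 ≤ ρ → ρ ≤ 1.41 →
  (∑ q ∈ T3 X (good t), D q.1 q.2.1 q.2.2) / 6 +
    ρ * ∑ q ∈ D2 X (bd (e0 t) (good t)), dist q.1 q.2 + 2 * nu * SL X t ≤
  (∑ q ∈ T3 X t, D q.1 q.2.1 q.2.2) / 6 + ρ * ∑ q ∈ D2 X (bd (E t) t), dist q.1 q.2

def ACgr_st : Prop := ∀ X t, Tri X t → Sep X → (∀ a b c, good t a b c → e0 t a b) →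
  ∀ ρ : ℝ, √3 / 2 ≤ ρ →
  √3 * ((T3 X (good t)).card : ℝ) / 3 + 2 * ρ * ((D2 X (bd (e0 t) (good t))).card : ℝ) +
    2 * nu * Del X (good t) dl + 4 * nu * Psi X (e0 t) (good t) psi ≤
  (∑ q ∈ T3 X (good t), D q.1 q.2.1 q.2.2) / 6 +
    ρ * ∑ q ∈ D2 X (bd (e0 t) (good t)), dist q.1 q.2

def GSTr_st : Prop := ∀ (X : Finset ℂ) (H : Finset (ℂ × ℂ)) (K : Set ℂ) (ρ : ℝ), 0 < ρ →
  X.Nonempty → Convex ℝ K → (∀ x ∈ X, closedBall x ρ ⊆ K) →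
  (∀ q ∈ H, q.1 ∈ X ∧ q.2 ∈ X ∧ q.1 ≠ q.2 ∧ (∀ x ∈ X, D q.1 q.2 x ≤ 0) ∧
    ∀ x ∈ X, ∀ s : ℝ, 0 < s → s < 1 → x ≠ q.1 + s * (q.2 - q.1)) →
  volume (convexHull ℝ (X : Set ℂ)) +
    ENNReal.ofReal (ρ * ∑ q ∈ H, dist q.1 q.2 + π * ρ ^ 2) ≤ volume K

def LINr_st : Prop := ∀ X : Finset ℂ, X.Nonempty → Sep X → ¬ NonCol X → ∀ (K : Set ℂ) (ρ : ℝ),
  0 < ρ → Convex ℝ K → (∀ x ∈ X, closedBall x ρ ⊆ K) →
  ENNReal.ofReal (4 * ρ * ((X.card : ℝ) - 1) + π * ρ ^ 2) ≤ volume K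

def COREr_st : Prop := ∀ X : Finset ℂ, Sep X → Sat X → NonCol X → ∀ ρ : ℝ, √3 / 2 ≤ ρ →
  ρ ≤ 1.41 → ∃ (t : ℂ → ℂ → ℂ → Prop) (b : ℕ) (σ Ψ : ℝ), Cx X t (e0 t) (good t) dl ∧
    Conn X (e0 t) ∧ Exa X (e0 t) (good t) ∧ chi6 X (e0 t) (good t) = 6 ∧
    (D2 X (bd (e0 t) (good t))).card = b ∧ 3 * b + (T3 X (good t)).card + 6 = 6 * X.card ∧
    0 ≤ σ ∧ 0 ≤ Ψ ∧
    (Del X (good t) dl + σ < 1 → ∀ w ∈ X, dg X (good t) w + 3 * kb X (e0 t) (good t) w ≤ 6) ∧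
    (∀ K : Set ℂ, Convex ℝ K → (∀ x ∈ X, closedBall x ρ ⊆ K) →
      ENNReal.ofReal (2 * √3 * ((X.card : ℝ) - 1) + (2 * ρ - √3) * b +
        2 * nu * (Del X (good t) dl + σ) + 4 * nu * Ψ + π * ρ ^ 2) ≤ volume K) ∧
    ∀ S : ℤ, (b : ℝ) + 2 + (Del X (good t) dl / 2 + Ψ) < S → 12 * (X.card : ℤ) - 3 ≤ S ^ 2

def REDr_st : Prop := ∀ X : Finset ℂ, 3 ≤ X.card → Sep X → ∀ (K : Set ℂ) (ρ ε : ℝ), Convex ℝ K →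
  (∀ x ∈ X, closedBall x ρ ⊆ K) → Gap X.card ρ ε →
  volume K ≤ ENNReal.ofReal (Wr X.card ρ + ε) →
  ∃ t, Cx X t (e0 t) (good t) dl ∧ Conn X (e0 t) ∧ Exa X (e0 t) (good t) ∧
    chi6 X (e0 t) (good t) = 6 ∧ (T3 X (good t)).Nonempty ∧
    (∀ w ∈ X, dg X (good t) w + 3 * kb X (e0 t) (good t) w ≤ 6) ∧
    (D2 X (bd (e0 t) (good t))).card = ps X.card ∧ ps X.card + 3 ≤ 2 * X.card ∧
    2 * nu * Del X (good t) dl ≤ ε ∧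
    ∀ K' : Set ℂ, Convex ℝ K' → (∀ x ∈ X, closedBall x ρ ⊆ K') →
      ENNReal.ofReal (Wr X.card ρ) ≤ volume K'

def METb_st : Prop := ∀ (n p α β c c' : ℕ), Data n p α β c c' → (HF α β c c').card = n →
  (p + 1) ^ 2 < 12 * n → Fan (HF α β c c') →
  ∀ (ψ : ℤ × ℤ → ℂ) (m : ℤ × ℤ → ZMod 6 → ℝ), (∀ p i, 0 ≤ m p i) →
  (∀ p ∈ HF α β c c', ∀ i, p + ev i ∈ HF α β c c' → p + ev (i + 1) ∈ HF α β c c' →
    ‖ψ (p + ev (i + 1)) - ψ p - om * (ψ (p + ev i) - ψ p)‖ ≤ m p i ∧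
      2 ≤ ‖ψ (p + ev i) - ψ p‖ ∧ ‖ψ (p + ev i) - ψ p‖ ≤ 2 + m p i) →
  ∃ z u : ℂ, ‖u‖ = 1 ∧ ∀ q ∈ HF α β c c',
    dist (ψ q) (z + u * pt q) ≤ 75 * ∑ p ∈ HF α β c c', ∑ i, m p i

def HKr_st : Prop := ∀ (P K : Set ℂ) (r v ε : ℝ), 0 < r → IsCompact P → P.Nonempty → Convex ℝ P →
  Convex ℝ K → Rdr r P ⊆ K → 0 ≤ v → 0 ≤ ε → ε < r ^ 2 / 2 →
  ENNReal.ofReal v ≤ volume (Rdr r P) → volume K ≤ ENNReal.ofReal (v + ε) →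
  ∀ y ∈ K, ∃ q ∈ P, dist y q ≤ r + r * (2 * ε / r ^ 2) ^ (2 / 3 : ℝ)

def HDr_st : Prop := ∀ (α β c c' : ℕ), c ≤ α → c ≤ β → c' ≤ α → c' ≤ β →
  ∀ (X : Finset ℂ) (K : Set ℂ) (ψ : ℤ × ℤ → ℂ) (z u : ℂ) (r η ρ : ℝ), ‖u‖ = 1 → 0 < r → 0 ≤ η →
  0 ≤ ρ → Convex ℝ K → (∀ x ∈ X, closedBall x r ⊆ K) → Set.BijOn ψ (HF α β c c') X →
  (∀ q ∈ HF α β c c', dist (ψ q) (z + u * pt q) ≤ η) →
  (∀ y ∈ K, ∃ q ∈ convexHull ℝ (X : Set ℂ), dist y q ≤ r + ρ) →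
  (∀ y ∈ K, ∃ w ∈ Rdr r (Hx α β c c'), dist y (z + u * w) ≤ η + ρ) ∧
    ∀ w ∈ Rdr r (Hx α β c c'), ∃ y ∈ K, dist y (z + u * w) ≤ η

/-- the theorem in the complex plane -/
def STBr_st : Prop := ∀ X : Finset ℂ, 3 ≤ X.card → Sep X → ∀ (K : Set ℂ) (ρ ε : ℝ), Convex ℝ K →
  (∀ x ∈ X, closedBall x ρ ⊆ K) → Gap X.card ρ ε →
  volume K ≤ ENNReal.ofReal (Wr X.card ρ + ε) →
  ∃ α β c c', Data X.card (ps X.card) α β c c' ∧ ∃ (ψ : ℤ × ℤ → ℂ) (z u : ℂ), ‖u‖ = 1 ∧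
    Set.BijOn ψ (HF α β c c') X ∧
    (∀ p ∈ HF α β c c', ∀ q ∈ HF α β c c', dist (pt p) (pt q) = 2 →
      dist (ψ p) (ψ q) ≤ 2 + 4 * ε) ∧
    (∀ q ∈ HF α β c c', dist (ψ q) (z + u * pt q) ≤ 1000 * ε) ∧
    (∀ y ∈ K, ∃ w ∈ Rdr ρ (Hx α β c c'),
      dist y (z + u * w) ≤ 1000 * ε + ρ * (2 * ε / ρ ^ 2) ^ (2 / 3 : ℝ)) ∧
    ∀ w ∈ Rdr ρ (Hx α β c c'), ∃ y ∈ K, dist y (z + u * w) ≤ 1000 * ε

end MP7b.Sb
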