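import Pool.Agent.MP_7b7a6d_co.Sb.St

/-! Assembly of the stability theorem in the complex plane. -/

open scoped Classical
open MeasureTheory Metric Real

noncomputable section
namespace MP7b.Sb

theorem single_Stb {X t R g δ} (cx : Cx X t R g δ) {a b d : ℂ} (h : g a b d) :
    0 ≤ δ a b d ∧ δ a b d ≤ Del X g δ := by
  refine ⟨(abs_nonneg _).trans (cx.dev h), le_trans ?_ ((cnt X t R g δ cx).2.2.2 a)⟩
  exact Finset.single_le_sum (f := fun q : ℂ × ℂ => δ a q.1 q.2)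
    (fun q hq => (abs_nonneg _).trans (cx.dev ((memD_Rb5 cx a q).1 hq)))
    ((memD_Rb5 cx a (b, d)).2 h)

theorem nondeg_Stb {n p α β c c' : ℕ} (h : Data n p α β c c') (hp : p + 3 ≤ 2 * n) :
    1 ≤ α ∧ 1 ≤ β ∧ c + c' + 1 ≤ α + β := by
  obtain ⟨h1, h2, h3, h4, h5, h6⟩ := h
  refine ⟨?_, ?_, ?_⟩
  · by_contra e
    obtain rfl : α = 0 := by omega
    obtain rfl : c = 0 := by omega
    obtain rfl : c' = 0 := by omega
    omega
  · by_contra e
    obtain rfl : β = 0 := by omega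
    obtain rfl : c = 0 := by omega
    obtain rfl : c' = 0 := by omega
    omega
  · by_contra e
    obtain rfl : β = α := by omega
    obtain rfl : c = β := by omega
    obtain rfl : c' = c := by omega
    nlinarith

theorem stb (hR : RED_st) (h1 : DEV1_st) (h2 : DEV2_st) (hL : LOC_st) (hF : FAN_st) (hM : MET_st)
    (hS : SUM_st) (hN : NB_st) (hK : HK_st) (hD : HD_st) : STB_st := by
  intro X h3 hsep K hKc hb ε e0' e1' hv
  obtain ⟨t, cx, hconn, hexa, hchi, hne, hdeg, hbp, hΔ⟩ := hR X h3 hsep K hKc hb ε e0' e1' hv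
  have hnu := nu_pos
  have hs3 := sqrt3_bounds
  have hnu1 : 0.2679 < nu := by unfold nu; linarith [hs3.2]
  have hnu2 : nu < 0.268 := by unfold nu; linarith [hs3.1]
  have hΔ0 := Del_nonneg cx X
  have hΔ1 : Del X (good t) dl < 1 / 2 := by nlinarith
  have hΔ2 : Del X (good t) dl ≤ 1.87 * ε := by nlinarith
  obtain ⟨α, β, c, c', G, y, hd, hdev⟩ := h1 X t _ _ _ cx hconn hexa hchi hne hΔ1 hdeg
  rw [hbp] at hd
  obtain ⟨ψ, hbij, htri⟩ := h2 X t _ _ _ cx α β c c' G y _ hd hdev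
  have hcard : (HF α β c c').card = X.card :=
    Finset.card_nbij ψ hbij.mapsTo hbij.injOn hbij.surjOn
  have hp := pz_spec (n := X.card) (by omega)
  have hp2 : pz X.card + 3 ≤ 2 * X.card := by
    obtain ⟨k, hk⟩ : ∃ k, X.card = k + 3 := ⟨X.card - 3, by omega⟩
    have : pz X.card ≤ 2 * k + 3 := pz_le (by omega) (by rw [hk]; nlinarith)
    omega
  obtain ⟨n1, n2, n3⟩ := nondeg_Stb hd hp2
  have hfan := hF α β c c' hd.1 hd.2.1 hd.2.2.1 hd.2.2.2.1 n1 n2 n3
  set S := HF α β c c' with hSdef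
  have loc : ∀ {a b d : ℂ}, good t a b d → ‖d - a - om * (b - a)‖ ≤ 7 / 3 * dl a b d ∧
      dist a b ≤ 2 + 2 * dl a b d ∧ dist d a ≤ 2 + 2 * dl a b d := fun {a b d} e =>
    hL a b d (cx.tri.pos e.1) (t_sep cx.tri hsep e.1) (t_sep cx.tri hsep (cx.tri.rot e.1))
      (t_sep cx.tri hsep (cx.tri.rot (cx.tri.rot e.1))) e.2 ((single_Stb cx e).2.trans_lt hΔ1)
  obtain ⟨m, hm⟩ : ∃ m : ℤ × ℤ → ZMod 6 → ℝ, ∀ q i, m q i = 7 / 3 *
      (if q ∈ S ∧ q + ev i ∈ S ∧ q + ev (i + 1) ∈ S then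
        dl (ψ q) (ψ (q + ev i)) (ψ (q + ev (i + 1))) else 0) := ⟨_, fun _ _ => rfl⟩
  have hm0 : ∀ q i, 0 ≤ m q i := fun q i => by
    rw [hm]
    split_ifs with h
    · have := (single_Stb cx (htri q h.1 i h.2.1 h.2.2)).1
      positivity
    · simp
  have hT : ∑ q ∈ S, ∑ i, m q i ≤ 7 * Del X (good t) dl := by
    have := hS X t _ _ _ cx S ψ hbij.injOn htri
    simp only [hm, ← Finset.mul_sum]
    linarith
  obtain ⟨z, u, hu, hz⟩ := hM X.card (pz X.card) α β c c' hd hcard (by omega) hfan ψ m hm0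
    fun q hq i k1 k2 => by
      have e := htri q hq i k1 k2
      have l := loc e
      have s := t_sep cx.tri hsep e.1
      have s0 := (single_Stb cx e).1
      rw [hm, if_pos ⟨hq, k1, k2⟩, ← dist_eq_norm (ψ (q + ev i)), dist_comm]
      exact ⟨l.1, s, by linarith [l.2.1]⟩
  have hz' : ∀ q ∈ S, dist (ψ q) (z + u * pt q) ≤ 1000 * ε := fun q hq =>
    (hz q hq).trans (by linarith)
  have hXne : X.Nonempty := Finset.card_pos.1 (by omega)
  have hsub : Rd (convexHull ℝ (X : Set ℂ)) ⊆ K := fun x ⟨w, hw, h⟩ => ball_hull hKc hb hw h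
  have hn1 : (0 : ℝ) ≤ (X.card : ℝ) - 1 := by
    have : (3 : ℝ) ≤ X.card := by exact_mod_cast h3
    linarith
  have hlow : ENNReal.ofReal (2 * √3 * ((X.card : ℝ) - 1) + nu * pz X.card + π) ≤
      volume (Rd (convexHull ℝ (X : Set ℂ))) := by
    refine le_trans (ENNReal.ofReal_le_ofReal ?_) (main_all X hXne hsep _
      (rd_Uba (convex_convexHull ℝ _)) fun x hx => ball_Rd (subset_convexHull ℝ _ hx)).1
    have k1 : pz X.card ≤ ps X.card := by unfold ps; split_ifs <;> omega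
    have k2 : (pz X.card : ℝ) ≤ ps X.card := by exact_mod_cast k1
    have := mul_le_mul_of_nonneg_left k2 hnu.le
    unfold val
    linarith
  have hk := hK _ K _ ε (X.finite_toSet.isCompact_convexHull ℝ)
    (hXne.to_set.mono (subset_convexHull ℝ _)) (convex_convexHull ℝ _) hKc hsub (by positivity) e0'
    (by linarith) hlow hv
  obtain ⟨d1, d2⟩ := hD α β c c' hd.1 hd.2.1 hd.2.2.1 hd.2.2.2.1 X K ψ z u (1000 * ε) _ hu
    (by positivity) (by positivity) hKc hb hbij hz' hk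
  refine ⟨α, β, c, c', hd, ψ, z, u, hu, hbij, fun p hp q hq h => ?_, hz', d1, d2⟩
  obtain ⟨i, rfl⟩ := hN p q h
  obtain ⟨j, d, k1, -, k3, k4⟩ := hfan p hp
  obtain ⟨o, k5, rfl⟩ := k4 i hq
  rcases k5.lt_or_eq with k6 | rfl
  · have k7 := k3 (o + 1) k6
    rw [Nat.cast_succ, ← add_assoc] at k7
    have e := htri p hp _ hq k7
    linarith [(loc e).2.1, (single_Stb cx e).2]
  · obtain ⟨o, rfl⟩ : ∃ o', o = o' + 1 := ⟨o - 1, by omega⟩
    rw [Nat.cast_succ, ← add_assoc] at hq ⊢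
    have e := htri p hp _ (k3 o (by omega)) hq
    rw [dist_comm]
    linarith [(loc e).2.2, (single_Stb cx e).2]

end MP7b.Sb
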