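import Pool.Agent.MP_7b7a6d_co.Sb.St

/-! The sum of the defects over the lattice triangles, and the neighbours of a lattice point. -/

open scoped Classical
open MeasureTheory Metric Real

noncomputable section
namespace MP7b.Sb

theorem sumt : SUM_st := by
  intro X t R g δ H S ψ hinj hg
  let P : (ℤ × ℤ) × ZMod 6 → Prop := fun x =>
    x.1 ∈ S ∧ x.1 + ev x.2 ∈ S ∧ x.1 + ev (x.2 + 1) ∈ S
  let φ : (ℤ × ℤ) × ZMod 6 → ℂ × ℂ × ℂ := fun x =>
    (ψ x.1, ψ (x.1 + ev x.2), ψ (x.1 + ev (x.2 + 1)))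
  let f : ℂ × ℂ × ℂ → ℝ := fun q => δ q.1 q.2.1 q.2.2
  have e1 : ∑ q ∈ S, ∑ i, (if q ∈ S ∧ q + ev i ∈ S ∧ q + ev (i + 1) ∈ S then
      δ (ψ q) (ψ (q + ev i)) (ψ (q + ev (i + 1))) else 0) =
      ∑ x ∈ (S ×ˢ (Finset.univ : Finset (ZMod 6))).filter P, f (φ x) := by
    rw [Finset.sum_filter, Finset.sum_product]
  have e2 : 3 * Del X g δ = ∑ q ∈ T3 X g, f q := by
    unfold Del
    simp only [f]
    ring
  have hφ : Set.InjOn φ ((S ×ˢ (Finset.univ : Finset (ZMod 6))).filter P : Finset _) := by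
    intro x hx y hy e
    have px : P x := (Finset.mem_filter.1 (Finset.mem_coe.1 hx)).2
    have py : P y := (Finset.mem_filter.1 (Finset.mem_coe.1 hy)).2
    have a1 : ψ x.1 = ψ y.1 := congrArg Prod.fst e
    have a2 : ψ (x.1 + ev x.2) = ψ (y.1 + ev y.2) := congrArg (fun z => z.2.1) e
    have b1 : x.1 = y.1 := hinj px.1 py.1 a1
    have b2 : x.1 + ev x.2 = y.1 + ev y.2 := hinj px.2.1 py.2.1 a2
    rw [b1] at b2
    exact Prod.ext b1 (ev_inj _ _ (add_left_cancel b2))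
  rw [e1, e2, ← Finset.sum_image (f := f) hφ]
  refine Finset.sum_le_sum_of_subset_of_nonneg ?_ ?_
  · intro q hq
    obtain ⟨x, hx, rfl⟩ := Finset.mem_image.1 hq
    have px : P x := (Finset.mem_filter.1 hx).2
    exact (memT_Rb5 H _).2 (hg _ px.1 _ px.2.1 px.2.2)
  · intro q hq _
    exact (abs_nonneg _).trans (H.dev ((memT_Rb5 H _).1 hq))

theorem form_Sum (s u : ℤ) (h : s ^ 2 + s * u + u ^ 2 = 1) : ∃ i, (s, u) = ev i := by
  obtain ⟨h0, h1, h2, h3, h4, h5⟩ := ev_vals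
  have a1 : s ≤ 1 := by nlinarith [sq_nonneg (s + 2 * u)]
  have a2 : -1 ≤ s := by nlinarith [sq_nonneg (s + 2 * u)]
  have a3 : u ≤ 1 := by nlinarith [sq_nonneg (2 * s + u)]
  have a4 : -1 ≤ u := by nlinarith [sq_nonneg (2 * s + u)]
  interval_cases s <;> interval_cases u <;> first
    | exact ⟨0, h0.symm⟩
    | exact ⟨1, h1.symm⟩
    | exact ⟨2, h2.symm⟩
    | exact ⟨3, h3.symm⟩
    | exact ⟨4, h4.symm⟩
    | exact ⟨5, h5.symm⟩
    | (exfalso; omega)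

theorem nb : NB_st := by
  intro p q h
  have h3 : √3 * √3 = 3 := Real.mul_self_sqrt (by norm_num)
  have h2 : dist (pt p) (pt q) ^ 2 = 4 * (((q.1 : ℝ) - p.1) ^ 2 +
      ((q.1 : ℝ) - p.1) * ((q.2 : ℝ) - p.2) + ((q.2 : ℝ) - p.2) ^ 2) := by
    rw [Complex.dist_eq, Complex.sq_norm, Complex.normSq_apply]
    simp [pt, om]
    linear_combination ((q.2 : ℝ) - p.2) ^ 2 * h3
  rw [h] at h2
  have h1 : ((q.1 : ℝ) - p.1) ^ 2 + ((q.1 : ℝ) - p.1) * ((q.2 : ℝ) - p.2) +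
      ((q.2 : ℝ) - p.2) ^ 2 = 1 := by linarith
  have h0 : (q.1 - p.1) ^ 2 + (q.1 - p.1) * (q.2 - p.2) + (q.2 - p.2) ^ 2 = 1 := by
    exact_mod_cast h1
  obtain ⟨i, hi⟩ := form_Sum _ _ h0
  refine ⟨i, ?_⟩
  rw [← hi]
  ext <;> simp

end MP7b.Sb
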