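import Pool.Agent.MP_7b7a6d_co.Sb.St

open scoped Classical
open MeasureTheory Metric Real

noncomputable section
namespace MP7b.Sb

theorem sum_le_Ww (f : ZMod 6 → ℝ) (hf : ∀ i, 0 ≤ f i) (j : ZMod 6) {o : ℕ} (ho : o ≤ 6) :
    ∑ k ∈ Finset.range o, f (j + (k : ZMod 6)) ≤ ∑ i, f i := by
  rw [← Finset.sum_image (s := Finset.range o) (g := fun k : ℕ => j + (k : ZMod 6)) (f := f)
    fun a ha b hb h => by
      have h1 := congrArg ZMod.val (add_left_cancel h)
      have ha' := Finset.mem_range.1 ha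
      have hb' := Finset.mem_range.1 hb
      rwa [ZMod.val_cast_of_lt (by omega), ZMod.val_cast_of_lt (by omega)] at h1]
  exact Finset.sum_le_sum_of_subset_of_nonneg (Finset.subset_univ _) fun i _ _ => hf i

theorem ww : WW_st := by
  intro S ψ m hm hF h
  have key : ∀ p, ∃ w : ℂ, p ∈ S → 2 ≤ ‖w‖ ∧ ‖w‖ ≤ 2 + ∑ i, m p i ∧
      ∀ i, p + ev i ∈ S → ‖ψ (p + ev i) - ψ p - om ^ i.val * w‖ ≤ ∑ i, m p i := by
    intro p
    by_cases hp : p ∈ S
    swap
    · exact ⟨0, fun h => absurd h hp⟩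
    obtain ⟨j, d, d1, d5, h1, h2⟩ := hF p hp
    obtain ⟨w, hw⟩ : ∃ w, w = (ψ (p + ev j) - ψ p) * om ^ (6 - j.val) := ⟨_, rfl⟩
    have e : om ^ j.val * w = ψ (p + ev j) - ψ p := by
      rw [hw, mul_left_comm, ← pow_add, Nat.add_sub_cancel' (ZMod.val_lt j).le, om_six_Rig,
        mul_one]
    have n : ‖w‖ = ‖ψ (p + ev j) - ψ p‖ := by
      rw [hw, norm_mul, norm_pow, norm_om_Rig, one_pow, mul_one]
    obtain ⟨-, a1, a2⟩ := h p hp j (by simpa using h1 0 d.zero_le) (by simpa using h1 1 d1)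
    have ind : ∀ o : ℕ, o ≤ d → ‖ψ (p + ev (j + (o : ZMod 6))) - ψ p -
        om ^ (j + (o : ZMod 6)).val * w‖ ≤ ∑ k ∈ Finset.range o, m p (j + (k : ZMod 6)) := by
      intro o
      induction o with
      | zero => intro _; simp [e]
      | succ o ih =>
        intro ho
        have c : j + ((o + 1 : ℕ) : ZMod 6) = j + (o : ZMod 6) + 1 := by
          rw [Nat.cast_succ, add_assoc]
        have b1 := (h p hp _ (h1 o (by omega)) (c ▸ h1 (o + 1) ho)).1
        have b2 := ih (by omega)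
        rw [om_add_Rig] at b2 ⊢
        rw [Finset.sum_range_succ, c, show ψ (p + ev (j + (o : ZMod 6) + 1)) - ψ p -
            om ^ j.val * om ^ (o + 1) * w =
          om * (ψ (p + ev (j + (o : ZMod 6))) - ψ p - om ^ j.val * om ^ o * w) +
            (ψ (p + ev (j + (o : ZMod 6) + 1)) - ψ p -
              om * (ψ (p + ev (j + (o : ZMod 6))) - ψ p)) by ring]
        refine (norm_add_le _ _).trans (add_le_add ?_ b1)
        rwa [norm_mul, norm_om_Rig, one_mul]
    refine ⟨w, fun _ => ⟨n ▸ a1, ?_, fun i hi => ?_⟩⟩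
    · rw [n]
      exact a2.trans (add_le_add le_rfl
        (Finset.single_le_sum (fun i _ => hm p i) (Finset.mem_univ j)))
    · obtain ⟨o, ho, rfl⟩ := h2 i hi
      exact (ind o ho).trans (sum_le_Ww (m p) (hm p) j (by omega))
  choose W hW using key
  exact ⟨W, hW⟩

end MP7b.Sb
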